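import Mathlib
import Pool.Agent.MP_83cc0d_an.Mg.Main

attribute [-instance]
  TopologicalSpace.instSecondCountableTopologyOfLindelofSpaceOfPseudoMetrizableSpace
  Valued.toUniformSpace AddQuantale.instAddLeftMono IdemSemiring.toCanonicallyOrderedAdd
  NonUnitalNonAssocRing.toAddCommGroup LieAdmissibleAlgebra.toModule Ring.toAddCommGroup
  NonUnitalNormedRing.toNonUnitalSeminormedRing instCompleteSpaceSubtypeMemSubmoduleOfIsClosedCoe
  IdemSemiring.toMulLeftMono RightPreLieAlgebra.toModule LeftPreLieAlgebra.toModule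
  GrpTypeEquivalenceGrp.grpGroup CategoryTheory.CountableCategory.countableObj
  MonTypeEquivalenceMon.monMonoid NonUnitalNormedCommRing.toNonUnitalSeminormedCommRing
  IsTopologicalTorsor.toContinuousSMul NumberField.to_charZero continuousSub_of_discreteTopology
  AddQuantale.instAddRightMono littleWedderburn ProperSMul.toContinuousSMul
  Topology.IsScott.instClosedIicTopologyOfUnivSet CommRing.toRing Algebra.toSMul
  LieRing.toAddCommGroup LinearOrderedCommMonoidWithZero.toPosMulStrictMono RKHS.instFunLike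
  instCoeHTCTOfCoeTailOfCoeHTC Quantale.instMulLeftMono Quantale.instMulRightMono
  SeminormedRing.toNonUnitalSeminormedRing IdemSemiring.toMulRightMono NormedRing.toRing
  CStarAlgebra.instOrderClosedTopology Finite.to_countable
  NonarchimedeanAddGroup.toIsTopologicalAddGroup continuousSub_of_indiscreteTopology
  AddCommGroupWithOne.toAddGroupWithOne CompactSpace.sigmaCompact NormedAlgebra.toAlgebra
  NonUnitalRing.toNonUnitalNonAssocRing IdemSemiring.toSemiring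
  NonarchimedeanRing.toIsTopologicalRing IsOrderedCancelMonoid.toIsOrderedMonoid
  TotallySeparatedSpace.t2Space AddCommGroupWithOne.toAddCommGroup
  NonUnitalSeminormedRing.toPseudoMetricSpace LieAdmissibleRing.toNonUnitalNonAssocRing
  MulSemiringAction.toDistribMulAction ENNReal.borelSpace UpgradedStandardBorel.toTopologicalSpace
  SeminormedCommGroup.toPseudoMetricSpace instCoeHTCOfCoeHeadOfCoeOTC
  PolishSpace.toSecondCountableTopology NonUnitalNonAssocSemiring.toMulZeroClass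
  Valued.isTopologicalDivisionRing AlgHom.instNonUnitalAlgHomClassOfAlgHomClass instCoeTOfCoeDep
  CanonicallyOrderedAdd.toMulLeftMono
  ContinuousMonoidHom.instCoeOutOfMonoidHomClassOfContinuousMapClass
  MeasurableSingletonClass.toDiscreteMeasurableSpace DiscreteTopology.toAlexandrovDiscrete
  LinearOrderedCommMonoidWithZero.toIsBotZeroClass instCoeOutOfCoeFun NonUnitalNormedRing.toNorm
  NonUnitalNormedCommRing.toNonUnitalCommRing instCoeTCOfCoe MulZeroOneClass.toMulZeroClass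
  LinearOrderedCommMonoidWithZero.toIsOrderedMonoid NormedCommRing.toCommRing instSMulZeroClass
  CommMonTypeEquivalenceCommMon.commMonCommMonoid AddCommMonoidWithOne.toAddCommMonoid
  TopologicalSpace.UpgradedIsCompletelyPseudoMetrizableSpace.toPseudoMetricSpace
  NormedDivisionRing.toDivisionRing NormedField.toNorm NormedRing.toNorm
  Group.IsPerfect.subsingleton_of_isMulCommutative BooleanRing.toRing
  NonAssocCommSemiring.toNonAssocSemiring instIsModuleTopology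
  NonUnitalNonAssocCommSemiring.toNonUnitalNonAssocSemiring Submodule.IsLattice.finite

set_option linter.unusedSectionVars false

-- part D0
section

namespace Pool.Agent.MP_83cc0d_an.Cd

open MeasureTheory Complex
open scoped ENNReal InnerProductSpace ComplexConjugate

section A

variable {V : Type} [NormedAddCommGroup V]

/-- Gaussian bump of width `r`. -/
noncomputable def gq (r : ℝ) (u : V) : ℝ≥0∞ := ENNReal.ofReal (Real.exp (-(‖u‖ ^ 2 / r ^ 2)))

/-- Gaussian pair functional. -/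
noncomputable def QQ [MeasurableSpace V] (α : Measure V) (r : ℝ) : ℝ≥0∞ :=
  ∫⁻ x, ∫⁻ y, gq r (x - y) ∂α ∂α

/-- The class of measures: bounded mass, bounded support, pair bound of exponent `s`. -/
structure Cl [MeasurableSpace V] (μ : Measure V) (R A s : ℝ) : Prop where
  mass : μ Set.univ ≤ ENNReal.ofReal A
  bdd : ∀ᵐ x ∂μ, ‖x‖ ≤ R
  pair : ∀ r, 0 < r → QQ μ r ≤ ENNReal.ofReal (A * r ^ s)

lemma Cl.fin [MeasurableSpace V] {μ : Measure V} {R A s : ℝ} (h : Cl μ R A s) :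
    IsFiniteMeasure μ :=
  ⟨h.mass.trans_lt ENNReal.ofReal_lt_top⟩

/-- The class with a lower bound on the norm. -/
def Ck [MeasurableSpace V] (μ : Measure V) (R A s κ : ℝ) : Prop :=
  Cl μ R A s ∧ ∀ᵐ x ∂μ, κ ≤ ‖x‖

/-- Average of the dilates of `α` by factors in `[1, 2]`. -/
noncomputable def thk [NormedSpace ℝ V] [MeasurableSpace V] (α : Measure V) : Measure V :=
  ((volume.restrict (Set.Icc (1 : ℝ) 2)).prod α).map fun p : ℝ × V => p.1 • p.2

end A

/-- Half the sign function. -/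
noncomputable def sg (u : ℝ) : ℝ := if 0 < u then 1 / 2 else if u < 0 then -(1 / 2) else 0

/-- Symmetrised weighted distribution function of `G`. -/
noncomputable def Phi {Ω : Type} [MeasurableSpace Ω] (m : Measure Ω) (G w : Ω → ℝ) (t : ℝ) : ℝ :=
  ∫ ω, sg (t - G ω) * w ω ∂m

/-- Strictly differentiable on `(a, ∞)`. -/
def SD (a : ℝ) (Φ : ℝ → ℝ) : Prop := ∀ t, a < t → ∃ h : ℝ, HasStrictDerivAt Φ h t

/-- Lipschitz with constant `D` on `(a, ∞)`. -/
def Lip (a : ℝ) (Φ : ℝ → ℝ) (D : ℝ) : Prop :=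
  ∀ t t', a < t → a < t' → |Φ t' - Φ t| ≤ D * |t' - t|

/-- The kernel `(1 - i u)^(-(M+1))`. -/
noncomputable def rho (M : ℕ) (u : ℂ) : ℂ := (1 - I * u)⁻¹ ^ (M + 1)

section B

variable {V : Type} [NormedAddCommGroup V] [InnerProductSpace ℝ V]

/-- The weight at scale `γ`. -/
noncomputable def Wt (M : ℕ) (γ : ℝ) (e a b : V) : ℝ :=
  γ⁻¹ ^ (2 * M) * wt e M b a * Real.exp (-(⟪a, b⟫_ℝ / γ) ^ 2)

/-- The kernel of the frequency piece `T`. -/
noncomputable def Ker (M : ℕ) (γ : ℝ) (e : V) (T t : ℝ) (a b : V) : ℂ :=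
  T * rho M ((T * (ph a b - t) : ℝ) : ℂ) * (Wt M γ e a b : ℝ)

/-- The quadratic form of the anisotropic Gaussian. -/
noncomputable def Lq (v v' b : V) : ℝ := √(‖b‖ ^ 2 + ⟪v, b⟫_ℝ ^ 2 + ⟪v', b⟫_ℝ ^ 2)

/-- The properties of the seminorm of the anisotropic moment bound. -/
structure NL (S : V →ₗ[ℝ] V) (D : ℝ) (v v' : V) (n : V → ℝ) : Prop where
  nonneg : ∀ u, 0 ≤ n u
  add : ∀ u w, n (u + w) ≤ n u + n w
  smul : ∀ (t : ℝ) u, n (t • u) = |t| * n u
  le : ∀ u N, 0 ≤ N → (∀ b, |⟪b, u⟫_ℝ| ≤ N * Lq v v' b) → n u ≤ D * N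
  gain : ∀ z N, 0 ≤ N → (∀ b, |⟪b, S z⟫_ℝ| ≤ N * Lq v v' b) →
    n (S z) ^ 2 ≤ D ^ 2 * (N * Lq v v' z)

/-- The operator `τ A_a - τ' A_a'`. -/
noncomputable def SS (τ τ' : ℝ) (a a' : V) : V →ₗ[ℝ] V where
  toFun x := τ • sb a x - τ' • sb a' x
  map_add' x y := by simp only [sb, inner_add_right]; module
  map_smul' t x := by simp only [sb, inner_smul_right, RingHom.id_apply]; module

/-- The Gaussian integral at fixed frequencies. -/
noncomputable def JJ [FiniteDimensional ℝ V] [MeasurableSpace V] [BorelSpace V] (M : ℕ) (γ : ℝ)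
    (e : V) (τ τ' : ℝ) (a a' : V) : ℂ :=
  ∫ b, cexp (I * ((τ * ph a b - τ' * ph a' b : ℝ) : ℂ)) *
    ((Wt M γ e a b * Wt M γ e a' b * Real.exp (-‖b‖ ^ 2) : ℝ) : ℂ)

/-- The `T T^*` kernel. -/
noncomputable def II [FiniteDimensional ℝ V] [MeasurableSpace V] [BorelSpace V] (M : ℕ) (γ : ℝ)
    (e : V) (T t : ℝ) (a a' : V) : ℂ :=
  ∫ b, Ker M γ e T t a b * conj (Ker M γ e T t a' b) * ((Real.exp (-‖b‖ ^ 2) : ℝ) : ℂ)

/-- The plate around `b` of width `r` and thickness `r * γ`. -/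
def Pl (r γ : ℝ) : Set (V × V) := {p | ‖p.2 - p.1‖ ≤ r ∧ |⟪p.2 - p.1, p.1⟫_ℝ| ≤ r * γ}

/-- `‖z‖` times the inner product of the projections along `z`. -/
noncomputable def BB (z x y : V) : ℝ := (‖z‖ ^ 2 * ⟪x, y⟫_ℝ - ⟪z, x⟫_ℝ * ⟪z, y⟫_ℝ) / ‖z‖

/-- The Gram determinant of three vectors. -/
noncomputable def G3 (p : V × V × V) : ℝ :=
  ‖p.1‖ ^ 2 * ‖p.2.1‖ ^ 2 * ‖p.2.2‖ ^ 2 + 2 * ⟪p.1, p.2.1⟫_ℝ * ⟪p.2.1, p.2.2⟫_ℝ * ⟪p.1, p.2.2⟫_ℝ -
    ‖p.1‖ ^ 2 * ⟪p.2.1, p.2.2⟫_ℝ ^ 2 - ‖p.2.1‖ ^ 2 * ⟪p.1, p.2.2⟫_ℝ ^ 2 -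
    ‖p.2.2‖ ^ 2 * ⟪p.1, p.2.1⟫_ℝ ^ 2

/-- The weight `Wt` written on triples. -/
noncomputable def W3 (M : ℕ) (γ : ℝ) (e : V) (p : V × V × V) : ℝ :=
  γ⁻¹ ^ (2 * M) * (BB p.1 p.2.1 p.2.2 * (BB p.1 p.2.1 p.2.1 * BB p.1 p.2.2 e -
    BB p.1 p.2.1 e * BB p.1 p.2.1 p.2.2)) ^ (2 * M) * Real.exp (-(BB p.1 p.2.1 p.2.2 / γ) ^ 2)

/-- The weight of a piece: `W3` cut to two slabs. -/
noncomputable def pw (M : ℕ) (γ c : ℝ) (e : V) : V × V × V → ℝ :=
  {p : V × V × V | |⟪p.2.1, p.1⟫_ℝ| ≤ c * γ ∧ |⟪p.2.2, p.1⟫_ℝ| ≤ c * γ}.indicator (W3 M γ e)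

/-- The distance to orthogonal frames. -/
noncomputable def mx (p : V × V × V) : ℝ :=
  max (‖p.1‖ * |⟪p.2.1, p.2.2⟫_ℝ|) (max (‖p.2.1‖ * |⟪p.2.2, p.1⟫_ℝ|) (‖p.2.2‖ * |⟪p.1, p.2.1⟫_ℝ|))

/-- Cyclic permutation. -/
def cyc (p : V × V × V) : V × V × V := (p.2.1, p.2.2, p.1)

/-- Sum of the pieces over a basis and over the three pairs. -/
noncomputable def Sw [FiniteDimensional ℝ V] (M : ℕ) (γ c : ℝ) (p : V × V × V) : ℝ :=
  ∑ i, (pw M γ c (stdOrthonormalBasis ℝ V i) p + pw M γ c (stdOrthonormalBasis ℝ V i) (cyc p) +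
    pw M γ c (stdOrthonormalBasis ℝ V i) (cyc (cyc p)))

end B

end Pool.Agent.MP_83cc0d_an.Cd

end

-- part Q1
section

namespace Pool.Agent.MP_83cc0d_an.Cd

open MeasureTheory Complex Filter Topology Metric Module Set
open scoped ENNReal InnerProductSpace ComplexConjugate

variable {V : Type} [NormedAddCommGroup V] [InnerProductSpace ℝ V] [FiniteDimensional ℝ V]
  [MeasurableSpace V] [BorelSpace V]

lemma gq_meas {X : Type} [MeasurableSpace X] {r : X → ℝ} {u : X → V} (hr : Measurable r)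
    (hu : Measurable u) : Measurable fun x => gq (r x) (u x) := by
  unfold gq
  exact ENNReal.measurable_ofReal.comp
    (Real.measurable_exp.comp (((hu.norm.pow_const 2).div (hr.pow_const 2)).neg))

lemma gq_le_one (r : ℝ) (u : V) : gq r u ≤ 1 := by
  unfold gq
  rw [ENNReal.ofReal_le_one, Real.exp_le_one_iff, neg_nonpos]
  positivity

/-- `exp (-1) ≥ 1/3`. -/
lemma one_le_gq {r : ℝ} (hr : 0 < r) {u : V} (h : ‖u‖ ≤ r) : 1 ≤ 3 * gq r u := by
  unfold gq
  have h1 : ‖u‖ ^ 2 / r ^ 2 ≤ 1 := by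
    rw [div_le_one (by positivity)]
    exact pow_le_pow_left₀ (norm_nonneg _) h 2
  have h2 : Real.exp (-1) ≤ Real.exp (-(‖u‖ ^ 2 / r ^ 2)) := Real.exp_le_exp.2 (by linarith)
  have h3 : (1 : ℝ) ≤ 3 * Real.exp (-1) := by
    have h4 : Real.exp 1 < 3 := Real.exp_one_lt_d9.trans (by norm_num)
    have h5 : Real.exp 1 * Real.exp (-1) = 1 := by rw [← Real.exp_add]; simp
    nlinarith only [Real.exp_pos (-1 : ℝ), h4, h5]
  calc (1 : ℝ≥0∞) = ENNReal.ofReal 1 := ENNReal.ofReal_one.symm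
    _ ≤ ENNReal.ofReal (3 * Real.exp (-(‖u‖ ^ 2 / r ^ 2))) :=
        ENNReal.ofReal_le_ofReal (by linarith)
    _ = _ := by rw [ENNReal.ofReal_mul (by norm_num)]; simp

lemma QQ_mono {α β : Measure V} (h : α ≤ β) (r : ℝ) : QQ α r ≤ QQ β r :=
  lintegral_mono' h fun _ => lintegral_mono' h le_rfl

lemma QQ_mono_r (α : Measure V) {r r' : ℝ} (hr : 0 < r) (h : r ≤ r') : QQ α r ≤ QQ α r' := by
  refine lintegral_mono fun x => lintegral_mono fun y => ?_
  refine ENNReal.ofReal_le_ofReal (Real.exp_le_exp.2 (neg_le_neg ?_))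
  exact div_le_div_of_nonneg_left (by positivity) (by positivity) (pow_le_pow_left₀ hr.le h 2)

lemma QQ_le_mass (α : Measure V) (r : ℝ) : QQ α r ≤ α univ * α univ := by
  calc QQ α r ≤ ∫⁻ _, ∫⁻ _, 1 ∂α ∂α :=
        lintegral_mono fun x => lintegral_mono fun y => gq_le_one r (x - y)
    _ = _ := by simp only [lintegral_const, one_mul]

lemma QQ_smul (α : Measure V) {c : ℝ≥0∞} (hc : c ≠ ∞) (r : ℝ) :
    QQ (c • α) r = c ^ 2 * QQ α r := by
  unfold QQ
  simp only [lintegral_smul_measure, smul_eq_mul]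
  rw [lintegral_const_mul' _ _ hc, sq, mul_assoc]

lemma QQ_map {W : Type} [NormedAddCommGroup W] [InnerProductSpace ℝ W] [FiniteDimensional ℝ W]
    [MeasurableSpace W] [BorelSpace W] (α : Measure V) [SFinite α] {f : V → W} (hf : Measurable f)
    (r : ℝ) : QQ (α.map f) r = ∫⁻ x, ∫⁻ y, gq r (f x - f y) ∂α ∂α := by
  unfold QQ
  have hm : Measurable fun p : W × W => gq r (p.1 - p.2) :=
    gq_meas measurable_const (measurable_fst.sub measurable_snd)
  rw [lintegral_map (hm.lintegral_prod_right' (ν := α.map f)) hf]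
  refine lintegral_congr fun x => ?_
  exact lintegral_map (gq_meas measurable_const (measurable_const.sub measurable_id)) hf

lemma QQ_affine (α : Measure V) [SFinite α] (w : V) {c : ℝ} (hc : 0 < c) (r : ℝ) :
    QQ (α.map fun x => c⁻¹ • (x - w)) r = QQ α (c * r) := by
  rw [QQ_map α (by fun_prop)]
  refine lintegral_congr fun x => lintegral_congr fun y => ?_
  unfold gq
  rw [← smul_sub, sub_sub_sub_cancel_right, norm_smul, Real.norm_eq_abs,
    abs_of_pos (inv_pos.2 hc)]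
  congr 3
  rw [mul_pow, mul_pow, inv_pow, div_eq_mul_inv, div_eq_mul_inv, mul_inv]
  ring

/-- Write the restricted integrals as integrals of indicators, then
`Measurable.lintegral_prod_right'` twice. -/
lemma meas_QQ_fam {Ω : Type} [MeasurableSpace Ω] (μ : Measure V) [SFinite μ] {S : Set (Ω × V)}
    (hS : MeasurableSet S) {g : Ω × ℝ → ℝ} (hg : Measurable g) :
    Measurable fun p : Ω × ℝ => QQ (μ.restrict {x | (p.1, x) ∈ S}) (g p) := by
  classical
  have hs : ∀ ω : Ω, MeasurableSet {x : V | (ω, x) ∈ S} := fun ω => measurable_prodMk_left hS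
  have hi : Measurable (S.indicator fun _ => (1 : ℝ≥0∞)) := measurable_const.indicator hS
  have h1 : Measurable fun q : ((Ω × ℝ) × V) × V =>
      S.indicator (fun _ => (1 : ℝ≥0∞)) (q.1.1.1, q.2) * gq (g q.1.1) (q.1.2 - q.2) :=
    (hi.comp (measurable_fst.fst.fst.prodMk measurable_snd)).mul
      (gq_meas (hg.comp measurable_fst.fst) (measurable_fst.snd.sub measurable_snd))
  have h2 : Measurable fun q : (Ω × ℝ) × V => S.indicator (fun _ => (1 : ℝ≥0∞)) (q.1.1, q.2) *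
      ∫⁻ y, S.indicator (fun _ => (1 : ℝ≥0∞)) (q.1.1, y) * gq (g q.1) (q.2 - y) ∂μ :=
    (hi.comp (measurable_fst.fst.prodMk measurable_snd)).mul (h1.lintegral_prod_right' (ν := μ))
  have key : ∀ (ω : Ω) (F : V → ℝ≥0∞), ∫⁻ x, F x ∂(μ.restrict {x | (ω, x) ∈ S}) =
      ∫⁻ x, S.indicator (fun _ => (1 : ℝ≥0∞)) (ω, x) * F x ∂μ := by
    intro ω F
    rw [← lintegral_indicator (hs ω)]
    refine lintegral_congr fun x => ?_
    by_cases hx : (ω, x) ∈ S <;> simp [Set.indicator, hx]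
  have h3 := h2.lintegral_prod_right' (ν := μ)
  simpa only [QQ, key] using h3

lemma meas_QQ (μ : Measure V) [SFinite μ] : Measurable (QQ μ) := by
  have h1 : Measurable fun q : (ℝ × V) × V => gq q.1.1 (q.1.2 - q.2) :=
    gq_meas measurable_fst.fst (measurable_fst.snd.sub measurable_snd)
  exact (h1.lintegral_prod_right' (ν := μ)).lintegral_prod_right' (ν := μ)

lemma Cl.restrict {μ : Measure V} {R A s : ℝ} (h : Cl μ R A s) (S : Set V) :
    Cl (μ.restrict S) R A s :=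
  ⟨(Measure.restrict_le_self _).trans h.mass, ae_restrict_of_ae h.bdd,
    fun r hr => (QQ_mono Measure.restrict_le_self r).trans (h.pair r hr)⟩

lemma Ck.restrict {μ : Measure V} {R A s κ : ℝ} (h : Ck μ R A s κ) (S : Set V) :
    Ck (μ.restrict S) R A s κ :=
  ⟨h.1.restrict S, ae_restrict_of_ae h.2⟩

lemma q1_pow_exp {s : ℝ} (hs : 0 ≤ s) {u : ℝ} (hu : 0 ≤ u) :
    u ^ s * Real.exp (-u ^ 2) ≤ (⌈s⌉₊.factorial : ℝ) := by
  have hf : (1 : ℝ) ≤ (⌈s⌉₊.factorial : ℝ) := by exact_mod_cast ⌈s⌉₊.factorial_pos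
  rcases le_total u 1 with h | h
  · have h1 : u ^ s ≤ 1 := Real.rpow_le_one hu h hs
    have h2 : Real.exp (-u ^ 2) ≤ 1 := Real.exp_le_one_iff.2 (by nlinarith only [])
    calc u ^ s * Real.exp (-u ^ 2) ≤ 1 * 1 := mul_le_mul h1 h2 (Real.exp_pos _).le zero_le_one
      _ ≤ _ := by linarith
  · have h1 : u ^ s ≤ (u ^ 2) ^ ⌈s⌉₊ := by
      calc u ^ s ≤ u ^ ((⌈s⌉₊ : ℕ) : ℝ) := Real.rpow_le_rpow_of_exponent_le h (Nat.le_ceil s)
        _ = u ^ ⌈s⌉₊ := Real.rpow_natCast _ _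
        _ ≤ (u ^ 2) ^ ⌈s⌉₊ := pow_le_pow_left₀ hu (by nlinarith only [h]) _
    have h2 := Real.pow_div_factorial_le_exp (u ^ 2) (by positivity) ⌈s⌉₊
    rw [div_le_iff₀ (by linarith only [hf])] at h2
    have h3 : Real.exp (u ^ 2) * Real.exp (-u ^ 2) = 1 := by rw [← Real.exp_add]; simp
    calc u ^ s * Real.exp (-u ^ 2)
        ≤ (Real.exp (u ^ 2) * ⌈s⌉₊.factorial) * Real.exp (-u ^ 2) :=
          mul_le_mul_of_nonneg_right (h1.trans h2) (Real.exp_pos _).le
      _ = ⌈s⌉₊.factorial * (Real.exp (u ^ 2) * Real.exp (-u ^ 2)) := by ring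
      _ = _ := by rw [h3, mul_one]

/-- `u ^ s * exp (-u ^ 2) ≤ C`; pointwise `gq r (x - y) ≤ ofReal (C * r ^ s) * edist x y ^ (-s)`
(take `C > 0`; on the diagonal the right side is `∞` if `s > 0`). -/
lemma QQ_energy {s : ℝ} (hs : 0 ≤ s) : ∃ C : ℝ, 0 ≤ C ∧ ∀ (α : Measure V) (r : ℝ), 0 < r →
    QQ α r ≤ ENNReal.ofReal (C * r ^ s) * ∫⁻ x, ∫⁻ y, edist x y ^ (-s) ∂α ∂α := by
  have hf : (1 : ℝ) ≤ (⌈s⌉₊.factorial : ℝ) := by exact_mod_cast ⌈s⌉₊.factorial_pos
  refine ⟨⌈s⌉₊.factorial, by linarith, fun α r hr => ?_⟩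
  have hrs : 0 < r ^ s := Real.rpow_pos_of_pos hr s
  have pt : ∀ x y : V, gq r (x - y) ≤
      ENNReal.ofReal (⌈s⌉₊.factorial * r ^ s) * edist x y ^ (-s) := by
    intro x y
    by_cases hxy : x = y
    · subst hxy
      rcases hs.eq_or_lt with h0 | h0
      · subst h0
        simpa only [sub_self, Nat.ceil_zero, Nat.factorial_zero, Nat.cast_one, Real.rpow_zero, mul_one, ENNReal.ofReal_one, edist_self, neg_zero, ENNReal.rpow_zero] using gq_le_one r (0 : V)
      · rw [edist_self, ENNReal.zero_rpow_of_neg (by linarith), ENNReal.mul_top]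
        · exact le_top
        · exact (ENNReal.ofReal_pos.2 (by positivity)).ne'
    · have hd : 0 < ‖x - y‖ := norm_pos_iff.2 (sub_ne_zero.2 hxy)
      rw [edist_dist, dist_eq_norm, ENNReal.ofReal_rpow_of_pos hd,
        ← ENNReal.ofReal_mul (by positivity)]
      refine ENNReal.ofReal_le_ofReal ?_
      have h1 := q1_pow_exp hs (u := ‖x - y‖ / r) (by positivity)
      have hds : 0 < ‖x - y‖ ^ s := Real.rpow_pos_of_pos hd s
      rw [Real.div_rpow hd.le hr.le, div_pow, div_mul_eq_mul_div, div_le_iff₀ hrs] at h1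
      rw [Real.rpow_neg hd.le, ← div_eq_mul_inv, le_div_iff₀ hds]
      linarith
  calc QQ α r ≤ ∫⁻ x, ∫⁻ y, ENNReal.ofReal (⌈s⌉₊.factorial * r ^ s) * edist x y ^ (-s) ∂α ∂α :=
        lintegral_mono fun x => lintegral_mono fun y => pt x y
    _ = _ := by simp only [lintegral_const_mul' _ _ ENNReal.ofReal_ne_top]

lemma q1_summable {σ : ℝ} :
    Summable fun j : ℕ => Real.exp (-(j : ℝ)) * ((j : ℝ) + 1) ^ σ := by
  have h := (summable_nat_add_iff 1).2
    (Real.summable_pow_mul_exp_neg_nat_mul ⌈σ⌉₊ (r := 1) one_pos)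
  refine Summable.of_nonneg_of_le (fun j => by positivity) (fun j => ?_) (h.mul_left (Real.exp 1))
  have hj : (1 : ℝ) ≤ (j : ℝ) + 1 := by linarith [(Nat.cast_nonneg j : (0 : ℝ) ≤ j)]
  have h1 : ((j : ℝ) + 1) ^ σ ≤ ((j : ℝ) + 1) ^ ⌈σ⌉₊ := by
    calc ((j : ℝ) + 1) ^ σ ≤ ((j : ℝ) + 1) ^ ((⌈σ⌉₊ : ℕ) : ℝ) :=
          Real.rpow_le_rpow_of_exponent_le hj (Nat.le_ceil σ)
      _ = _ := Real.rpow_natCast _ _
  have h2 : Real.exp (-(j : ℝ)) = Real.exp 1 * Real.exp (-1 * ((j : ℝ) + 1)) := by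
    rw [← Real.exp_add]; congr 1; ring
  push_cast
  calc Real.exp (-(j : ℝ)) * ((j : ℝ) + 1) ^ σ
      ≤ Real.exp (-(j : ℝ)) * ((j : ℝ) + 1) ^ ⌈σ⌉₊ :=
        mul_le_mul_of_nonneg_left h1 (Real.exp_pos _).le
    _ = _ := by rw [h2]; ring

/-- Layer cake. With `j = ⌊‖u‖ / r⌋₊`: `exp (-(‖u‖/r)^2) ≤ exp (-j)` and `‖u‖ ≤ (j+1) r`, so
`gq r u ≤ ∑' j, exp (-j) * indicator {‖u‖ ≤ (j+1) r}`; `C = ∑' j, exp (-j) (j+1)^σ`. -/
lemma layer {σ : ℝ} (hσ : 0 ≤ σ) : ∃ C : ℝ, 0 ≤ C ∧ ∀ (X : Type) [MeasurableSpace X]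
    (m : Measure X) (u : X → V) (B : ℝ), Measurable u → 0 ≤ B →
    (∀ r, 0 < r → m {x | ‖u x‖ ≤ r} ≤ ENNReal.ofReal (B * r ^ σ)) →
    ∀ r, 0 < r → ∫⁻ x, gq r (u x) ∂m ≤ ENNReal.ofReal (C * B * r ^ σ) := by
  refine ⟨∑' j : ℕ, Real.exp (-(j : ℝ)) * ((j : ℝ) + 1) ^ σ,
    tsum_nonneg fun j => by positivity, fun X _ m u B hu hB hm r hr => ?_⟩
  have hS : ∀ j : ℕ, MeasurableSet {x | ‖u x‖ ≤ ((j : ℝ) + 1) * r} := fun j =>
    measurableSet_le hu.norm measurable_const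
  have pt : ∀ x, gq r (u x) ≤ ∑' j : ℕ, {x | ‖u x‖ ≤ ((j : ℝ) + 1) * r}.indicator
      (fun _ => ENNReal.ofReal (Real.exp (-(j : ℝ)))) x := by
    intro x
    refine le_trans ?_ (ENNReal.le_tsum ⌊‖u x‖ / r⌋₊)
    have h0 : 0 ≤ ‖u x‖ / r := by positivity
    have h1 := Nat.floor_le h0
    have h2 := Nat.lt_floor_add_one (‖u x‖ / r)
    rw [Set.indicator_of_mem (show x ∈ {y | ‖u y‖ ≤ ((⌊‖u x‖ / r⌋₊ : ℝ) + 1) * r} from
      ((div_lt_iff₀ hr).1 h2).le)]
    refine ENNReal.ofReal_le_ofReal (Real.exp_le_exp.2 (neg_le_neg ?_))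
    rw [← div_pow]
    have h3 : (⌊‖u x‖ / r⌋₊ : ℝ) ≤ (⌊‖u x‖ / r⌋₊ : ℝ) ^ 2 := by
      exact_mod_cast Nat.le_self_pow two_ne_zero _
    exact h3.trans (pow_le_pow_left₀ (Nat.cast_nonneg _) h1 2)
  calc ∫⁻ x, gq r (u x) ∂m
      ≤ ∫⁻ x, ∑' j : ℕ, {x | ‖u x‖ ≤ ((j : ℝ) + 1) * r}.indicator
          (fun _ => ENNReal.ofReal (Real.exp (-(j : ℝ)))) x ∂m := lintegral_mono pt
    _ = ∑' j : ℕ, ENNReal.ofReal (Real.exp (-(j : ℝ))) * m {x | ‖u x‖ ≤ ((j : ℝ) + 1) * r} := by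
        rw [lintegral_tsum fun j => (measurable_const.indicator (hS j)).aemeasurable]
        exact tsum_congr fun j => lintegral_indicator_const (hS j) _
    _ ≤ ∑' j : ℕ, ENNReal.ofReal (Real.exp (-(j : ℝ)) * ((j : ℝ) + 1) ^ σ * (B * r ^ σ)) := by
        refine ENNReal.tsum_le_tsum fun j => ?_
        refine (mul_le_mul' le_rfl (hm _ (by positivity))).trans (le_of_eq ?_)
        rw [← ENNReal.ofReal_mul (Real.exp_pos _).le, Real.mul_rpow (by positivity) hr.le]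
        congr 1; ring
    _ = _ := by
        rw [← ENNReal.ofReal_tsum_of_nonneg (fun j => by positivity) (q1_summable.mul_right _),
          tsum_mul_right, mul_assoc]

end Pool.Agent.MP_83cc0d_an.Cd

end

-- part Q2
section

namespace Pool.Agent.MP_83cc0d_an.Cd

open MeasureTheory Complex Filter Topology Metric Module Set
open scoped ENNReal InnerProductSpace ComplexConjugate

variable {V : Type} [NormedAddCommGroup V] [InnerProductSpace ℝ V] [FiniteDimensional ℝ V]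
  [MeasurableSpace V] [BorelSpace V]

lemma q2_am (a b : ℝ≥0∞) : 2 * (a * b) ≤ a * a + b * b := by
  rcases eq_or_ne a ∞ with rfl | ha
  · simp
  rcases eq_or_ne b ∞ with rfl | hb
  · simp
  lift a to NNReal using ha
  lift b to NNReal using hb
  have := two_mul_le_add_sq a b
  rw [sq, sq, mul_assoc] at this
  exact_mod_cast this

lemma q2_const {r : ℝ} (hr : 0 < r) :
    (∫⁻ w : V, gq (r / 2) w) ≠ 0 ∧ (∫⁻ w : V, gq (r / 2) w) ≠ ∞ := by
  have hb : 0 < 4 / r ^ 2 := by positivity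
  have h1 := GaussianFourier.integral_rexp_neg_mul_sq_norm (V := V) hb
  have hp : 0 < ∫ v : V, Real.exp (-(4 / r ^ 2) * ‖v‖ ^ 2) := by rw [h1]; positivity
  have h2 := ofReal_integral_eq_lintegral_ofReal (Integrable.of_integral_ne_zero hp.ne')
    (Eventually.of_forall fun v => (Real.exp_pos _).le)
  have h3 : (∫⁻ w : V, gq (r / 2) w) =
      ENNReal.ofReal (∫ v : V, Real.exp (-(4 / r ^ 2) * ‖v‖ ^ 2)) := by
    rw [h2]
    refine lintegral_congr fun w => ?_
    unfold gq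
    congr 2
    field_simp
    ring
  rw [h3]
  exact ⟨by simpa only [neg_mul, ne_eq, ENNReal.ofReal_eq_zero, not_le] using hp, ENNReal.ofReal_ne_top⟩

lemma q2_conv {r : ℝ} (hr : 0 < r) (x y : V) :
    ∫⁻ w, gq (r / √2) (x - w) * gq (r / √2) (y - w) =
      (∫⁻ w : V, gq (r / 2) w) * gq r (x - y) := by
  have hm : Measurable fun w : V => gq (r / 2) w := gq_meas measurable_const measurable_id
  rw [← lintegral_sub_right_eq_self (fun w : V => gq (r / 2) w) ((1 / 2 : ℝ) • (x + y)),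
    ← lintegral_mul_const _ (gq_meas measurable_const (by fun_prop))]
  refine lintegral_congr fun w => ?_
  unfold gq
  rw [← ENNReal.ofReal_mul (Real.exp_pos _).le, ← ENNReal.ofReal_mul (Real.exp_pos _).le,
    ← Real.exp_add, ← Real.exp_add]
  congr 2
  have h := parallelogram_law_with_norm ℝ (x - w) (y - w)
  have e1 : x - w + (y - w) = (-2 : ℝ) • (w - (1 / 2 : ℝ) • (x + y)) := by module
  have e2 : x - w - (y - w) = x - y := by abel
  rw [e1, e2, norm_smul] at h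
  have h2 : √2 ^ 2 = 2 := Real.sq_sqrt (by norm_num)
  have h3 : ‖(-2 : ℝ)‖ = 2 := by norm_num
  rw [div_pow, h2]
  rw [h3] at h
  field_simp
  linarith only [h]

lemma q2_pair (α : Measure V) [SFinite α] {φ ψ : V → V} (hφ : Measurable φ) (hψ : Measurable ψ)
    {r : ℝ} (hr : 0 < r) :
    ∫⁻ w, (∫⁻ x, gq (r / √2) (φ x - w) ∂α) * ∫⁻ y, gq (r / √2) (ψ y - w) ∂α =
      (∫⁻ w : V, gq (r / 2) w) * ∫⁻ x, ∫⁻ y, gq r (φ x - ψ y) ∂α ∂α := by
  have hm : Measurable fun p : (V × V) × V =>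
      gq (r / √2) (φ p.1.2 - p.1.1) * gq (r / √2) (ψ p.2 - p.1.1) :=
    (gq_meas measurable_const (by fun_prop)).mul (gq_meas measurable_const (by fun_prop))
  calc _ = ∫⁻ w, ∫⁻ x, ∫⁻ y, gq (r / √2) (φ x - w) * gq (r / √2) (ψ y - w) ∂α ∂α := by
        refine lintegral_congr fun w => ?_
        rw [lintegral_lintegral_mul (gq_meas measurable_const (by fun_prop)).aemeasurable
          (gq_meas measurable_const (by fun_prop)).aemeasurable]
    _ = ∫⁻ x, ∫⁻ w, ∫⁻ y, gq (r / √2) (φ x - w) * gq (r / √2) (ψ y - w) ∂α ∂volume ∂α :=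
        lintegral_lintegral_swap hm.lintegral_prod_right'.aemeasurable
    _ = ∫⁻ x, ∫⁻ y, ∫⁻ w, gq (r / √2) (φ x - w) * gq (r / √2) (ψ y - w) ∂volume ∂α ∂α := by
        refine lintegral_congr fun x => lintegral_lintegral_swap ?_
        exact ((gq_meas measurable_const (by fun_prop)).mul
          (gq_meas measurable_const (by fun_prop))).aemeasurable
    _ = _ := by
        simp_rw [q2_conv hr]
        rw [← lintegral_const_mul' _ _ (q2_const hr).2]
        refine lintegral_congr fun x => ?_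
        rw [lintegral_const_mul' _ _ (q2_const hr).2]

/-- Positive definiteness of the Gaussian. -/
lemma QQ_shift (α : Measure V) [SFinite α] {ψ : V → V} (hψ : Measurable ψ)
    (hi : ∀ x y, ‖ψ x - ψ y‖ = ‖x - y‖) {r : ℝ} (hr : 0 < r) :
    ∫⁻ x, ∫⁻ y, gq r (x - ψ y) ∂α ∂α ≤ QQ α r := by
  obtain ⟨h0, h1⟩ := q2_const (V := V) hr
  have a1 := q2_pair α measurable_id hψ hr
  have a2 := q2_pair α measurable_id measurable_id hr
  have a3 := q2_pair α hψ hψ hr
  have e3 : ∫⁻ x, ∫⁻ y, gq r (ψ x - ψ y) ∂α ∂α = QQ α r := by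
    unfold QQ gq; simp_rw [hi]
  simp only [id] at a1 a2
  rw [e3] at a3
  have hF : Measurable fun w : V => ∫⁻ x, gq (r / √2) (x - w) ∂α :=
    (gq_meas (X := V × V) (r := fun _ => r / √2) (u := fun p => p.2 - p.1) measurable_const
      (by fun_prop)).lintegral_prod_right'
  have h2 : (2 : ℝ≥0∞) * (∫⁻ w : V, gq (r / 2) w) ≠ 0 := mul_ne_zero two_ne_zero h0
  have h3 : (2 : ℝ≥0∞) * (∫⁻ w : V, gq (r / 2) w) ≠ ∞ := ENNReal.mul_ne_top (by simp) h1
  rw [← ENNReal.mul_le_mul_iff_right h2 h3, mul_assoc, ← a1, mul_assoc, two_mul (_ * QQ α r),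
    ← lintegral_const_mul' _ _ (by simp)]
  nth_rewrite 2 [← a3]
  unfold QQ
  rw [← a2, ← lintegral_add_left (hF.fun_mul hF)]
  exact lintegral_mono fun w => q2_am _ _

omit [FiniteDimensional ℝ V] [MeasurableSpace V] [BorelSpace V] in
lemma q2_pt {W : Type} [NormedAddCommGroup W] {e u : V} (he : ‖e‖ = 1) {z : W} {c l ρ : ℝ}
    (hc : 0 < c) (hρ : 0 < ρ) (hz : c ^ 2 * (‖u‖ ^ 2 - ⟪e, u⟫_ℝ ^ 2) ≤ ‖z‖ ^ 2)
    (hu : |⟪e, u⟫_ℝ| ≤ 2 * l) :
    ENNReal.ofReal (2 * (ρ / c)) * gq ρ z ≤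
      3 * ∫⁻ v in Icc (-(2 * l + ρ / c)) (2 * l + ρ / c), gq (ρ / c) (u - v • e) := by
  have hρ' : 0 < ρ / c := by positivity
  obtain ⟨hu1, hu2⟩ := abs_le.1 hu
  have key : ∀ v ∈ Icc (⟪e, u⟫_ℝ - ρ / c) (⟪e, u⟫_ℝ + ρ / c),
      gq ρ z ≤ 3 * gq (ρ / c) (u - v • e) := by
    intro v hv
    have e1 : ‖u - v • e‖ ^ 2 = ‖u‖ ^ 2 - ⟪e, u⟫_ℝ ^ 2 + (v - ⟪e, u⟫_ℝ) ^ 2 := by
      rw [norm_sub_sq_real, inner_smul_right, norm_smul, he, real_inner_comm, Real.norm_eq_abs,
        mul_one, sq_abs]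
      ring
    have e2 : (v - ⟪e, u⟫_ℝ) ^ 2 ≤ (ρ / c) ^ 2 :=
      sq_le_sq' (by linarith only [hv.1]) (by linarith only [hv.2])
    have e3 : ‖u - v • e‖ ^ 2 / (ρ / c) ^ 2 ≤ ‖z‖ ^ 2 / ρ ^ 2 + 1 := by
      rw [e1, add_div]
      refine add_le_add ?_ ((div_le_one (by positivity)).2 e2)
      rw [div_pow, div_div_eq_mul_div, mul_comm]
      exact div_le_div_of_nonneg_right hz (by positivity)
    unfold gq
    rw [← ENNReal.ofReal_ofNat 3, ← ENNReal.ofReal_mul (by norm_num)]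
    refine ENNReal.ofReal_le_ofReal ?_
    have h3 : Real.exp 1 ≤ 3 := by linarith only [Real.exp_one_lt_d9]
    calc Real.exp (-(‖z‖ ^ 2 / ρ ^ 2))
        ≤ Real.exp (1 + -(‖u - v • e‖ ^ 2 / (ρ / c) ^ 2)) := Real.exp_le_exp.2 (by linarith only [e3])
      _ ≤ _ := by rw [Real.exp_add]; gcongr
  calc ENNReal.ofReal (2 * (ρ / c)) * gq ρ z
      = ∫⁻ _ in Icc (⟪e, u⟫_ℝ - ρ / c) (⟪e, u⟫_ℝ + ρ / c), gq ρ z := by
        rw [setLIntegral_const, Real.volume_Icc, mul_comm]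
        congr 2
        ring
    _ ≤ ∫⁻ v in Icc (⟪e, u⟫_ℝ - ρ / c) (⟪e, u⟫_ℝ + ρ / c), 3 * gq (ρ / c) (u - v • e) :=
        setLIntegral_mono' measurableSet_Icc key
    _ ≤ ∫⁻ v in Icc (-(2 * l + ρ / c)) (2 * l + ρ / c), 3 * gq (ρ / c) (u - v • e) :=
        lintegral_mono_set (Icc_subset_Icc (by linarith) (by linarith))
    _ = _ := lintegral_const_mul' _ _ (by simp)

/-- Tube bound. -/
lemma QQ_tube {W : Type} [NormedAddCommGroup W] [InnerProductSpace ℝ W] [FiniteDimensional ℝ W]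
    [MeasurableSpace W] [BorelSpace W] (α : Measure V) [SFinite α] {f : V → W} (hf : Measurable f)
    {e : V} (he : ‖e‖ = 1) {c l A s : ℝ} (hc : 0 < c) (hl : 0 ≤ l) (hA : 0 ≤ A)
    (hfe : ∀ x y, c ^ 2 * (‖x - y‖ ^ 2 - ⟪e, x - y⟫_ℝ ^ 2) ≤ ‖f x - f y‖ ^ 2)
    (hα : ∀ᵐ x ∂α, |⟪e, x⟫_ℝ| ≤ l) (hQ : ∀ r, 0 < r → QQ α r ≤ ENNReal.ofReal (A * r ^ s))
    {ρ : ℝ} (hρ : 0 < ρ) :
    QQ (α.map f) ρ ≤ ENNReal.ofReal (3 * A * (2 * l + ρ / c) * (ρ / c) ^ (s - 1)) := by
  have hρ' : 0 < ρ / c := by positivity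
  set I : Set ℝ := Icc (-(2 * l + ρ / c)) (2 * l + ρ / c) with hI
  have hm : Measurable fun p : (V × ℝ) × V => gq (ρ / c) (p.1.1 - (p.2 + p.1.2 • e)) :=
    gq_meas measurable_const (by fun_prop)
  have h0 : ENNReal.ofReal (2 * (ρ / c)) ≠ 0 := by simpa only [Nat.ofNat_nonneg, ENNReal.ofReal_mul, ENNReal.ofReal_ofNat, ne_eq, mul_eq_zero, OfNat.ofNat_ne_zero, ENNReal.ofReal_eq_zero, false_or, not_le] using hρ'
  rw [← ENNReal.mul_le_mul_iff_right h0 ENNReal.ofReal_ne_top, QQ_map α hf]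
  calc ENNReal.ofReal (2 * (ρ / c)) * ∫⁻ x, ∫⁻ y, gq ρ (f x - f y) ∂α ∂α
      = ∫⁻ x, ∫⁻ y, ENNReal.ofReal (2 * (ρ / c)) * gq ρ (f x - f y) ∂α ∂α := by
        rw [← lintegral_const_mul' _ _ ENNReal.ofReal_ne_top]
        exact lintegral_congr fun x => (lintegral_const_mul' _ _ ENNReal.ofReal_ne_top).symm
    _ ≤ ∫⁻ x, ∫⁻ y, 3 * ∫⁻ v in I, gq (ρ / c) (x - (y + v • e)) ∂volume ∂α ∂α := by
        refine lintegral_mono_ae (hα.mono fun x hx => lintegral_mono_ae (hα.mono fun y hy => ?_))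
        have := q2_pt (l := l) he hc hρ (hfe x y) (by
          rw [inner_sub_right]
          exact (abs_sub _ _).trans (by linarith only [hx, hy]))
        simpa only [sub_sub] using this
    _ = 3 * ∫⁻ v in I, ∫⁻ x, ∫⁻ y, gq (ρ / c) (x - (y + v • e)) ∂α ∂α := by
        have sw := lintegral_lintegral_swap (μ := α) (ν := volume.restrict I)
          (f := fun x v => ∫⁻ y, gq (ρ / c) (x - (y + v • e)) ∂α)
          hm.lintegral_prod_right'.aemeasurable
        rw [← sw, ← lintegral_const_mul' _ _ (by simp)]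
        refine lintegral_congr fun x => ?_
        rw [lintegral_const_mul' _ _ (by simp), lintegral_lintegral_swap]
        exact (gq_meas measurable_const (by fun_prop)).aemeasurable
    _ ≤ 3 * ∫⁻ _ in I, ENNReal.ofReal (A * (ρ / c) ^ s) := by
        gcongr with v
        exact (QQ_shift α (ψ := fun y => y + v • e) (by fun_prop) (fun x y => by simp) hρ').trans
          (hQ _ hρ')
    _ = _ := by
        rw [setLIntegral_const, hI, Real.volume_Icc, ← ENNReal.ofReal_ofNat 3,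
          ← ENNReal.ofReal_mul (by positivity), ← ENNReal.ofReal_mul (by norm_num),
          ← ENNReal.ofReal_mul (by positivity), Real.rpow_sub_one hρ'.ne']
        congr 1
        field_simp
        ring

end Pool.Agent.MP_83cc0d_an.Cd

end

-- part Q3
section

namespace Pool.Agent.MP_83cc0d_an.Cd

open MeasureTheory Complex Filter Topology Metric Module Set
open scoped ENNReal InnerProductSpace ComplexConjugate

variable {V : Type} [NormedAddCommGroup V] [InnerProductSpace ℝ V] [FiniteDimensional ℝ V]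
  [MeasurableSpace V] [BorelSpace V]

lemma q3_amgm (x y : ℝ≥0∞) {θ : ℝ≥0∞} (h0 : θ ≠ 0) (h1 : θ ≠ ∞) :
    x * y ≤ θ * x ^ 2 + θ⁻¹ * y ^ 2 := by
  rcases le_total y (θ * x) with h | h
  · calc x * y ≤ x * (θ * x) := by gcongr
      _ = θ * x ^ 2 := by ring
      _ ≤ _ := le_self_add
  · calc x * y = θ⁻¹ * (θ * x) * y := by
          rw [← mul_assoc, ENNReal.inv_mul_cancel h0 h1, one_mul]
      _ ≤ θ⁻¹ * y * y := by gcongr
      _ = θ⁻¹ * y ^ 2 := by ring
      _ ≤ _ := le_add_self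

/-- Smoothing. Let `v b = volume {w | (b, w) ∈ P}` and `D w = ∫⁻ b, (v b)⁻¹ * 1_P (b, w) dβ`.
By Tonelli the left side is `∫⁻ G * D`, and `D = 0` a.e. outside the ball; `G D ≤ θ G² + θ⁻¹ D²`;
`∫⁻ D² = ∫⁻∫⁻ (v b)⁻¹ (v b')⁻¹ volume (P_b ∩ P_b') ≤ ∫⁻∫⁻ v0⁻¹ 1 {‖b - b'‖ ≤ 2ρ}`
(`(v b)⁻¹ * v b ≤ 1`), then `one_le_gq`. -/
lemma smooth (β : Measure V) [IsFiniteMeasure β] {R ρ v0 θ : ℝ} (hR : ∀ᵐ b ∂β, ‖b‖ ≤ R)
    (hρ : 0 < ρ) (hv0 : 0 < v0) (hθ : 0 < θ) {P : Set (V × V)} (hP : MeasurableSet P)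
    (hPρ : ∀ p ∈ P, ‖p.2 - p.1‖ ≤ ρ)
    (hv : ∀ b, ‖b‖ ≤ R → ENNReal.ofReal v0 ≤ volume {w | (b, w) ∈ P})
    {G : V → ℝ≥0∞} (hG : Measurable G) :
    ∫⁻ b, (volume {w | (b, w) ∈ P})⁻¹ * ∫⁻ w in {w | (b, w) ∈ P}, G w ∂volume ∂β ≤
      ENNReal.ofReal θ * (∫⁻ w in closedBall (0 : V) (R + ρ), G w ^ 2) +
        ENNReal.ofReal (3 / (θ * v0)) * QQ β (2 * ρ) := by
  have hs : ∀ b, MeasurableSet {w | (b, w) ∈ P} := fun b => measurable_prodMk_left hP
  have hvm : Measurable fun b : V => volume {w | (b, w) ∈ P} := measurable_measure_prodMk_left hP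
  obtain ⟨K, hK⟩ : ∃ K : V × V → ℝ≥0∞,
      K = P.indicator fun p => (volume {w | (p.1, w) ∈ P})⁻¹ := ⟨_, rfl⟩
  have hKm : Measurable K := hK ▸ (hvm.comp measurable_fst).inv.indicator hP
  have hK1 : ∀ b w, (b, w) ∈ P → K (b, w) = (volume {w | (b, w) ∈ P})⁻¹ := fun b w h => by
    rw [hK, indicator_of_mem h]
  have hK0 : ∀ b w, (b, w) ∉ P → K (b, w) = 0 := fun b w h => by
    rw [hK, indicator_of_notMem h]
  have hKi : ∀ b, ∫⁻ w, K (b, w) ≤ 1 := fun b => by
    have e : (fun w => K (b, w)) =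
        {w | (b, w) ∈ P}.indicator fun _ => (volume {w | (b, w) ∈ P})⁻¹ := by
      funext w
      by_cases h : (b, w) ∈ P
      · rw [hK1 b w h, indicator_of_mem (show w ∈ {w | (b, w) ∈ P} from h)]
      · rw [hK0 b w h, indicator_of_notMem (show w ∉ {w | (b, w) ∈ P} from h)]
    rw [e, lintegral_indicator_const (hs b), mul_comm]
    exact ENNReal.mul_inv_le_one _
  obtain ⟨F, hF⟩ : ∃ F : V → ℝ≥0∞, F = (closedBall (0 : V) (R + ρ)).indicator G := ⟨_, rfl⟩
  have hFm : Measurable F := hF ▸ hG.indicator measurableSet_closedBall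
  have hDm : Measurable fun w => ∫⁻ b, K (b, w) ∂β := hKm.lintegral_prod_left'
  have hKb : ∀ w, Measurable fun b => K (b, w) := fun w => hKm.comp measurable_prodMk_right
  have hKw : ∀ b, Measurable fun w => K (b, w) := fun b => hKm.comp measurable_prodMk_left
  have h1 : ∫⁻ b, (volume {w | (b, w) ∈ P})⁻¹ * ∫⁻ w in {w | (b, w) ∈ P}, G w ∂volume ∂β =
      ∫⁻ w, F w * ∫⁻ b, K (b, w) ∂β := by
    calc _ = ∫⁻ b, ∫⁻ w, F w * K (b, w) ∂volume ∂β := by
          refine lintegral_congr_ae ?_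
          filter_upwards [hR] with b hb
          rw [← lintegral_const_mul _ hG, ← lintegral_indicator (hs b)]
          refine lintegral_congr fun w => ?_
          by_cases h : (b, w) ∈ P
          · have hw : w ∈ closedBall (0 : V) (R + ρ) := by
              rw [mem_closedBall_zero_iff]
              have h2 : ‖w - b‖ ≤ ρ := hPρ _ h
              have h3 := norm_add_le b (w - b)
              rw [add_sub_cancel] at h3
              linarith only [hb, h2, h3]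
            rw [hK1 b w h, indicator_of_mem (show w ∈ {w | (b, w) ∈ P} from h), hF,
              indicator_of_mem hw, mul_comm]
          · rw [hK0 b w h, indicator_of_notMem (show w ∉ {w | (b, w) ∈ P} from h), mul_zero]
      _ = ∫⁻ w, ∫⁻ b, F w * K (b, w) ∂β ∂volume :=
          lintegral_lintegral_swap ((hFm.comp measurable_snd).mul hKm).aemeasurable
      _ = _ := lintegral_congr fun w => lintegral_const_mul _ (hKb w)
  have h2 : ∫⁻ w, (∫⁻ b, K (b, w) ∂β) ^ 2 ≤ (ENNReal.ofReal v0)⁻¹ * 3 * QQ β (2 * ρ) := by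
    have hm : Measurable fun q : V × V × V => K (q.2.1, q.1) * K (q.2.2, q.1) :=
      (hKm.comp (by fun_prop)).mul (hKm.comp (by fun_prop))
    have hq : Measurable fun p : V × V => gq (2 * ρ) (p.1 - p.2) :=
      gq_meas measurable_const (measurable_fst.sub measurable_snd)
    calc _ = ∫⁻ w, ∫⁻ p : V × V, K (p.1, w) * K (p.2, w) ∂β.prod β ∂volume := by
          refine lintegral_congr fun w => ?_
          rw [lintegral_prod_mul (hKb w).aemeasurable (hKb w).aemeasurable, sq]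
      _ = ∫⁻ p : V × V, ∫⁻ w, K (p.1, w) * K (p.2, w) ∂volume ∂β.prod β :=
          lintegral_lintegral_swap hm.aemeasurable
      _ ≤ ∫⁻ p : V × V, (ENNReal.ofReal v0)⁻¹ * 3 * gq (2 * ρ) (p.1 - p.2) ∂β.prod β := by
          refine lintegral_mono_ae ?_
          filter_upwards [ae_prod_bdd hR] with p hp
          calc _ ≤ ∫⁻ w, (ENNReal.ofReal v0)⁻¹ * 3 * gq (2 * ρ) (p.1 - p.2) * K (p.1, w) := by
                refine lintegral_mono fun w => ?_
                by_cases h : (p.1, w) ∈ P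
                · by_cases h' : (p.2, w) ∈ P
                  · have h3 : ‖p.1 - p.2‖ ≤ 2 * ρ := by
                      have h4 : ‖w - p.1‖ ≤ ρ := hPρ _ h
                      have h5 : ‖w - p.2‖ ≤ ρ := hPρ _ h'
                      have h6 := norm_sub_le (w - p.2) (w - p.1)
                      rw [sub_sub_sub_cancel_left] at h6
                      linarith only [h4, h5, h6]
                    rw [mul_comm, hK1 _ _ h', mul_assoc _ 3]
                    refine mul_le_mul_left ?_ _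
                    calc _ ≤ (ENNReal.ofReal v0)⁻¹ * 1 := by
                          rw [mul_one]
                          exact ENNReal.inv_le_inv.2 (hv _ hp.2)
                      _ ≤ _ := mul_le_mul_right (one_le_gq (by positivity) h3) _
                  · rw [hK0 _ _ h', mul_zero]
                    exact zero_le
                · rw [hK0 _ _ h, zero_mul]
                  exact zero_le
            _ ≤ _ := by
                rw [lintegral_const_mul _ (hKw _)]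
                exact mul_le_of_le_one_right' (hKi _)
      _ = _ := by rw [lintegral_const_mul _ hq, QQ, lintegral_prod _ hq.aemeasurable]
  have hθ0 : ENNReal.ofReal θ ≠ 0 := (ENNReal.ofReal_pos.2 hθ).ne'
  rw [h1]
  refine (lintegral_mono fun w => q3_amgm _ _ hθ0 ENNReal.ofReal_ne_top).trans ?_
  rw [lintegral_add_left ((hFm.pow_const 2).const_mul _), lintegral_const_mul _ (hFm.pow_const 2),
    lintegral_const_mul _ (hDm.pow_const 2)]
  refine add_le_add (le_of_eq ?_) ((mul_le_mul_right h2 _).trans (le_of_eq ?_))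
  · rw [← lintegral_indicator measurableSet_closedBall, hF]
    congr 1
    refine lintegral_congr fun w => ?_
    by_cases h : w ∈ closedBall (0 : V) (R + ρ)
    · rw [indicator_of_mem h, indicator_of_mem h]
    · rw [indicator_of_notMem h, indicator_of_notMem h, zero_pow two_ne_zero]
  · rw [← mul_assoc, show 3 / (θ * v0) = θ⁻¹ * (v0⁻¹ * 3) by field_simp,
      ENNReal.ofReal_mul (by positivity), ENNReal.ofReal_mul (by positivity),
      ENNReal.ofReal_inv_of_pos hθ, ENNReal.ofReal_inv_of_pos hv0, ENNReal.ofReal_ofNat]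

end Pool.Agent.MP_83cc0d_an.Cd

end

-- part K1
section

namespace Pool.Agent.MP_83cc0d_an.Cd

open MeasureTheory Complex Filter Topology Metric Module Set
open scoped ENNReal InnerProductSpace ComplexConjugate

variable {V : Type} [NormedAddCommGroup V] [InnerProductSpace ℝ V] [FiniteDimensional ℝ V]
  [MeasurableSpace V] [BorelSpace V]

lemma k1_norm (u : ℝ) : ‖(1 - I * u : ℂ)‖ = √(1 + u ^ 2) := by
  rw [Complex.norm_eq_sqrt_sq_add_sq]
  simp only [sub_re, one_re, mul_re, I_re, ofReal_re, zero_mul, I_im, ofReal_im, mul_zero, sub_self, sub_zero, one_pow, sub_im, one_im, mul_im, one_mul, zero_add, zero_sub, even_two, Even.neg_pow]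

lemma k1_ne (u : ℝ) : (1 - I * u : ℂ) ≠ 0 := by
  intro h
  have := congrArg Complex.re h
  simp at this

lemma k1_one_le (u : ℝ) : 1 ≤ √(1 + u ^ 2) := by
  rw [Real.one_le_sqrt]; linarith only [sq_nonneg u]

lemma k1_norm_rho (M : ℕ) (u : ℝ) : ‖rho M u‖ = (√(1 + u ^ 2))⁻¹ ^ (M + 1) := by
  unfold rho
  rw [norm_pow, norm_inv, k1_norm]

lemma norm_rho_le_one (M : ℕ) (u : ℝ) : ‖rho M u‖ ≤ 1 := by
  rw [k1_norm_rho]
  exact pow_le_one₀ (by positivity) (inv_le_one_of_one_le₀ (k1_one_le u))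

lemma norm_rho_le_inv {M : ℕ} (hM : 1 ≤ M) (u : ℝ) : ‖rho M u‖ ≤ (1 + u ^ 2)⁻¹ := by
  rw [k1_norm_rho]
  have h1 : (√(1 + u ^ 2))⁻¹ ^ (M + 1) ≤ (√(1 + u ^ 2))⁻¹ ^ 2 :=
    pow_le_pow_of_le_one (by positivity) (inv_le_one_of_one_le₀ (k1_one_le u)) (by omega)
  refine h1.trans (le_of_eq ?_)
  rw [inv_pow, Real.sq_sqrt (by positivity)]

lemma norm_rho_mul (M : ℕ) (u : ℝ) : ‖rho M u‖ * |u| ^ M ≤ 1 := by
  rw [k1_norm_rho]
  have h0 : 0 < √(1 + u ^ 2) := lt_of_lt_of_le one_pos (k1_one_le u)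
  have h1 : |u| ≤ √(1 + u ^ 2) := Real.abs_le_sqrt (by linarith)
  have h2 : (√(1 + u ^ 2))⁻¹ * |u| ≤ 1 := by
    rw [inv_mul_le_iff₀ h0, mul_one]; exact h1
  have h3 : (√(1 + u ^ 2))⁻¹ ^ (M + 1) * |u| ^ M =
      ((√(1 + u ^ 2))⁻¹ * |u|) ^ M * (√(1 + u ^ 2))⁻¹ := by
    rw [mul_pow]; ring
  rw [h3]
  exact mul_le_one₀ (pow_le_one₀ (by positivity) h2) (by positivity)
    (inv_le_one_of_one_le₀ (k1_one_le u))

lemma cont_rho (M : ℕ) : Continuous fun u : ℝ => rho M u := by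
  unfold rho
  exact (Continuous.inv₀ (by fun_prop) k1_ne).pow _

lemma k1_norm_int {r : ℂ} (hr : r.re = 1) (M : ℕ) {x : ℝ} (hx : 0 ≤ x) :
    ‖(x : ℂ) ^ M * cexp (-r * x)‖ = x ^ M * Real.exp (-x) := by
  rw [norm_mul, norm_pow, Complex.norm_real, Real.norm_of_nonneg hx, Complex.norm_exp]
  simp [hr]

lemma k1_int {r : ℂ} (hr : r.re = 1) (M : ℕ) :
    IntegrableOn (fun x : ℝ => (x : ℂ) ^ M * cexp (-r * x)) (Ioi 0) := by
  have h := Real.GammaIntegral_convergent (s := (M : ℝ) + 1) (by positivity)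
  refine Integrable.mono' h (by fun_prop) ?_
  filter_upwards [ae_restrict_mem measurableSet_Ioi] with x hx
  rw [k1_norm_int hr M (le_of_lt hx), add_sub_cancel_right, Real.rpow_natCast, mul_comm]

lemma k1_gamma {r : ℂ} (hr : r.re = 1) (M : ℕ) :
    ∫ x in Ioi (0 : ℝ), (x : ℂ) ^ M * cexp (-r * x) = M.factorial * r⁻¹ ^ (M + 1) := by
  have hr0 : r ≠ 0 := by
    intro h; rw [h] at hr; simp at hr
  induction M with
  | zero =>
    have h := integral_exp_mul_complex_Ioi (a := -r) (by simp [hr]) 0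
    simp only [pow_zero, one_mul]
    rw [h]; simp
  | succ M ih =>
    have hd : ∀ x ∈ Ici (0 : ℝ), HasDerivAt (fun x : ℝ => (x : ℂ) ^ (M + 1) * cexp (-r * x))
        ((M + 1 : ℂ) * ((x : ℂ) ^ M * cexp (-r * x)) -
          r * ((x : ℂ) ^ (M + 1) * cexp (-r * x))) x := by
      intro x _
      have h1 : HasDerivAt (fun z : ℂ => z ^ (M + 1) * cexp (-r * z))
          ((M + 1 : ℂ) * ((x : ℂ) ^ M * cexp (-r * x)) -
            r * ((x : ℂ) ^ (M + 1) * cexp (-r * x))) x := by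
        have h2 := (hasDerivAt_pow (M + 1) (x : ℂ)).mul
          (((hasDerivAt_id (x : ℂ)).const_mul (-r)).cexp)
        refine HasDerivAt.congr_deriv h2 ?_
        simp only [id, add_tsub_cancel_right]
        push_cast
        ring
      exact h1.comp_ofReal
    have hl : Tendsto (fun x : ℝ => (x : ℂ) ^ (M + 1) * cexp (-r * x)) atTop (𝓝 0) := by
      rw [tendsto_zero_iff_norm_tendsto_zero]
      refine (Real.tendsto_pow_mul_exp_neg_atTop_nhds_zero (M + 1)).congr' ?_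
      filter_upwards [eventually_ge_atTop (0 : ℝ)] with x hx
      rw [k1_norm_int hr _ hx]
    have h := integral_Ioi_of_hasDerivAt_of_tendsto' hd
      (((k1_int hr M).const_mul _).sub ((k1_int hr (M + 1)).const_mul _)) hl
    rw [integral_sub ((k1_int hr M).const_mul _) ((k1_int hr (M + 1)).const_mul _),
      integral_const_mul, integral_const_mul, ih] at h
    simp only [ofReal_zero, ne_eq, Nat.add_eq_zero_iff, one_ne_zero, and_false, not_false_eq_true,
      zero_pow, zero_mul, sub_zero] at h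
    refine mul_left_cancel₀ hr0 ?_
    rw [← sub_eq_zero.1 h, Nat.factorial_succ, pow_succ r⁻¹ (M + 1)]
    push_cast
    field_simp

lemma rho_rep (M : ℕ) (u : ℝ) : (M.factorial : ℂ) * rho M u =
    ∫ x in Ioi (0 : ℝ), ((x ^ M * Real.exp (-x) : ℝ) : ℂ) * cexp (I * ((x * u : ℝ) : ℂ)) := by
  unfold rho
  rw [← k1_gamma (by simp) M]
  refine setIntegral_congr_fun measurableSet_Ioi fun x _ => ?_
  push_cast
  rw [mul_assoc, ← Complex.exp_add]
  congr 2
  ring

/-- `Real.pow_div_factorial_le_exp`. -/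
lemma pow_exp_le (M : ℕ) (p : ℝ) : p ^ (2 * M) * Real.exp (-p ^ 2) ≤ M.factorial := by
  have h := Real.pow_div_factorial_le_exp (p ^ 2) (sq_nonneg p) M
  have hf : (0 : ℝ) < M.factorial := by exact_mod_cast M.factorial_pos
  rw [div_le_iff₀ hf] at h
  rw [pow_mul, Real.exp_neg, mul_inv_le_iff₀ (Real.exp_pos _)]
  linarith [mul_comm (Real.exp (p ^ 2)) (M.factorial : ℝ)]

lemma Wt_eq (M : ℕ) (γ : ℝ) (e a b : V) : Wt M γ e a b =
    (⟪a, b⟫_ℝ / γ) ^ (2 * M) * Real.exp (-(⟪a, b⟫_ℝ / γ) ^ 2) * ⟪b, sb a e⟫_ℝ ^ (2 * M) := by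
  unfold Wt wt
  rw [real_inner_comm a b, div_eq_mul_inv, mul_pow, mul_pow]
  ring

lemma Wt_nonneg (M : ℕ) (γ : ℝ) (e a b : V) : 0 ≤ Wt M γ e a b := by
  rw [Wt_eq, pow_mul, pow_mul]
  positivity

lemma Wt_le (M : ℕ) (γ : ℝ) {R : ℝ} {e a : V} (he : ‖e‖ ≤ R) (ha : ‖a‖ ≤ R) (b : V) :
    Wt M γ e a b ≤ M.factorial * R ^ (6 * M) * (‖b‖ ^ 2) ^ M := by
  rw [Wt_eq]
  have hR : 0 ≤ R := (norm_nonneg _).trans he
  have h1 : |⟪b, sb a e⟫_ℝ| ≤ ‖b‖ * R ^ 3 := by
    refine (abs_real_inner_le_norm _ _).trans ?_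
    have : ‖sb a e‖ ≤ R ^ 2 * R := (norm_sb_le _ _).trans (by gcongr)
    calc ‖b‖ * ‖sb a e‖ ≤ ‖b‖ * (R ^ 2 * R) := by gcongr
      _ = _ := by ring
  have h2 : ⟪b, sb a e⟫_ℝ ^ (2 * M) ≤ R ^ (6 * M) * (‖b‖ ^ 2) ^ M := by
    calc ⟪b, sb a e⟫_ℝ ^ (2 * M) = |⟪b, sb a e⟫_ℝ| ^ (2 * M) := by
          rw [pow_mul, pow_mul, sq_abs]
      _ ≤ (‖b‖ * R ^ 3) ^ (2 * M) := by gcongr
      _ = _ := by rw [mul_pow, ← pow_mul, ← pow_mul]; ring
  rw [mul_assoc (M.factorial : ℝ)]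
  exact mul_le_mul (pow_exp_le M _) h2 (by rw [pow_mul]; positivity) (by positivity)

lemma cont_Wt (M : ℕ) (γ : ℝ) (e : V) : Continuous fun p : V × V => Wt M γ e p.1 p.2 := by
  unfold Wt wt sb
  fun_prop

lemma cont_Ker (M : ℕ) (γ : ℝ) (e : V) (T t : ℝ) :
    Continuous fun p : V × V => Ker M γ e T t p.1 p.2 := by
  unfold Ker
  have h1 : Continuous fun p : V × V => T * (ph p.1 p.2 - t) := by
    unfold ph; fun_prop
  exact (continuous_const.mul ((cont_rho M).comp h1)).mul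
    (Complex.continuous_ofReal.comp (cont_Wt M γ e))

lemma norm_Ker (M : ℕ) (γ : ℝ) (e : V) {T : ℝ} (hT : 0 ≤ T) (t : ℝ) (a b : V) :
    ‖Ker M γ e T t a b‖ = T * ‖rho M ((T * (ph a b - t) : ℝ) : ℂ)‖ * Wt M γ e a b := by
  unfold Ker
  rw [norm_mul, norm_mul, Complex.norm_real, Complex.norm_real, Real.norm_of_nonneg hT,
    Real.norm_of_nonneg (Wt_nonneg M γ e a b)]

end Pool.Agent.MP_83cc0d_an.Cd

end

-- part K2
section

namespace Pool.Agent.MP_83cc0d_an.Cd

open MeasureTheory Complex Filter Topology Metric Module Set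
open scoped ENNReal InnerProductSpace ComplexConjugate

variable {V : Type} [NormedAddCommGroup V] [InnerProductSpace ℝ V] [FiniteDimensional ℝ V]
  [MeasurableSpace V] [BorelSpace V]

lemma strict_iff {Φ : ℝ → ℝ} {h t : ℝ} : HasStrictDerivAt Φ h t ↔
    Tendsto (fun p : ℝ × ℝ => (Φ p.1 - Φ p.2) / (p.1 - p.2))
      (𝓝 (t, t) ⊓ 𝓟 {p : ℝ × ℝ | p.1 ≠ p.2}) (𝓝 h) := by
  rw [hasStrictDerivAt_iff_hasStrictFDerivAt, hasStrictFDerivAt_iff_isLittleO,
    Asymptotics.isLittleO_iff, Metric.tendsto_nhds]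
  simp only [ContinuousLinearMap.toSpanSingleton_apply, smul_eq_mul, Real.norm_eq_abs,
    eventually_inf_principal, mem_ofPred_eq, Real.dist_eq]
  constructor
  · intro H ε hε
    filter_upwards [H (half_pos hε)] with p hp hne
    have h0 : p.1 - p.2 ≠ 0 := sub_ne_zero.2 hne
    have hpos : 0 < |p.1 - p.2| := abs_pos.2 h0
    have e : (Φ p.1 - Φ p.2) / (p.1 - p.2) - h = (Φ p.1 - Φ p.2 - (p.1 - p.2) * h) / (p.1 - p.2) := by
      field_simp
    rw [e, abs_div, div_lt_iff₀ hpos]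
    nlinarith only [hε, hp, hpos]
  · intro H ε hε
    filter_upwards [H ε hε] with p hp
    by_cases hne : p.1 = p.2
    · simp [hne]
    · have h0 : p.1 - p.2 ≠ 0 := sub_ne_zero.2 hne
      have hpos : 0 < |p.1 - p.2| := abs_pos.2 h0
      have h1 := hp hne
      have e : (Φ p.1 - Φ p.2) / (p.1 - p.2) - h =
          (Φ p.1 - Φ p.2 - (p.1 - p.2) * h) / (p.1 - p.2) := by
        field_simp
      rw [e, abs_div, div_lt_iff₀ hpos] at h1
      exact h1.le

lemma k2_neBot (t : ℝ) : (𝓝 (t, t) ⊓ 𝓟 {p : ℝ × ℝ | p.1 ≠ p.2}).NeBot := by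
  have h1 : Tendsto (fun u : ℝ => (u, t)) (𝓝[≠] t) (𝓝 (t, t) ⊓ 𝓟 {p : ℝ × ℝ | p.1 ≠ p.2}) := by
    refine tendsto_inf.2 ⟨?_, tendsto_principal.2 ?_⟩
    · exact ((continuous_id.prodMk continuous_const).tendsto t).mono_left nhdsWithin_le_nhds
    · filter_upwards [self_mem_nhdsWithin] with u hu
      exact hu
  exact h1.neBot

lemma k2_ev {a t : ℝ} (ht : a < t) : ∀ᶠ p in 𝓝 (t, t) ⊓ 𝓟 {p : ℝ × ℝ | p.1 ≠ p.2},
    a < p.1 ∧ a < p.2 ∧ p.1 ≠ p.2 := by
  rw [eventually_inf_principal]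
  have h1 : ∀ᶠ p : ℝ × ℝ in 𝓝 (t, t), a < p.1 :=
    (continuous_fst.tendsto (t, t)).eventually (lt_mem_nhds ht)
  have h2 : ∀ᶠ p : ℝ × ℝ in 𝓝 (t, t), a < p.2 :=
    (continuous_snd.tendsto (t, t)).eventually (lt_mem_nhds ht)
  filter_upwards [h1, h2] with p hp1 hp2 hne
  exact ⟨hp1, hp2, hne⟩

lemma k2_slope {a D u v : ℝ} {Φ : ℝ → ℝ} (h : Lip a Φ D) (hu : a < u) (hv : a < v) (hne : u ≠ v) :
    |(Φ u - Φ v) / (u - v)| ≤ D := by
  have hpos : 0 < |u - v| := abs_pos.2 (sub_ne_zero.2 hne)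
  rw [abs_div, div_le_iff₀ hpos]
  exact h v u hv hu

/-- The slopes of `Φ` are within `ε` of the slopes of `Ψ` near `(t, t)`, so they form a Cauchy
filter (`strict_iff`, `cauchy_map_iff_exists_tendsto`, `Metric.cauchy_iff`). -/
lemma SD.close {a : ℝ} {Φ : ℝ → ℝ}
    (h : ∀ ε : ℝ, 0 < ε → ∃ Ψ : ℝ → ℝ, SD a Ψ ∧ Lip a (fun t => Φ t - Ψ t) ε) : SD a Φ := by
  intro t ht
  have := k2_neBot t
  have key : Cauchy ((𝓝 (t, t) ⊓ 𝓟 {p : ℝ × ℝ | p.1 ≠ p.2}).map
      (fun p : ℝ × ℝ => (Φ p.1 - Φ p.2) / (p.1 - p.2))) := by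
    rw [Metric.cauchy_iff]
    refine ⟨inferInstance, fun ε hε => ?_⟩
    obtain ⟨Ψ, hΨ, hL⟩ := h (ε / 8) (by positivity)
    obtain ⟨g, hg⟩ := hΨ t ht
    have h1 := (Metric.tendsto_nhds.1 (strict_iff.1 hg)) (ε / 8) (by positivity)
    refine ⟨Metric.ball g (ε / 2), ?_, fun x hx y hy => ?_⟩
    · rw [mem_map]
      filter_upwards [h1, k2_ev ht] with p hp hq
      obtain ⟨hq1, hq2, hne⟩ := hq
      have h2 := k2_slope hL hq1 hq2 hne
      have h0 : p.1 - p.2 ≠ 0 := sub_ne_zero.2 hne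
      have e : (Φ p.1 - Φ p.2) / (p.1 - p.2) - g =
          ((Φ p.1 - Ψ p.1) - (Φ p.2 - Ψ p.2)) / (p.1 - p.2) +
            ((Ψ p.1 - Ψ p.2) / (p.1 - p.2) - g) := by
        field_simp
        ring
      simp only [mem_preimage, Metric.mem_ball, Real.dist_eq] at hp ⊢
      rw [e]
      refine (abs_add_le _ _).trans_lt ?_
      linarith only [hε, hp, h2]
    · rw [Metric.mem_ball] at hx hy
      have := dist_triangle_right x y g
      linarith only [hx, hy, this]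
  obtain ⟨g, hg⟩ := cauchy_map_iff_exists_tendsto.1 key
  exact ⟨g, strict_iff.2 hg⟩

/-- `strict_iff` and `tendsto_integral_filter_of_dominated_convergence` (choose the derivatives
with `deriv (φ x) t`). -/
lemma mix {X : Type} [MeasurableSpace X] (μ : Measure X) [IsFiniteMeasure μ] {φ : X → ℝ → ℝ}
    {a D : ℝ} (hi : ∀ t, Integrable (fun x => φ x t) μ)
    (h : ∀ᵐ x ∂μ, SD a (φ x) ∧ Lip a (φ x) D) :
    SD a (fun t => ∫ x, φ x t ∂μ) ∧ Lip a (fun t => ∫ x, φ x t ∂μ) (D * μ.real univ) := by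
  constructor
  · intro t ht
    refine ⟨∫ x, deriv (φ x) t ∂μ, strict_iff.2 ?_⟩
    have key := tendsto_integral_filter_of_dominated_convergence (μ := μ)
      (l := 𝓝 (t, t) ⊓ 𝓟 {p : ℝ × ℝ | p.1 ≠ p.2})
      (F := fun (p : ℝ × ℝ) x => (φ x p.1 - φ x p.2) / (p.1 - p.2))
      (f := fun x => deriv (φ x) t) (fun _ => D)
      (Eventually.of_forall fun p => (((hi p.1).sub (hi p.2)).div_const _).aestronglyMeasurable)
      (by
        filter_upwards [k2_ev ht] with p hq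
        filter_upwards [h] with x hx
        exact k2_slope hx.2 hq.1 hq.2.1 hq.2.2)
      (integrable_const D)
      (by
        filter_upwards [h] with x hx
        obtain ⟨g, hg⟩ := hx.1 t ht
        rw [hg.hasDerivAt.deriv]
        exact strict_iff.1 hg)
    refine key.congr fun p => ?_
    rw [integral_div, integral_sub (hi _) (hi _)]
  · intro t t' ht ht'
    show |∫ x, φ x t' ∂μ - ∫ x, φ x t ∂μ| ≤ _
    rw [← integral_sub (hi _) (hi _)]
    have := norm_integral_le_of_norm_le_const (μ := μ) (f := fun x => φ x t' - φ x t)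
      (C := D * |t' - t|) (by
        filter_upwards [h] with x hx
        exact hx.2 t t' ht ht')
    rw [Real.norm_eq_abs] at this
    refine this.trans (le_of_eq ?_)
    ring

lemma SD.add {a : ℝ} {Φ Ψ : ℝ → ℝ} (h : SD a Φ) (h' : SD a Ψ) : SD a fun t => Φ t + Ψ t := by
  intro t ht
  obtain ⟨g, hg⟩ := h t ht
  obtain ⟨g', hg'⟩ := h' t ht
  exact ⟨g + g', hg.add hg'⟩

lemma SD.const_mul {a : ℝ} {Φ : ℝ → ℝ} (h : SD a Φ) (c : ℝ) : SD a fun t => c * Φ t := by
  intro t ht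
  obtain ⟨g, hg⟩ := h t ht
  exact ⟨c * g, hg.const_mul c⟩

lemma SD.sum {ι : Type} {a : ℝ} {Φ : ι → ℝ → ℝ} (s : Finset ι) (h : ∀ i ∈ s, SD a (Φ i)) :
    SD a fun t => ∑ i ∈ s, Φ i t := by
  classical
  induction s using Finset.induction_on with
  | empty => intro t _; exact ⟨0, by simpa using hasStrictDerivAt_const t (0 : ℝ)⟩
  | insert i s hi ih =>
    simp only [Finset.sum_insert hi]
    exact (h i (Finset.mem_insert_self _ _)).add
      (ih fun j hj => h j (Finset.mem_insert_of_mem hj))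

lemma Lip.add {a D D' : ℝ} {Φ Ψ : ℝ → ℝ} (h : Lip a Φ D) (h' : Lip a Ψ D') :
    Lip a (fun t => Φ t + Ψ t) (D + D') := by
  intro t t' ht ht'
  have h1 := h t t' ht ht'
  have h2 := h' t t' ht ht'
  have e : Φ t' + Ψ t' - (Φ t + Ψ t) = (Φ t' - Φ t) + (Ψ t' - Ψ t) := by ring
  show |Φ t' + Ψ t' - (Φ t + Ψ t)| ≤ _
  rw [e, add_mul]
  exact (abs_add_le _ _).trans (add_le_add h1 h2)

lemma Lip.const_mul {a D : ℝ} {Φ : ℝ → ℝ} (h : Lip a Φ D) (c : ℝ) :
    Lip a (fun t => c * Φ t) (|c| * D) := by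
  intro t t' ht ht'
  have h1 := h t t' ht ht'
  show |c * Φ t' - c * Φ t| ≤ _
  rw [← mul_sub, abs_mul, mul_assoc]
  exact mul_le_mul_of_nonneg_left h1 (abs_nonneg c)

lemma Lip.sum {ι : Type} {a : ℝ} {Φ : ι → ℝ → ℝ} {D : ι → ℝ} (s : Finset ι)
    (h : ∀ i ∈ s, Lip a (Φ i) (D i)) : Lip a (fun t => ∑ i ∈ s, Φ i t) (∑ i ∈ s, D i) := by
  intro t t' ht ht'
  show |∑ i ∈ s, Φ i t' - ∑ i ∈ s, Φ i t| ≤ _
  rw [← Finset.sum_sub_distrib, Finset.sum_mul]
  exact (Finset.abs_sum_le_sum_abs _ _).trans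
    (Finset.sum_le_sum fun i hi => h i hi t t' ht ht')

lemma Lip.mono {a D D' : ℝ} {Φ : ℝ → ℝ} (h : Lip a Φ D) (hD : D ≤ D') : Lip a Φ D' := fun t t' ht ht' =>
  (h t t' ht ht').trans (mul_le_mul_of_nonneg_right hD (abs_nonneg _))

lemma Lip.nonneg {a D : ℝ} {Φ : ℝ → ℝ} (h : Lip a Φ D) : 0 ≤ D := by
  have h1 := h (a + 1) (a + 2) (by linarith) (by linarith)
  have e : |a + 2 - (a + 1)| = 1 := by
    rw [show a + 2 - (a + 1) = 1 by ring, abs_one]
  rw [e, mul_one] at h1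
  exact (abs_nonneg _).trans h1

/-- If `Φ - Ψ` is constant on `(a, ∞)`, the properties pass from `Ψ` to `Φ`. -/
lemma of_lip0 {a D : ℝ} {Φ Ψ : ℝ → ℝ} (h0 : Lip a (fun t => Φ t - Ψ t) 0)
    (h : SD a Ψ ∧ Lip a Ψ D) : SD a Φ ∧ Lip a Φ D := by
  constructor
  · refine SD.close fun ε hε => ⟨Ψ, h.1, h0.mono hε.le⟩
  · have := h0.add h.2
    simpa using this

/-- Rescaling of the argument. -/
lemma scale {a a' D c : ℝ} {Φ : ℝ → ℝ} (hc : 0 < c) (ha : a' * c ≤ a)
    (h : SD a' Φ ∧ Lip a' Φ D) :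
    SD a (fun t => Φ (t / c)) ∧ Lip a (fun t => Φ (t / c)) (D / c) := by
  have hlt : ∀ t, a < t → a' < t / c := fun t ht => by
    rw [lt_div_iff₀ hc]; linarith
  constructor
  · intro t ht
    obtain ⟨g, hg⟩ := h.1 (t / c) (hlt t ht)
    have h2 : HasStrictDerivAt (fun t : ℝ => t / c) (1 / c) t :=
      (hasStrictDerivAt_id t).div_const c
    exact ⟨g * (1 / c), HasStrictDerivAt.comp (h := fun t : ℝ => t / c) t hg h2⟩
  · intro t t' ht ht'
    have h1 := h.2 (t / c) (t' / c) (hlt t ht) (hlt t' ht')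
    refine h1.trans (le_of_eq ?_)
    rw [← sub_div, abs_div, abs_of_pos hc]
    ring

lemma sg_meas : Measurable sg := by
  unfold sg
  refine Measurable.ite measurableSet_Ioi measurable_const ?_
  exact Measurable.ite measurableSet_Iio measurable_const measurable_const

lemma abs_sg_le (u : ℝ) : |sg u| ≤ 1 / 2 := by
  unfold sg
  split_ifs <;> norm_num [abs_of_pos]

lemma sg_mono : Monotone sg := by
  intro u v huv
  unfold sg
  split_ifs <;> linarith

lemma sg_mul {c : ℝ} (hc : 0 < c) (u : ℝ) : sg (c * u) = sg u := by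
  unfold sg
  simp only [mul_pos_iff_of_pos_left hc, mul_neg_iff, hc, true_and, not_lt.2 hc.le, false_and,
    or_false]

variable {Ω : Type} [MeasurableSpace Ω] {m : Measure Ω} {G : Ω → ℝ}

lemma Phi_int (hG : Measurable G) {w : Ω → ℝ} (hw : Integrable w m) (t : ℝ) :
    Integrable (fun ω => sg (t - G ω) * w ω) m := by
  refine hw.bdd_mul (c := 1 / 2) ?_ (Eventually.of_forall fun ω => abs_sg_le _)
  exact (sg_meas.comp (measurable_const.sub hG)).aestronglyMeasurable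

lemma Phi_add (hG : Measurable G) {w w' : Ω → ℝ} (hw : Integrable w m) (hw' : Integrable w' m) :
    Phi m G (fun ω => w ω + w' ω) = fun t => Phi m G w t + Phi m G w' t := by
  funext t
  unfold Phi
  rw [← integral_add (Phi_int hG hw t) (Phi_int hG hw' t)]
  simp only [mul_add]

lemma Phi_sub (hG : Measurable G) {w w' : Ω → ℝ} (hw : Integrable w m) (hw' : Integrable w' m) :
    Phi m G (fun ω => w ω - w' ω) = fun t => Phi m G w t - Phi m G w' t := by
  funext t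
  unfold Phi
  rw [← integral_sub (Phi_int hG hw t) (Phi_int hG hw' t)]
  simp only [mul_sub]

lemma Phi_const_mul (w : Ω → ℝ) (c : ℝ) :
    Phi m G (fun ω => c * w ω) = fun t => c * Phi m G w t := by
  funext t
  unfold Phi
  rw [← integral_const_mul]
  simp only [mul_left_comm]

lemma Phi_sum {ι : Type} (hG : Measurable G) {w : ι → Ω → ℝ} (s : Finset ι)
    (hw : ∀ i ∈ s, Integrable (w i) m) :
    Phi m G (fun ω => ∑ i ∈ s, w i ω) = fun t => ∑ i ∈ s, Phi m G (w i) t := by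
  funext t
  unfold Phi
  rw [← integral_finsetSum s fun i hi => Phi_int hG (hw i hi) t]
  simp only [Finset.mul_sum]

lemma Phi_indicator {S : Set Ω} (hS : MeasurableSet S) (w : Ω → ℝ) :
    Phi m G (S.indicator w) = Phi (m.restrict S) G w := by
  funext t
  unfold Phi
  rw [← integral_indicator hS]
  congr 1
  funext ω
  by_cases hω : ω ∈ S <;> simp [hω]

/-- For `a < t ≤ t'` the bracket `sg (t' - G) - sg (t - G)` lies in `[0, 1]` and vanishes unless
`t ≤ G ≤ t'`. -/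
lemma Phi_diff_le (hG : Measurable G) {w W Z : Ω → ℝ} (hw : Integrable w m) (hW : Integrable W m)
    (hZ : Integrable Z m) (hZ0 : ∀ ω, 0 ≤ Z ω) {a D : ℝ}
    (h : ∀ᵐ ω ∂m, a < G ω → |w ω| ≤ W ω + Z ω) (hL : Lip a (Phi m G W) D) {t t' : ℝ} (ht : a < t)
    (ht' : a < t') : |Phi m G w t' - Phi m G w t| ≤ D * |t' - t| + ∫ ω, Z ω ∂m := by
  wlog htt : t ≤ t' generalizing t t'
  · have := this ht' ht (le_of_not_ge htt)
    rwa [abs_sub_comm (Phi m G w t), abs_sub_comm t] at this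
  have hLt := hL t t' ht ht'
  unfold Phi at hLt ⊢
  rw [← integral_sub (Phi_int hG hw t') (Phi_int hG hw t)]
  rw [← integral_sub (Phi_int hG hW t') (Phi_int hG hW t)] at hLt
  have hI : Integrable (fun ω => sg (t' - G ω) * W ω - sg (t - G ω) * W ω) m :=
    (Phi_int hG hW t').sub (Phi_int hG hW t)
  have h1 : |∫ ω, (sg (t' - G ω) * w ω - sg (t - G ω) * w ω) ∂m| ≤
      ∫ ω, ((sg (t' - G ω) * W ω - sg (t - G ω) * W ω) + Z ω) ∂m := by
    rw [← Real.norm_eq_abs]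
    refine norm_integral_le_of_norm_le (hI.add hZ) ?_
    filter_upwards [h] with ω hω
    rw [Real.norm_eq_abs, ← sub_mul, ← sub_mul, abs_mul]
    have hb0 : 0 ≤ sg (t' - G ω) - sg (t - G ω) := sub_nonneg.2 (sg_mono (by linarith))
    have hb1 : sg (t' - G ω) - sg (t - G ω) ≤ 1 := by
      have h2 := abs_le.1 (abs_sg_le (t' - G ω))
      have h3 := abs_le.1 (abs_sg_le (t - G ω))
      linarith only [h2.2, h3.1]
    rw [abs_of_nonneg hb0]
    by_cases hG' : a < G ω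
    · have h4 := hω hG'
      have h5 := hZ0 ω
      nlinarith only [hb0, hb1, h4, h5]
    · have e1 : sg (t' - G ω) = 1 / 2 := by
        unfold sg; rw [if_pos (by linarith [not_lt.1 hG'])]
      have e2 : sg (t - G ω) = 1 / 2 := by
        unfold sg; rw [if_pos (by linarith only [ht, hG'])]
      rw [e1, e2]
      simpa only [one_div, sub_self, zero_mul, zero_add, ge_iff_le] using hZ0 ω
  rw [integral_add hI hZ] at h1
  have := le_abs_self (∫ ω, (sg (t' - G ω) * W ω - sg (t - G ω) * W ω) ∂m)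
  linarith

lemma Lip.of_le (hG : Measurable G) {w W : Ω → ℝ} (hw : Integrable w m) (hW : Integrable W m)
    {a D : ℝ} (h : ∀ᵐ ω ∂m, a < G ω → |w ω| ≤ W ω) (hL : Lip a (Phi m G W) D) :
    Lip a (Phi m G w) D := by
  intro t t' ht ht'
  have := Phi_diff_le hG hw hW (Z := fun _ => 0) (integrable_zero _ _ _) (fun _ => le_rfl)
    (by simpa only [add_zero] using h) hL ht ht'
  simpa only [ge_iff_le, integral_zero, add_zero] using this

end Pool.Agent.MP_83cc0d_an.Cd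

end

-- part K3
section

namespace Pool.Agent.MP_83cc0d_an.Cd

open MeasureTheory Complex Filter Topology Metric Module Set
open scoped ENNReal InnerProductSpace ComplexConjugate

variable {V : Type} [NormedAddCommGroup V] [InnerProductSpace ℝ V] [FiniteDimensional ℝ V]
  [MeasurableSpace V] [BorelSpace V]

/-- The function `(1 - i v)⁻¹` of a real variable. -/
noncomputable def k3_q (v : ℝ) : ℂ := (1 - I * v)⁻¹

/-- The approximate identity. -/
noncomputable def k3_k (M : ℕ) (v : ℝ) : ℝ :=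
  Real.pi⁻¹ * ∑ i ∈ Finset.range M, (k3_q v ^ (i + 1)).re

/-- Its primitive. -/
noncomputable def k3_Th (M : ℕ) (v : ℝ) : ℝ :=
  Real.pi⁻¹ * (Real.arctan v + ∑ i ∈ Finset.range M, (k3_q v ^ i).im / i)

lemma k3_ne (v : ℝ) : (1 - I * v : ℂ) ≠ 0 := by
  intro h
  have := congrArg Complex.re h
  simp at this

lemma k3_q_le (v : ℝ) : ‖k3_q v‖ ≤ 1 := by
  rw [k3_q, norm_inv]
  apply inv_le_one_of_one_le₀
  have := Complex.abs_re_le_norm (1 - I * v : ℂ)
  simpa using this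

lemma k3_q_mul (v : ℝ) : ‖k3_q v‖ * |v| ≤ 1 := by
  rw [k3_q, norm_inv]
  have h := Complex.abs_im_le_norm (1 - I * v : ℂ)
  have h0 : 0 < ‖(1 - I * v : ℂ)‖ := norm_pos_iff.2 (k3_ne v)
  rw [inv_mul_le_iff₀ h0]
  simpa using h

lemma k3_q_rel (v : ℝ) : I * v * k3_q v = k3_q v - 1 := by
  have := k3_ne v
  rw [k3_q]
  field_simp
  ring

lemma k3_q_neg (v : ℝ) : k3_q (-v) = conj (k3_q v) := by
  simp [k3_q]

lemma k3_q_re (v : ℝ) : (k3_q v).re = 1 / (1 + v ^ 2) := by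
  rw [k3_q, Complex.inv_re, Complex.normSq_apply]
  simp [sq]

lemma k3_dq (v : ℝ) : HasDerivAt k3_q (I * k3_q v ^ 2) v := by
  have h1 : HasDerivAt (fun z : ℂ => (1 - I * z)⁻¹) (I * (1 - I * (v : ℂ))⁻¹ ^ 2) (v : ℂ) := by
    have h := (((hasDerivAt_id (v : ℂ)).const_mul I).const_sub 1).inv (k3_ne v)
    refine h.congr_deriv ?_
    simp only [id, mul_one, neg_neg, div_eq_mul_inv, inv_pow]
  exact h1.comp_ofReal

lemma k3_dpow (i : ℕ) (v : ℝ) :
    HasDerivAt (fun v => k3_q v ^ i) (i * I * k3_q v ^ (i + 1)) v := by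
  refine ((k3_dq v).fun_pow i).congr_deriv ?_
  cases i with
  | zero => simp
  | succ j => simp only [Nat.add_sub_cancel]; ring

lemma k3_dim (i : ℕ) (v : ℝ) :
    HasDerivAt (fun v => (k3_q v ^ i).im) (i * (k3_q v ^ (i + 1)).re) v := by
  have h := Complex.imCLM.hasFDerivAt.comp_hasDerivAt v (k3_dpow i v)
  refine HasDerivAt.congr_deriv h ?_
  simp

lemma k3_dTh {M : ℕ} (hM : 1 ≤ M) (v : ℝ) : HasDerivAt (k3_Th M) (k3_k M v) v := by
  obtain ⟨N, rfl⟩ : ∃ N, M = N + 1 := ⟨M - 1, by omega⟩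
  have h1 : HasDerivAt (fun v => ∑ i ∈ Finset.range (N + 1), (k3_q v ^ i).im / i)
      (∑ i ∈ Finset.range (N + 1), (i * (k3_q v ^ (i + 1)).re) / i) v :=
    HasDerivAt.fun_sum fun i _ => (k3_dim i v).div_const _
  refine (((Real.hasDerivAt_arctan v).add h1).const_mul Real.pi⁻¹).congr_deriv ?_
  rw [k3_k, Finset.sum_range_succ', Finset.sum_range_succ', zero_add, pow_one, k3_q_re]
  congr 1
  rw [add_comm]
  congr 1
  simp only [Nat.cast_zero, div_zero, add_zero]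
  refine Finset.sum_congr rfl fun i _ => ?_
  have : ((i + 1 : ℕ) : ℝ) ≠ 0 := by positivity
  field_simp

lemma k3_pi_le : Real.pi⁻¹ ≤ 1 := inv_le_one_of_one_le₀ (by linarith [Real.pi_gt_three])

lemma k3_pow_le (i : ℕ) (v : ℝ) : ‖k3_q v ^ i‖ ≤ 1 := by
  rw [norm_pow]
  exact pow_le_one₀ (norm_nonneg _) (k3_q_le v)

lemma k3_k_le (M : ℕ) (v : ℝ) : |k3_k M v| ≤ M := by
  rw [k3_k, abs_mul, abs_of_pos (inv_pos.2 Real.pi_pos)]
  have h : |∑ i ∈ Finset.range M, (k3_q v ^ (i + 1)).re| ≤ M := by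
    refine (Finset.abs_sum_le_sum_abs _ _).trans ?_
    refine (Finset.sum_le_sum fun i _ =>
      (Complex.abs_re_le_norm _).trans (k3_pow_le (i + 1) v)).trans ?_
    simp
  calc _ ≤ 1 * (M : ℝ) := mul_le_mul k3_pi_le h (abs_nonneg _) zero_le_one
    _ = M := one_mul _

lemma k3_Th_le (M : ℕ) (v : ℝ) : |k3_Th M v| ≤ 2 + M := by
  rw [k3_Th, abs_mul, abs_of_pos (inv_pos.2 Real.pi_pos)]
  have h : |∑ i ∈ Finset.range M, (k3_q v ^ i).im / i| ≤ M := by
    refine (Finset.abs_sum_le_sum_abs _ _).trans ?_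
    refine (Finset.sum_le_sum (g := fun _ => (1 : ℝ)) fun i _ => ?_).trans ?_
    · rcases Nat.eq_zero_or_pos i with rfl | hi
      · simp
      · have hi' : (1 : ℝ) ≤ i := by exact_mod_cast hi
        rw [abs_div, Nat.abs_cast, div_le_one (by linarith only [hi'])]
        exact ((Complex.abs_im_le_norm _).trans (k3_pow_le i v)).trans hi'
    · simp
  have h2 : |Real.arctan v| ≤ 2 := by
    have := Real.arctan_lt_pi_div_two v
    have := Real.neg_pi_div_two_lt_arctan v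
    have := Real.pi_le_four
    rw [abs_le]
    constructor <;> linarith
  have h3 := (abs_add_le _ _).trans (add_le_add h2 h)
  calc _ ≤ 1 * (2 + M : ℝ) := mul_le_mul k3_pi_le h3 (abs_nonneg _) zero_le_one
    _ = 2 + M := one_mul _

lemma k3_k_neg (M : ℕ) (v : ℝ) : k3_k M (-v) = k3_k M v := by
  simp only [k3_k, k3_q_neg, ← map_pow, Complex.conj_re]

lemma k3_cq : Continuous k3_q := continuous_iff_continuousAt.2 fun v => (k3_dq v).continuousAt

lemma k3_ck (M : ℕ) : Continuous (k3_k M) := by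
  unfold k3_k
  exact continuous_const.mul (continuous_finsetSum _ fun i _ =>
    Complex.continuous_re.comp (k3_cq.pow _))

lemma k3_cTh {M : ℕ} (hM : 1 ≤ M) : Continuous (k3_Th M) :=
  continuous_iff_continuousAt.2 fun v => (k3_dTh hM v).continuousAt

lemma k3_vk (M : ℕ) (v : ℝ) : v * k3_k M v = Real.pi⁻¹ * (k3_q v ^ M).im := by
  have h : ∀ N : ℕ, I * v * ∑ i ∈ Finset.range N, k3_q v ^ (i + 1) = k3_q v ^ N - 1 := by
    intro N
    induction N with
    | zero => simp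
    | succ N ih =>
      rw [Finset.sum_range_succ, mul_add, ih]
      linear_combination k3_q v ^ N * k3_q_rel v
  have h2 := congrArg Complex.im (h M)
  rw [k3_k, ← Complex.re_sum]
  simp only [mul_im, mul_re, I_re, ofReal_re, zero_mul, I_im, ofReal_im, mul_zero, sub_self,
    one_mul, zero_add, sub_im, one_im, sub_zero] at h2
  rw [← h2]
  ring

lemma k3_far (M : ℕ) {T Δ u : ℝ} (hT : 0 < T) (hΔ : 0 < Δ) (hu : Δ ≤ |u|) :
    |T * k3_k M (T * u)| ≤ ((T * Δ) ^ M * Δ)⁻¹ := by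
  have hu0 : 0 < |u| := hΔ.trans_le hu
  have h1 : |T * k3_k M (T * u)| * |u| ≤ ‖k3_q (T * u)‖ ^ M := by
    rw [← abs_mul, show T * k3_k M (T * u) * u = (T * u) * k3_k M (T * u) by ring, k3_vk, abs_mul,
      abs_of_pos (inv_pos.2 Real.pi_pos), ← norm_pow]
    calc _ ≤ 1 * ‖k3_q (T * u) ^ M‖ :=
          mul_le_mul k3_pi_le (Complex.abs_im_le_norm _) (abs_nonneg _) zero_le_one
      _ = _ := one_mul _
  have h2 : ‖k3_q (T * u)‖ * (T * Δ) ≤ 1 := by
    refine le_trans (mul_le_mul_of_nonneg_left ?_ (norm_nonneg _)) (k3_q_mul (T * u))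
    rw [abs_mul, abs_of_pos hT]
    exact mul_le_mul_of_nonneg_left hu hT.le
  have h3 : ‖k3_q (T * u)‖ ^ M * (T * Δ) ^ M ≤ 1 := by
    rw [← mul_pow]
    exact pow_le_one₀ (by positivity) h2
  rw [← one_div, le_div_iff₀ (by positivity)]
  calc |T * k3_k M (T * u)| * ((T * Δ) ^ M * Δ)
      = (|T * k3_k M (T * u)| * Δ) * (T * Δ) ^ M := by ring
    _ ≤ (|T * k3_k M (T * u)| * |u|) * (T * Δ) ^ M := by gcongr
    _ ≤ ‖k3_q (T * u)‖ ^ M * (T * Δ) ^ M := by gcongr
    _ ≤ 1 := h3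

lemma k3_dT (M : ℕ) (u T : ℝ) : HasDerivAt (fun T => T * k3_k M (T * u))
    (Real.pi⁻¹ * (M * (k3_q (T * u) ^ (M + 1)).re)) T := by
  have hk : ∀ v, ∃ d, HasDerivAt (k3_k M) d v := fun v =>
    ⟨_, (HasDerivAt.fun_sum fun i _ =>
      Complex.reCLM.hasFDerivAt.comp_hasDerivAt v (k3_dpow (i + 1) v)).const_mul Real.pi⁻¹⟩
  obtain ⟨d, hd⟩ := hk (T * u)
  have h1 : HasDerivAt (fun v => v * k3_k M v) (1 * k3_k M (T * u) + (T * u) * d) (T * u) :=
    (hasDerivAt_id (T * u)).mul hd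
  have h2 : HasDerivAt (fun v => v * k3_k M v)
      (Real.pi⁻¹ * (M * (k3_q (T * u) ^ (M + 1)).re)) (T * u) := by
    simp only [k3_vk]
    exact (k3_dim M (T * u)).const_mul _
  have h3 : HasDerivAt (fun T => k3_k M (T * u)) (d * (1 * u)) T :=
    HasDerivAt.comp (h₂ := k3_k M) (h := fun T => T * u) T hd ((hasDerivAt_id T).mul_const u)
  refine ((hasDerivAt_id T).mul h3).congr_deriv ?_
  rw [← h1.unique h2]
  simp only [id]
  ring

lemma k3_lim (M : ℕ) (u : ℝ) : Tendsto (fun T : ℝ => k3_Th M (T * u)) atTop (𝓝 (sg u)) := by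
  have key : ∀ {l : Filter ℝ} {c : ℝ}, Tendsto (fun v : ℝ => |v|) l atTop →
      Tendsto Real.arctan l (𝓝 c) → Tendsto (k3_Th M) l (𝓝 (Real.pi⁻¹ * c)) := by
    intro l c hl hc
    have hq : Tendsto k3_q l (𝓝 0) := by
      rw [tendsto_zero_iff_norm_tendsto_zero]
      refine squeeze_zero' (Eventually.of_forall fun _ => norm_nonneg _) ?_
        (tendsto_inv_atTop_zero.comp hl)
      filter_upwards [hl.eventually_gt_atTop 0] with v hv
      simp only [Function.comp]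
      rw [← one_div, le_div_iff₀ hv]
      exact k3_q_mul v
    have hs : Tendsto (fun v => ∑ i ∈ Finset.range M, (k3_q v ^ i).im / i) l
        (𝓝 (∑ i ∈ Finset.range M, ((0 : ℂ) ^ i).im / i)) :=
      tendsto_finsetSum _ fun i _ =>
        ((Complex.continuous_im.tendsto _).comp (hq.pow i)).div_const _
    have h0 : ∑ i ∈ Finset.range M, ((0 : ℂ) ^ i).im / (i : ℝ) = 0 := by
      refine Finset.sum_eq_zero fun i _ => ?_
      rcases Nat.eq_zero_or_pos i with rfl | hi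
      · simp
      · simp [hi.ne']
    rw [h0] at hs
    have := (hc.add hs).const_mul Real.pi⁻¹
    rw [add_zero] at this
    exact this
  have hpi := Real.pi_ne_zero
  rcases lt_trichotomy u 0 with hu | rfl | hu
  · have h := (key tendsto_abs_atBot_atTop
      (Real.tendsto_arctan_atBot.mono_right nhdsWithin_le_nhds)).comp
      (tendsto_id.atTop_mul_const_of_neg hu)
    have e : sg u = Real.pi⁻¹ * -(Real.pi / 2) := by
      rw [sg, if_neg (not_lt.2 hu.le), if_pos hu]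
      field_simp
    rw [e]
    exact h
  · simp [k3_Th, k3_q, sg]
  · have h := (key tendsto_abs_atTop_atTop
      (Real.tendsto_arctan_atTop.mono_right nhdsWithin_le_nhds)).comp
      (tendsto_id.atTop_mul_const hu)
    have e : sg u = Real.pi⁻¹ * (Real.pi / 2) := by
      rw [sg, if_pos hu]
      field_simp
    rw [e]
    exact h

lemma k3_lip {a D : ℝ} {F f : ℝ → ℝ} (hF : ∀ t, HasDerivAt F (f t) t)
    (hf : ∀ t, a < t → |f t| ≤ D) : Lip a F D := fun _ _ ht ht' =>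
  (convex_Ioi a).norm_image_sub_le_of_norm_hasDerivWithin_le (f := F) (f' := f)
    (fun x _ => (hF x).hasDerivWithinAt) hf ht ht'

section
variable {Ω : Type} [MeasurableSpace Ω] {m : Measure Ω} {G w : Ω → ℝ}

lemma k3_int (hw : Integrable w m) {f : Ω → ℝ} (hf : Measurable f) {C : ℝ}
    (hC : ∀ ω, |f ω| ≤ C) : Integrable (fun ω => f ω * w ω) m :=
  hw.bdd_mul hf.aestronglyMeasurable (Eventually.of_forall hC)

lemma k3_bd {f x C : ℝ} (h : |f| ≤ C) : ‖f * x‖ ≤ C * ‖x‖ := by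
  rw [norm_mul]
  exact mul_le_mul_of_nonneg_right h (norm_nonneg _)

lemma k3_Tk (M : ℕ) (T v : ℝ) : |T * k3_k M v| ≤ |T| * M := by
  rw [abs_mul]
  exact mul_le_mul_of_nonneg_left (k3_k_le M v) (abs_nonneg _)

lemma k3_mk (hG : Measurable G) (M : ℕ) (T t : ℝ) :
    Measurable fun ω => T * k3_k M (T * (G ω - t)) :=
  ((k3_ck M).measurable.comp ((hG.sub_const t).const_mul T)).const_mul T

lemma k3_mTh (hG : Measurable G) {M : ℕ} (hM : 1 ≤ M) (T t : ℝ) :
    Measurable fun ω => k3_Th M (T * (t - G ω)) :=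
  (k3_cTh hM).measurable.comp ((hG.const_sub t).const_mul T)

lemma k3_dPsi (hG : Measurable G) (hw : Integrable w m) {M : ℕ} (hM : 1 ≤ M) (T t : ℝ) :
    HasDerivAt (fun t => ∫ ω, k3_Th M (T * (t - G ω)) * w ω ∂m)
      (∫ ω, T * k3_k M (T * (G ω - t)) * w ω ∂m) t := by
  refine (hasDerivAt_integral_of_dominated_loc_of_deriv_le (μ := m) (s := univ)
    (F := fun t ω => k3_Th M (T * (t - G ω)) * w ω)
    (F' := fun t ω => T * k3_k M (T * (G ω - t)) * w ω) (bound := fun ω => |T| * M * ‖w ω‖)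
    univ_mem (Eventually.of_forall fun x => ?_) ?_ ?_ (Eventually.of_forall fun ω x _ => ?_)
    (hw.norm.const_mul _) (Eventually.of_forall fun ω x _ => ?_)).2
  · exact (k3_mTh hG hM T x).aestronglyMeasurable.mul hw.1
  · exact k3_int hw (k3_mTh hG hM T t) fun ω => k3_Th_le M _
  · exact (k3_mk hG M T t).aestronglyMeasurable.mul hw.1
  · exact k3_bd (k3_Tk M T _)
  · have h1 : HasDerivAt (fun x => T * (x - G ω)) (T * 1) x :=
      ((hasDerivAt_id x).sub_const (G ω)).const_mul T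
    have h2 := HasDerivAt.comp (h₂ := k3_Th M) (h := fun x => T * (x - G ω)) x (k3_dTh hM _) h1
    refine (h2.mul_const (w ω)).congr_deriv ?_
    rw [← k3_k_neg, show -(T * (x - G ω)) = T * (G ω - x) by ring]
    ring

lemma k3_ch (hG : Measurable G) (hw : Integrable w m) (M : ℕ) (T : ℝ) :
    Continuous fun t => ∫ ω, T * k3_k M (T * (G ω - t)) * w ω ∂m := by
  refine continuous_of_dominated (bound := fun ω => |T| * M * ‖w ω‖)
    (fun t => (k3_mk hG M T t).aestronglyMeasurable.mul hw.1)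
    (fun t => Eventually.of_forall fun ω => k3_bd (k3_Tk M T _)) (hw.norm.const_mul _)
    (Eventually.of_forall fun ω => ?_)
  exact (continuous_const.mul ((k3_ck M).comp
    (continuous_const.mul (continuous_const.sub continuous_id)))).mul continuous_const

lemma k3_dh (hG : Measurable G) (hw : Integrable w m) (M : ℕ) (t T : ℝ) :
    HasDerivAt (fun T => ∫ ω, T * k3_k M (T * (G ω - t)) * w ω ∂m)
      (Real.pi⁻¹ * M * (∫ ω, k3_q (T * (G ω - t)) ^ (M + 1) * (w ω : ℝ) ∂m).re) T := by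
  have hm : ∀ T : ℝ, Measurable fun ω => k3_q (T * (G ω - t)) ^ (M + 1) := fun T =>
    (k3_cq.measurable.comp ((hG.sub_const t).const_mul T)).pow_const _
  have hb : ∀ v : ℝ, |Real.pi⁻¹ * (M * (k3_q v ^ (M + 1)).re)| ≤ M := fun v => by
    rw [abs_mul, abs_mul, abs_of_pos (inv_pos.2 Real.pi_pos), Nat.abs_cast]
    have h := (Complex.abs_re_le_norm _).trans (k3_pow_le (M + 1) v)
    calc _ ≤ 1 * ((M : ℝ) * 1) := by
          gcongr
          exact k3_pi_le
      _ = M := by ring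
  have h := (hasDerivAt_integral_of_dominated_loc_of_deriv_le (μ := m) (s := univ) (x₀ := T)
    (F := fun T ω => T * k3_k M (T * (G ω - t)) * w ω)
    (F' := fun T ω => Real.pi⁻¹ * (M * (k3_q (T * (G ω - t)) ^ (M + 1)).re) * w ω)
    (bound := fun ω => M * ‖w ω‖) univ_mem
    (Eventually.of_forall fun x => (k3_mk hG M x t).aestronglyMeasurable.mul hw.1)
    (k3_int hw (k3_mk hG M T t) fun ω => k3_Tk M T _)
    ((((Complex.measurable_re.comp (hm T)).const_mul _).const_mul _).aestronglyMeasurable.mul hw.1)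
    (Eventually.of_forall fun ω x _ => k3_bd (hb _)) (hw.norm.const_mul _)
    (Eventually.of_forall fun ω x _ => (k3_dT M (G ω - t) x).mul_const (w ω))).2
  refine h.congr_deriv ?_
  have hi : Integrable (fun ω => k3_q (T * (G ω - t)) ^ (M + 1) * (w ω : ℝ)) m :=
    hw.ofReal.bdd_mul (hm T).aestronglyMeasurable
      (Eventually.of_forall fun ω => k3_pow_le (M + 1) _)
  have hre := integral_re hi
  simp only [RCLike.re_to_complex] at hre
  rw [← hre, ← integral_const_mul]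
  refine integral_congr_ae (Eventually.of_forall fun ω => ?_)
  simp only [mul_re, ofReal_re, ofReal_im, mul_zero, sub_zero]
  ring

end

lemma k3_tail {f f' : ℝ → ℝ} {C η T T' : ℝ} (hη : 0 < η) (hC : 0 ≤ C) (hT : 0 < T) (hTT : T ≤ T')
    (hf : ∀ S, HasDerivAt f (f' S) S) (hb : ∀ S, T ≤ S → |f' S| ≤ C * S ^ (-η - 1)) :
    |f T' - f T| ≤ C * T ^ (-η) / η := by
  have hB : ∀ S, T ≤ S → HasDerivAt (fun S : ℝ => C / η * (T ^ (-η) - S ^ (-η)))
      (C * S ^ (-η - 1)) S := fun S hS => by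
    refine (((Real.hasDerivAt_rpow_const (p := -η) (Or.inl (hT.trans_le hS).ne')).const_sub
      (T ^ (-η))).const_mul (C / η)).congr_deriv ?_
    field_simp
  have h := image_norm_le_of_norm_deriv_right_le_deriv_boundary' (f := fun S => f S - f T)
    (f' := f') (a := T) (b := T')
    (fun S _ => ((hf S).sub_const _).continuousAt.continuousWithinAt)
    (fun S _ => ((hf S).sub_const _).hasDerivWithinAt)
    (B := fun S : ℝ => C / η * (T ^ (-η) - S ^ (-η))) (B' := fun S => C * S ^ (-η - 1))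
    (by simp) (fun S hS => (hB S hS.1).continuousAt.continuousWithinAt)
    (fun S hS => (hB S hS.1).hasDerivWithinAt) (fun S hS => hb S hS.1) ⟨hTT, le_rfl⟩
  have h0 : 0 ≤ C / η * T' ^ (-η) := by
    have := hT.trans_le hTT
    positivity
  calc |f T' - f T| ≤ C / η * (T ^ (-η) - T' ^ (-η)) := h
    _ = C * T ^ (-η) / η - C / η * T' ^ (-η) := by ring
    _ ≤ _ := by linarith only [h0]

/-- From frequency pieces to a `C¹` distribution function. With `q v = (1 - I v)⁻¹` put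
`k v = π⁻¹ ∑ i ∈ range M, (q v ^ (i+1)).re`,
`Θ v = π⁻¹ (arctan v + ∑ i ∈ range M, (q v ^ i).im / i)`. Facts: `Θ' = k` (`M ≥ 1`), `Θ` bounded,
`Θ (T u) → sg u` as `T → ∞`, `k` even and continuous, `|k| ≤ M`, `v * k v = (q v ^ M).im / π`, so
`|T k (T u)| ≤ ((T |u|)^M |u|)⁻¹`, and `d/dT (T k (T u)) = (M / π) (rho M (T u)).re`.
Let `Ψ T t = ∫ Θ (T (t - G)) w`, `h T t = ∫ T k (T (t - G)) w`: `Ψ T` has the continuous
derivative `h T` (`hasStrictDerivAt_of_hasDerivAt_of_continuousAt`), `d/dT h T t` has norm at most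
`M B T^(-η-1)`, so `|h T' t - h T t| ≤ M B T^(-η) / η` for `T0 ≤ T ≤ T'`. The mean value
inequality and `T' → ∞` (dominated convergence) give `Lip a (Phi - Ψ T) (M B T^(-η) / η)`;
conclude with `SD.close`, and bound `|h T0 t|` by splitting at `|G - t| ≤ Δ`. -/
lemma lemH {Ω : Type} [MeasurableSpace Ω] (m : Measure Ω) [IsFiniteMeasure m] {G w : Ω → ℝ}
    (hG : Measurable G) (hw : Integrable w m) {M : ℕ} (hM : 1 ≤ M) {a T0 B η Δ P0 : ℝ}
    (hT0 : 0 < T0) (hη : 0 < η) (hΔ : 0 < Δ)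
    (hT : ∀ T t : ℝ, T0 ≤ T → a < t →
      ‖∫ ω, (T : ℂ) * rho M ((T * (G ω - t) : ℝ) : ℂ) * (w ω : ℝ) ∂m‖ ≤ B * T ^ (-η))
    (hP : ∀ t, a < t → ∫ ω in {ω | |G ω - t| ≤ Δ}, |w ω| ∂m ≤ P0) :
    SD a (Phi m G w) ∧ Lip a (Phi m G w)
      (M * T0 * P0 + (∫ ω, |w ω| ∂m) * ((T0 * Δ) ^ M * Δ)⁻¹ + M * B * T0 ^ (-η) / η) := by
  have hB : 0 ≤ B := by
    have h := (norm_nonneg _).trans (hT T0 (a + 1) le_rfl (by linarith only []))
    exact nonneg_of_mul_nonneg_left h (Real.rpow_pos_of_pos hT0 _)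
  set Ψ : ℝ → ℝ → ℝ := fun T t => ∫ ω, k3_Th M (T * (t - G ω)) * w ω ∂m with hΨ
  set h : ℝ → ℝ → ℝ := fun T t => ∫ ω, T * k3_k M (T * (G ω - t)) * w ω ∂m with hh
  have hd : ∀ T t, HasDerivAt (Ψ T) (h T t) t := fun T t => k3_dPsi hG hw hM T t
  have hSD : ∀ T, SD a (Ψ T) := fun T t _ =>
    ⟨h T t, hasStrictDerivAt_of_hasDerivAt_of_continuousAt (Eventually.of_forall (hd T))
      (k3_ch hG hw M T).continuousAt⟩
  have hdiff : ∀ T T' t, T0 ≤ T → T ≤ T' → a < t → |h T' t - h T t| ≤ M * B * T ^ (-η) / η := by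
    intro T T' t h1 h2 ht
    refine k3_tail (f := fun T => h T t) hη (by positivity) (hT0.trans_le h1) h2
      (k3_dh hG hw M t) fun S hS => ?_
    have hS0 : 0 < S := hT0.trans_le (h1.trans hS)
    have h3 := hT S t (h1.trans hS) ht
    have e : ∫ ω, (S : ℂ) * rho M ((S * (G ω - t) : ℝ) : ℂ) * (w ω : ℝ) ∂m =
        (S : ℂ) * ∫ ω, k3_q (S * (G ω - t)) ^ (M + 1) * (w ω : ℝ) ∂m := by
      rw [← integral_const_mul]
      exact integral_congr_ae (Eventually.of_forall fun ω => mul_assoc _ _ _)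
    rw [e, norm_mul, Complex.norm_real, Real.norm_of_nonneg hS0.le] at h3
    have h4 : ‖∫ ω, k3_q (S * (G ω - t)) ^ (M + 1) * (w ω : ℝ) ∂m‖ ≤ B * S ^ (-η - 1) := by
      rw [Real.rpow_sub_one hS0.ne', ← mul_div_assoc, le_div_iff₀ hS0, mul_comm]
      exact h3
    rw [abs_mul, abs_mul, abs_of_pos (inv_pos.2 Real.pi_pos), Nat.abs_cast]
    have h5 := (Complex.abs_re_le_norm _).trans h4
    calc _ ≤ 1 * (M : ℝ) * (B * S ^ (-η - 1)) := by
          gcongr
          exact k3_pi_le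
      _ = _ := by ring
  have hlim : ∀ t, Tendsto (fun T => Ψ T t) atTop (𝓝 (Phi m G w t)) := fun t =>
    tendsto_integral_filter_of_dominated_convergence (fun ω => (2 + M) * ‖w ω‖)
      (Eventually.of_forall fun T => (k3_mTh hG hM T t).aestronglyMeasurable.mul hw.1)
      (Eventually.of_forall fun T => Eventually.of_forall fun ω => k3_bd (k3_Th_le M _))
      (hw.norm.const_mul _) (Eventually.of_forall fun ω => (k3_lim M _).mul_const _)
  have hL : ∀ T, T0 ≤ T → Lip a (fun t => Phi m G w t - Ψ T t) (M * B * T ^ (-η) / η) := by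
    intro T h1 t t' ht ht'
    have h2 : Tendsto (fun T' => |(Ψ T' t' - Ψ T t') - (Ψ T' t - Ψ T t)|) atTop
        (𝓝 |(Phi m G w t' - Ψ T t') - (Phi m G w t - Ψ T t)|) :=
      (((hlim t').sub_const _).sub ((hlim t).sub_const _)).abs
    refine le_of_tendsto h2 ?_
    filter_upwards [eventually_ge_atTop T] with T' h3
    exact k3_lip (F := fun t => Ψ T' t - Ψ T t) (f := fun t => h T' t - h T t)
      (fun t => (hd T' t).sub (hd T t)) (fun t ht => hdiff T T' t h1 h3 ht) t t' ht ht'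
  constructor
  · refine SD.close fun ε hε => ?_
    have h1 : Tendsto (fun T : ℝ => M * B * T ^ (-η) / η) atTop (𝓝 (M * B * 0 / η)) :=
      ((tendsto_rpow_neg_atTop hη).const_mul _).div_const _
    rw [mul_zero, zero_div] at h1
    obtain ⟨T, h2, h3⟩ := ((h1.eventually_le_const hε).and (eventually_ge_atTop T0)).exists
    exact ⟨Ψ T, hSD T, (hL T h3).mono h2⟩
  · have h1 : Lip a (Ψ T0) (M * T0 * P0 + (∫ ω, |w ω| ∂m) * ((T0 * Δ) ^ M * Δ)⁻¹) := by
      refine k3_lip (hd T0) fun t ht => ?_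
      have hS : MeasurableSet {ω | |G ω - t| ≤ Δ} :=
        measurableSet_le (hG.sub_const t).abs measurable_const
      have hi1 : Integrable ({ω | |G ω - t| ≤ Δ}.indicator fun ω => M * T0 * |w ω|) m :=
        (hw.abs.const_mul _).indicator hS
      have hi2 : Integrable (fun ω => |w ω| * ((T0 * Δ) ^ M * Δ)⁻¹) m := hw.abs.mul_const _
      have h2 := norm_integral_le_of_norm_le (f := fun ω => T0 * k3_k M (T0 * (G ω - t)) * w ω)
        (hi1.add hi2) (Eventually.of_forall fun ω => ?_)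
      · rw [integral_add' hi1 hi2, integral_indicator hS, integral_const_mul,
          integral_mul_const] at h2
        refine le_trans h2 ?_
        gcongr
        exact hP t ht
      · simp only [Pi.add_apply]
        by_cases hω : ω ∈ {ω | |G ω - t| ≤ Δ}
        · rw [indicator_of_mem hω]
          have h3 := k3_bd (x := w ω) (k3_Tk M T0 (T0 * (G ω - t)))
          rw [abs_of_pos hT0, Real.norm_eq_abs (w ω), mul_comm T0 (M : ℝ)] at h3
          have h4 : 0 ≤ |w ω| * ((T0 * Δ) ^ M * Δ)⁻¹ := by positivity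
          linarith only [h3, h4]
        · rw [indicator_of_notMem hω, zero_add, mul_comm |w ω|]
          exact k3_bd (k3_far M hT0 hΔ (not_le.1 hω).le)
    have h2 := h1.add (hL T0 le_rfl)
    simpa only [add_sub_cancel] using h2

end Pool.Agent.MP_83cc0d_an.Cd

end

-- part K4
section

namespace Pool.Agent.MP_83cc0d_an.Cd

open MeasureTheory Complex Filter Topology Metric Module Set
open scoped ENNReal InnerProductSpace ComplexConjugate

variable {V : Type} [NormedAddCommGroup V] [InnerProductSpace ℝ V] [FiniteDimensional ℝ V]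
  [MeasurableSpace V] [BorelSpace V]

lemma k4_cont {c : ℝ → ℝ} (hc : ∀ t, 0 < t → ∃ h, HasStrictDerivAt c h t) :
    ContinuousOn (deriv c) (Ioi 0) := by
  intro t ht
  refine ContinuousAt.continuousWithinAt ?_
  rw [Metric.continuousAt_iff']
  intro ε hε
  obtain ⟨h, hh⟩ := hc t ht
  have h1 : HasStrictDerivAt (fun x => c x - h * x) (h - h * 1) t :=
    hh.sub ((hasStrictDerivAt_id t).const_mul h)
  obtain ⟨K, hK0, hK⟩ : ∃ K : NNReal, 0 < K ∧ (K : ℝ) < ε :=
    ⟨⟨ε / 2, by positivity⟩, by rw [← NNReal.coe_pos]; show 0 < ε / 2; positivity,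
      by show ε / 2 < ε; linarith⟩
  obtain ⟨s, hs, hL⟩ := h1.hasStrictFDerivAt.exists_lipschitzOnWith_of_nnnorm_lt K (by simpa)
  filter_upwards [eventually_mem_nhds_iff.2 hs, Ioi_mem_nhds ht] with x hx hx0
  obtain ⟨h', hh'⟩ := hc x hx0
  have h2 : HasDerivAt (fun x => c x - h * x) (h' - h * 1) x :=
    hh'.hasDerivAt.sub ((hasDerivAt_id x).const_mul h)
  have h3 := h2.le_of_lipschitzOn hx hL
  rw [hh'.hasDerivAt.deriv, hh.hasDerivAt.deriv, dist_eq_norm]
  rw [mul_one] at h3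
  exact h3.trans_lt hK

lemma k4_meas (ν : Measure ℝ) [IsFiniteMeasure ν]
    (hc : ∀ t, 0 < t → ∃ h, HasStrictDerivAt (fun t => ν.real (Iic t)) h t) :
    ∃ h : ℝ → ℝ, ContinuousOn h (Ioi 0) ∧ (∀ t, 0 < t → 0 ≤ h t) ∧
      ν.restrict (Ioi 0) =
        (volume.restrict (Ioi 0)).withDensity fun t => ENNReal.ofReal (h t) := by
  set c : ℝ → ℝ := fun t => ν.real (Iic t) with hcdef
  have hmono : Monotone c := fun x y hxy => measureReal_mono (Iic_subset_Iic.2 hxy)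
  have hcont := k4_cont hc
  refine ⟨deriv c, hcont, fun t _ => hmono.deriv_nonneg, ?_⟩
  rw [← restrict_withDensity measurableSet_Ioi]
  set ρ : Measure ℝ := volume.withDensity fun t => ENNReal.ofReal (deriv c t) with hρ
  have key : ∀ a b : ℝ, 0 < a → ν (Ioc a b) = ρ (Ioc a b) := by
    intro a b ha
    rcases le_or_gt b a with hab | hab
    · rw [Ioc_eq_empty_of_le hab]; simp
    have hsub : uIcc a b ⊆ Ioi 0 := by
      rw [uIcc_of_le hab.le]; exact fun x hx => ha.trans_le hx.1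
    have hint : IntervalIntegrable (deriv c) volume a b := (hcont.mono hsub).intervalIntegrable
    have hftc : ∫ x in a..b, deriv c x = c b - c a :=
      intervalIntegral.integral_deriv_eq_sub
        (fun x hx => (hc x (hsub hx)).choose_spec.hasDerivAt.differentiableAt) hint
    rw [hρ, withDensity_apply _ measurableSet_Ioc,
      ← ofReal_integral_eq_lintegral_ofReal hint.1
        (Eventually.of_forall fun x => hmono.deriv_nonneg),
      ← intervalIntegral.integral_of_le hab.le, hftc]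
    have hd : Ioc a b = Iic b \ Iic a := by
      ext x; simp only [mem_Ioc, and_comm, Iic_sdiff_Iic]
    simp only [hcdef]
    rw [hd, ← measureReal_sdiff (Iic_subset_Iic.2 hab.le) measurableSet_Iic, ofReal_measureReal]
  have hU : Ioi (0 : ℝ) = ⋃ n : ℕ, Ioi (1 / ((n : ℝ) + 1)) := by
    ext x
    simp only [mem_Ioi, mem_iUnion]
    exact ⟨fun hx => exists_nat_one_div_lt hx, fun ⟨n, hn⟩ => lt_trans (by positivity) hn⟩
  rw [hU, Measure.restrict_iUnion_congr]
  intro n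
  refine Measure.ext_of_Ioc' _ _ (fun a b _ => measure_ne_top _ _) fun a b _ => ?_
  rw [Measure.restrict_apply measurableSet_Ioc, Measure.restrict_apply measurableSet_Ioc,
    Ioc_inter_Ioi]
  exact key _ _ (lt_max_of_lt_right (by positivity))

lemma k4_sg {t g : ℝ} (ht : 0 < t) (hg : 0 ≤ g) : sg (t ^ 2 - g) = sg (t - √g) := by
  have h : t ^ 2 - g = (t + √g) * (t - √g) := by
    have := Real.sq_sqrt hg
    linarith only [this]
  rw [h, sg_mul (by positivity)]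

/-- `F t = Phi m G 1 (t²)` is strictly differentiable at every `t > 0`; `h = deriv F` is continuous
on `(0, ∞)` (`strict_iff`: the slopes near `(t, t)` are close to `h t`) and nonnegative (`F` is
monotone); without atoms `F v - F u = ν (Ioc u v)` for `0 < u ≤ v`; fundamental theorem of
calculus, then extensionality on `Ioc` (for instance on each `Ioi (1/(n+1))`). -/
lemma dens {Ω : Type} [MeasurableSpace Ω] (m : Measure Ω) [IsFiniteMeasure m] {G : Ω → ℝ}
    (hG : Measurable G) (h0 : ∀ ω, 0 ≤ G ω) (hSD : ∀ a, 0 < a → SD a (Phi m G fun _ => 1))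
    (hat : ∀ t : ℝ, (m.map fun ω => √(G ω)) {t} = 0) :
    ∃ h : ℝ → ℝ, ContinuousOn h (Ioi 0) ∧ (∀ t, 0 < t → 0 ≤ h t) ∧
      (m.map fun ω => √(G ω)).restrict (Ioi 0) =
        (volume.restrict (Ioi 0)).withDensity fun t => ENNReal.ofReal (h t) := by
  have hm : Measurable fun ω => √(G ω) := hG.sqrt
  set ν : Measure ℝ := m.map fun ω => √(G ω) with hν
  have hF : ∀ t, 0 < t → Phi m G (fun _ => 1) (t ^ 2) = ν.real (Iic t) - ν.real univ / 2 := by
    intro t ht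
    have h1 : Phi m G (fun _ => 1) (t ^ 2) = ∫ s, sg (t - s) ∂ν := by
      have hs : Measurable fun s : ℝ => sg (t - s) :=
        sg_meas.comp (measurable_const.sub measurable_id)
      rw [hν, integral_map hm.aemeasurable hs.aestronglyMeasurable]
      unfold Phi
      simp only [mul_one, k4_sg ht (h0 _)]
    have h2 : (fun s => sg (t - s)) =ᵐ[ν] fun s => (Iic t).indicator (fun _ => (1 : ℝ)) s - 1 / 2 := by
      have : ∀ᵐ s ∂ν, s ≠ t := by
        rw [ae_iff]; simpa only [ne_eq, Decidable.not_not, ofPred_eq_eq_singleton] using hat t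
      filter_upwards [this] with s hs
      unfold sg
      rcases lt_or_gt_of_ne hs with h | h
      · rw [if_pos (by linarith), indicator_of_mem (mem_Iic.2 h.le)]; norm_num
      · rw [if_neg (by linarith), if_pos (by linarith), indicator_of_notMem (by simpa using h)]
        norm_num
    rw [h1, integral_congr_ae h2, integral_sub ((integrable_const _).indicator measurableSet_Iic)
      (integrable_const _), integral_indicator measurableSet_Iic]
    simp only [integral_const, smul_eq_mul, mul_one, measureReal_restrict_apply_univ]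
    ring
  refine k4_meas ν fun t ht => ?_
  obtain ⟨h, hh⟩ := hSD (t ^ 2 / 2) (by positivity) (t ^ 2) (by linarith only [sq_pos_of_pos ht])
  have h3 := (HasStrictDerivAt.comp (h := fun x : ℝ => x ^ 2) t hh (hasStrictDerivAt_pow 2 t)).add_const (ν.real univ / 2)
  refine ⟨_, h3.congr_of_eventuallyEq ?_⟩
  filter_upwards [Ioi_mem_nhds ht] with x hx
  simp only [Function.comp]
  rw [hF x hx]
  ring

end Pool.Agent.MP_83cc0d_an.Cd

end

-- part P1
section

namespace Pool.Agent.MP_83cc0d_an.Cd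

open MeasureTheory Complex Filter Topology Metric Module Set
open scoped ENNReal InnerProductSpace ComplexConjugate

variable {V : Type} [NormedAddCommGroup V] [InnerProductSpace ℝ V] [FiniteDimensional ℝ V]
  [MeasurableSpace V] [BorelSpace V]

omit [MeasurableSpace V] [BorelSpace V] in
lemma p1_inner_proj {z : V} (hz : z ≠ 0) (x y : V) :
    ⟪(ℝ ∙ z)ᗮ.orthogonalProjectionOnto x, (ℝ ∙ z)ᗮ.orthogonalProjectionOnto y⟫_ℝ =
      ⟪x, y⟫_ℝ - ⟪z, x⟫_ℝ * ⟪z, y⟫_ℝ / ‖z‖ ^ 2 := by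
  have hen : 0 < ‖z‖ := norm_pos_iff.2 hz
  have hp : ∀ x : V, ((ℝ ∙ z)ᗮ.orthogonalProjectionOnto x : V) =
      x - (⟪z, x⟫_ℝ / ‖z‖ ^ 2) • z := by
    intro x
    have h1 : ((ℝ ∙ z)ᗮ.orthogonalProjectionOnto x : V) = x - (ℝ ∙ z).starProjection x :=
      Submodule.starProjection_orthogonal_val x
    rw [h1, Submodule.starProjection_singleton]
    simp
  rw [Submodule.coe_inner, hp, hp]
  simp only [inner_sub_left, inner_sub_right, inner_smul_left, inner_smul_right, conj_trivial,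
    real_inner_self_eq_norm_sq, real_inner_comm z x]
  field_simp
  ring

/-- Orthogonal projection onto `(ℝ ∙ z)ᗮ` followed by an isometry onto `ℝ^n`
(`stdOrthonormalBasis`, `reindex`, `repr`; see `det_gram_cons` in `Mg/Main`). -/
lemma exists_proj {n : ℕ} {z : EuclideanSpace ℝ (Fin (n + 1))} (hz : z ≠ 0) :
    ∃ P : EuclideanSpace ℝ (Fin (n + 1)) →ₗ[ℝ] EuclideanSpace ℝ (Fin n),
      ∀ x y, ⟪P x, P y⟫_ℝ = ⟪x, y⟫_ℝ - ⟪z, x⟫_ℝ * ⟪z, y⟫_ℝ / ‖z‖ ^ 2 := by
  have hd : finrank ℝ (ℝ ∙ z)ᗮ = n := by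
    haveI : Fact (finrank ℝ (EuclideanSpace ℝ (Fin (n + 1))) = n + 1) := ⟨by simp⟩
    exact Submodule.finrank_orthogonal_span_singleton hz
  let b := (stdOrthonormalBasis ℝ (ℝ ∙ z)ᗮ).reindex (finCongr hd)
  refine ⟨b.repr.toLinearEquiv.toLinearMap ∘ₗ
    ((ℝ ∙ z)ᗮ.orthogonalProjectionOnto : _ →L[ℝ] _).toLinearMap, fun x y => ?_⟩
  rw [← p1_inner_proj hz, ← b.repr.inner_map_map]
  rfl

/-- `QQ_tube` with `e = ‖z‖⁻¹ z`, `c = 1`, `l = R` for `r ≤ 1`; `QQ_le_mass` for `r ≥ 1`. -/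
lemma Cl.proj {W : Type} [NormedAddCommGroup W] [InnerProductSpace ℝ W] [FiniteDimensional ℝ W]
    [MeasurableSpace W] [BorelSpace W] {μ : Measure V} {R A s : ℝ} (hR : 1 ≤ R) (hA : 0 ≤ A)
    (hs : 1 ≤ s) (h : Cl μ R A s) {z : V} (hz : z ≠ 0) {P : V →ₗ[ℝ] W}
    (hP : ∀ x y, ⟪P x, P y⟫_ℝ = ⟪x, y⟫_ℝ - ⟪z, x⟫_ℝ * ⟪z, y⟫_ℝ / ‖z‖ ^ 2) :
    Cl (μ.map P) R (A + A ^ 2 + 9 * A * R) (s - 1) := by
  have hzn : 0 < ‖z‖ := norm_pos_iff.2 hz
  have hm : Measurable P := P.continuous_of_finiteDimensional.measurable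
  have hn : ∀ x, ‖P x‖ ^ 2 = ‖x‖ ^ 2 - ⟪z, x⟫_ℝ ^ 2 / ‖z‖ ^ 2 := by
    intro x
    have := hP x x
    rw [real_inner_self_eq_norm_sq, real_inner_self_eq_norm_sq] at this
    rw [this]; ring
  have hmass : (μ.map P) univ ≤ ENNReal.ofReal A := by
    rw [Measure.map_apply hm MeasurableSet.univ, preimage_univ]; exact h.mass
  haveI := h.fin
  have hAR : 0 ≤ A * R := by positivity
  refine ⟨hmass.trans (ENNReal.ofReal_le_ofReal (by linarith only [sq_nonneg A, hAR])), ?_, fun r hr => ?_⟩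
  · rw [ae_map_iff hm.aemeasurable (measurableSet_le measurable_norm measurable_const)]
    filter_upwards [h.bdd] with x hx
    have h1 : ‖P x‖ ^ 2 ≤ ‖x‖ ^ 2 := by
      rw [hn]; have : 0 ≤ ⟪z, x⟫_ℝ ^ 2 / ‖z‖ ^ 2 := by positivity
      linarith
    exact (abs_le_of_sq_le_sq' h1 (norm_nonneg _)).2.trans hx
  · have hrs : 0 < r ^ (s - 1) := Real.rpow_pos_of_pos hr _
    rcases le_total r 1 with h1 | h1
    · have he : ‖(‖z‖⁻¹ • z : V)‖ = 1 := by
        rw [norm_smul, norm_inv, norm_norm, inv_mul_cancel₀ hzn.ne']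
      have := QQ_tube μ hm he (c := 1) (l := R) (A := A) (s := s) one_pos (by linarith) hA
        (fun x y => by
          rw [← map_sub, hn, inner_smul_left, conj_trivial, mul_pow, inv_pow, one_pow, one_mul]
          apply le_of_eq; ring)
        (by
          filter_upwards [h.bdd] with x hx
          have := abs_real_inner_le_norm (‖z‖⁻¹ • z : V) x
          rw [he, one_mul] at this
          exact this.trans hx) h.pair hr
      refine this.trans (ENNReal.ofReal_le_ofReal ?_)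
      rw [div_one]
      apply mul_le_mul_of_nonneg_right _ hrs.le
      linarith only [sq_nonneg A, mul_le_mul_of_nonneg_left (h1.trans hR) hA, hA]
    · refine (QQ_le_mass _ r).trans ((mul_le_mul' hmass hmass).trans ?_)
      rw [← ENNReal.ofReal_mul hA]
      apply ENNReal.ofReal_le_ofReal
      have h2 : 1 ≤ r ^ (s - 1) := Real.one_le_rpow h1 (by linarith)
      linarith only [sq_nonneg A, mul_le_mul_of_nonneg_left h2 (sq_nonneg A), mul_nonneg (add_nonneg hA (by positivity : 0 ≤ 9 * A * R)) hrs.le]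

/-- `det_gram_cons` and equality of the two Gram matrices. -/
lemma gram_proj {W : Type} [NormedAddCommGroup W] [InnerProductSpace ℝ W] {k : ℕ} {z : V}
    (hz : z ≠ 0) {P : V →ₗ[ℝ] W}
    (hP : ∀ x y, ⟪P x, P y⟫_ℝ = ⟪x, y⟫_ℝ - ⟪z, x⟫_ℝ * ⟪z, y⟫_ℝ / ‖z‖ ^ 2) (y : Fin k → V) :
    (Matrix.gram ℝ (Fin.cons z y : Fin (k + 1) → V)).det =
      ‖z‖ ^ 2 * (Matrix.gram ℝ fun i => P (y i)).det := by
  rw [det_gram_cons hz]
  congr 2
  ext i j
  rw [Matrix.gram_apply, Matrix.gram_apply, p1_inner_proj hz, hP]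

lemma gram_three (x : Fin 3 → V) : (Matrix.gram ℝ x).det = G3 (x 0, x 1, x 2) := by
  rw [Matrix.det_fin_three]
  simp only [Matrix.gram_apply, G3, real_inner_self_eq_norm_sq, real_inner_comm (x 0) (x 1),
    real_inner_comm (x 0) (x 2), real_inner_comm (x 1) (x 2)]
  ring

lemma cont_G3 : Continuous (G3 : V × V × V → ℝ) := by
  unfold G3; fun_prop

lemma G3_cyc (p : V × V × V) : G3 (cyc p) = G3 p := by
  simp only [G3, cyc]
  rw [real_inner_comm p.1 p.2.2, real_inner_comm p.1 p.2.1]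
  ring

lemma mx_cyc (p : V × V × V) : mx (cyc p) = mx p := by
  simp only [mx, cyc]
  rw [max_comm (‖p.1‖ * |⟪p.2.1, p.2.2⟫_ℝ|), max_assoc]

lemma cont_mx : Continuous (mx : V × V × V → ℝ) := by
  unfold mx; fun_prop

lemma cont_cyc : Continuous (cyc : V × V × V → V × V × V) := by
  unfold cyc; fun_prop

/-- `‖z‖² ph x y - G3 = ‖⟪z,x⟫ y - ⟪z,y⟫ x‖²` (`norm_comb`). -/
lemma G3_le (p : V × V × V) : G3 p ≤ ‖p.1‖ ^ 2 * ph p.2.1 p.2.2 := by
  have := norm_comb p.2.2 p.2.1 ⟪p.1, p.2.1⟫_ℝ (-⟪p.1, p.2.2⟫_ℝ)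
  have h2 := sq_nonneg ‖⟪p.1, p.2.1⟫_ℝ • p.2.2 + (-⟪p.1, p.2.2⟫_ℝ) • p.2.1‖
  rw [this, real_inner_comm p.2.1 p.2.2] at h2
  unfold G3 ph
  linarith only [h2]

lemma G3_eq {z : V} (hz : z ≠ 0) (x y : V) :
    G3 (z, x, y) = BB z x x * BB z y y - BB z x y ^ 2 := by
  have hzn : ‖z‖ ≠ 0 := norm_ne_zero_iff.2 hz
  simp only [G3, BB, real_inner_self_eq_norm_sq]
  field_simp
  ring

lemma p1_meas_BB {X : Type} [MeasurableSpace X] {f g h : X → V} (hf : Measurable f)
    (hg : Measurable g) (hh : Measurable h) : Measurable fun p => BB (f p) (g p) (h p) := by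
  unfold BB
  exact (((hf.norm.pow_const 2).mul (hg.inner hh)).sub ((hf.inner hg).mul (hf.inner hh))).div
    hf.norm

omit [FiniteDimensional ℝ V] [MeasurableSpace V] [BorelSpace V] in
lemma p1_contOn_BB {g h : V × V × V → V} (hg : Continuous g) (hh : Continuous h) :
    ContinuousOn (fun p : V × V × V => BB p.1 (g p) (h p)) {p | p.1 ≠ 0} := by
  unfold BB
  refine ContinuousOn.div (Continuous.continuousOn (by fun_prop))
    (Continuous.continuousOn (by fun_prop)) fun p hp => norm_ne_zero_iff.2 hp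

omit [FiniteDimensional ℝ V] [MeasurableSpace V] [BorelSpace V] in
lemma p1_BB_le (z x y : V) : |BB z x y| ≤ 2 * ‖z‖ * ‖x‖ * ‖y‖ := by
  rcases eq_or_ne z 0 with rfl | hz
  · simp [BB]
  have hzn : 0 < ‖z‖ := norm_pos_iff.2 hz
  unfold BB
  rw [abs_div, abs_norm, div_le_iff₀ hzn]
  refine (abs_sub _ _).trans ?_
  rw [abs_mul, abs_mul, abs_of_nonneg (sq_nonneg ‖z‖)]
  have h1 := mul_le_mul_of_nonneg_left (abs_real_inner_le_norm x y) (sq_nonneg ‖z‖)
  have h2 := mul_le_mul (abs_real_inner_le_norm z x) (abs_real_inner_le_norm z y) (abs_nonneg _)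
    (by positivity)
  linarith only [h1, h2]

lemma meas_W3 (M : ℕ) (γ : ℝ) (e : V) : Measurable (W3 M γ e) := by
  have h1 : Measurable fun p : V × V × V => p.1 := measurable_fst
  have h2 : Measurable fun p : V × V × V => p.2.1 := measurable_snd.fst
  have h3 : Measurable fun p : V × V × V => p.2.2 := measurable_snd.snd
  have h4 : Measurable fun _ : V × V × V => e := measurable_const
  unfold W3
  exact (measurable_const.mul (((p1_meas_BB h1 h2 h3).mul (((p1_meas_BB h1 h2 h2).mul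
    (p1_meas_BB h1 h3 h4)).sub ((p1_meas_BB h1 h2 h4).mul (p1_meas_BB h1 h2 h3)))).pow_const _)).mul
    (Real.measurable_exp.comp (((p1_meas_BB h1 h2 h3).div_const γ).pow_const 2).neg)

lemma contOn_W3 (M : ℕ) (γ : ℝ) (e : V) : ContinuousOn (W3 M γ e) {p | p.1 ≠ 0} := by
  have h2 : Continuous fun p : V × V × V => p.2.1 := by fun_prop
  have h3 : Continuous fun p : V × V × V => p.2.2 := by fun_prop
  have h4 : Continuous fun _ : V × V × V => e := continuous_const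
  unfold W3
  exact (continuousOn_const.mul (((p1_contOn_BB h2 h3).mul (((p1_contOn_BB h2 h2).mul
    (p1_contOn_BB h3 h4)).sub ((p1_contOn_BB h2 h4).mul (p1_contOn_BB h2 h3)))).pow _)).mul
    (Real.continuous_exp.comp_continuousOn (((p1_contOn_BB h2 h3).div_const γ).pow 2).neg)

lemma W3_nonneg (M : ℕ) (γ : ℝ) (e : V) (p : V × V × V) : 0 ≤ W3 M γ e p := by
  unfold W3
  exact mul_nonneg (mul_nonneg ((even_two_mul M).pow_nonneg _) ((even_two_mul M).pow_nonneg _))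
    (Real.exp_pos _).le

/-- `|BB z x y| ≤ 2 ‖z‖ ‖x‖ ‖y‖` (also for `z = 0`), `pow_exp_le (M + K)`. -/
lemma W3_le (M K : ℕ) {R : ℝ} (hR : 1 ≤ R) : ∃ C : ℝ, 0 ≤ C ∧ ∀ (γ : ℝ) (e : V) (p : V × V × V),
    ‖e‖ ≤ 1 → ‖p.1‖ ≤ R → ‖p.2.1‖ ≤ R → ‖p.2.2‖ ≤ R →
    W3 M γ e p * ((BB p.1 p.2.1 p.2.2 / γ) ^ 2) ^ K ≤ C := by
  refine ⟨(M + K).factorial * (8 * R ^ 5) ^ (2 * M), by positivity,
    fun γ e p he h1 h2 h3 => ?_⟩
  have hb : ∀ (x y : V) (a b : ℝ), ‖x‖ ≤ a → ‖y‖ ≤ b → |BB p.1 x y| ≤ 2 * R * a * b := by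
    intro x y a b hx hy
    refine (p1_BB_le _ _ _).trans ?_
    have ha : 0 ≤ a := (norm_nonneg _).trans hx
    gcongr
  set X := BB p.1 p.2.1 p.2.1 * BB p.1 p.2.2 e - BB p.1 p.2.1 e * BB p.1 p.2.1 p.2.2 with hX
  have hXle : |X| ≤ 8 * R ^ 5 := by
    refine (abs_sub _ _).trans ?_
    rw [abs_mul, abs_mul]
    have a1 := mul_le_mul (hb _ _ _ _ h2 h2) (hb _ _ _ _ h3 he) (abs_nonneg _) (by positivity)
    have a2 := mul_le_mul (hb _ _ _ _ h2 he) (hb _ _ _ _ h2 h3) (abs_nonneg _) (by positivity)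
    linarith only [a1, a2]
  have hX2 : X ^ (2 * M) ≤ (8 * R ^ 5) ^ (2 * M) := by
    rw [← (even_two_mul M).pow_abs X]
    exact pow_le_pow_left₀ (abs_nonneg _) hXle _
  have hE := pow_exp_le (M + K) (BB p.1 p.2.1 p.2.2 / γ)
  have heq : W3 M γ e p * ((BB p.1 p.2.1 p.2.2 / γ) ^ 2) ^ K =
      ((BB p.1 p.2.1 p.2.2 / γ) ^ (2 * (M + K)) * Real.exp (-(BB p.1 p.2.1 p.2.2 / γ) ^ 2)) *
        X ^ (2 * M) := by
    unfold W3
    rw [← hX, mul_pow, ← pow_mul, mul_add 2 M K, pow_add, div_eq_mul_inv, mul_pow _ γ⁻¹ (2 * M)]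
    ring
  rw [heq]
  exact mul_le_mul hE hX2 ((even_two_mul M).pow_nonneg _) (by positivity)

lemma meas_pw (M : ℕ) (γ c : ℝ) (e : V) : Measurable (pw M γ c e) := by
  unfold pw
  refine (meas_W3 M γ e).indicator ?_
  have h1 : Measurable fun p : V × V × V => |⟪p.2.1, p.1⟫_ℝ| := Continuous.measurable (by fun_prop)
  have h2 : Measurable fun p : V × V × V => |⟪p.2.2, p.1⟫_ℝ| := Continuous.measurable (by fun_prop)
  exact (measurableSet_le h1 measurable_const).inter (measurableSet_le h2 measurable_const)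

lemma pw_nonneg (M : ℕ) (γ c : ℝ) (e : V) (p : V × V × V) : 0 ≤ pw M γ c e p :=
  indicator_nonneg (fun q _ => W3_nonneg M γ e q) p

lemma pw_le (M : ℕ) (γ c : ℝ) (e : V) (p : V × V × V) : pw M γ c e p ≤ W3 M γ e p :=
  indicator_le_self' (fun q _ => W3_nonneg M γ e q) p

lemma ae3 {μ1 μ2 μ3 : Measure V} [SFinite μ1] [SFinite μ2] [SFinite μ3] {p1 p2 p3 : V → Prop}
    (h1 : ∀ᵐ x ∂μ1, p1 x) (h2 : ∀ᵐ x ∂μ2, p2 x) (h3 : ∀ᵐ x ∂μ3, p3 x) :
    ∀ᵐ p ∂μ1.prod (μ2.prod μ3), p1 p.1 ∧ p2 p.2.1 ∧ p3 p.2.2 :=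
  (Measure.quasiMeasurePreserving_fst.ae h1).and (Measure.quasiMeasurePreserving_snd.ae
    ((Measure.quasiMeasurePreserving_fst.ae h2).and (Measure.quasiMeasurePreserving_snd.ae h3)))

lemma int_pw {μ1 μ2 μ3 : Measure V} {R A s : ℝ} (hR : 1 ≤ R) (h1 : Cl μ1 R A s) (h2 : Cl μ2 R A s)
    (h3 : Cl μ3 R A s) (M : ℕ) (γ c : ℝ) {e : V} (he : ‖e‖ ≤ 1) :
    Integrable (pw M γ c e) (μ1.prod (μ2.prod μ3)) := by
  haveI := h1.fin
  haveI := h2.fin
  haveI := h3.fin
  obtain ⟨C, -, hC⟩ := W3_le (V := V) M 0 hR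
  refine Integrable.mono' (integrable_const C) (meas_pw M γ c e).aestronglyMeasurable ?_
  filter_upwards [ae3 h1.bdd h2.bdd h3.bdd] with p hp
  rw [Real.norm_of_nonneg (pw_nonneg M γ c e p)]
  have := hC γ e p he hp.1 hp.2.1 hp.2.2
  rw [pow_zero, mul_one] at this
  exact (pw_le M γ c e p).trans this

omit [NormedAddCommGroup V] [InnerProductSpace ℝ V] [FiniteDimensional ℝ V] [BorelSpace V] in
lemma p1_mp_cyc (μ1 μ2 μ3 : Measure V) [SFinite μ1] [SFinite μ2] [SFinite μ3] :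
    MeasurePreserving (MeasurableEquiv.prodComm.trans MeasurableEquiv.prodAssoc :
      V × V × V ≃ᵐ V × V × V) (μ1.prod (μ2.prod μ3)) (μ2.prod (μ3.prod μ1)) :=
  (measurePreserving_prodAssoc μ2 μ3 μ1).comp Measure.measurePreserving_swap

/-- `cyc` is `prodAssoc ∘ swap`, a measurable equivalence that is measure preserving
(`measurePreserving_swap`, `measurePreserving_prodAssoc`). -/
lemma integral_cyc (μ1 μ2 μ3 : Measure V) [SFinite μ1] [SFinite μ2] [SFinite μ3]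
    (f : V × V × V → ℝ) :
    ∫ p, f (cyc p) ∂μ1.prod (μ2.prod μ3) = ∫ p, f p ∂μ2.prod (μ3.prod μ1) :=
  (p1_mp_cyc μ1 μ2 μ3).integral_comp' f

lemma integrable_cyc (μ1 μ2 μ3 : Measure V) [SFinite μ1] [SFinite μ2] [SFinite μ3]
    {f : V × V × V → ℝ} (h : Integrable f (μ2.prod (μ3.prod μ1))) :
    Integrable (fun p => f (cyc p)) (μ1.prod (μ2.prod μ3)) :=
  (p1_mp_cyc μ1 μ2 μ3).integrable_comp_of_integrable h

end Pool.Agent.MP_83cc0d_an.Cd

end
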