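import Mathlib
import Pool.Agent.MP_83cc0d_an.Cm.M0

attribute [-instance]
  TopologicalSpace.instSecondCountableTopologyOfLindelofSpaceOfPseudoMetrizableSpace
  IdemSemiring.toCanonicallyOrderedAdd CategoryTheory.CountableCategory.countableObj
  AddQuantale.instAddLeftMono IdemSemiring.toMulLeftMono Finite.to_countable Valued.toUniformSpace
  NonUnitalNonAssocRing.toAddCommGroup Quantale.instMulLeftMono AddQuantale.instAddRightMono
  CompactSpace.sigmaCompact IsOrderedCancelMonoid.toIsOrderedMonoid LieAdmissibleAlgebra.toModule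
  NonUnitalNormedRing.toNonUnitalSeminormedRing littleWedderburn NumberField.to_charZero
  Ring.toAddCommGroup LeftPreLieAlgebra.toModule RightPreLieAlgebra.toModule
  CStarAlgebra.instOrderClosedTopology Quantale.instMulRightMono
  LinearOrderedCommMonoidWithZero.toPosMulStrictMono PolishSpace.toSecondCountableTopology
  DivisionRing.toRing CommRing.toRing AlexandrovDiscrete.toLocallyCompactSpace
  NonUnitalNonAssocSemiring.toAddCommMonoid CanonicallyOrderedAdd.toMulLeftMono Algebra.toSMul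
  NonUnitalNormedCommRing.toNonUnitalSeminormedCommRing MonTypeEquivalenceMon.monMonoid
  Topology.IsScott.instClosedIicTopologyOfUnivSet LieRing.toAddCommGroup
  CommMonTypeEquivalenceCommMon.commMonCommMonoid GrpTypeEquivalenceGrp.grpGroup
  Semiring.toAddCommMonoid LinearOrderedCommMonoidWithZero.toIsOrderedMonoid
  continuousSub_of_discreteTopology DenselyNormedField.toNormedField
  IsTopologicalSemiring.toIsSemitopologicalSemiring AddCommGroupWithOne.toAddGroupWithOne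
  NormedRing.toRing IdemSemiring.toSemiring instSeparatelyContinuousMulOfContinuousMul
  MeasurableSingletonClass.toDiscreteMeasurableSpace SeminormedRing.toNonUnitalSeminormedRing
  ProperSMul.toContinuousSMul IdemSemiring.toMulRightMono NontriviallyNormedField.toNormedField
  NonarchimedeanAddGroup.toIsTopologicalAddGroup continuousSub_of_indiscreteTopology
  Encodable.countable MulSemiringAction.toDistribMulAction CanonicallyOrderedMul.toMulLeftMono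
  SeminormedRing.toRing AddCommGroupWithOne.toAddCommGroup UpgradedStandardBorel.toTopologicalSpace
  NormedRing.toNorm NonUnitalCStarAlgebra.toNonUnitalNormedRing
  SeminormedCommGroup.toPseudoMetricSpace NonUnitalSeminormedRing.toPseudoMetricSpace
  NonUnitalNonAssocSemiring.toMulZeroClass CStarModule.toInner NonarchimedeanRing.toIsTopologicalRing
  SeminormedRing.toNorm instCoeTOfCoeDep EuclideanDomain.toCommRing
  LieAdmissibleRing.toNonUnitalNonAssocRing NormedRing.toMetricSpace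
  IsModuleTopology.toContinuousSMul instSMulZeroClass NormedCommRing.toCommRing

set_option linter.unusedSectionVars false

-- part E1
section

namespace Pool.Agent.MP_83cc0d_an.Cd

open MeasureTheory Complex Filter Topology Metric Module Set
open scoped ENNReal InnerProductSpace ComplexConjugate

variable {V : Type} [NormedAddCommGroup V] [InnerProductSpace ℝ V] [FiniteDimensional ℝ V]
  [MeasurableSpace V] [BorelSpace V]

lemma e1_cc {η : ℝ} {v : V} (hv : 2 * η * ‖v‖ ≤ 1) :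
    (volume : Measure V).real (closedBall 0 η) / 2 ≤ cc η v := by
  have h := setIntegral_ge_of_const_le_real (μ := volume) (c := 1 / 2)
    (f := fun u : V => Real.cos (2 * ⟪u, v⟫_ℝ)) (s := closedBall (0 : V) η)
    measurableSet_closedBall measure_closedBall_lt_top.ne
    (fun u hu => by
      rw [mem_closedBall_zero_iff] at hu
      have h1 : |2 * ⟪u, v⟫_ℝ| ≤ 1 := by
        rw [abs_mul, abs_two]
        have := abs_real_inner_le_norm u v
        nlinarith only [norm_nonneg v, hv, hu, this]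
      have h2 := Real.one_sub_sq_div_two_le_cos (x := 2 * ⟪u, v⟫_ℝ)
      have h3 : (2 * ⟪u, v⟫_ℝ) ^ 2 ≤ 1 := by rwa [sq_le_one_iff_abs_le_one]
      linarith only [h2, h3])
    (Continuous.continuousOn (by fun_prop) |>.integrableOn_compact (isCompact_closedBall _ _))
  unfold cc
  linarith only [h]

/-- The weighted Fourier transform. -/
noncomputable def e1F (α : Measure V) (c : V → ℝ) (τ : ℝ) (w : V) : ℂ :=
  ∫ x, (c x : ℂ) * cexp (I * ((τ * ⟪x, w⟫_ℝ : ℝ) : ℂ)) ∂α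

lemma e1_norm (t : ℝ) : ‖cexp (I * (t : ℂ))‖ = 1 := by
  rw [mul_comm, norm_exp_ofReal_mul_I]

lemma e1F_meas (α : Measure V) [IsFiniteMeasure α] {c : V → ℝ} (hc : Measurable c) (τ : ℝ) :
    Measurable (e1F α c τ) := by
  have : StronglyMeasurable fun p : V × V =>
      (c p.2 : ℂ) * cexp (I * ((τ * ⟪p.2, p.1⟫_ℝ : ℝ) : ℂ)) := by
    refine Measurable.stronglyMeasurable (Measurable.mul (by fun_prop) ?_)
    exact Continuous.measurable (by fun_prop)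
  exact (this.integral_prod_right' (ν := α)).measurable

lemma e1_L2 : ∃ K : ℝ, 0 ≤ K ∧ ∀ (α : Measure V) [IsFiniteMeasure α] (c : V → ℝ), Measurable c →
    (∀ᵐ x ∂α, |c x| ≤ 2) → ∀ τ : ℝ, τ ≠ 0 →
    ∫⁻ w, ENNReal.ofReal (‖e1F α c τ w‖ ^ 2 * Real.exp (-‖w‖ ^ 2)) ≤
      ENNReal.ofReal K * QQ α (2 / |τ|) := by
  refine ⟨4 * ‖((Real.pi : ℂ) / 1) ^ (finrank ℝ V / 2 : ℂ)‖, by positivity,
    fun α _ c hc hc2 τ hτ => ?_⟩
  obtain ⟨Kin, hK⟩ : ∃ Kin : V → V × V → ℂ, Kin = fun w p =>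
      ((c p.1 : ℂ) * cexp (I * ((τ * ⟪p.1, w⟫_ℝ : ℝ) : ℂ))) *
        conj ((c p.2 : ℂ) * cexp (I * ((τ * ⟪p.2, w⟫_ℝ : ℝ) : ℂ))) *
          ((Real.exp (-‖w‖ ^ 2) : ℝ) : ℂ) := ⟨_, rfl⟩
  have hp : ∀ᵐ p ∂α.prod α, |c p.1| ≤ 2 ∧ |c p.2| ≤ 2 :=
    (Measure.quasiMeasurePreserving_fst.ae hc2).and (Measure.quasiMeasurePreserving_snd.ae hc2)
  have hint : Integrable (Function.uncurry Kin) (volume.prod (α.prod α)) := by
    have := Integrable.mul_prod (ν := α.prod α) ((integrable_pow_gauss (V := V) 0).const_mul 4)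
      (integrable_const (1 : ℝ))
    refine this.mono' (Measurable.aestronglyMeasurable ?_) ?_
    · rw [hK]
      unfold Function.uncurry
      refine Measurable.mul (Measurable.mul (Measurable.mul (by fun_prop) ?_) ?_) ?_
      · exact Continuous.measurable (by fun_prop)
      · refine continuous_conj.measurable.comp (Measurable.mul (by fun_prop) ?_)
        exact Continuous.measurable (by fun_prop)
      · exact Continuous.measurable (by fun_prop)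
    · filter_upwards [Measure.quasiMeasurePreserving_snd.ae hp] with z hz
      simp only [hK, Function.uncurry, norm_mul, norm_conj, e1_norm, Complex.norm_real, mul_one,
        Real.norm_eq_abs, abs_of_pos (Real.exp_pos _), pow_zero, one_mul]
      have h1 : |c z.2.1| * |c z.2.2| ≤ 2 * 2 := mul_le_mul hz.1 hz.2 (abs_nonneg _) two_pos.le
      exact mul_le_mul_of_nonneg_right (by linarith) (Real.exp_pos _).le
  have e1 : ∀ a, ∫ p, Kin a p ∂α.prod α =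
      ((‖e1F α c τ a‖ ^ 2 * Real.exp (-‖a‖ ^ 2) : ℝ) : ℂ) := by
    intro a
    rw [hK]
    simp only
    rw [integral_mul_const, integral_prod_mul
      (fun x => (c x : ℂ) * cexp (I * ((τ * ⟪x, a⟫_ℝ : ℝ) : ℂ)))
      (fun x => conj ((c x : ℂ) * cexp (I * ((τ * ⟪x, a⟫_ℝ : ℝ) : ℂ)))), integral_conj, mul_conj']
    rw [ofReal_mul (‖e1F α c τ a‖ ^ 2), ofReal_pow]
    rfl
  have e2 : ∀ p : V × V, ∫ w, Kin w p = (c p.1 * c p.2 : ℝ) *
      (((Real.pi : ℂ) / 1) ^ (finrank ℝ V / 2 : ℂ) *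
        ((Real.exp (-(‖p.1 - p.2‖ ^ 2 / (2 / |τ|) ^ 2)) : ℝ) : ℂ)) := by
    intro p
    have h := GaussianFourier.integral_cexp_neg_mul_sq_norm_add (V := V) (b := 1) (by norm_num)
      (I * τ) (p.1 - p.2)
    have h2 : cexp ((I * τ) ^ 2 * (‖p.1 - p.2‖ : ℂ) ^ 2 / (4 * 1)) =
        ((Real.exp (-(‖p.1 - p.2‖ ^ 2 / (2 / |τ|) ^ 2)) : ℝ) : ℂ) := by
      rw [ofReal_exp]
      congr 1
      have h3 : (2 / |τ|) ^ 2 = 4 / τ ^ 2 := by rw [div_pow, sq_abs]; norm_num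
      have h4 : (τ : ℂ) ≠ 0 := ofReal_ne_zero.2 hτ
      rw [h3, mul_pow, I_sq]
      push_cast
      field_simp
    rw [← h2, ← h, ← integral_const_mul]
    refine integral_congr_ae (Eventually.of_forall fun w => ?_)
    simp only [hK, map_mul, conj_ofReal, ← exp_conj, conj_I, ofReal_exp]
    have h5 : cexp (-1 * (‖w‖ : ℂ) ^ 2 + I * τ * (inner ℝ (p.1 - p.2) w : ℝ)) =
        cexp (I * ((τ * ⟪p.1, w⟫_ℝ : ℝ) : ℂ)) * cexp (-I * ((τ * ⟪p.2, w⟫_ℝ : ℝ) : ℂ)) *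
          cexp ((-‖w‖ ^ 2 : ℝ) : ℂ) := by
      rw [← Complex.exp_add, ← Complex.exp_add, inner_sub_left]
      congr 1
      push_cast
      ring
    rw [h5]
    push_cast
    ring
  have swap := integral_integral_swap hint
  have i1 := hint.integral_prod_left
  simp only [Function.uncurry, e1] at swap i1
  have i3 : Integrable fun a => ‖e1F α c τ a‖ ^ 2 * Real.exp (-‖a‖ ^ 2) := by
    simpa only [RCLike.re_to_complex, ofReal_re] using i1.re
  rw [← ofReal_integral_eq_lintegral_ofReal i3 (Eventually.of_forall fun a => by positivity)]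
  rw [integral_complex_ofReal] at swap
  have hq : Measurable fun p : V × V => gq (2 / |τ|) (p.1 - p.2) :=
    gq_meas measurable_const (measurable_fst.sub measurable_snd)
  calc _ ≤ ‖((∫ a, ‖e1F α c τ a‖ ^ 2 * Real.exp (-‖a‖ ^ 2) : ℝ) : ℂ)‖ₑ := by
        rw [← ofReal_norm, Complex.norm_real]
        exact ENNReal.ofReal_le_ofReal (le_abs_self _)
    _ ≤ ∫⁻ p, ‖∫ w, Kin w p‖ₑ ∂α.prod α := by
        rw [swap]
        exact enorm_integral_le_lintegral_enorm _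
    _ ≤ ∫⁻ p : V × V, ENNReal.ofReal (4 * ‖((Real.pi : ℂ) / 1) ^ (finrank ℝ V / 2 : ℂ)‖) *
          gq (2 / |τ|) (p.1 - p.2) ∂α.prod α := by
        refine lintegral_mono_ae ?_
        filter_upwards [hp] with p hz
        rw [e2, ← ofReal_norm, gq, ← ENNReal.ofReal_mul (by positivity)]
        refine ENNReal.ofReal_le_ofReal ?_
        rw [norm_mul, norm_mul, Complex.norm_real, Complex.norm_real, Real.norm_eq_abs, abs_mul,
          Real.norm_of_nonneg (Real.exp_pos _).le, mul_assoc 4]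
        have h1 : |c p.1| * |c p.2| ≤ 2 * 2 := mul_le_mul hz.1 hz.2 (abs_nonneg _) two_pos.le
        exact mul_le_mul_of_nonneg_right (by linarith) (by positivity)
    _ = _ := by rw [lintegral_const_mul _ hq, QQ, lintegral_prod _ hq.aemeasurable]

lemma e1_avg (α : Measure V) [IsFiniteMeasure α] {c : V → ℝ} (hc : Measurable c)
    (hc2 : ∀ᵐ x ∂α, |c x| ≤ 2) {τ ρ v : ℝ} (hv : 0 < v)
    (hcv : ∀ᵐ x ∂α, c x * cc ρ ((τ / 2) • x) = v) (y : V) :
    ‖∫ x, cexp (I * ((τ * ⟪x, y⟫_ℝ : ℝ) : ℂ)) ∂α‖ₑ ≤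
      (ENNReal.ofReal v)⁻¹ * ∫⁻ w in closedBall y ρ, ‖e1F α c τ w‖ₑ := by
  have : IsFiniteMeasure ((volume : Measure V).restrict (closedBall 0 ρ)) :=
    isFiniteMeasure_restrict.2 measure_closedBall_lt_top.ne
  have hint : Integrable (Function.uncurry fun (u : V) (x : V) =>
      (c x : ℂ) * cexp (I * ((τ * ⟪x, y + u⟫_ℝ : ℝ) : ℂ)))
      ((volume.restrict (closedBall 0 ρ)).prod α) := by
    refine (integrable_const (2 : ℝ)).mono' (Measurable.aestronglyMeasurable ?_) ?_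
    · unfold Function.uncurry
      exact Measurable.mul (by fun_prop) (Continuous.measurable (by fun_prop))
    · filter_upwards [Measure.quasiMeasurePreserving_snd.ae hc2] with z hz
      simpa only [Function.uncurry, norm_mul, e1_norm, Complex.norm_real, mul_one,
        Real.norm_eq_abs] using hz
  have swap := integral_integral_swap hint
  have h1 : ∫ u in closedBall 0 ρ, e1F α c τ (y + u) =
      (v : ℂ) * ∫ x, cexp (I * ((τ * ⟪x, y⟫_ℝ : ℝ) : ℂ)) ∂α := by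
    rw [← integral_const_mul]
    refine swap.trans (integral_congr_ae ?_)
    filter_upwards [hcv] with x hx
    have h2 : ∀ u : V, (c x : ℂ) * cexp (I * ((τ * ⟪x, y + u⟫_ℝ : ℝ) : ℂ)) =
        (c x : ℂ) * cexp (I * ((τ * ⟪x, y⟫_ℝ : ℝ) : ℂ)) *
          cexp ((2 * ⟪u, (τ / 2) • x⟫_ℝ : ℝ) * I) := by
      intro u
      rw [mul_assoc, ← Complex.exp_add, inner_add_right, inner_smul_right, real_inner_comm x u]
      congr 2
      push_cast
      ring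
    simp only [h2]
    rw [integral_const_mul, cc_eq, ← hx]
    push_cast
    ring
  have hG : Measurable fun w => ‖e1F α c τ w‖ₑ := (e1F_meas α hc τ).enorm
  have h3 : ∫⁻ u in closedBall 0 ρ, ‖e1F α c τ (y + u)‖ₑ =
      ∫⁻ w in closedBall y ρ, ‖e1F α c τ w‖ₑ := by
    rw [← lintegral_indicator measurableSet_closedBall,
      ← lintegral_indicator measurableSet_closedBall,
      ← lintegral_add_left_eq_self ((closedBall y ρ).indicator fun w => ‖e1F α c τ w‖ₑ) y]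
    refine lintegral_congr fun u => ?_
    simp only [Set.indicator, mem_closedBall, dist_zero_right, dist_self_add_left]
  have h0 : ENNReal.ofReal v ≠ 0 := (ENNReal.ofReal_pos.2 hv).ne'
  rw [← h3]
  refine le_trans (le_of_eq ?_) (mul_le_mul_right (enorm_integral_le_lintegral_enorm _) _)
  rw [h1, enorm_mul, ← ofReal_norm (v : ℂ), Complex.norm_real, Real.norm_of_nonneg hv.le,
    ← mul_assoc, ENNReal.inv_mul_cancel h0 ENNReal.ofReal_ne_top, one_mul]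

/-- Bilinear Fourier bound. Let `η = 1/(2R)`, `v = volume (closedBall 0 η)`, `c x = v / cc η x`
(`v / 2 ≤ cc η x` for `‖x‖ ≤ R`, see the proof of `cc_pos`; `cc_eq`, `cc_cont`),
`F w = ∫ c x * cexp (I τ ⟪x, w⟫) dα`. Averaging `F (y + (2/τ) • u)` over `‖u‖ ≤ η` gives the inner
integral at `y`, so its norm is at most the average of `‖F‖` over `closedBall y ρ`, `ρ = 2η/|τ|`.
Use `smooth` with `P = {‖p.2 - p.1‖ ≤ ρ}`, `v0 = c ρ^d`, `θ = |τ|^(d/2)`, and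
`∫ ‖F‖² exp (-‖w‖²) = ∬ c x c x' π^(d/2) exp (-τ²‖x-x'‖²/4) ≤ C * QQ α (2/|τ|)`
(`GaussianFourier.integral_cexp_neg_mul_sq_norm_add`; pattern of `L2_bound` in `Mg/Main`). -/
lemma lemE {R : ℝ} (hR : 1 ≤ R) : ∃ C : ℝ, 0 ≤ C ∧ ∀ (α β : Measure V) [IsFiniteMeasure α]
    [IsFiniteMeasure β], (∀ᵐ x ∂α, ‖x‖ ≤ R) → (∀ᵐ y ∂β, ‖y‖ ≤ R) → ∀ τ : ℝ, 1 ≤ |τ| →
    ∫⁻ y, ‖∫ x, cexp (I * ((τ * ⟪x, y⟫_ℝ : ℝ) : ℂ)) ∂α‖ₑ ∂β ≤
      ENNReal.ofReal (C * |τ| ^ ((finrank ℝ V : ℝ) / 2)) *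
        (QQ α (2 / |τ|) + QQ β (2 / |τ|)) := by
  obtain ⟨K, hK0, hK⟩ := e1_L2 (V := V)
  obtain ⟨b, hb⟩ : ∃ b : ℝ, b = (volume : Measure V).real (closedBall 0 1) := ⟨_, rfl⟩
  have hb0 : 0 < b := hb ▸
    ENNReal.toReal_pos (measure_closedBall_pos _ _ one_pos).ne' measure_closedBall_lt_top.ne
  have hR0 : 0 < R := by linarith
  refine ⟨Real.exp ((R + 1) ^ 2) * K + 3 * R ^ finrank ℝ V / b, by positivity,
    fun α β _ _ hα hβ τ hτ => ?_⟩
  have hτ0 : 0 < |τ| := by linarith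
  obtain ⟨ρ, hρ⟩ : ∃ ρ : ℝ, ρ = 1 / (R * |τ|) := ⟨_, rfl⟩
  have hρ0 : 0 < ρ := by rw [hρ]; positivity
  have hρ1 : ρ ≤ 1 / |τ| := by
    rw [hρ]
    exact one_div_le_one_div_of_le hτ0 (le_mul_of_one_le_left hτ0.le hR)
  have hρ2 : ρ ≤ 1 := hρ1.trans ((div_le_one hτ0).2 hτ)
  obtain ⟨v, hv⟩ : ∃ v : ℝ, v = (volume : Measure V).real (closedBall 0 ρ) := ⟨_, rfl⟩
  have hvb : v = ρ ^ finrank ℝ V * b := by
    rw [hv, hb, Measure.addHaar_real_closedBall' _ _ hρ0.le]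
  have hv0 : 0 < v := by rw [hvb]; positivity
  have hvol : ∀ y : V, volume (closedBall y ρ) = ENNReal.ofReal v := fun y => by
    rw [Measure.addHaar_closedBall_center, hv, ofReal_measureReal measure_closedBall_lt_top.ne]
  have hcc : ∀ᵐ x ∂α, v / 2 ≤ cc ρ ((τ / 2) • x) := by
    filter_upwards [hα] with x hx
    rw [hv]
    refine e1_cc ?_
    rw [norm_smul, Real.norm_eq_abs, abs_div, abs_two, hρ]
    calc 2 * (1 / (R * |τ|)) * (|τ| / 2 * ‖x‖) = ‖x‖ / R := by field_simp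
      _ ≤ 1 := (div_le_one hR0).2 hx
  obtain ⟨c, hc⟩ : ∃ c : V → ℝ, c = fun x => v / cc ρ ((τ / 2) • x) := ⟨_, rfl⟩
  have hcm : Measurable c :=
    hc ▸ measurable_const.div ((cc_cont ρ).measurable.comp (measurable_const_smul _))
  have hc2 : ∀ᵐ x ∂α, |c x| ≤ 2 := by
    filter_upwards [hcc] with x hx
    have h1 : 0 < cc ρ ((τ / 2) • x) := by linarith only [hv0, hx]
    rw [hc]
    simp only
    rw [abs_of_pos (div_pos hv0 h1), div_le_iff₀ h1]
    linarith only [hx]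
  have hcv : ∀ᵐ x ∂α, c x * cc ρ ((τ / 2) • x) = v := by
    filter_upwards [hcc] with x hx
    have h1 : 0 < cc ρ ((τ / 2) • x) := by linarith only [hv0, hx]
    rw [hc]
    exact div_mul_cancel₀ _ h1.ne'
  obtain ⟨θ, hθ⟩ : ∃ θ : ℝ, θ = |τ| ^ ((finrank ℝ V : ℝ) / 2) := ⟨_, rfl⟩
  have hθ0 : 0 < θ := by rw [hθ]; positivity
  have hθ2 : θ * θ = |τ| ^ finrank ℝ V := by
    rw [hθ, ← Real.rpow_add hτ0, add_halves, Real.rpow_natCast]
  have hG : Measurable fun w => ‖e1F α c τ w‖ₑ := (e1F_meas α hcm τ).enorm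
  have hP : ∀ y : V, {w | (y, w) ∈ {p : V × V | ‖p.2 - p.1‖ ≤ ρ}} = closedBall y ρ := fun y => by
    ext w
    simp only [mem_ofPred_eq, mem_closedBall, dist_eq_norm]
  have hs := smooth β hβ hρ0 hv0 hθ0 (P := {p : V × V | ‖p.2 - p.1‖ ≤ ρ})
    (isClosed_le (by fun_prop) continuous_const).measurableSet (fun p hp => hp)
    (fun y _ => by rw [hP, hvol]) hG
  simp only [hP, hvol] at hs
  have h1 : ∫⁻ w in closedBall (0 : V) (R + ρ), ‖e1F α c τ w‖ₑ ^ 2 ≤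
      ENNReal.ofReal (Real.exp ((R + 1) ^ 2)) * (ENNReal.ofReal K * QQ α (2 / |τ|)) := by
    refine le_trans ?_ (mul_le_mul_right (hK α c hcm hc2 τ (abs_pos.1 hτ0)) _)
    rw [← lintegral_const_mul' _ _ ENNReal.ofReal_ne_top]
    refine le_trans (setLIntegral_mono' measurableSet_closedBall fun w hw => ?_)
      (setLIntegral_le_lintegral (closedBall (0 : V) (R + ρ)) _)
    rw [mem_closedBall_zero_iff] at hw
    rw [← ofReal_norm, ← ENNReal.ofReal_pow (norm_nonneg _),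
      ← ENNReal.ofReal_mul (Real.exp_pos _).le]
    refine ENNReal.ofReal_le_ofReal ?_
    have h2 : 1 ≤ Real.exp ((R + 1) ^ 2) * Real.exp (-‖w‖ ^ 2) := by
      rw [← Real.exp_add]
      refine Real.one_le_exp ?_
      have : ‖w‖ ^ 2 ≤ (R + 1) ^ 2 := pow_le_pow_left₀ (norm_nonneg _) (by linarith only [hρ2, hw]) 2
      linarith only [this]
    calc _ ≤ ‖e1F α c τ w‖ ^ 2 * (Real.exp ((R + 1) ^ 2) * Real.exp (-‖w‖ ^ 2)) :=
          le_mul_of_one_le_right (sq_nonneg _) h2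
      _ = _ := by ring
  have h2 : QQ β (2 * ρ) ≤ QQ β (2 / |τ|) := by
    refine QQ_mono_r β (by positivity) ?_
    rw [div_eq_mul_one_div 2]
    linarith only [hρ1]
  have h3 : 3 / (θ * v) = 3 * R ^ finrank ℝ V / b * θ := by
    rw [hvb, hρ, one_div, inv_pow, mul_pow, ← hθ2]
    field_simp
  refine (lintegral_mono fun y => e1_avg α hcm hc2 hv0 hcv y).trans (hs.trans ?_)
  rw [← hθ, mul_add]
  refine add_le_add ((mul_le_mul_right h1 _).trans ?_) (mul_le_mul' ?_ h2)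
  · rw [← mul_assoc, ← mul_assoc, ← ENNReal.ofReal_mul hθ0.le,
      ← ENNReal.ofReal_mul (by positivity)]
    refine mul_le_mul_left (ENNReal.ofReal_le_ofReal ?_) _
    have : 0 ≤ 3 * R ^ finrank ℝ V / b * θ := by positivity
    linarith only [this]
  · refine ENNReal.ofReal_le_ofReal ?_
    rw [h3]
    have : 0 ≤ Real.exp ((R + 1) ^ 2) * K * θ := by positivity
    linarith only [this]

end Pool.Agent.MP_83cc0d_an.Cd

end

-- part E2
section

namespace Pool.Agent.MP_83cc0d_an.Cd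

open MeasureTheory Complex Filter Topology Metric Module Set
open scoped ENNReal InnerProductSpace ComplexConjugate

variable {V : Type} [NormedAddCommGroup V] [InnerProductSpace ℝ V] [FiniteDimensional ℝ V]
  [MeasurableSpace V] [BorelSpace V]

lemma e2_slab {Ω : Type} [MeasurableSpace Ω] (m : Measure Ω) [IsFiniteMeasure m] {u : Ω → ℝ}
    (hu : Measurable u) {γ : ℝ} (hγ : 0 < γ) :
    m {ω | |u ω| ≤ γ} ≤ ENNReal.ofReal γ * ∫⁻ τ : ℝ, ENNReal.ofReal (Real.exp (-(γ * τ) ^ 2 / 4)) *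
      ‖∫ ω, cexp (I * ((τ * u ω : ℝ) : ℂ)) ∂m‖ₑ := by
  obtain ⟨ε, rfl⟩ : ∃ ε : ℝ, γ = 2 * ε := ⟨γ / 2, by ring⟩
  have hε : 0 < ε := by linarith
  have hb : 0 < ((ε : ℂ) ^ 2).re := by rw [← ofReal_pow, ofReal_re]; positivity
  set F : Ω → ℝ → ℂ := fun ω τ => cexp (I * (u ω : ℝ) * τ) * cexp (-(ε : ℂ) ^ 2 * τ ^ 2) with hF
  have hn : ∀ τ : ℝ, ‖cexp (-(ε : ℂ) ^ 2 * τ ^ 2)‖ = Real.exp (-ε ^ 2 * τ ^ 2) := by
    intro τ
    rw [show -(ε : ℂ) ^ 2 * τ ^ 2 = ((-ε ^ 2 * τ ^ 2 : ℝ) : ℂ) by push_cast; ring, norm_exp_ofReal]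
  have hFn : ∀ ω τ, ‖F ω τ‖ = Real.exp (-ε ^ 2 * τ ^ 2) := by
    intro ω τ
    rw [hF]; simp only
    rw [norm_mul, hn, show I * (u ω : ℝ) * τ = ((u ω * τ : ℝ) : ℂ) * I by
      push_cast; ring, norm_exp_ofReal_mul_I, one_mul]
  have hint : Integrable (Function.uncurry F) (m.prod volume) := by
    have := Integrable.mul_prod (μ := m) (integrable_const (1 : ℝ))
      (integrable_exp_neg_mul_sq (b := ε ^ 2) (by positivity))
    refine this.mono' (Measurable.aestronglyMeasurable ?_) (Eventually.of_forall fun z => ?_)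
    · rw [hF]; unfold Function.uncurry; fun_prop
    · simp only [Function.uncurry, hFn, one_mul, le_refl]
  have swap := integral_integral_swap hint
  have l1 : ∀ ω, ∫ τ, F ω τ =
      ((√Real.pi / ε * Real.exp (-(u ω) ^ 2 / (4 * ε ^ 2)) : ℝ) : ℂ) := by
    intro ω
    rw [hF]; simp only
    rw [fourierIntegral_gaussian hb]
    have : ((Real.pi : ℂ) / (ε : ℂ) ^ 2) ^ (1 / 2 : ℂ) = ((√Real.pi / ε : ℝ) : ℂ) := by
      rw [show ((1 : ℂ) / 2) = ((1 / 2 : ℝ) : ℂ) by push_cast; rfl,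
        show ((Real.pi : ℂ) / (ε : ℂ) ^ 2) = ((Real.pi / ε ^ 2 : ℝ) : ℂ) by push_cast; rfl,
        ← ofReal_cpow (by positivity), ← Real.sqrt_eq_rpow, Real.sqrt_div Real.pi_pos.le,
        Real.sqrt_sq hε.le]
    rw [this]; push_cast; rfl
  have l2 : ∀ τ : ℝ, ‖∫ ω, F ω τ ∂m‖ₑ = ENNReal.ofReal (Real.exp (-(2 * ε * τ) ^ 2 / 4)) *
      ‖∫ ω, cexp (I * ((τ * u ω : ℝ) : ℂ)) ∂m‖ₑ := by
    intro τ
    rw [hF]; simp only
    rw [integral_mul_const, enorm_mul, mul_comm, ← ofReal_norm (cexp _), hn]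
    congr 1
    · congr 2; ring
    · congr 2; funext ω; congr 1; push_cast; ring
  simp_rw [l1] at swap
  rw [integral_complex_ofReal] at swap
  have hm : MeasurableSet {ω | |u ω| ≤ 2 * ε} := measurableSet_le (by fun_prop) measurable_const
  have u2 : m.real {ω | |u ω| ≤ 2 * ε} * (1 / (2 * ε)) ≤
      ∫ ω, √Real.pi / ε * Real.exp (-(u ω) ^ 2 / (4 * ε ^ 2)) ∂m := by
    rw [← smul_eq_mul, ← integral_indicator_const _ hm]
    apply integral_mono ((integrable_const _).indicator hm)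
    · refine (integrable_const (√Real.pi / ε)).mono'
        (Measurable.aestronglyMeasurable (by fun_prop)) (Eventually.of_forall fun p => ?_)
      rw [Real.norm_of_nonneg (by positivity)]
      apply mul_le_of_le_one_right (by positivity)
      rw [Real.exp_le_one_iff, neg_div, neg_nonpos]; positivity
    · intro ω
      by_cases hp : ω ∈ {ω | |u ω| ≤ 2 * ε}
      · rw [Set.indicator_of_mem hp]
        have h1 : (u ω) ^ 2 ≤ (2 * ε) ^ 2 := sq_le_sq' (abs_le.1 hp).1 (abs_le.1 hp).2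
        have h2 : (3 / 2 : ℝ) ≤ √Real.pi :=
          Real.le_sqrt_of_sq_le (by linarith only [Real.pi_gt_three])
        have h3 : (-1 : ℝ) ≤ -(u ω) ^ 2 / (4 * ε ^ 2) := by
          rw [neg_div, neg_le_neg_iff, div_le_iff₀ (by positivity)]; linarith only [h1]
        have h4 : (1 / 3 : ℝ) ≤ Real.exp (-(u ω) ^ 2 / (4 * ε ^ 2)) := by
          refine le_trans ?_ (Real.exp_le_exp.2 h3)
          rw [Real.exp_neg, one_div]
          exact inv_anti₀ (Real.exp_pos _) (by linarith only [Real.exp_one_lt_d9])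
        have h5 : 1 / (2 * ε) = (3 / 2) / ε * (1 / 3) := by field_simp
        simp only
        rw [h5]
        exact mul_le_mul (div_le_div_of_nonneg_right h2 hε.le) h4 (by norm_num) (by positivity)
      · rw [Set.indicator_of_notMem hp]; positivity
  have u3 : ENNReal.ofReal (m.real {ω | |u ω| ≤ 2 * ε} * (1 / (2 * ε))) ≤
      ∫⁻ τ : ℝ, ‖∫ ω, F ω τ ∂m‖ₑ := by
    refine le_trans ?_ (enorm_integral_le_lintegral_enorm _)
    rw [← swap, ← ofReal_norm, norm_real]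
    exact ENNReal.ofReal_le_ofReal (u2.trans (le_abs_self _))
  simp_rw [l2] at u3
  calc m {ω | |u ω| ≤ 2 * ε} = ENNReal.ofReal (2 * ε) *
        ENNReal.ofReal (m.real {ω | |u ω| ≤ 2 * ε} * (1 / (2 * ε))) := by
        rw [← ENNReal.ofReal_mul hγ.le, show 2 * ε * (m.real {ω | |u ω| ≤ 2 * ε} * (1 / (2 * ε))) =
          m.real {ω | |u ω| ≤ 2 * ε} by field_simp, ofReal_measureReal]
    _ ≤ _ := by gcongr

lemma e2_one (t : ℝ) : ‖cexp (I * (t : ℂ))‖ₑ = 1 := by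
  rw [← ofReal_norm, mul_comm, norm_exp_ofReal_mul_I, ENNReal.ofReal_one]

lemma e2_prod (α β : Measure V) [IsFiniteMeasure α] [IsFiniteMeasure β] {φ : V → ℝ}
    (hφ : Measurable φ) (τ : ℝ) :
    ‖∫ p : V × V, cexp (I * ((τ * (⟪p.1, p.2⟫_ℝ + φ p.2) : ℝ) : ℂ)) ∂α.prod β‖ₑ ≤
      ∫⁻ y, ‖∫ x, cexp (I * ((τ * ⟪x, y⟫_ℝ : ℝ) : ℂ)) ∂α‖ₑ ∂β := by
  have hi : Integrable (fun p : V × V => cexp (I * ((τ * (⟪p.1, p.2⟫_ℝ + φ p.2) : ℝ) : ℂ)))
      (α.prod β) := by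
    refine (integrable_const (1 : ℝ)).mono' (Measurable.aestronglyMeasurable ?_)
      (Eventually.of_forall fun p => ?_)
    · have : Measurable fun p : V × V => ⟪p.1, p.2⟫_ℝ := (by fun_prop : Continuous _).measurable
      fun_prop
    · rw [mul_comm, norm_exp_ofReal_mul_I]
  rw [integral_prod_symm _ hi]
  refine (enorm_integral_le_lintegral_enorm _).trans (le_of_eq (lintegral_congr fun y => ?_))
  have e : ∀ x : V, cexp (I * ((τ * (⟪x, y⟫_ℝ + φ y) : ℝ) : ℂ)) =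
      cexp (I * ((τ * ⟪x, y⟫_ℝ : ℝ) : ℂ)) * cexp (I * ((τ * φ y : ℝ) : ℂ)) := by
    intro x
    rw [← Complex.exp_add]; congr 1; push_cast; ring
  simp_rw [e]
  rw [integral_mul_const, enorm_mul, e2_one, mul_one]

lemma e2_neg (K : ℝ → ℝ≥0∞) (l : ℝ) : ∫⁻ τ in Iio (-l), K (-τ) = ∫⁻ τ in Ioi l, K τ := by
  rw [← lintegral_indicator measurableSet_Iio, ← lintegral_indicator measurableSet_Ioi,
    ← lintegral_neg_eq_self ((Ioi l).indicator K)]
  refine lintegral_congr fun τ => ?_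
  by_cases h : τ ∈ Iio (-l)
  · rw [indicator_of_mem h, indicator_of_mem (show -τ ∈ Ioi l by
      rw [mem_Iio] at h; rw [mem_Ioi]; linarith)]
  · rw [indicator_of_notMem h, indicator_of_notMem (show -τ ∉ Ioi l by
      rw [mem_Iio] at h; rw [mem_Ioi]; linarith)]

/-- Slab bound. `1 {|u| ≤ γ} ≤ 3 exp (-u²/γ²) = 3 γ / (2 √π) ∫ cexp (I τ u) exp (-(γ τ)²/4) dτ`
(pattern of `pair_bound` in `Mg/Main`; `fourierIntegral_gaussian`). Fubini; for `|τ| ≤ l` the inner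
double integral is at most the product of the masses, for `|τ| > l` use `lemE` (the factor
`cexp (I τ φ y)` has norm one); fold `τ < -l` onto `τ > l`. -/
lemma lemR {R : ℝ} (hR : 1 ≤ R) : ∃ C : ℝ, 0 ≤ C ∧ ∀ (α β : Measure V) [IsFiniteMeasure α]
    [IsFiniteMeasure β], (∀ᵐ x ∂α, ‖x‖ ≤ R) → (∀ᵐ y ∂β, ‖y‖ ≤ R) → ∀ φ : V → ℝ, Measurable φ →
    ∀ γ l : ℝ, 0 < γ → 1 ≤ l →
    (α.prod β) {p | |⟪p.1, p.2⟫_ℝ + φ p.2| ≤ γ} ≤ ENNReal.ofReal (C * γ) *
      (ENNReal.ofReal l * (α univ * β univ) + ∫⁻ τ in Ioi l,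
        ENNReal.ofReal (Real.exp (-(γ * τ) ^ 2 / 4) * τ ^ ((finrank ℝ V : ℝ) / 2)) *
          (QQ α (2 / τ) + QQ β (2 / τ))) := by
  obtain ⟨C, hC, hE⟩ := lemE (V := V) hR
  refine ⟨2 + 2 * C, by positivity, fun α β _ _ hα hβ φ hφ γ l hγ hl => ?_⟩
  have hu : Measurable fun p : V × V => ⟪p.1, p.2⟫_ℝ + φ p.2 := by
    have : Measurable fun p : V × V => ⟪p.1, p.2⟫_ℝ := (by fun_prop : Continuous _).measurable
    fun_prop
  refine (e2_slab (α.prod β) hu hγ).trans ?_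
  set H : ℝ → ℝ≥0∞ := fun τ => ENNReal.ofReal (Real.exp (-(γ * τ) ^ 2 / 4)) *
    ‖∫ p : V × V, cexp (I * ((τ * (⟪p.1, p.2⟫_ℝ + φ p.2) : ℝ) : ℂ)) ∂α.prod β‖ₑ with hH
  set K : ℝ → ℝ≥0∞ := fun τ =>
    ENNReal.ofReal (Real.exp (-(γ * τ) ^ 2 / 4) * τ ^ ((finrank ℝ V : ℝ) / 2)) *
      (QQ α (2 / τ) + QQ β (2 / τ)) with hK
  have h1 : ∀ τ, H τ ≤ α univ * β univ := by
    intro τ
    have a1 : ENNReal.ofReal (Real.exp (-(γ * τ) ^ 2 / 4)) ≤ 1 := by
      rw [ENNReal.ofReal_le_one, Real.exp_le_one_iff, neg_div, neg_nonpos]; positivity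
    have a2 : ‖∫ p : V × V, cexp (I * ((τ * (⟪p.1, p.2⟫_ℝ + φ p.2) : ℝ) : ℂ)) ∂α.prod β‖ₑ ≤
        α univ * β univ := by
      refine (enorm_integral_le_lintegral_enorm _).trans (le_of_eq ?_)
      simp_rw [e2_one]
      rw [lintegral_const, one_mul, ← univ_prod_univ, Measure.prod_prod]
    calc H τ ≤ 1 * (α univ * β univ) := mul_le_mul' a1 a2
      _ = _ := one_mul _
  have h2 : ∀ τ, 1 ≤ |τ| → H τ ≤ ENNReal.ofReal C * K |τ| := by
    intro τ hτ
    have a2 := (e2_prod α β hφ τ).trans (hE α β hα hβ τ hτ)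
    calc H τ ≤ ENNReal.ofReal (Real.exp (-(γ * τ) ^ 2 / 4)) *
          (ENNReal.ofReal (C * |τ| ^ ((finrank ℝ V : ℝ) / 2)) *
            (QQ α (2 / |τ|) + QQ β (2 / |τ|))) := mul_le_mul' le_rfl a2
      _ = _ := by
        rw [hK]; simp only
        rw [← mul_assoc, ← mul_assoc, ← ENNReal.ofReal_mul (Real.exp_pos _).le,
          ← ENNReal.ofReal_mul hC, mul_pow, mul_pow, sq_abs]
        congr 2; ring
  have s1 : ∫⁻ τ in Icc (-l) l, H τ ≤ ENNReal.ofReal 2 * (ENNReal.ofReal l * (α univ * β univ)) := by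
    calc ∫⁻ τ in Icc (-l) l, H τ ≤ ∫⁻ _ in Icc (-l) l, α univ * β univ := lintegral_mono h1
      _ = _ := by
        rw [setLIntegral_const, Real.volume_Icc, ← mul_assoc, ← ENNReal.ofReal_mul (by norm_num),
          mul_comm]
        congr 2; ring
  have s2 : ∫⁻ τ in Ioi l, H τ ≤ ENNReal.ofReal C * ∫⁻ τ in Ioi l, K τ := by
    rw [← lintegral_const_mul' _ _ ENNReal.ofReal_ne_top]
    refine setLIntegral_mono' measurableSet_Ioi fun τ hτ => ?_
    have a : 1 ≤ τ := hl.trans (le_of_lt hτ)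
    have e : |τ| = τ := abs_of_nonneg (by linarith only [a])
    have := h2 τ (by rwa [e])
    rwa [e] at this
  have s3 : ∫⁻ τ in Iio (-l), H τ ≤ ENNReal.ofReal C * ∫⁻ τ in Ioi l, K τ := by
    rw [← e2_neg, ← lintegral_const_mul' _ _ ENNReal.ofReal_ne_top]
    refine setLIntegral_mono' measurableSet_Iio fun τ hτ => ?_
    have a : τ < -l := hτ
    have e : |τ| = -τ := abs_of_nonpos (by linarith only [hl, a])
    have := h2 τ (by rw [e]; linarith)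
    rwa [e] at this
  have s0 : ∫⁻ τ, H τ ≤ (∫⁻ τ in Icc (-l) l, H τ) + ((∫⁻ τ in Ioi l, H τ) + ∫⁻ τ in Iio (-l), H τ) := by
    rw [← setLIntegral_univ]
    have hs : (univ : Set ℝ) ⊆ Icc (-l) l ∪ (Ioi l ∪ Iio (-l)) := by
      intro τ _
      rcases lt_or_ge τ (-l) with a | a
      · exact Or.inr (Or.inr a)
      · rcases le_or_gt τ l with b | b
        · exact Or.inl ⟨a, b⟩
        · exact Or.inr (Or.inl b)
    refine (lintegral_mono_set hs).trans ((lintegral_union_le _ _ _).trans ?_)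
    gcongr
    exact lintegral_union_le _ _ _
  have b1 : ENNReal.ofReal 2 ≤ ENNReal.ofReal (2 + 2 * C) := ENNReal.ofReal_le_ofReal (by linarith)
  have b2 : ENNReal.ofReal C + ENNReal.ofReal C ≤ ENNReal.ofReal (2 + 2 * C) := by
    rw [← ENNReal.ofReal_add hC hC]; exact ENNReal.ofReal_le_ofReal (by linarith)
  rw [ENNReal.ofReal_mul (by positivity), mul_comm (ENNReal.ofReal (2 + 2 * C)), mul_assoc]
  refine mul_le_mul' le_rfl (s0.trans ((add_le_add s1 (add_le_add s2 s3)).trans ?_))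
  rw [← add_mul, mul_add]
  gcongr

end Pool.Agent.MP_83cc0d_an.Cd

end

-- part E3
section

namespace Pool.Agent.MP_83cc0d_an.Cd

open MeasureTheory Complex Filter Topology Metric Module Set
open scoped ENNReal InnerProductSpace ComplexConjugate

variable {V : Type} [NormedAddCommGroup V] [InnerProductSpace ℝ V] [FiniteDimensional ℝ V]
  [MeasurableSpace V] [BorelSpace V]

lemma e3_key {σ γ τ : ℝ} (hσ : 0 ≤ σ) (hγ : 0 < γ) (hτ : 0 < τ) (d : ℝ) :
    Real.exp (-(γ * τ) ^ 2 / 4) * τ ^ d * (2 / τ + γ) ^ σ ≤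
      Real.exp (σ + σ ^ 2) * τ ^ (d - σ) := by
  have hx : 0 < γ * τ := mul_pos hγ hτ
  have h1 : (2 / τ + γ) = (2 + γ * τ) / τ := by field_simp
  have h2 : (2 + γ * τ) ^ σ ≤ Real.exp (σ * (1 + γ * τ)) := by
    rw [mul_comm σ, Real.exp_mul]
    apply Real.rpow_le_rpow (by positivity) _ hσ
    have := Real.add_one_le_exp (1 + γ * τ)
    linarith
  have h3 : Real.exp (-(γ * τ) ^ 2 / 4) * (2 + γ * τ) ^ σ ≤ Real.exp (σ + σ ^ 2) := by
    refine (mul_le_mul_of_nonneg_left h2 (Real.exp_pos _).le).trans ?_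
    rw [← Real.exp_add]
    apply Real.exp_le_exp.2
    nlinarith [sq_nonneg (γ * τ / 2 - σ)]
  rw [h1, Real.div_rpow (by positivity) hτ.le, Real.rpow_sub hτ]
  have h4 : 0 ≤ τ ^ d / τ ^ σ := by positivity
  calc Real.exp (-(γ * τ) ^ 2 / 4) * τ ^ d * ((2 + γ * τ) ^ σ / τ ^ σ)
      = (Real.exp (-(γ * τ) ^ 2 / 4) * (2 + γ * τ) ^ σ) * (τ ^ d / τ ^ σ) := by ring
    _ ≤ _ := mul_le_mul_of_nonneg_right h3 h4

lemma e3_int {l K a : ℝ} (hl : 0 < l) (hK : 0 ≤ K) (ha : a < -1) :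
    ∫⁻ τ in Ioi l, ENNReal.ofReal (K * τ ^ a) = ENNReal.ofReal (K / (-(a + 1)) * l ^ (a + 1)) := by
  rw [← ofReal_integral_eq_lintegral_ofReal]
  · rw [integral_const_mul, integral_Ioi_rpow_of_lt ha hl]
    congr 1
    have : a + 1 ≠ 0 := by linarith
    field_simp
  · exact (integrableOn_Ioi_rpow_of_lt ha hl).const_mul K
  · filter_upwards [ae_restrict_mem measurableSet_Ioi] with τ hτ
    have : 0 < τ := hl.trans hτ
    positivity

lemma e3_scale {c M y : ℝ} (hc : 0 ≤ c) (hM : 0 ≤ M) (hy : 0 ≤ y) (X : ℝ≥0∞) :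
    ENNReal.ofReal c * (X + ENNReal.ofReal (M * y)) ≤
      ENNReal.ofReal (c * (1 + M)) * (X + ENNReal.ofReal y) := by
  rw [ENNReal.ofReal_mul hc, mul_assoc, mul_add (ENNReal.ofReal (1 + M))]
  gcongr
  · exact le_mul_of_one_le_left' (ENNReal.one_le_ofReal.2 (by linarith))
  · rw [← ENNReal.ofReal_mul (by linarith)]
    apply ENNReal.ofReal_le_ofReal
    linarith only [hy]

/-- Family version of `lemR`: integrate over `ω`, Tonelli, then
`exp (-(γ τ)²/4) (2/τ + γ)^σ ≤ C τ^(-σ)` and `∫_{τ > l} τ^(d/2 - σ) = l^(-(σ - d/2 - 1)) / δ`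
(`integral_Ioi_rpow_of_lt`). -/
lemma lemRF {R σ : ℝ} (hR : 1 ≤ R) (hσ : (finrank ℝ V : ℝ) / 2 + 1 < σ) :
    ∃ C : ℝ, 0 ≤ C ∧ ∀ (Ω : Type) [MeasurableSpace Ω] (P : Measure Ω) [SFinite P]
      (α β : Ω → Measure V) (φ : Ω → V → ℝ) (q : Ω × ℝ → ℝ≥0∞) (ma : Ω → ℝ≥0∞) (γ l B : ℝ),
      0 < γ → 1 ≤ l → 0 ≤ B → Measurable q → Measurable ma →
      (∀ᵐ ω ∂P, IsFiniteMeasure (α ω) ∧ IsFiniteMeasure (β ω) ∧ (∀ᵐ x ∂α ω, ‖x‖ ≤ R) ∧
        (∀ᵐ x ∂β ω, ‖x‖ ≤ R) ∧ Measurable (φ ω) ∧ α ω univ * β ω univ ≤ ma ω ∧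
        ∀ r, 0 < r → QQ (α ω) r + QQ (β ω) r ≤ q (ω, r)) →
      (∀ r, 0 < r → ∫⁻ ω, q (ω, r) ∂P ≤ ENNReal.ofReal (B * (r + γ) ^ σ)) →
      ∫⁻ ω, ((α ω).prod (β ω)) {p | |⟪p.1, p.2⟫_ℝ + φ ω p.2| ≤ γ} ∂P ≤ ENNReal.ofReal (C * γ) *
        (ENNReal.ofReal l * ∫⁻ ω, ma ω ∂P +
          ENNReal.ofReal (B * l ^ (-(σ - (finrank ℝ V : ℝ) / 2 - 1)))) := by
  obtain ⟨C, hC, H⟩ := lemR (V := V) hR
  set d : ℝ := (finrank ℝ V : ℝ) / 2 with hd
  have hd0 : 0 ≤ d := by positivity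
  have hσ0 : 0 ≤ σ := by linarith only [hσ, hd0]
  have hδ : 0 < -(d - σ + 1) := by linarith only [hσ]
  set K : ℝ := Real.exp (σ + σ ^ 2) with hK
  have hK0 : 0 ≤ K := (Real.exp_pos _).le
  refine ⟨C * (1 + K / (-(d - σ + 1))), by positivity, ?_⟩
  intro Ω _ P _ α β φ q ma γ l B hγ hl hB hq hma hae hqB
  have hl0 : 0 < l := by linarith only [hl]
  let g : ℝ → ℝ≥0∞ := fun τ => ENNReal.ofReal (Real.exp (-(γ * τ) ^ 2 / 4) * τ ^ d)
  have hg : Measurable g := by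
    apply ENNReal.measurable_ofReal.comp
    exact (Real.measurable_exp.comp (by fun_prop)).mul (measurable_id.pow_const d)
  have hm : Measurable fun p : Ω × ℝ => g p.2 * q (p.1, 2 / p.2) :=
    (hg.comp measurable_snd).mul (hq.comp (by fun_prop))
  have h1 : ∫⁻ ω, ((α ω).prod (β ω)) {p | |⟪p.1, p.2⟫_ℝ + φ ω p.2| ≤ γ} ∂P ≤
      ∫⁻ ω, ENNReal.ofReal (C * γ) *
        (ENNReal.ofReal l * ma ω + ∫⁻ τ in Ioi l, g τ * q (ω, 2 / τ)) ∂P := by
    apply lintegral_mono_ae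
    filter_upwards [hae] with ω ⟨ha, hb, h1, h2, h3, h4, h5⟩
    refine (H (α ω) (β ω) h1 h2 (φ ω) h3 γ l hγ hl).trans ?_
    refine mul_le_mul_right (add_le_add (mul_le_mul_right h4 _) ?_) _
    apply setLIntegral_mono' measurableSet_Ioi
    intro τ hτ
    have : 0 < τ := hl0.trans hτ
    exact mul_le_mul_right (h5 _ (by positivity)) _
  have h2 : ∫⁻ ω, ∫⁻ τ in Ioi l, g τ * q (ω, 2 / τ) ∂volume ∂P ≤
      ENNReal.ofReal (K / (-(d - σ + 1)) * (B * l ^ (-(σ - d - 1)))) := by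
    rw [lintegral_lintegral_swap hm.aemeasurable]
    have e : K / (-(d - σ + 1)) * (B * l ^ (-(σ - d - 1))) =
        B * K / (-(d - σ + 1)) * l ^ (d - σ + 1) := by
      rw [show -(σ - d - 1) = d - σ + 1 by ring]; ring
    rw [e, ← e3_int hl0 (mul_nonneg hB hK0) (by linarith only [hσ])]
    apply setLIntegral_mono' measurableSet_Ioi
    intro τ hτ
    have hτ0 : 0 < τ := hl0.trans hτ
    rw [lintegral_const_mul' _ _ ENNReal.ofReal_ne_top]
    refine (mul_le_mul_right (hqB _ (by positivity)) _).trans ?_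
    rw [← ENNReal.ofReal_mul (by positivity)]
    apply ENNReal.ofReal_le_ofReal
    have := mul_le_mul_of_nonneg_left (e3_key hσ0 hγ hτ0 d) hB
    calc _ = B * (Real.exp (-(γ * τ) ^ 2 / 4) * τ ^ d * (2 / τ + γ) ^ σ) := by ring
      _ ≤ _ := this
      _ = _ := by ring
  refine h1.trans ?_
  rw [lintegral_const_mul' _ _ ENNReal.ofReal_ne_top,
    lintegral_add_left (hma.const_mul _), lintegral_const_mul _ hma]
  refine (mul_le_mul_right (add_le_add_right h2 _) _).trans ?_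
  refine (e3_scale (by positivity) (by positivity) (by positivity) _).trans (le_of_eq ?_)
  congr 2
  ring

/-- `lemRF` with `Ω = Unit`, `P = dirac ()`, `φ = 0`, `q (ω, r) = ofReal (2 A (r + γ)^s)`. -/
lemma lemR1 {R A s : ℝ} (hR : 1 ≤ R) (hA : 0 ≤ A) (hs : (finrank ℝ V : ℝ) + 2 < 2 * s) :
    ∃ C : ℝ, 0 ≤ C ∧ ∀ μ ν : Measure V, Cl μ R A s → Cl ν R A s → ∀ γ l : ℝ, 0 < γ → 1 ≤ l →
      (μ.prod ν) {p | |⟪p.1, p.2⟫_ℝ| ≤ γ} ≤ ENNReal.ofReal (C * γ) *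
        (ENNReal.ofReal l * (μ univ * ν univ) +
          ENNReal.ofReal (l ^ (-(s - (finrank ℝ V : ℝ) / 2 - 1)))) := by
  have hs' : (finrank ℝ V : ℝ) / 2 + 1 < s := by linarith
  have hs0 : 0 ≤ s := by
    have : (0 : ℝ) ≤ finrank ℝ V := by positivity
    linarith only [hs]
  obtain ⟨C, hC, H⟩ := lemRF (V := V) hR hs'
  refine ⟨C * (1 + 2 * A), by positivity, ?_⟩
  intro μ ν hμ hν γ l hγ hl
  have := H Unit (Measure.dirac ()) (fun _ => μ) (fun _ => ν) (fun _ _ => 0)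
    (fun p => ENNReal.ofReal (2 * A * (p.2 + γ) ^ s)) (fun _ => μ univ * ν univ) γ l (2 * A)
    hγ hl (by positivity)
    (ENNReal.measurable_ofReal.comp (((measurable_snd.add_const γ).pow_const s).const_mul _))
    measurable_const
    (Eventually.of_forall fun _ => ⟨hμ.fin, hν.fin, hμ.bdd, hν.bdd, measurable_const, le_rfl,
      fun r hr => by
        refine (add_le_add (hμ.pair r hr) (hν.pair r hr)).trans ?_
        rw [← ENNReal.ofReal_add (by positivity) (by positivity)]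
        apply ENNReal.ofReal_le_ofReal
        have : r ^ s ≤ (r + γ) ^ s := Real.rpow_le_rpow hr.le (by linarith only [hγ]) hs0
        nlinarith only [hA, this]⟩)
    (fun r _ => by simp only [lintegral_const, measure_univ, mul_one, Std.le_refl])
  simp only [add_zero, lintegral_const, measure_univ, mul_one] at this
  refine this.trans ?_
  refine (e3_scale (by positivity) (by positivity) (by positivity) _).trans (le_of_eq ?_)
  congr 2
  ring

end Pool.Agent.MP_83cc0d_an.Cd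

end

-- part A1
section

namespace Pool.Agent.MP_83cc0d_an.Cd

open MeasureTheory Complex Filter Topology Metric Module Set
open scoped ENNReal InnerProductSpace ComplexConjugate

variable {V : Type} [NormedAddCommGroup V] [InnerProductSpace ℝ V] [FiniteDimensional ℝ V]
  [MeasurableSpace V] [BorelSpace V]

/-- `lemR1` with `l = 1`. -/
lemma slab0 {R A s : ℝ} (hR : 1 ≤ R) (hA : 0 ≤ A) (hs : (finrank ℝ V : ℝ) + 2 < 2 * s) :
    ∃ C : ℝ, 0 ≤ C ∧ ∀ μ ν : Measure V, Cl μ R A s → Cl ν R A s → ∀ γ : ℝ, 0 < γ →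
      (μ.prod ν) {p | |⟪p.1, p.2⟫_ℝ| ≤ γ} ≤ ENNReal.ofReal (C * γ) := by
  obtain ⟨C, hC, h⟩ := lemR1 (V := V) hR hA hs
  refine ⟨C * (A * A + 1), by positivity, fun μ ν hμ hν γ hγ => ?_⟩
  refine (h μ ν hμ hν γ 1 hγ le_rfl).trans ?_
  rw [Real.one_rpow, ENNReal.ofReal_one, one_mul]
  calc ENNReal.ofReal (C * γ) * (μ univ * ν univ + 1)
      ≤ ENNReal.ofReal (C * γ) * (ENNReal.ofReal A * ENNReal.ofReal A + 1) := by
        gcongr
        · exact hμ.mass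
        · exact hν.mass
    _ = ENNReal.ofReal (C * (A * A + 1) * γ) := by
        rw [← ENNReal.ofReal_mul hA, ← ENNReal.ofReal_one,
          ← ENNReal.ofReal_add (by positivity) zero_le_one, ← ENNReal.ofReal_mul (by positivity)]
        congr 1; ring

/-- Let `g z = μ {x | ..}`, `Z = {z | ofReal (γ^(1/2)) < g z}`. `∫⁻ g dν ≤ C γ` (`slab0`,
`Measure.prod_apply_symm`), Markov: `ν Z ≤ C γ^(1/2)`; `g² ≤ γ^(1/2) g + A 1_Z g`; `∫⁻_Z g` by
`lemR1` for `μ` and `ν.restrict Z` with `l = γ^(-1/4)`. `η = min (1/4) (δ/4)`, `δ = s - d/2 - 1`. -/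
lemma slab1 {R A s : ℝ} (hR : 1 ≤ R) (hA : 0 ≤ A) (hs : (finrank ℝ V : ℝ) + 2 < 2 * s) :
    ∃ C η : ℝ, 0 ≤ C ∧ 0 < η ∧ ∀ μ ν : Measure V, Cl μ R A s → Cl ν R A s → ∀ γ : ℝ, 0 < γ →
      γ ≤ 1 → ∫⁻ z, μ {x | |⟪x, z⟫_ℝ| ≤ γ} ^ 2 ∂ν ≤ ENNReal.ofReal (C * γ ^ (1 + η)) := by
  obtain ⟨C0, hC0, h0⟩ := slab0 (V := V) hR hA hs
  obtain ⟨C1, hC1, h1⟩ := lemR1 (V := V) hR hA hs
  set δ : ℝ := s - (finrank ℝ V : ℝ) / 2 - 1 with hδ
  have hδ0 : 0 < δ := by rw [hδ]; linarith only [hs]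
  refine ⟨C0 + A * (C1 * (A * C0 + 1)), min (1 / 4) (δ / 4), by positivity,
    lt_min (by norm_num) (by positivity), fun μ ν hμ hν γ hγ hγ1 => ?_⟩
  set η : ℝ := min (1 / 4) (δ / 4) with hη
  have := hμ.fin
  have := hν.fin
  have hS : MeasurableSet {p : V × V | |⟪p.1, p.2⟫_ℝ| ≤ γ} :=
    measurableSet_le (by fun_prop) measurable_const
  set g : V → ℝ≥0∞ := fun z => μ {x | |⟪x, z⟫_ℝ| ≤ γ} with hg
  have hgm : Measurable g := measurable_measure_prodMk_right hS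
  have hint : ∀ ν' : Measure V, SFinite ν' →
      ∫⁻ z, g z ∂ν' = (μ.prod ν') {p : V × V | |⟪p.1, p.2⟫_ℝ| ≤ γ} := fun ν' _ =>
    (Measure.prod_apply_symm hS).symm
  have hg0 : ∫⁻ z, g z ∂ν ≤ ENNReal.ofReal (C0 * γ) := by
    rw [hint ν inferInstance]; exact h0 μ ν hμ hν γ hγ
  have hq : 0 < γ ^ (1 / 2 : ℝ) := Real.rpow_pos_of_pos hγ _
  have hqq : γ ^ (1 / 2 : ℝ) * γ ^ (1 / 2 : ℝ) = γ := by
    rw [← Real.rpow_add hγ]; norm_num
  set Z : Set V := {z | ENNReal.ofReal (γ ^ (1 / 2 : ℝ)) ≤ g z} with hZ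
  have hZm : MeasurableSet Z := measurableSet_le measurable_const hgm
  have hZ0 : ν Z ≤ ENNReal.ofReal (C0 * γ ^ (1 / 2 : ℝ)) := by
    have h2 := (mul_meas_ge_le_lintegral₀ (μ := ν) hgm.aemeasurable
      (ENNReal.ofReal (γ ^ (1 / 2 : ℝ)))).trans hg0
    have h3 : ENNReal.ofReal (C0 * γ) =
        ENNReal.ofReal (γ ^ (1 / 2 : ℝ)) * ENNReal.ofReal (C0 * γ ^ (1 / 2 : ℝ)) := by
      rw [← ENNReal.ofReal_mul hq.le]; congr 1
      conv_lhs => rw [← hqq]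
      ring
    rw [h3] at h2
    exact (ENNReal.mul_le_mul_iff_right (by simpa only [one_div, ne_eq, ENNReal.ofReal_eq_zero, not_le] using hq) ENNReal.ofReal_ne_top).1 h2
  have hl : 1 ≤ γ ^ (-(1 / 4) : ℝ) :=
    Real.one_le_rpow_of_pos_of_le_one_of_nonpos hγ hγ1 (by norm_num)
  have hη1 : γ ^ (1 / 4 : ℝ) ≤ γ ^ η :=
    Real.rpow_le_rpow_of_exponent_ge hγ hγ1 (min_le_left _ _)
  have hη2 : γ ^ (δ / 4) ≤ γ ^ η :=
    Real.rpow_le_rpow_of_exponent_ge hγ hγ1 (min_le_right _ _)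
  have hη3 : γ ^ (1 / 2 : ℝ) ≤ γ ^ η :=
    Real.rpow_le_rpow_of_exponent_ge hγ hγ1 ((min_le_left _ _).trans (by norm_num))
  have hηp : 0 < γ ^ η := Real.rpow_pos_of_pos hγ _
  have hZ1 : ∫⁻ z in Z, g z ∂ν ≤ ENNReal.ofReal (C1 * γ * ((A * C0 + 1) * γ ^ η)) := by
    rw [hint (ν.restrict Z) inferInstance]
    refine (h1 μ (ν.restrict Z) hμ (hν.restrict Z) γ _ hγ hl).trans ?_
    rw [ENNReal.ofReal_mul (p := C1 * γ) (by positivity), Measure.restrict_apply_univ]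
    gcongr
    calc ENNReal.ofReal (γ ^ (-(1 / 4) : ℝ)) * (μ univ * ν Z) +
          ENNReal.ofReal ((γ ^ (-(1 / 4) : ℝ)) ^ (-δ))
        ≤ ENNReal.ofReal (γ ^ (-(1 / 4) : ℝ)) *
            (ENNReal.ofReal A * ENNReal.ofReal (C0 * γ ^ (1 / 2 : ℝ))) +
          ENNReal.ofReal ((γ ^ (-(1 / 4) : ℝ)) ^ (-δ)) := by
          gcongr
          exact hμ.mass
      _ = ENNReal.ofReal (A * C0 * γ ^ (1 / 4 : ℝ) + γ ^ (δ / 4)) := by
          rw [← ENNReal.ofReal_mul hA, ← ENNReal.ofReal_mul (by positivity),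
            ← ENNReal.ofReal_add (by positivity) (by positivity), ← Real.rpow_mul hγ.le]
          congr 1
          have e1 : γ ^ (-(1 / 4) : ℝ) * γ ^ (1 / 2 : ℝ) = γ ^ (1 / 4 : ℝ) := by
            rw [← Real.rpow_add hγ]; norm_num
          have e2 : -(1 / 4 : ℝ) * -δ = δ / 4 := by ring
          rw [e2, ← e1]; ring
      _ ≤ ENNReal.ofReal ((A * C0 + 1) * γ ^ η) := by
          apply ENNReal.ofReal_le_ofReal
          have : A * C0 * γ ^ (1 / 4 : ℝ) ≤ A * C0 * γ ^ η := by gcongr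
          linarith only [hη2, this]
  have hpt : ∀ z, g z ^ 2 ≤
      ENNReal.ofReal (γ ^ (1 / 2 : ℝ)) * g z + ENNReal.ofReal A * Z.indicator g z := by
    intro z
    rw [sq]
    by_cases hz : z ∈ Z
    · rw [indicator_of_mem hz]
      refine le_add_left ?_
      gcongr
      exact (measure_mono (subset_univ _)).trans hμ.mass
    · refine le_add_right ?_
      gcongr
      exact (not_le.1 hz).le
  calc ∫⁻ z, g z ^ 2 ∂ν
      ≤ ∫⁻ z, ENNReal.ofReal (γ ^ (1 / 2 : ℝ)) * g z + ENNReal.ofReal A * Z.indicator g z ∂ν :=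
        lintegral_mono hpt
    _ = ENNReal.ofReal (γ ^ (1 / 2 : ℝ)) * ∫⁻ z, g z ∂ν +
          ENNReal.ofReal A * ∫⁻ z in Z, g z ∂ν := by
        rw [lintegral_add_left (hgm.const_mul _), lintegral_const_mul _ hgm,
          lintegral_const_mul _ (hgm.indicator hZm), lintegral_indicator hZm]
    _ ≤ ENNReal.ofReal (γ ^ η) * ENNReal.ofReal (C0 * γ) +
          ENNReal.ofReal A * ENNReal.ofReal (C1 * γ * ((A * C0 + 1) * γ ^ η)) := by
        gcongr
    _ = ENNReal.ofReal ((C0 + A * (C1 * (A * C0 + 1))) * γ ^ (1 + η)) := by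
        rw [← ENNReal.ofReal_mul hηp.le, ← ENNReal.ofReal_mul hA,
          ← ENNReal.ofReal_add (by positivity) (by positivity), Real.rpow_add hγ, Real.rpow_one]
        congr 1; ring

end Pool.Agent.MP_83cc0d_an.Cd

end

-- part A2
section

namespace Pool.Agent.MP_83cc0d_an.Cd

open MeasureTheory Complex Filter Topology Metric Module Set
open scoped ENNReal InnerProductSpace ComplexConjugate

variable {V : Type} [NormedAddCommGroup V] [InnerProductSpace ℝ V] [FiniteDimensional ℝ V]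
  [MeasurableSpace V] [BorelSpace V]

lemma a2_ton {W X : Type} [MeasurableSpace W] [MeasurableSpace X] (P : Measure W) [SFinite P]
    (m : Measure X) [SFinite m] {T : Set (W × X)} (hT : MeasurableSet T) {F : X → ℝ≥0∞}
    (hF : Measurable F) :
    ∫⁻ w, ∫⁻ p in {p | (w, p) ∈ T}, F p ∂m ∂P = ∫⁻ p, F p * P {w | (w, p) ∈ T} ∂m := by
  have h1 : ∀ w, ∫⁻ p in {p | (w, p) ∈ T}, F p ∂m =
      ∫⁻ p, T.indicator (fun z => F z.2) (w, p) ∂m := fun w =>
    (lintegral_indicator (measurable_prodMk_left hT) F).symm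
  have h2 : ∀ p, ∫⁻ w, T.indicator (fun z => F z.2) (w, p) ∂P = F p * P {w | (w, p) ∈ T} :=
    fun p => lintegral_indicator_const (measurable_prodMk_right hT) (F p)
  simp_rw [h1]
  rw [lintegral_lintegral_swap (f := fun w p => T.indicator (fun z => F z.2) (w, p))
    ((hF.comp measurable_snd).indicator hT).aemeasurable]
  simp_rw [h2]

lemma a2_ball {r : ℝ} (hr : 0 < r) (x : V) :
    ((volume (closedBall (0 : V) r))⁻¹ • volume : Measure V) (closedBall x r) = 1 ∧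
    ((volume (closedBall (0 : V) r))⁻¹ • volume : Measure V) (closedBall x (2 * r)) =
      ENNReal.ofReal (2 ^ finrank ℝ V) := by
  have h0 : (volume (closedBall (0 : V) r)) ≠ 0 := (measure_closedBall_pos _ _ hr).ne'
  have h1 : (volume (closedBall (0 : V) r)) ≠ ∞ := measure_closedBall_lt_top.ne
  rw [Measure.smul_apply, Measure.smul_apply, smul_eq_mul, smul_eq_mul,
    Measure.addHaar_closedBall_mul_of_pos volume x two_pos,
    Measure.addHaar_closedBall_center volume x, mul_left_comm, ENNReal.inv_mul_cancel h0 h1,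
    mul_one]
  exact ⟨rfl, rfl⟩

/-- Pair count in a slab. Let `v = volume (closedBall 0 r)`, `B w = closedBall w (2r)`.
If `‖x - x'‖ ≤ r` then `1 ≤ v⁻¹ ∫⁻ w, 1 {x ∈ B w} 1 {x' ∈ B w}`. So the left side is at most
`∫⁻ w, μ (B w) * ((μ.restrict (B w)).prod ν) {|⟪x, z⟫| ≤ γ} d(v⁻¹ • volume)`. Apply `lemRF` with
`Ω = V`, `P = v⁻¹ • volume`, `α w = (μ.restrict (B w)).map (fun x => r⁻¹ • (x - w))`,
`β w = μ (B w) • ν`, `φ w z = ⟪w, z⟫ / r`, width `γ / r`, `l = 1`, radius `max 2 R`, `σ = s`,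
`q (w, ρ) = QQ (μ.restrict (B w)) (r ρ) + μ (B w)^2 * QQ ν ρ` (`QQ_affine`, `QQ_smul`,
`meas_QQ_fam`, `meas_QQ`), `ma w = A * μ (B w)^2`. Tonelli: `v⁻¹ volume (closedBall x (2r)) = 2^d`
gives `∫⁻ QQ (μ.restrict (B w)) (r ρ) dP ≤ 2^d QQ μ (r ρ)` and
`∫⁻ μ (B w)^2 dP ≤ 2^d * 3 * QQ μ (4r)` (`one_le_gq`); so `B = C r^s`. -/
lemma slab2' {R A s : ℝ} (hR : 1 ≤ R) (hA : 0 ≤ A) (hs : (finrank ℝ V : ℝ) + 2 < 2 * s) :
    ∃ C : ℝ, 0 ≤ C ∧ ∀ μ ν : Measure V, Cl μ R A s → Cl ν R A s → ∀ γ r : ℝ, 0 < γ → 0 < r →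
      (ν.prod (μ.prod μ)) {p | |⟪p.2.1, p.1⟫_ℝ| ≤ γ ∧ ‖p.2.1 - p.2.2‖ ≤ r} ≤
        ENNReal.ofReal (C * γ * r ^ (s - 1)) := by
  have hd : (0 : ℝ) ≤ finrank ℝ V := Nat.cast_nonneg _
  have hs0 : 0 ≤ s := by linarith
  obtain ⟨C, hC, H⟩ := lemRF (V := V) (R := max 2 R) (σ := s) (le_max_of_le_right hR) (by linarith only [hs])
  set D : ℝ := 2 ^ finrank ℝ V with hD
  have hD0 : 0 ≤ D := by positivity
  set K : ℝ := D * 3 * (A * 4 ^ s) with hK
  have hK0 : 0 ≤ K := by positivity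
  refine ⟨C * (A * K + (D * A + K * A)), by positivity, fun μ ν hμ hν γ r hγ hr => ?_⟩
  have := hμ.fin
  have := hν.fin
  set P : Measure V := (volume (closedBall (0 : V) r))⁻¹ • volume with hP
  set T : Set (V × V × V) :=
    {z | z.2.1 ∈ closedBall z.1 (2 * r) ∧ z.2.2 ∈ closedBall z.1 (2 * r)} with hT
  have mT : MeasurableSet T := by
    simp only [hT, mem_closedBall, Set.ofPred_and]
    exact (measurableSet_le (by fun_prop) measurable_const).inter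
      (measurableSet_le (by fun_prop) measurable_const)
  have mS : MeasurableSet {z : V × V | z.2 ∈ closedBall z.1 (2 * r)} := by
    simp only [mem_closedBall]
    exact measurableSet_le (by fun_prop) measurable_const
  have eT : ∀ w, (μ.prod μ).restrict {p | (w, p) ∈ T} =
      (μ.restrict (closedBall w (2 * r))).prod (μ.restrict (closedBall w (2 * r))) := fun w => by
    rw [Measure.prod_restrict]
    rfl
  have o1 : ∀ p : V × V, P {w | (w, p) ∈ T} ≤ ENNReal.ofReal D := fun p =>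
    (measure_mono fun w hw => mem_closedBall_comm.mp hw.1).trans (a2_ball hr p.1).2.le
  have o2 : ∀ p : V × V, ‖p.1 - p.2‖ ≤ r → 1 ≤ P {w | (w, p) ∈ T} := fun p hp => by
    refine (a2_ball hr p.1).1.ge.trans (measure_mono fun w hw => ?_)
    rw [mem_closedBall, dist_comm] at hw
    rw [← dist_eq_norm, dist_comm] at hp
    exact ⟨mem_closedBall.mpr (by linarith only [hr, hw]), mem_closedBall.mpr
      ((dist_triangle _ p.1 _).trans (by linarith))⟩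
  have o3 : ∀ p : V × V, P {w | (w, p) ∈ T} ≤ ENNReal.ofReal D * 3 * gq (4 * r) (p.1 - p.2) :=
    fun p => by
      rcases eq_empty_or_nonempty {w | (w, p) ∈ T} with h | ⟨w, h1, h2⟩
      · simp [h]
      · rw [mul_assoc]
        refine (o1 p).trans (le_mul_of_one_le_right' (one_le_gq (by positivity) ?_))
        rw [← dist_eq_norm]
        exact (dist_triangle_right _ _ w).trans (by
          have := mem_closedBall.mp h1
          have := mem_closedBall.mp h2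
          linarith)
  have mg : ∀ ρ : ℝ, Measurable fun p : V × V => gq ρ (p.1 - p.2) := fun ρ =>
    gq_meas measurable_const (by fun_prop)
  have eQ : ∀ (α : Measure V) [SFinite α] (ρ : ℝ), QQ α ρ = ∫⁻ p, gq ρ (p.1 - p.2) ∂α.prod α :=
    fun α _ ρ => (lintegral_prod _ (mg ρ).aemeasurable).symm
  have mB : Measurable fun w : V => μ (closedBall w (2 * r)) := measurable_measure_prodMk_left mS
  have i1 : ∀ ρ, ∫⁻ w, QQ (μ.restrict (closedBall w (2 * r))) ρ ∂P ≤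
      ENNReal.ofReal D * QQ μ ρ := fun ρ => by
    simp_rw [eQ, ← eT]
    rw [a2_ton P _ mT (mg ρ), ← lintegral_const_mul _ (mg ρ)]
    exact lintegral_mono fun p => by rw [mul_comm]; exact mul_le_mul_left (o1 p) _
  have i2 : ∫⁻ w, μ (closedBall w (2 * r)) ^ 2 ∂P ≤ ENNReal.ofReal (K * r ^ s) := by
    have e : ∀ w, μ (closedBall w (2 * r)) ^ 2 = ∫⁻ _ in {p | (w, p) ∈ T}, 1 ∂μ.prod μ :=
      fun w => by
        rw [eT, lintegral_one, ← univ_prod_univ, Measure.prod_prod, Measure.restrict_apply_univ, sq]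
    simp_rw [e]
    rw [a2_ton P _ mT measurable_const]
    refine (lintegral_mono fun p => (one_mul _).le.trans (o3 p)).trans ?_
    rw [lintegral_const_mul _ (mg _), ← eQ]
    refine (mul_le_mul_right (hμ.pair _ (by positivity)) _).trans (le_of_eq ?_)
    rw [← ENNReal.ofReal_ofNat 3, ← ENNReal.ofReal_mul hD0, ← ENNReal.ofReal_mul (by positivity),
      Real.mul_rpow (by norm_num) hr.le, hK]
    congr 1
    ring
  have mf : ∀ w : V, Measurable fun x : V => r⁻¹ • (x - w) := fun w => by fun_prop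
  have key := H V P (fun w => (μ.restrict (closedBall w (2 * r))).map fun x => r⁻¹ • (x - w))
    (fun w => μ (closedBall w (2 * r)) • ν) (fun w z => ⟪w, z⟫_ℝ / r)
    (fun z => QQ (μ.restrict (closedBall z.1 (2 * r))) (r * z.2) +
      μ (closedBall z.1 (2 * r)) ^ 2 * QQ ν z.2)
    (fun w => ENNReal.ofReal A * μ (closedBall w (2 * r)) ^ 2) (γ / r) 1 ((D * A + K * A) * r ^ s)
    (by positivity) le_rfl (by positivity)
    ((meas_QQ_fam μ mS (g := fun z => r * z.2) (by fun_prop)).add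
      (((mB.comp measurable_fst).pow_const 2).mul ((meas_QQ ν).comp measurable_snd)))
    ((mB.pow_const 2).const_mul _) (ae_of_all _ fun w => ?_) fun ρ hρ => ?_
  · have mN : MeasurableSet {z : (V × V) × V | |⟪z.1.1, z.2⟫_ℝ| ≤ γ} :=
      measurableSet_le (by fun_prop) measurable_const
    have mF : Measurable fun p : V × V => ν {z | |⟪p.1, z⟫_ℝ| ≤ γ} :=
      measurable_measure_prodMk_left mN
    have mL : MeasurableSet {p : V × V × V | |⟪p.2.1, p.1⟫_ℝ| ≤ γ ∧ ‖p.2.1 - p.2.2‖ ≤ r} := by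
      rw [Set.ofPred_and]
      exact (measurableSet_le (by fun_prop) measurable_const).inter
        (measurableSet_le (by fun_prop) measurable_const)
    have e : ∀ w, (((μ.restrict (closedBall w (2 * r))).map fun x => r⁻¹ • (x - w)).prod
        (μ (closedBall w (2 * r)) • ν)) {p | |⟪p.1, p.2⟫_ℝ + ⟪w, p.2⟫_ℝ / r| ≤ γ / r} =
        ∫⁻ p in {p | (w, p) ∈ T}, ν {z | |⟪p.1, z⟫_ℝ| ≤ γ} ∂μ.prod μ := fun w => by
      have m1 : MeasurableSet {p : V × V | |⟪p.1, p.2⟫_ℝ + ⟪w, p.2⟫_ℝ / r| ≤ γ / r} :=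
        measurableSet_le (by fun_prop) measurable_const
      rw [Measure.prod_apply m1, lintegral_map (measurable_measure_prodMk_left m1) (mf w), eT,
        lintegral_prod _ mF.aemeasurable]
      refine lintegral_congr fun x => ?_
      dsimp only
      rw [lintegral_const, Measure.restrict_apply_univ, Measure.smul_apply, smul_eq_mul, mul_comm]
      congr 2
      ext z
      have : ⟪r⁻¹ • (x - w), z⟫_ℝ + ⟪w, z⟫_ℝ / r = ⟪x, z⟫_ℝ / r := by
        rw [real_inner_smul_left, inner_sub_left]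
        ring
      simp only [mem_preimage, Set.mem_ofPred_eq, this, abs_div, abs_of_pos hr]
      exact div_le_div_iff_of_pos_right hr
    simp_rw [e] at key
    rw [a2_ton P _ mT mF] at key
    rw [Measure.prod_apply_symm mL]
    refine (lintegral_mono fun p => ?_).trans (key.trans ?_)
    · by_cases h : ‖p.1 - p.2‖ ≤ r
      · exact (measure_mono fun z hz => hz.1).trans (le_mul_of_one_le_right' (o2 p h))
      · exact (measure_mono (t := ∅) fun z hz => h hz.2).trans (by simp)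
    · rw [lintegral_const_mul _ (mB.pow_const 2), ENNReal.ofReal_one, one_mul, Real.one_rpow,
        mul_one]
      refine (mul_le_mul_right (add_le_add_left (mul_le_mul_right i2 _) _) _).trans (le_of_eq ?_)
      rw [← ENNReal.ofReal_mul hA, ← ENNReal.ofReal_add (by positivity) (by positivity),
        ← ENNReal.ofReal_mul (by positivity), Real.rpow_sub_one hr.ne']
      congr 1
      ring
  · refine ⟨inferInstance, ⟨?_⟩, ?_, Measure.ae_smul_measure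
      (hν.bdd.mono fun x hx => hx.trans (le_max_right _ _)) _, by fun_prop, ?_, fun ρ _ => ?_⟩
    · rw [Measure.smul_apply, smul_eq_mul]
      exact ENNReal.mul_lt_top (measure_lt_top _ _) (measure_lt_top _ _)
    · rw [ae_map_iff (mf w).aemeasurable (measurableSet_le (by fun_prop) measurable_const)]
      refine (ae_restrict_mem measurableSet_closedBall).mono fun x hx => le_max_of_le_left ?_
      rw [norm_smul, norm_inv, Real.norm_of_nonneg hr.le, inv_mul_le_iff₀ hr, ← dist_eq_norm,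
        mul_comm]
      exact hx
    · rw [Measure.map_apply (mf w) MeasurableSet.univ, preimage_univ, Measure.restrict_apply_univ,
        Measure.smul_apply, smul_eq_mul, ← mul_assoc, ← sq, mul_comm]
      exact mul_le_mul_left hν.mass _
    · rw [QQ_affine _ _ hr, QQ_smul _ (measure_ne_top _ _)]
  · dsimp only
    rw [lintegral_add_right _ ((mB.pow_const 2).mul_const _), lintegral_mul_const _ (mB.pow_const 2)]
    refine (add_le_add ((i1 _).trans (mul_le_mul_right (hμ.pair _ (by positivity)) _))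
      (mul_le_mul' i2 (hν.pair _ hρ))).trans ?_
    rw [← ENNReal.ofReal_mul hD0, ← ENNReal.ofReal_mul (by positivity),
      ← ENNReal.ofReal_add (by positivity) (by positivity), Real.mul_rpow hr.le hρ.le]
    refine ENNReal.ofReal_le_ofReal (le_trans (le_of_eq (by ring))
      (mul_le_mul_of_nonneg_left (Real.rpow_le_rpow hρ.le (le_add_of_nonneg_right
        (div_pos hγ hr).le) hs0) (by positivity)))

end Pool.Agent.MP_83cc0d_an.Cd

end

-- part A3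
section

namespace Pool.Agent.MP_83cc0d_an.Cd

open MeasureTheory Complex Filter Topology Metric Module Set
open scoped ENNReal InnerProductSpace ComplexConjugate

variable {V : Type} [NormedAddCommGroup V] [InnerProductSpace ℝ V] [FiniteDimensional ℝ V]
  [MeasurableSpace V] [BorelSpace V]

/-- `layer` with `m = (ν.prod (μ.prod μ)).restrict {p | |⟪p.2.1, p.1⟫| ≤ γ}`,
`u p = p.2.1 - p.2.2`, and `slab2'` (drop the slab condition on the second point). -/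
lemma slab2 {R A s : ℝ} (hR : 1 ≤ R) (hA : 0 ≤ A) (hs : (finrank ℝ V : ℝ) + 2 < 2 * s) :
    ∃ C : ℝ, 0 ≤ C ∧ ∀ μ ν : Measure V, Cl μ R A s → Cl ν R A s → ∀ γ r : ℝ, 0 < γ → 0 < r →
      ∫⁻ z, QQ (μ.restrict {x | |⟪x, z⟫_ℝ| ≤ γ}) r ∂ν ≤ ENNReal.ofReal (C * γ * r ^ (s - 1)) := by
  obtain ⟨C0, hC0, h0⟩ := slab2' (V := V) hR hA hs
  have hσ : 0 ≤ s - 1 := by
    have : (0 : ℝ) ≤ (finrank ℝ V : ℝ) := Nat.cast_nonneg _
    linarith
  obtain ⟨C1, hC1, h1⟩ := layer (V := V) hσ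
  refine ⟨C1 * C0, by positivity, fun μ ν hμ hν γ r hγ hr => ?_⟩
  have := hμ.fin
  have := hν.fin
  have hT : MeasurableSet {p : V × V × V | |⟪p.2.1, p.1⟫_ℝ| ≤ γ} :=
    measurableSet_le (by fun_prop) measurable_const
  have hu : Measurable fun p : V × V × V => p.2.1 - p.2.2 := by fun_prop
  have h2 := h1 (V × V × V)
    ((ν.prod (μ.prod μ)).restrict {p : V × V × V | |⟪p.2.1, p.1⟫_ℝ| ≤ γ})
    (fun p => p.2.1 - p.2.2) (C0 * γ) hu (by positivity) (fun ρ hρ => by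
      rw [Measure.restrict_apply' hT, inter_comm]
      exact h0 μ ν hμ hν γ ρ hγ hρ) r hr
  have hgq : Measurable fun p : V × V × V => gq r (p.2.1 - p.2.2) :=
    gq_meas measurable_const hu
  rw [← lintegral_indicator hT, lintegral_prod _ (hgq.indicator hT).aemeasurable] at h2
  rw [mul_assoc C1 C0]
  refine le_trans (lintegral_mono fun z => ?_) h2
  have hSz : MeasurableSet {x : V | |⟪x, z⟫_ℝ| ≤ γ} :=
    measurableSet_le (by fun_prop) measurable_const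
  have hz : Measurable fun y : V × V => {p : V × V × V | |⟪p.2.1, p.1⟫_ℝ| ≤ γ}.indicator
      (fun p => gq r (p.2.1 - p.2.2)) (z, y) := (hgq.indicator hT).comp measurable_prodMk_left
  rw [lintegral_prod _ hz.aemeasurable, QQ, ← lintegral_indicator hSz]
  refine lintegral_mono fun x => ?_
  by_cases hx : x ∈ {x : V | |⟪x, z⟫_ℝ| ≤ γ}
  · rw [indicator_of_mem hx]
    refine (lintegral_mono' Measure.restrict_le_self le_rfl).trans (lintegral_mono fun y => ?_)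
    rw [indicator_of_mem (show (z, x, y) ∈ {p : V × V × V | |⟪p.2.1, p.1⟫_ℝ| ≤ γ} from hx)]
  · rw [indicator_of_notMem hx]
    exact zero_le

omit [NormedAddCommGroup V] [InnerProductSpace ℝ V] [FiniteDimensional ℝ V] [BorelSpace V] in
lemma a3_snd (α : Measure V) [SFinite α] :
    ((volume.restrict (Icc (1 : ℝ) 2)).prod α).map Prod.snd = α := by
  rw [Measure.map_snd_prod, Measure.restrict_apply_univ, Real.volume_Icc]
  norm_num

lemma a3_meas : Measurable fun p : ℝ × V => p.1 • p.2 := by fun_prop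

omit [NormedAddCommGroup V] [InnerProductSpace ℝ V] [FiniteDimensional ℝ V] [BorelSpace V] in
lemma a3_fst (α : Measure V) [SFinite α] :
    ∀ᵐ p ∂(volume.restrict (Icc (1 : ℝ) 2)).prod α, p.1 ∈ Icc (1 : ℝ) 2 :=
  Measure.quasiMeasurePreserving_fst.ae (ae_restrict_mem measurableSet_Icc)

lemma thk_univ (α : Measure V) [SFinite α] : thk α univ = α univ := by
  rw [thk, Measure.map_apply a3_meas MeasurableSet.univ, preimage_univ, ← univ_prod_univ,
    Measure.prod_prod, Measure.restrict_apply_univ, Real.volume_Icc]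
  norm_num only [ENNReal.ofReal_one, one_mul]

lemma thk_bdd {α : Measure V} [SFinite α] {R : ℝ} (h : ∀ᵐ x ∂α, ‖x‖ ≤ R) :
    ∀ᵐ x ∂thk α, ‖x‖ ≤ 2 * R := by
  rw [thk, ae_map_iff a3_meas.aemeasurable (measurableSet_le (by fun_prop) measurable_const)]
  filter_upwards [a3_fst α, (Measure.quasiMeasurePreserving_snd
    (μ := volume.restrict (Icc (1 : ℝ) 2)) (ν := α)).ae h] with p h1 h2
  rw [norm_smul, Real.norm_of_nonneg (by linarith [h1.1])]
  exact mul_le_mul h1.2 h2 (norm_nonneg _) (by norm_num)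

/-- `|⟪σ • x, σ' • y⟫| ≤ 4 |⟪x, y⟫|` for `σ, σ' ∈ [1, 2]` (`Measure.map_prod_map`, or Tonelli). -/
lemma thk_prod (α β : Measure V) [IsFiniteMeasure α] [IsFiniteMeasure β] (γ : ℝ) :
    (α.prod β) {p | |⟪p.1, p.2⟫_ℝ| ≤ γ} ≤
      ((thk α).prod (thk β)) {p | |⟪p.1, p.2⟫_ℝ| ≤ 4 * γ} := by
  have hS : ∀ c : ℝ, MeasurableSet {p : V × V | |⟪p.1, p.2⟫_ℝ| ≤ c} := fun c =>
    measurableSet_le (by fun_prop) measurable_const
  conv_lhs => rw [← a3_snd α, ← a3_snd β]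
  rw [thk, thk, Measure.map_prod_map _ _ a3_meas a3_meas,
    Measure.map_prod_map _ _ measurable_snd measurable_snd,
    Measure.map_apply (a3_meas.prodMap a3_meas) (hS _),
    Measure.map_apply (measurable_snd.prodMap measurable_snd) (hS _)]
  refine measure_mono_ae ?_
  filter_upwards [(Measure.quasiMeasurePreserving_fst
      (ν := (volume.restrict (Icc (1 : ℝ) 2)).prod β)).ae (a3_fst α),
    (Measure.quasiMeasurePreserving_snd
      (μ := (volume.restrict (Icc (1 : ℝ) 2)).prod α)).ae (a3_fst β)] with p h1 h2 hp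
  change |⟪p.1.2, p.2.2⟫_ℝ| ≤ γ at hp
  change |⟪p.1.1 • p.1.2, p.2.1 • p.2.2⟫_ℝ| ≤ 4 * γ
  rw [real_inner_smul_left, real_inner_smul_right, abs_mul, abs_mul,
    abs_of_nonneg (by linarith [h1.1] : 0 ≤ p.1.1), abs_of_nonneg (by linarith [h2.1] : 0 ≤ p.2.1)]
  have h0 := abs_nonneg ⟪p.1.2, p.2.2⟫_ℝ
  calc p.1.1 * (p.2.1 * |⟪p.1.2, p.2.2⟫_ℝ|) ≤ 2 * (2 * γ) := by
        gcongr
        · exact mul_nonneg (by linarith [h2.1]) h0
        · exact h1.2
        · exact h2.2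
    _ = 4 * γ := by ring

omit [FiniteDimensional ℝ V] [MeasurableSpace V] [BorelSpace V] in
lemma a3_pt {κ C1 c0 γ ρ σ σ' : ℝ} (hκ : 0 < κ) (hC : 0 ≤ C1) (hγ : 0 < γ) (hρ : γ ≤ ρ)
    (hσ : 1 ≤ σ) (hσ' : 1 ≤ σ') {x y : V} (hx : κ ≤ ‖x‖ ∧ |‖x‖ ^ 2 - c0| ≤ C1 * γ)
    (hy : κ ≤ ‖y‖ ∧ |‖y‖ ^ 2 - c0| ≤ C1 * γ) :
    gq ρ (σ • x - σ' • y) ≤ ENNReal.ofReal (Real.exp ((C1 / κ) ^ 2)) * gq ρ (x - y) *
      ENNReal.ofReal (Real.exp (-((κ / ρ) ^ 2) * (σ' - σ * ‖x‖ / ‖y‖) ^ 2)) := by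
  have hρ0 : 0 < ρ := hγ.trans_le hρ
  have hy0 : 0 < ‖y‖ := hκ.trans_le hy.1
  rw [gq, gq, ← ENNReal.ofReal_mul (Real.exp_pos _).le, ← ENNReal.ofReal_mul (by positivity),
    ← Real.exp_add, ← Real.exp_add]
  refine ENNReal.ofReal_le_ofReal (Real.exp_le_exp.2 ?_)
  have e1 : ‖σ • x - σ' • y‖ ^ 2 = (σ * ‖x‖ - σ' * ‖y‖) ^ 2 +
      σ * σ' * (‖x - y‖ ^ 2 - (‖x‖ - ‖y‖) ^ 2) := by
    rw [norm_sub_sq_real, norm_sub_sq_real, norm_smul, norm_smul, real_inner_smul_left,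
      real_inner_smul_right, Real.norm_of_nonneg (by linarith), Real.norm_of_nonneg (by linarith only [hσ'])]
    ring
  have e2 : (‖x‖ - ‖y‖) ^ 2 ≤ ‖x - y‖ ^ 2 := by
    rw [← sq_abs (‖x‖ - ‖y‖)]
    exact pow_le_pow_left₀ (abs_nonneg _) (abs_norm_sub_norm_le x y) 2
  have e3 : |‖x‖ - ‖y‖| ≤ C1 / κ * ρ := by
    have a1 : |‖x‖ ^ 2 - ‖y‖ ^ 2| ≤ 2 * (C1 * γ) := by
      have := abs_sub_le (‖x‖ ^ 2) c0 (‖y‖ ^ 2)
      rw [abs_sub_comm c0] at this
      linarith only [hx.2, hy.2, this]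
    have a2 : |‖x‖ ^ 2 - ‖y‖ ^ 2| = |‖x‖ - ‖y‖| * (‖x‖ + ‖y‖) := by
      rw [← abs_of_nonneg (by positivity : 0 ≤ ‖x‖ + ‖y‖), ← abs_mul]; congr 1; ring
    have a3 : |‖x‖ - ‖y‖| * (2 * κ) ≤ |‖x‖ - ‖y‖| * (‖x‖ + ‖y‖) := by
      gcongr; linarith only [hx.1, hy.1]
    have a4 : C1 * γ ≤ C1 * ρ := by gcongr
    rw [div_mul_eq_mul_div, le_div_iff₀ hκ]
    linarith only [a1, a2, a3, a4]
  have e4 : (‖x‖ - ‖y‖) ^ 2 ≤ (C1 / κ) ^ 2 * ρ ^ 2 := by
    rw [← sq_abs (‖x‖ - ‖y‖), ← mul_pow]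
    exact pow_le_pow_left₀ (abs_nonneg _) e3 2
  have e5 : κ ^ 2 * (σ' - σ * ‖x‖ / ‖y‖) ^ 2 ≤ (σ * ‖x‖ - σ' * ‖y‖) ^ 2 := by
    have : (σ * ‖x‖ - σ' * ‖y‖) ^ 2 = ‖y‖ ^ 2 * (σ' - σ * ‖x‖ / ‖y‖) ^ 2 := by
      field_simp; ring
    rw [this]
    gcongr
    exact hy.1
  have e6 : 1 * (‖x - y‖ ^ 2 - (‖x‖ - ‖y‖) ^ 2) ≤ σ * σ' * (‖x - y‖ ^ 2 - (‖x‖ - ‖y‖) ^ 2) :=
    mul_le_mul_of_nonneg_right (one_le_mul_of_one_le_of_one_le hσ hσ') (by linarith only [e2])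
  have e7 : κ ^ 2 * (σ' - σ * ‖x‖ / ‖y‖) ^ 2 + ‖x - y‖ ^ 2 - (C1 / κ) ^ 2 * ρ ^ 2 ≤
      ‖σ • x - σ' • y‖ ^ 2 := by linarith
  have e8 : (C1 / κ) ^ 2 + -(‖x - y‖ ^ 2 / ρ ^ 2) + -((κ / ρ) ^ 2) * (σ' - σ * ‖x‖ / ‖y‖) ^ 2 =
      -((κ ^ 2 * (σ' - σ * ‖x‖ / ‖y‖) ^ 2 + ‖x - y‖ ^ 2 - (C1 / κ) ^ 2 * ρ ^ 2) / ρ ^ 2) := by
    field_simp; ring
  rw [e8, neg_le_neg_iff]
  gcongr

lemma a3_gauss {b : ℝ} (hb : 0 < b) (c : ℝ) :
    ∫⁻ t in Icc (1 : ℝ) 2, ENNReal.ofReal (Real.exp (-(b ^ 2) * (t - c) ^ 2)) ≤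
      ENNReal.ofReal (√Real.pi / b) := by
  refine (lintegral_mono' Measure.restrict_le_self le_rfl).trans (le_of_eq ?_)
  have hi : Integrable fun t : ℝ => Real.exp (-(b ^ 2) * (t - c) ^ 2) :=
    (integrable_exp_neg_mul_sq (by positivity : 0 < b ^ 2)).comp_sub_right c
  rw [← ofReal_integral_eq_lintegral_ofReal hi (ae_of_all _ fun _ => (Real.exp_pos _).le),
    integral_sub_right_eq_self (fun t : ℝ => Real.exp (-(b ^ 2) * t ^ 2)) c, integral_gaussian,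
    Real.sqrt_div Real.pi_pos.le, Real.sqrt_sq hb.le]

/-- First `QQ_mono_r` to pass to `r' = r + γ ≥ γ`. For `σ, σ' ∈ [1, 2]`:
`‖σ x - σ' x'‖² = (σ‖x‖ - σ'‖x'‖)² + σ σ' (‖x - x'‖² - (‖x‖ - ‖x'‖)²)`, the last bracket is `≥ 0`,
`|‖x‖ - ‖x'‖| ≤ C1 γ / κ`; so the Gaussian is at most
`exp ((C1/κ)²) * gq r' (x - x') * exp (-(σ‖x‖ - σ'‖x'‖)²/r'²)` and
`∫ exp (-(σ‖x‖ - c)²/r'²) dσ ≤ √π r' / κ` (`integral_gaussian`). -/
lemma thk_QQ {κ C1 : ℝ} (hκ : 0 < κ) (hC : 0 ≤ C1) : ∃ C : ℝ, 0 ≤ C ∧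
    ∀ (α : Measure V) [IsFiniteMeasure α] (c0 γ : ℝ), 0 < γ →
      (∀ᵐ x ∂α, κ ≤ ‖x‖ ∧ |‖x‖ ^ 2 - c0| ≤ C1 * γ) → ∀ r, 0 < r →
      QQ (thk α) r ≤ ENNReal.ofReal (C * (r + γ)) * QQ α (r + γ) := by
  refine ⟨Real.exp ((C1 / κ) ^ 2) * (√Real.pi / κ), by positivity,
    fun α _ c0 γ hγ hα r hr => ?_⟩
  have hρ : γ ≤ r + γ := by linarith
  refine (QQ_mono_r _ hr (by linarith : r ≤ r + γ)).trans ?_
  generalize r + γ = ρ at hρ
  have hρ0 : 0 < ρ := hγ.trans_le hρ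
  have hm : Measurable fun p : V × V => gq ρ (p.1 - p.2) := gq_meas measurable_const (by fun_prop)
  have hF : Measurable fun x : V => ∫⁻ y, gq ρ (x - y) ∂α := hm.lintegral_prod_right'
  have : SFinite (thk α) := by rw [thk]; infer_instance
  have hF' : Measurable fun x : V => ∫⁻ y, gq ρ (x - y) ∂thk α := hm.lintegral_prod_right'
  rw [QQ, QQ, ← lintegral_const_mul _ hF]
  conv_rhs => rw [← a3_snd α]
  rw [lintegral_map (f := fun x : V => ENNReal.ofReal (Real.exp ((C1 / κ) ^ 2) * (√Real.pi / κ) * ρ) *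
      ∫⁻ y, gq ρ (x - y) ∂((volume.restrict (Icc (1 : ℝ) 2)).prod α).map Prod.snd)
      (by rw [a3_snd]; exact hF.const_mul _) measurable_snd, a3_snd]
  refine ((lintegral_map hF' a3_meas).trans_le ?_)
  refine lintegral_mono_ae ?_
  filter_upwards [a3_fst α, (Measure.quasiMeasurePreserving_snd
    (μ := volume.restrict (Icc (1 : ℝ) 2)) (ν := α)).ae hα] with p h1 h2
  have hm1 : Measurable fun y : V => gq ρ (p.1 • p.2 - y) := gq_meas measurable_const (by fun_prop)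
  have hm2 : Measurable fun y : V => gq ρ (p.2 - y) := gq_meas measurable_const (by fun_prop)
  have hm3 : Measurable fun q : ℝ × V => gq ρ (p.1 • p.2 - q.1 • q.2) := hm1.comp a3_meas
  rw [thk, lintegral_map hm1 a3_meas, lintegral_prod_symm _ hm3.aemeasurable,
    ← lintegral_const_mul _ hm2]
  refine lintegral_mono_ae ?_
  filter_upwards [hα] with y hy
  calc ∫⁻ t in Icc (1 : ℝ) 2, gq ρ (p.1 • p.2 - t • y)
      ≤ ∫⁻ t in Icc (1 : ℝ) 2, ENNReal.ofReal (Real.exp ((C1 / κ) ^ 2)) * gq ρ (p.2 - y) *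
          ENNReal.ofReal (Real.exp (-((κ / ρ) ^ 2) * (t - p.1 * ‖p.2‖ / ‖y‖) ^ 2)) := by
        refine lintegral_mono_ae ?_
        filter_upwards [ae_restrict_mem measurableSet_Icc] with t ht
        exact a3_pt hκ hC hγ hρ h1.1 ht.1 h2 hy
    _ ≤ ENNReal.ofReal (Real.exp ((C1 / κ) ^ 2)) * gq ρ (p.2 - y) *
          ENNReal.ofReal (√Real.pi / (κ / ρ)) := by
        rw [lintegral_const_mul _ (by fun_prop)]
        gcongr
        exact a3_gauss (by positivity) _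
    _ = _ := by
        rw [mul_right_comm, ← ENNReal.ofReal_mul (Real.exp_pos _).le]
        congr 2
        field_simp

end Pool.Agent.MP_83cc0d_an.Cd

end

-- part A4
section

namespace Pool.Agent.MP_83cc0d_an.Cd

open MeasureTheory Complex Filter Topology Metric Module Set
open scoped ENNReal InnerProductSpace ComplexConjugate

variable {V : Type} [NormedAddCommGroup V] [InnerProductSpace ℝ V] [FiniteDimensional ℝ V]
  [MeasurableSpace V] [BorelSpace V]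

lemma a4_swap (μ : Measure V) [SFinite μ] (lam : Measure ℝ) [SFinite lam] {S : Set (ℝ × V)}
    (hS : MeasurableSet S) {Z : Set V} (hZ : MeasurableSet Z) {c : ℝ≥0∞}
    (hsub : ∀ u x, (u, x) ∈ S → x ∈ Z) (hc : ∀ᵐ x ∂μ, lam {u | (u, x) ∈ S} ≤ c)
    {F : V → ℝ≥0∞} (hF : Measurable F) :
    ∫⁻ u, ∫⁻ x in {x | (u, x) ∈ S}, F x ∂μ ∂lam ≤ c * ∫⁻ x in Z, F x ∂μ := by
  have hG : Measurable (S.indicator fun p : ℝ × V => F p.2) :=
    (hF.comp measurable_snd).indicator hS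
  have h1 : ∀ u, ∫⁻ x in {x | (u, x) ∈ S}, F x ∂μ =
      ∫⁻ x, (S.indicator fun p : ℝ × V => F p.2) (u, x) ∂μ := by
    intro u
    have hm : MeasurableSet {x | (u, x) ∈ S} := measurable_prodMk_left hS
    rw [← lintegral_indicator hm]
    rfl
  simp_rw [h1]
  rw [lintegral_lintegral_swap (f := fun u x => (S.indicator fun p : ℝ × V => F p.2) (u, x))
    hG.aemeasurable, ← lintegral_indicator hZ,
    ← lintegral_const_mul _ (hF.indicator hZ)]
  refine lintegral_mono_ae (hc.mono fun x hx => ?_)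
  have hm : MeasurableSet {u | (u, x) ∈ S} := measurable_prodMk_right hS
  have h2 : (fun u => (S.indicator fun p : ℝ × V => F p.2) (u, x)) =
      {u | (u, x) ∈ S}.indicator fun _ => F x := rfl
  rw [h2, lintegral_indicator_const hm]
  by_cases hxZ : x ∈ Z
  · rw [indicator_of_mem hxZ, mul_comm]
    gcongr
  · have : {u | (u, x) ∈ S} = ∅ := by
      ext u
      simp only [mem_ofPred_eq, mem_empty_iff_false, iff_false]
      exact fun h => hxZ (hsub u x h)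
    simp [this]

lemma a4_win {γ m m0 K t C1 : ℝ} (hγ : 0 < γ) (hm0 : 0 < m0) (hm : m0 ≤ m) (hK : 0 ≤ K)
    (hC : K / m0 ≤ C1) (A U : Set ℝ) (hU : ∀ u ∈ U, |u * m - t| ≤ K * γ) :
    (ENNReal.ofReal γ⁻¹ • volume.restrict A) U ≤ ENNReal.ofReal (2 * C1) := by
  have hm1 : 0 < m := hm0.trans_le hm
  have hsub : U ⊆ Icc ((t - K * γ) / m) ((t + K * γ) / m) := by
    intro u hu
    have := abs_le.1 (hU u hu)
    constructor
    · rw [div_le_iff₀ hm1]; linarith [this.1]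
    · rw [le_div_iff₀ hm1]; linarith only [this.2]
  have h1 : (volume.restrict A) U ≤ ENNReal.ofReal (2 * C1 * γ) := by
    refine (Measure.restrict_le_self U).trans ((measure_mono hsub).trans ?_)
    rw [Real.volume_Icc]
    refine ENNReal.ofReal_le_ofReal ?_
    have h2 : K / m ≤ C1 := (div_le_div_of_nonneg_left hK hm0 hm).trans hC
    have h3 : (t + K * γ) / m - (t - K * γ) / m = 2 * (K / m) * γ := by
      field_simp
      ring
    rw [h3]
    gcongr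
  rw [Measure.smul_apply, smul_eq_mul]
  refine (mul_le_mul_right h1 _).trans ?_
  rw [← ENNReal.ofReal_mul (inv_nonneg.2 hγ.le)]
  refine ENNReal.ofReal_le_ofReal (le_of_eq ?_)
  field_simp

lemma a4_slab_meas (γ : ℝ) (z : V) : MeasurableSet {x : V | |⟪x, z⟫_ℝ| ≤ γ} :=
  measurableSet_le (by fun_prop) measurable_const

/-- Integrating out the shell parameter in the pair functional. -/
lemma a4_int (μ ν : Measure V) [SFinite μ] [SFinite ν] (lam : Measure ℝ) [SFinite lam]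
    {S : Set ((V × ℝ) × V)} (hS : MeasurableSet S) {γ : ℝ} {c : ℝ≥0∞} (hc' : c ≠ ∞)
    (hsub : ∀ z u x, ((z, u), x) ∈ S → |⟪x, z⟫_ℝ| ≤ γ)
    (hc : ∀ᵐ z ∂ν, ∀ᵐ x ∂μ, lam {u | ((z, u), x) ∈ S} ≤ c) (ρ : ℝ) :
    ∫⁻ ω, QQ (μ.restrict {x | (ω, x) ∈ S}) ρ ∂(ν.prod lam) ≤
      c * ∫⁻ z, QQ (μ.restrict {x | |⟪x, z⟫_ℝ| ≤ γ}) ρ ∂ν := by
  refine (lintegral_prod_le _).trans ?_
  rw [← lintegral_const_mul' _ _ hc']
  refine lintegral_mono_ae (hc.mono fun z hz => ?_)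
  have hS' : MeasurableSet {p : ℝ × V | ((z, p.1), p.2) ∈ S} :=
    (by fun_prop : Measurable fun p : ℝ × V => ((z, p.1), p.2)) hS
  have hF : Measurable fun x : V => ∫⁻ y in {x | |⟪x, z⟫_ℝ| ≤ γ}, gq ρ (x - y) ∂μ :=
    (gq_meas (X := V × V) (r := fun _ => ρ) (u := fun p => p.1 - p.2) measurable_const
      (by fun_prop)).lintegral_prod_right'
  refine le_trans ?_ (a4_swap μ lam hS' (a4_slab_meas γ z) (fun u x h => hsub z u x h) hz hF)
  refine lintegral_mono fun u => lintegral_mono fun x => ?_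
  exact lintegral_mono' (Measure.restrict_mono (fun y hy => hsub z u y hy) le_rfl) le_rfl

/-- Integrating out the shell parameter in the masses. -/
lemma a4_mass (μ μ' ν : Measure V) [SFinite μ] [SFinite μ'] [SFinite ν] (lam : Measure ℝ)
    [SFinite lam] {S : Set ((V × ℝ) × V)} (hS : MeasurableSet S) {γ : ℝ} {c : ℝ≥0∞} (hc' : c ≠ ∞)
    (hsub : ∀ z u x, ((z, u), x) ∈ S → |⟪x, z⟫_ℝ| ≤ γ)
    (hc : ∀ᵐ z ∂ν, ∀ᵐ x ∂μ, lam {u | ((z, u), x) ∈ S} ≤ c) :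
    ∫⁻ ω, μ {x | (ω, x) ∈ S} * μ' {y | |⟪y, ω.1⟫_ℝ| ≤ γ} ∂(ν.prod lam) ≤
      c * (∫⁻ z, μ {x | |⟪x, z⟫_ℝ| ≤ γ} ^ 2 ∂ν + ∫⁻ z, μ' {x | |⟪x, z⟫_ℝ| ≤ γ} ^ 2 ∂ν) := by
  refine (lintegral_prod_le _).trans ?_
  have hg : Measurable fun z : V => μ {x | |⟪x, z⟫_ℝ| ≤ γ} :=
    measurable_measure_prodMk_left (s := {p : V × V | |⟪p.2, p.1⟫_ℝ| ≤ γ})
      (measurableSet_le (by fun_prop) measurable_const)
  rw [← lintegral_add_left (hg.pow_const 2), ← lintegral_const_mul' _ _ hc']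
  refine lintegral_mono_ae (hc.mono fun z hz => ?_)
  have hS' : MeasurableSet {p : ℝ × V | ((z, p.1), p.2) ∈ S} :=
    (by fun_prop : Measurable fun p : ℝ × V => ((z, p.1), p.2)) hS
  have h1 := a4_swap μ lam hS' (a4_slab_meas γ z) (fun u x h => hsub z u x h) hz
    (F := fun _ => 1) measurable_const
  simp only [lintegral_const, MeasurableSet.univ, Measure.restrict_apply, univ_inter, one_mul,
    mem_ofPred_eq] at h1
  have hm : Measurable fun u : ℝ => μ {x | ((z, u), x) ∈ S} :=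
    measurable_measure_prodMk_left hS'
  dsimp only
  rw [lintegral_mul_const _ hm]
  refine (mul_le_mul_left h1 _).trans ?_
  rw [mul_assoc]
  refine mul_le_mul_right ?_ _
  rcases le_total (μ {x | |⟪x, z⟫_ℝ| ≤ γ}) (μ' {x | |⟪x, z⟫_ℝ| ≤ γ}) with h | h
  · refine le_trans ?_ le_add_self
    rw [sq]
    gcongr
  · refine le_trans ?_ le_self_add
    rw [sq]
    gcongr

/-- The set of the first family. -/
def a4_Sa (γ : ℝ) : Set ((V × ℝ) × V) :=
  {q | |⟪q.2, q.1.1⟫_ℝ| ≤ γ ∧ |‖q.2‖ ^ 2 - q.1.2| ≤ γ}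

/-- The set of the second family. -/
def a4_Sb (γ K t : ℝ) : Set ((V × ℝ) × V) :=
  {q | |⟪q.2, q.1.1⟫_ℝ| ≤ γ ∧ |q.1.2 * (‖q.2‖ ^ 2 * ‖q.1.1‖ ^ 2) - t| ≤ K * γ}

lemma a4_and {X : Type} [MeasurableSpace X] {p q : X → Prop} (hp : MeasurableSet {x | p x})
    (hq : MeasurableSet {x | q x}) : MeasurableSet {x | p x ∧ q x} := hp.inter hq

lemma a4_Sa_meas (γ : ℝ) : MeasurableSet (a4_Sa (V := V) γ) := by
  unfold a4_Sa
  refine a4_and ?_ ?_ <;> exact measurableSet_le (by fun_prop) measurable_const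

lemma a4_Sb_meas (γ K t : ℝ) : MeasurableSet (a4_Sb (V := V) γ K t) := by
  unfold a4_Sb
  refine a4_and ?_ ?_ <;> exact measurableSet_le (by fun_prop) measurable_const

/-- Introducing the shell parameter. -/
lemma a4_step {R κ γ : ℝ} (hκ : 0 < κ) (hγ : 0 < γ) (t : ℝ) (μ1 μ2 μ3 : Measure V) [SFinite μ1]
    [SFinite μ2] [SFinite μ3] (h1 : ∀ᵐ z ∂μ1, ‖z‖ ≤ R) (h2 : ∀ᵐ x ∂μ2, κ ≤ ‖x‖)
    (h3 : ∀ᵐ y ∂μ3, ‖y‖ ≤ R) :
    (μ1.prod (μ2.prod μ3)) {p | |⟪p.2.1, p.2.2⟫_ℝ| ≤ γ ∧ |⟪p.2.1, p.1⟫_ℝ| ≤ γ ∧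
        |⟪p.2.2, p.1⟫_ℝ| ≤ γ ∧ |‖p.1‖ ^ 2 * ‖p.2.1‖ ^ 2 * ‖p.2.2‖ ^ 2 - t| ≤ γ} ≤
      ∫⁻ ω, ((μ2.restrict {x | (ω, x) ∈ a4_Sa γ}).prod
        (μ3.restrict {y | (ω, y) ∈ a4_Sb γ (R ^ 4 + 1) t})) {p | |⟪p.1, p.2⟫_ℝ| ≤ γ}
        ∂(μ1.prod (ENNReal.ofReal γ⁻¹ • volume.restrict (Ici (κ ^ 2)))) := by
  set lam : Measure ℝ := ENNReal.ofReal γ⁻¹ • volume.restrict (Ici (κ ^ 2)) with hlam
  have hD : MeasurableSet {p : V × V | |⟪p.1, p.2⟫_ℝ| ≤ γ} :=
    measurableSet_le (by fun_prop) measurable_const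
  set T : Set ((V × ℝ) × V × V) := {w | |⟪w.2.1, w.2.2⟫_ℝ| ≤ γ ∧ (w.1, w.2.1) ∈ a4_Sa γ ∧
    (w.1, w.2.2) ∈ a4_Sb γ (R ^ 4 + 1) t} with hT
  have hTm : MeasurableSet T := by
    refine a4_and (measurableSet_le (by fun_prop) measurable_const) (a4_and ?_ ?_)
    · exact (by fun_prop : Measurable fun w : (V × ℝ) × V × V => (w.1, w.2.1)) (a4_Sa_meas γ)
    · exact (by fun_prop : Measurable fun w : (V × ℝ) × V × V => (w.1, w.2.2))
        (a4_Sb_meas γ (R ^ 4 + 1) t)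
  have e1 : ∀ ω : V × ℝ, ((μ2.restrict {x | (ω, x) ∈ a4_Sa γ}).prod
      (μ3.restrict {y | (ω, y) ∈ a4_Sb γ (R ^ 4 + 1) t})) {p | |⟪p.1, p.2⟫_ℝ| ≤ γ} =
      (μ2.prod μ3) (Prod.mk ω ⁻¹' T) := by
    intro ω
    rw [Measure.prod_restrict, Measure.restrict_apply hD]
    rfl
  simp_rw [e1]
  have hE : MeasurableSet {p : V × V × V | |⟪p.2.1, p.2.2⟫_ℝ| ≤ γ ∧ |⟪p.2.1, p.1⟫_ℝ| ≤ γ ∧
      |⟪p.2.2, p.1⟫_ℝ| ≤ γ ∧ |‖p.1‖ ^ 2 * ‖p.2.1‖ ^ 2 * ‖p.2.2‖ ^ 2 - t| ≤ γ} := by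
    refine a4_and ?_ (a4_and ?_ (a4_and ?_ ?_)) <;>
      exact measurableSet_le (by fun_prop) measurable_const
  rw [lintegral_prod _ (measurable_measure_prodMk_left hTm).aemeasurable, Measure.prod_apply hE]
  refine lintegral_mono_ae (h1.mono fun z hz => ?_)
  have hTz : MeasurableSet {w : ℝ × V × V | ((z, w.1), w.2) ∈ T} :=
    (by fun_prop : Measurable fun w : ℝ × V × V => ((z, w.1), w.2)) hTm
  have e2 : ∫⁻ u, (μ2.prod μ3) (Prod.mk (z, u) ⁻¹' T) ∂lam =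
      ∫⁻ p, lam {u | ((z, u), p) ∈ T} ∂(μ2.prod μ3) :=
    (Measure.prod_apply hTz).symm.trans (Measure.prod_apply_symm hTz)
  rw [e2, ← lintegral_indicator_one (measurable_prodMk_left hE)]
  have h2' : ∀ᵐ p ∂(μ2.prod μ3), κ ≤ ‖p.1‖ :=
    (Measure.quasiMeasurePreserving_fst (μ := μ2) (ν := μ3)).ae h2
  have h3' : ∀ᵐ p ∂(μ2.prod μ3), ‖p.2‖ ≤ R :=
    (Measure.quasiMeasurePreserving_snd (μ := μ2) (ν := μ3)).ae h3
  refine lintegral_mono_ae ?_
  filter_upwards [h2', h3'] with p hx hy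
  refine indicator_apply_le' (fun hp => ?_) fun _ => zero_le
  obtain ⟨p1, p2, p3, p4⟩ := hp
  have hsub : Icc (‖p.1‖ ^ 2) (‖p.1‖ ^ 2 + γ) ⊆ {u | ((z, u), p) ∈ T} := by
    intro u hu
    refine ⟨p1, ⟨p2, ?_⟩, p3, ?_⟩
    · rw [abs_le]
      constructor <;> linarith only [hu.1, hu.2, hγ]
    · have hm0 : 0 ≤ ‖p.2‖ ^ 2 * ‖z‖ ^ 2 := by positivity
      have hm : ‖p.2‖ ^ 2 * ‖z‖ ^ 2 ≤ R ^ 4 := by
        calc ‖p.2‖ ^ 2 * ‖z‖ ^ 2 ≤ R ^ 2 * R ^ 2 := by gcongr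
          _ = R ^ 4 := by ring
      have h4 := abs_le.1 p4
      have h5 : (u - ‖p.1‖ ^ 2) * (‖p.2‖ ^ 2 * ‖z‖ ^ 2) ≤ γ * R ^ 4 :=
        mul_le_mul (by linarith only [hu.2]) hm hm0 hγ.le
      have h6 : 0 ≤ (u - ‖p.1‖ ^ 2) * (‖p.2‖ ^ 2 * ‖z‖ ^ 2) :=
        mul_nonneg (by linarith only [hu.1]) hm0
      have h7 : 0 ≤ γ * R ^ 4 := by positivity
      dsimp only at h4 ⊢
      rw [abs_le]
      constructor <;> linarith only [h4.1, h4.2, h5, h6]
  refine le_trans ?_ (measure_mono hsub)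
  have hI : Icc (‖p.1‖ ^ 2) (‖p.1‖ ^ 2 + γ) ∩ Ici (κ ^ 2) = Icc (‖p.1‖ ^ 2) (‖p.1‖ ^ 2 + γ) := by
    refine inter_eq_left.2 fun u hu => ?_
    have : κ ^ 2 ≤ ‖p.1‖ ^ 2 := by gcongr
    exact this.trans hu.1
  rw [hlam, Measure.smul_apply, smul_eq_mul, Measure.restrict_apply measurableSet_Icc, hI,
    Real.volume_Icc, ← ENNReal.ofReal_mul (inv_nonneg.2 hγ.le), add_sub_cancel_left,
    inv_mul_cancel₀ hγ.ne']
  simp

/-- Three slabs and a radial window; `p = (z, x, y)`. For `γ ≥ 1` use the masses. For `γ ≤ 1`: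
`Ω = V × ℝ ∋ (z, u)`, `P = μ1.prod (γ⁻¹ • volume.restrict (Ici (κ²)))`,
`a ω = μ2.restrict {x | |⟪x,z⟫| ≤ γ ∧ |‖x‖² - u| ≤ γ}`,
`b ω = μ3.restrict {y | |⟪y,z⟫| ≤ γ ∧ |u ‖y‖² ‖z‖² - t| ≤ (R⁴+1) γ}`.
Every `u ∈ [‖x‖², ‖x‖² + γ]` works for a point of the set, so the left side is at most
`∫⁻ ((a ω).prod (b ω)) {|⟪x,y⟫| ≤ γ} dP`; `thk_prod`; `lemRF` with `α = thk (a ω)`, `β = thk (b ω)`,
`φ = 0`, radius `2R`, width `4γ`, `σ = s`, `l = γ^(-η/2)` (`η` from `slab1`),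
`q (ω, r) = ofReal (C (r+γ)) * (QQ (a ω) (r+γ) + QQ (b ω) (r+γ))` (`thk_QQ` with `c0 = u`, resp.
`c0 = t / (u ‖z‖²)`, `C1 = (R⁴+1)/κ⁴`; `meas_QQ_fam`). Integrating out `u` costs the factor `2`,
resp. `2 (R⁴+1)/κ⁴`, and leaves `slab2`: `B = C γ`. `ma ω = a ω univ * μ3 {y | |⟪y,z⟫| ≤ γ}`,
`∫⁻ ma ≤ 2 ∫⁻ g2 g3 ≤ 2 ∫⁻ (g2² + g3²) ≤ C γ^(1+η)` by `slab1`. -/
lemma lowL {R A s κ : ℝ} (hR : 1 ≤ R) (hA : 0 ≤ A) (hκ : 0 < κ)
    (hs : (finrank ℝ V : ℝ) + 2 < 2 * s) :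
    ∃ C η : ℝ, 0 ≤ C ∧ 0 < η ∧ η ≤ 1 ∧ ∀ μ1 μ2 μ3 : Measure V, Ck μ1 R A s κ → Ck μ2 R A s κ →
      Ck μ3 R A s κ → ∀ γ t : ℝ, 0 < γ →
      (μ1.prod (μ2.prod μ3)) {p | |⟪p.2.1, p.2.2⟫_ℝ| ≤ γ ∧ |⟪p.2.1, p.1⟫_ℝ| ≤ γ ∧
        |⟪p.2.2, p.1⟫_ℝ| ≤ γ ∧ |‖p.1‖ ^ 2 * ‖p.2.1‖ ^ 2 * ‖p.2.2‖ ^ 2 - t| ≤ γ} ≤
        ENNReal.ofReal (C * γ ^ (2 + η)) := by
  have hd : (0 : ℝ) ≤ finrank ℝ V := Nat.cast_nonneg _
  have hs0 : 0 ≤ s := by linarith
  obtain ⟨Cs, η, hCs, hη, H1⟩ := slab1 (V := V) hR hA hs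
  obtain ⟨C2, hC2, H2⟩ := slab2 (V := V) hR hA hs
  set C1 : ℝ := 1 + (R ^ 4 + 1) / κ ^ 4 with hC1
  have hK : 0 ≤ R ^ 4 + 1 := by positivity
  have hKk : 0 ≤ (R ^ 4 + 1) / κ ^ 4 := by positivity
  have hC10 : 0 ≤ C1 := by positivity
  obtain ⟨Ct, hCt, H3⟩ := thk_QQ (V := V) hκ hC10
  obtain ⟨CR, hCR, H4⟩ := lemRF (V := V) (R := 2 * R) (σ := s) (by linarith only [hR]) (by linarith only [hs])
  set δ : ℝ := s - (finrank ℝ V : ℝ) / 2 - 1 with hδ
  have hδ0 : 0 < δ := by linarith only [hs, hδ]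
  set η' : ℝ := min 1 (min (η / 2) (η / 2 * δ)) with hη'
  have hη'0 : 0 < η' := lt_min one_pos (lt_min (by positivity) (by positivity))
  refine ⟨4 * CR * (4 * C1 * Cs + Ct * (4 * C1 * C2)) + A ^ 3, η', by positivity, hη'0,
    min_le_left _ _, ?_⟩
  intro μ1 μ2 μ3 k1 k2 k3 γ t hγ
  have := k1.1.fin
  have := k2.1.fin
  have := k3.1.fin
  rcases le_total 1 γ with hγ1 | hγ1
  · refine (measure_mono (subset_univ _)).trans ?_
    rw [← univ_prod_univ, Measure.prod_prod, ← univ_prod_univ, Measure.prod_prod]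
    refine (mul_le_mul' k1.1.mass (mul_le_mul' k2.1.mass k3.1.mass)).trans ?_
    rw [← ENNReal.ofReal_mul hA, ← ENNReal.ofReal_mul hA]
    refine ENNReal.ofReal_le_ofReal ?_
    have h1 : 1 ≤ γ ^ (2 + η') := Real.one_le_rpow hγ1 (by linarith only [hη'0])
    have h2 : 0 ≤ 4 * CR * (4 * C1 * Cs + Ct * (4 * C1 * C2)) := by positivity
    have h3 : 0 ≤ A ^ 3 := by positivity
    nlinarith only [h1, h2, h3]
  refine (a4_step hκ hγ t μ1 μ2 μ3 k1.1.bdd k2.2 k3.1.bdd).trans ?_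
  set lam : Measure ℝ := ENNReal.ofReal γ⁻¹ • volume.restrict (Ici (κ ^ 2)) with hlam
  have hSa := a4_Sa_meas (V := V) γ
  have hSb := a4_Sb_meas (V := V) γ (R ^ 4 + 1) t
  have wa : ∀ᵐ z ∂μ1, ∀ᵐ x ∂μ2, lam {u | ((z, u), x) ∈ a4_Sa γ} ≤ ENNReal.ofReal (2 * C1) := by
    refine Eventually.of_forall fun z => Eventually.of_forall fun x => ?_
    refine a4_win (m := 1) (m0 := 1) (K := 1) (t := ‖x‖ ^ 2) hγ one_pos le_rfl zero_le_one
      (by linarith only [hKk]) _ _ fun u hu => ?_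
    rw [mul_one, one_mul, abs_sub_comm]
    exact hu.2
  have wb : ∀ᵐ z ∂μ1, ∀ᵐ y ∂μ3, lam {u | ((z, u), y) ∈ a4_Sb γ (R ^ 4 + 1) t} ≤
      ENNReal.ofReal (2 * C1) := by
    filter_upwards [k1.2] with z hz
    filter_upwards [k3.2] with y hy
    refine a4_win (m := ‖y‖ ^ 2 * ‖z‖ ^ 2) (m0 := κ ^ 4) (K := R ^ 4 + 1) (t := t) hγ
      (by positivity) ?_ hK (by linarith only []) _ _ fun u hu => hu.2
    calc κ ^ 4 = κ ^ 2 * κ ^ 2 := by ring
      _ ≤ _ := by gcongr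
  have hl : 1 ≤ γ ^ (-(η / 2)) := Real.one_le_rpow_of_pos_of_le_one_of_nonpos hγ hγ1 (by linarith only [hη])
  have hma : Measurable fun ω : V × ℝ =>
      μ2 {x | (ω, x) ∈ a4_Sa γ} * μ3 {y | |⟪y, ω.1⟫_ℝ| ≤ γ} :=
    (measurable_measure_prodMk_left hSa).mul
      (measurable_measure_prodMk_left (s := {p : (V × ℝ) × V | |⟪p.2, p.1.1⟫_ℝ| ≤ γ})
        (measurableSet_le (by fun_prop) measurable_const))
  have hqa : Measurable fun p : (V × ℝ) × ℝ =>
      QQ (μ2.restrict {x | (p.1, x) ∈ a4_Sa γ}) (p.2 + γ) :=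
    meas_QQ_fam μ2 hSa (g := fun p => p.2 + γ) (by fun_prop)
  have hqb : Measurable fun p : (V × ℝ) × ℝ =>
      QQ (μ3.restrict {x | (p.1, x) ∈ a4_Sb γ (R ^ 4 + 1) t}) (p.2 + γ) :=
    meas_QQ_fam μ3 hSb (g := fun p => p.2 + γ) (by fun_prop)
  have hu : ∀ᵐ ω ∂(μ1.prod lam), κ ^ 2 ≤ ω.2 := by
    refine (Measure.quasiMeasurePreserving_snd (μ := μ1) (ν := lam)).ae (p := fun u => κ ^ 2 ≤ u) ?_
    exact Measure.ae_smul_measure (ae_restrict_mem measurableSet_Ici) _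
  have hz : ∀ᵐ ω ∂(μ1.prod lam), κ ≤ ‖ω.1‖ :=
    (Measure.quasiMeasurePreserving_fst (μ := μ1) (ν := lam)).ae k1.2
  have key := H4 (V × ℝ) (μ1.prod lam) (fun ω => thk (μ2.restrict {x | (ω, x) ∈ a4_Sa γ}))
    (fun ω => thk (μ3.restrict {x | (ω, x) ∈ a4_Sb γ (R ^ 4 + 1) t})) (fun _ _ => 0)
    (fun p => ENNReal.ofReal (Ct * (p.2 + γ)) *
      (QQ (μ2.restrict {x | (p.1, x) ∈ a4_Sa γ}) (p.2 + γ) +
        QQ (μ3.restrict {x | (p.1, x) ∈ a4_Sb γ (R ^ 4 + 1) t}) (p.2 + γ)))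
    (fun ω => μ2 {x | (ω, x) ∈ a4_Sa γ} * μ3 {y | |⟪y, ω.1⟫_ℝ| ≤ γ}) (4 * γ) (γ ^ (-(η / 2)))
    (Ct * (4 * C1 * C2) * γ) (by positivity) hl (by positivity)
    (Measurable.mul (by fun_prop) (hqa.add hqb)) hma ?_ ?_
  · refine le_trans (lintegral_mono fun ω => ?_) (key.trans ?_)
    · simpa only [add_zero] using thk_prod _ _ γ
    have hm := a4_mass μ2 μ3 μ1 lam hSa (γ := γ) ENNReal.ofReal_ne_top (fun z u x h => h.1) wa
    have hm2 := hm.trans (mul_le_mul_right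
      (add_le_add (H1 μ2 μ1 k2.1 k1.1 γ hγ hγ1) (H1 μ3 μ1 k3.1 k1.1 γ hγ hγ1)) _)
    refine (mul_le_mul_right (add_le_add_left (mul_le_mul_right hm2 _) _) _).trans ?_
    rw [← ENNReal.ofReal_add (by positivity) (by positivity),
      ← ENNReal.ofReal_mul (by positivity), ← ENNReal.ofReal_mul (by positivity),
      ← ENNReal.ofReal_add (by positivity) (by positivity), ← ENNReal.ofReal_mul (by positivity)]
    refine ENNReal.ofReal_le_ofReal ?_
    have e0 : γ ^ (2 + η') = γ * (γ * γ ^ η') := by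
      rw [Real.rpow_add hγ, Real.rpow_two]; ring
    have e1 : γ ^ (-(η / 2)) * γ ^ (1 + η) = γ * γ ^ (η / 2) := by
      rw [← Real.rpow_add hγ, show -(η / 2) + (1 + η) = 1 + η / 2 by ring, Real.rpow_add hγ,
        Real.rpow_one]
    have e2 : (γ ^ (-(η / 2))) ^ (-δ) = γ ^ (η / 2 * δ) := by
      rw [← Real.rpow_mul hγ.le, neg_mul_neg]
    have i1 : γ ^ (η / 2) ≤ γ ^ η' :=
      Real.rpow_le_rpow_of_exponent_ge hγ hγ1 ((min_le_right _ _).trans (min_le_left _ _))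
    have i2 : γ ^ (η / 2 * δ) ≤ γ ^ η' :=
      Real.rpow_le_rpow_of_exponent_ge hγ hγ1 ((min_le_right _ _).trans (min_le_right _ _))
    have p0 : 0 ≤ γ ^ η' := by positivity
    rw [e0, e2]
    calc CR * (4 * γ) * (γ ^ (-(η / 2)) * (2 * C1 * (Cs * γ ^ (1 + η) + Cs * γ ^ (1 + η))) +
          Ct * (4 * C1 * C2) * γ * γ ^ (η / 2 * δ))
        = CR * (4 * γ) * (4 * C1 * Cs * (γ ^ (-(η / 2)) * γ ^ (1 + η)) +
          Ct * (4 * C1 * C2) * γ * γ ^ (η / 2 * δ)) := by ring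
      _ = CR * (4 * γ) * (4 * C1 * Cs * (γ * γ ^ (η / 2)) +
          Ct * (4 * C1 * C2) * γ * γ ^ (η / 2 * δ)) := by rw [e1]
      _ ≤ CR * (4 * γ) * (4 * C1 * Cs * (γ * γ ^ η') + Ct * (4 * C1 * C2) * γ * γ ^ η') := by
        gcongr
      _ = (4 * CR * (4 * C1 * Cs + Ct * (4 * C1 * C2)) + 0) * (γ * (γ * γ ^ η')) := by ring
      _ ≤ _ := by gcongr; positivity
  · filter_upwards [hu, hz] with ω hu hz
    have ma : MeasurableSet {x | (ω, x) ∈ a4_Sa γ} := measurable_prodMk_left hSa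
    have mb : MeasurableSet {x | (ω, x) ∈ a4_Sb γ (R ^ 4 + 1) t} := measurable_prodMk_left hSb
    refine ⟨⟨by rw [thk_univ]; exact measure_lt_top _ _⟩,
      ⟨by rw [thk_univ]; exact measure_lt_top _ _⟩, thk_bdd (ae_restrict_of_ae k2.1.bdd),
      thk_bdd (ae_restrict_of_ae k3.1.bdd), measurable_const, ?_, fun r hr => ?_⟩
    · rw [thk_univ, thk_univ, Measure.restrict_apply_univ, Measure.restrict_apply_univ]
      exact mul_le_mul_right (measure_mono fun y hy => hy.1) _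
    · rw [mul_add]
      refine add_le_add (H3 _ ω.2 γ hγ ?_ r hr) (H3 _ (t / (ω.2 * ‖ω.1‖ ^ 2)) γ hγ ?_ r hr)
      · filter_upwards [ae_restrict_of_ae k2.2, ae_restrict_mem ma] with x hx hx'
        refine ⟨hx, hx'.2.trans ?_⟩
        nlinarith only [hKk, hγ]
      · filter_upwards [ae_restrict_of_ae k3.2, ae_restrict_mem mb] with y hy hy'
        refine ⟨hy, ?_⟩
        have hm : κ ^ 4 ≤ ω.2 * ‖ω.1‖ ^ 2 := by
          calc κ ^ 4 = κ ^ 2 * κ ^ 2 := by ring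
            _ ≤ _ := mul_le_mul hu (by gcongr) (by positivity) (le_trans (by positivity) hu)
        have hm0 : 0 < ω.2 * ‖ω.1‖ ^ 2 := lt_of_lt_of_le (by positivity) hm
        have e : ‖y‖ ^ 2 - t / (ω.2 * ‖ω.1‖ ^ 2) =
            (ω.2 * (‖y‖ ^ 2 * ‖ω.1‖ ^ 2) - t) / (ω.2 * ‖ω.1‖ ^ 2) := by
          rw [eq_div_iff hm0.ne', sub_mul, div_mul_cancel₀ _ hm0.ne']
          ring
        rw [e, abs_div, abs_of_pos hm0]
        calc _ ≤ (R ^ 4 + 1) * γ / κ ^ 4 :=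
              div_le_div₀ (by positivity) hy'.2 (by positivity) hm
          _ = (R ^ 4 + 1) / κ ^ 4 * γ := by ring
          _ ≤ C1 * γ := by gcongr; linarith only []
  · intro r hr
    have hrγ : 0 < r + γ := by positivity
    have hqa' : Measurable fun ω : V × ℝ =>
        QQ (μ2.restrict {x | (ω, x) ∈ a4_Sa γ}) (r + γ) :=
      hqa.comp (measurable_prodMk_right (y := r))
    dsimp only
    rw [lintegral_const_mul' _ _ ENNReal.ofReal_ne_top, lintegral_add_left hqa']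
    have ia := (a4_int μ2 μ1 lam hSa (γ := γ) ENNReal.ofReal_ne_top (fun z u x h => h.1) wa
      (r + γ)).trans (mul_le_mul_right (H2 μ2 μ1 k2.1 k1.1 γ (r + γ) hγ hrγ) _)
    have ib := (a4_int μ3 μ1 lam hSb (γ := γ) ENNReal.ofReal_ne_top (fun z u x h => h.1) wb
      (r + γ)).trans (mul_le_mul_right (H2 μ3 μ1 k3.1 k1.1 γ (r + γ) hγ hrγ) _)
    refine (mul_le_mul_right (add_le_add ia ib) _).trans ?_
    rw [← ENNReal.ofReal_mul (by positivity), ← ENNReal.ofReal_add (by positivity) (by positivity),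
      ← ENNReal.ofReal_mul (by positivity)]
    refine ENNReal.ofReal_le_ofReal ?_
    have e1 : (r + γ) ^ s = (r + γ) * (r + γ) ^ (s - 1) := by
      rw [Real.rpow_sub_one hrγ.ne']
      field_simp
    calc _ = Ct * (4 * C1 * C2) * γ * ((r + γ) * (r + γ) ^ (s - 1)) := by ring
      _ = Ct * (4 * C1 * C2) * γ * (r + γ) ^ s := by rw [e1]
      _ ≤ _ := by gcongr; linarith only [hγ]

end Pool.Agent.MP_83cc0d_an.Cd

end

-- part P3
section

namespace Pool.Agent.MP_83cc0d_an.Cd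

open MeasureTheory Complex Filter Topology Metric Module Set
open scoped ENNReal InnerProductSpace ComplexConjugate

variable {V : Type} [NormedAddCommGroup V] [InnerProductSpace ℝ V] [FiniteDimensional ℝ V]
  [MeasurableSpace V] [BorelSpace V]

omit [FiniteDimensional ℝ V] [MeasurableSpace V] [BorelSpace V] in
lemma p3_rad {R w : ℝ} (hR : 1 ≤ R) {p : V × V × V} (h1 : ‖p.1‖ ≤ R) (h2 : ‖p.2.1‖ ≤ R)
    (h3 : ‖p.2.2‖ ≤ R) (ha : |⟪p.2.1, p.2.2⟫_ℝ| ≤ w) (hb : |⟪p.2.1, p.1⟫_ℝ| ≤ w)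
    (hc : |⟪p.2.2, p.1⟫_ℝ| ≤ w) :
    |‖p.1‖ ^ 2 * ‖p.2.1‖ ^ 2 * ‖p.2.2‖ ^ 2 - G3 p| ≤ 5 * R ^ 4 * w := by
  have hw : 0 ≤ w := (abs_nonneg _).trans ha
  have hR0 : 0 ≤ R := by linarith
  have key : ∀ x y : V, ‖x‖ ≤ R → ‖y‖ ≤ R → |⟪x, y⟫_ℝ| ≤ R ^ 2 := fun x y hx hy =>
    (abs_real_inner_le_norm x y).trans (by rw [sq]; gcongr)
  have sqb : ∀ (u : V) (a : ℝ), ‖u‖ ≤ R → |a| ≤ R ^ 2 → |a| ≤ w →
      |‖u‖ ^ 2 * a ^ 2| ≤ R ^ 4 * w := by
    intro u a hu h h'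
    rw [abs_mul, abs_pow, abs_pow, abs_norm, sq |a|]
    calc _ ≤ R ^ 2 * (R ^ 2 * w) := by gcongr
      _ = _ := by ring
  rw [real_inner_comm] at hb hc
  have e1 := sqb _ _ h1 (key _ _ h2 h3) ha
  have e2 := sqb _ _ h2 (key _ _ h1 h3) hc
  have e3 := sqb _ _ h3 (key _ _ h1 h2) hb
  have e4 : |⟪p.1, p.2.1⟫_ℝ * ⟪p.2.1, p.2.2⟫_ℝ * ⟪p.1, p.2.2⟫_ℝ| ≤ R ^ 4 * w := by
    rw [abs_mul, abs_mul]
    calc _ ≤ R ^ 2 * R ^ 2 * w := by
          gcongr
          · exact key _ _ h1 h2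
          · exact key _ _ h2 h3
      _ = _ := by ring
  rw [abs_le] at e1 e2 e3 e4 ⊢
  unfold G3
  constructor <;> linarith only [e1.1, e1.2, e2.1, e2.2, e3.1, e3.2, e4.1, e4.2]

omit [FiniteDimensional ℝ V] [MeasurableSpace V] [BorelSpace V] in
lemma p3_inner {κ c γ g : ℝ} (hκ : 0 < κ) (hγ : 0 < γ) (hγ1 : γ ≤ 1) (hg : γ ≤ g) {z x y : V}
    (hz : κ ≤ ‖z‖) (hx : |⟪x, z⟫_ℝ| ≤ c * γ) (hy : |⟪y, z⟫_ℝ| ≤ c * γ) (hB : |BB z x y| ≤ g) :
    |⟪x, y⟫_ℝ| ≤ (1 + c ^ 2 / κ) / κ * g := by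
  have hn : 0 < ‖z‖ := hκ.trans_le hz
  have hc : 0 ≤ c * γ := (abs_nonneg _).trans hx
  have hg0 : 0 ≤ g := by linarith
  have e : ⟪x, y⟫_ℝ = (BB z x y + ⟪x, z⟫_ℝ * ⟪y, z⟫_ℝ / ‖z‖) / ‖z‖ := by
    unfold BB
    rw [real_inner_comm x z, real_inner_comm y z]
    field_simp
    ring
  have h2 : |⟪x, z⟫_ℝ * ⟪y, z⟫_ℝ / ‖z‖| ≤ c ^ 2 / κ * g := by
    rw [abs_div, abs_mul, abs_norm]
    calc _ ≤ c * γ * (c * γ) / κ := by gcongr
      _ = c ^ 2 / κ * (γ * γ) := by ring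
      _ ≤ c ^ 2 / κ * (1 * g) := by gcongr
      _ = _ := by ring
  rw [e, abs_div, abs_norm]
  calc _ ≤ (g + c ^ 2 / κ * g) / κ := by
        gcongr
        exact (abs_add_le _ _).trans (add_le_add hB h2)
    _ = _ := by ring

/-- Low part. Let `η0` come from `lowL`, `k = η0/8`, `K k ≥ 2`. Where `pw ≠ 0` and `|G3 - t| ≤ γ`:
either `|BB| ≥ γ^(1-k)`, and then `pw ≤ C γ^(2 k K) ≤ C γ³` (`W3_le M K`), or
`|⟪x,y⟫| ≤ (γ^(1-k) + c² γ²/κ)/κ`, and `|‖z‖²‖x‖²‖y‖² - G3| ≤ 5R⁴ γ'` where `γ'` bounds the three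
inner products; so the point lies in the set of `lowL` with width `C2 γ^(1-k)`, and `pw ≤ C`
(`W3_le M 0`). `(1-k)(2+η0) ≥ 2 + η0/2`; take `η = η0/2`. -/
lemma pieceP {R A s κ c : ℝ} (hR : 1 ≤ R) (hA : 0 ≤ A) (hκ : 0 < κ) (hc : 0 ≤ c)
    (hs : (finrank ℝ V : ℝ) + 2 < 2 * s) : ∃ η : ℝ, 0 < η ∧ η ≤ 1 ∧ ∀ M : ℕ, ∃ C : ℝ, 0 ≤ C ∧
      ∀ μ1 μ2 μ3 : Measure V, Ck μ1 R A s κ → Ck μ2 R A s κ → Ck μ3 R A s κ →
        ∀ (γ t : ℝ) (e : V), 0 < γ → γ ≤ 1 → ‖e‖ ≤ 1 →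
        ∫ p in {p | |G3 p - t| ≤ γ}, |pw M γ c e p| ∂μ1.prod (μ2.prod μ3) ≤ C * γ ^ (2 + η) ∧
        ∫ p, |pw M γ c e p| ∂μ1.prod (μ2.prod μ3) ≤ C := by
  obtain ⟨C0, η0, hC0, hη0, hη1, hL⟩ := lowL (V := V) hR hA hκ hs
  refine ⟨η0 / 2, by positivity, by linarith, fun M => ?_⟩
  obtain ⟨K, hK⟩ := exists_nat_ge (16 / η0)
  rw [div_le_iff₀ hη0] at hK
  obtain ⟨C1, hC1, hW1⟩ := W3_le (V := V) M K hR
  obtain ⟨C2, hC2, hW2⟩ := W3_le (V := V) M 0 hR
  simp only [pow_zero, mul_one] at hW2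
  obtain ⟨D, hD⟩ : ∃ D : ℝ, D = c + (1 + c ^ 2 / κ) / κ := ⟨_, rfl⟩
  have hD1 : 0 ≤ (1 + c ^ 2 / κ) / κ := by positivity
  have hD0 : 0 ≤ D := by linarith only [hc, hD, hD1]
  obtain ⟨C3, hC3⟩ : ∃ C3 : ℝ, C3 = D + 5 * R ^ 4 * D + 1 := ⟨_, rfl⟩
  have hRD : 0 ≤ 5 * R ^ 4 * D := by positivity
  have hC3' : 0 < C3 := by linarith
  have hX : 0 ≤ C0 * C3 ^ (2 + η0) := by positivity
  refine ⟨A ^ 3 * (C1 + C2) + C2 * (C0 * C3 ^ (2 + η0)), by positivity,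
    fun μ1 μ2 μ3 h1 h2 h3 γ t e hγ hγ1 he => ?_⟩
  have := h1.1.fin
  have := h2.1.fin
  have := h3.1.fin
  have hm : (μ1.prod (μ2.prod μ3)).real univ ≤ A ^ 3 := by
    refine ENNReal.toReal_le_of_le_ofReal (by positivity) ?_
    rw [← univ_prod_univ, Measure.prod_prod, ← univ_prod_univ, Measure.prod_prod,
      ENNReal.ofReal_pow hA, pow_three]
    gcongr
    exacts [h1.1.mass, h2.1.mass, h3.1.mass]
  have hae := ae3 (h1.1.bdd.and h1.2) (h2.1.bdd.and h2.2) (h3.1.bdd.and h3.2)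
  have hγη : 0 < γ ^ (2 + η0 / 2) := Real.rpow_pos_of_pos hγ _
  constructor
  · obtain ⟨u, hu⟩ : ∃ u : ℝ, u = γ ^ (η0 / 8) := ⟨_, rfl⟩
    have hu0 : 0 < u := hu ▸ Real.rpow_pos_of_pos hγ _
    have hu1 : u ≤ 1 := hu ▸ Real.rpow_le_one hγ.le hγ1 (by positivity)
    have hg : γ ≤ γ / u := by
      rw [le_div_iff₀ hu0]
      exact mul_le_of_le_one_right hγ.le hu1
    have hg0 : 0 < γ / u := div_pos hγ hu0
    have huK : (u ^ 2) ^ K ≤ γ ^ (2 + η0 / 2) := by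
      rw [hu, ← pow_mul, ← Real.rpow_mul_natCast hγ.le]
      refine Real.rpow_le_rpow_of_exponent_ge hγ hγ1 ?_
      push_cast
      linarith only [hK, hη1]
    have hgη : (γ / u) ^ (2 + η0) ≤ γ ^ (2 + η0 / 2) := by
      have : γ / u = γ ^ (1 - η0 / 8) := by rw [Real.rpow_sub hγ, Real.rpow_one, hu]
      rw [this, ← Real.rpow_mul hγ.le]
      refine Real.rpow_le_rpow_of_exponent_ge hγ hγ1 ?_
      linarith only [mul_le_of_le_one_right hη0.le hη1, hη0]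
    have hLm := hL μ1 μ2 μ3 h1 h2 h3 (C3 * (γ / u)) t (by positivity)
    set L : Set (V × V × V) := {p | |⟪p.2.1, p.2.2⟫_ℝ| ≤ C3 * (γ / u) ∧
      |⟪p.2.1, p.1⟫_ℝ| ≤ C3 * (γ / u) ∧ |⟪p.2.2, p.1⟫_ℝ| ≤ C3 * (γ / u) ∧
      |‖p.1‖ ^ 2 * ‖p.2.1‖ ^ 2 * ‖p.2.2‖ ^ 2 - t| ≤ C3 * (γ / u)} with hLdef
    have hLs : MeasurableSet L := by
      simp only [hLdef, ofPred_and]
      refine MeasurableSet.inter ?_ (MeasurableSet.inter ?_ (MeasurableSet.inter ?_ ?_)) <;>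
        exact (isClosed_le (by fun_prop) continuous_const).measurableSet
    have hS : MeasurableSet {p : V × V × V | |G3 p - t| ≤ γ} :=
      (isClosed_le ((cont_G3.sub continuous_const).abs) continuous_const).measurableSet
    have hLr : (μ1.prod (μ2.prod μ3)).real L ≤ C0 * C3 ^ (2 + η0) * γ ^ (2 + η0 / 2) := by
      refine (ENNReal.toReal_le_of_le_ofReal (by positivity) hLm).trans ?_
      rw [Real.mul_rpow hC3'.le hg0.le, mul_assoc]
      gcongr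
    have hi1 : Integrable (fun _ : V × V × V => C1 * γ ^ (2 + η0 / 2)) (μ1.prod (μ2.prod μ3)) :=
      integrable_const _
    have hi2 : Integrable (L.indicator fun _ => C2) (μ1.prod (μ2.prod μ3)) :=
      (integrable_const _).indicator hLs
    rw [← integral_indicator hS]
    refine (integral_mono_of_nonneg (g := fun p => C1 * γ ^ (2 + η0 / 2) +
      L.indicator (fun _ => C2) p) (Eventually.of_forall fun p =>
        indicator_nonneg (fun _ _ => abs_nonneg _) p) (hi1.add hi2) ?_).trans ?_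
    · filter_upwards [hae] with p ⟨⟨a1, b1⟩, ⟨a2, _⟩, a3, _⟩
      have hI : 0 ≤ L.indicator (fun _ => C2) p := indicator_nonneg (fun _ _ => hC2) p
      have hpos : 0 ≤ C1 * γ ^ (2 + η0 / 2) := by positivity
      by_cases hp : |G3 p - t| ≤ γ
      swap
      · rw [indicator_of_notMem (by exact hp)]
        linarith only [hI, hpos]
      rw [indicator_of_mem (by exact hp), abs_of_nonneg (pw_nonneg _ _ _ _ _)]
      by_cases hq : |⟪p.2.1, p.1⟫_ℝ| ≤ c * γ ∧ |⟪p.2.2, p.1⟫_ℝ| ≤ c * γ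
      swap
      · rw [pw, indicator_of_notMem (by exact hq)]
        linarith only [hI, hpos]
      refine (pw_le _ _ _ _ _).trans ?_
      rcases le_total (γ / u) |BB p.1 p.2.1 p.2.2| with hB | hB
      · have h5 : 1 ≤ (BB p.1 p.2.1 p.2.2 / γ) ^ 2 * u ^ 2 := by
          rw [← mul_pow, ← sq_abs, abs_mul, abs_div, abs_of_pos hγ, abs_of_pos hu0]
          refine one_le_pow₀ ?_
          rw [div_le_iff₀ hu0] at hB
          rw [div_mul_eq_mul_div, le_div_iff₀ hγ]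
          linarith only [hB]
        have h6 := one_le_pow₀ (n := K) h5
        have h7 := W3_nonneg M γ e p
        calc W3 M γ e p ≤ W3 M γ e p * ((BB p.1 p.2.1 p.2.2 / γ) ^ 2 * u ^ 2) ^ K :=
              le_mul_of_one_le_right h7 h6
          _ = W3 M γ e p * ((BB p.1 p.2.1 p.2.2 / γ) ^ 2) ^ K * (u ^ 2) ^ K := by
              rw [mul_pow, mul_assoc]
          _ ≤ C1 * γ ^ (2 + η0 / 2) := by
              gcongr
              exact hW1 γ e p he a1 a2 a3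
          _ ≤ _ := by linarith only [hI]
      · have i1 := p3_inner hκ hγ hγ1 hg b1 hq.1 hq.2 hB
        have hcg : c * γ ≤ D * (γ / u) := by
          gcongr
          linarith only [hD, hD1]
        have j1 : |⟪p.2.1, p.2.2⟫_ℝ| ≤ D * (γ / u) := i1.trans (by gcongr; linarith only [hc, hD])
        have j4 := p3_rad hR a1 a2 a3 j1 (hq.1.trans hcg) (hq.2.trans hcg)
        have hDC : D * (γ / u) ≤ C3 * (γ / u) := by
          gcongr
          linarith only [hC3, hRD]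
        have hpL : p ∈ L := by
          refine ⟨j1.trans hDC, (hq.1.trans hcg).trans hDC, (hq.2.trans hcg).trans hDC, ?_⟩
          refine (abs_sub_le _ (G3 p) _).trans ?_
          have : 0 ≤ D * (γ / u) := by positivity
          rw [hC3]
          linarith only [hg, hp, j4, this]
        rw [indicator_of_mem hpL]
        linarith only [hW2 γ e p he a1 a2 a3, hpos]
    · rw [integral_add hi1 hi2, integral_const, integral_indicator_const _ hLs, smul_eq_mul,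
        smul_eq_mul]
      have k1 : (μ1.prod (μ2.prod μ3)).real univ * (C1 * γ ^ (2 + η0 / 2)) ≤
          A ^ 3 * ((C1 + C2) * γ ^ (2 + η0 / 2)) := by
        gcongr
        linarith only [hC2]
      have k2 := mul_le_mul_of_nonneg_right hLr hC2
      linarith only [k1, k2]
  · refine (integral_mono_of_nonneg (g := fun _ => C2) (Eventually.of_forall fun p =>
      abs_nonneg _) (integrable_const _) ?_).trans ?_
    · filter_upwards [hae] with p ⟨⟨a1, _⟩, ⟨a2, _⟩, a3, _⟩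
      rw [abs_of_nonneg (pw_nonneg _ _ _ _ _)]
      exact (pw_le _ _ _ _ _).trans (hW2 γ e p he a1 a2 a3)
    · rw [integral_const, smul_eq_mul]
      have k1 : (μ1.prod (μ2.prod μ3)).real univ * C2 ≤ A ^ 3 * (C1 + C2) := by
        gcongr
        linarith only [hC1]
      have k2 := mul_nonneg hC2 hX
      linarith only [k1, k2]

end Pool.Agent.MP_83cc0d_an.Cd

end
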