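import Mathlib
import Pool.Agent.MP_83cc0d_an.Cm.M0

attribute [-instance] IdemSemiring.toCanonicallyOrderedAdd IdemSemiring.toMulLeftMono
  ProperSMul.toContinuousSMul AddQuantale.instAddLeftMono Quantale.instMulLeftMono
  IsOrderedCancelMonoid.toIsOrderedMonoid
  TopologicalSpace.instSecondCountableTopologyOfLindelofSpaceOfPseudoMetrizableSpace
  NonUnitalNonAssocRing.toAddCommGroup CanonicallyOrderedAdd.toMulLeftMono littleWedderburn
  Valued.toUniformSpace LieAdmissibleAlgebra.toModule AddQuantale.instAddRightMono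
  NonUnitalNormedRing.toNonUnitalSeminormedRing LinearOrderedCommMonoidWithZero.toIsOrderedMonoid
  NonUnitalNonAssocSemiring.toAddCommMonoid NumberField.to_charZero
  CategoryTheory.CountableCategory.countableObj IdemSemiring.toMulRightMono Quantale.instMulRightMono
  Ring.toAddCommGroup GrpTypeEquivalenceGrp.grpGroup RightPreLieAlgebra.toModule
  LeftPreLieAlgebra.toModule TotallySeparatedSpace.t2Space NonUnitalNonAssocSemiring.toDistrib
  CanonicallyOrderedMul.toMulLeftMono NonarchimedeanAddGroup.toIsTopologicalAddGroup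
  NonUnitalNormedCommRing.toNonUnitalSeminormedCommRing NormedRing.toRing CommRing.toRing
  DivisionRing.toRing TopologicalSpace.NoetherianSpace.compactSpace IdemSemiring.toSemiring
  RKHS.instFunLike LieRing.toAddCommGroup MulSemiringAction.toDistribMulAction Finite.to_countable
  continuousSub_of_discreteTopology NormedRing.toSeminormedRing AddCommGroupWithOne.toAddGroupWithOne
  NonUnitalNonAssocSemiring.toMulZeroClass CategoryTheory.GrpObj.toMonObj Algebra.complexToReal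
  instSMulZeroClass CStarAlgebra.instOrderClosedTopology AlexandrovDiscrete.toLocallyCompactSpace
  SeminormedRing.toNonUnitalSeminormedRing IsTopologicalTorsor.toContinuousSMul Bialgebra.toAlgebra
  AddCommMonoidWithOne.toAddCommMonoid continuousSub_of_indiscreteTopology
  IsOrderedAddMonoid.toAddRightMono AlgHom.instNonUnitalAlgHomClassOfAlgHomClass
  NonUnitalNormedRing.toNorm NormedCommRing.toCommRing NormedAlgebra.complexToReal
  Nontrivial.to_nonempty PolishSpace.toSecondCountableTopology NormedField.toNorm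
  AddCommGroupWithOne.toAddCommGroup NormedRing.toNorm
  Topology.IsScott.instClosedIicTopologyOfUnivSet instCoeTOfCoeDep MulZeroOneClass.toMulZeroClass
  IsOrderedMonoid.toMulRightMono Pi.topologicalSpace CanonicallyOrderedAdd.toMulRightMono
  SeminormedCommRing.toCommRing CategoryTheory.RingObj.toMonObj
  DiscreteMeasurableSpace.toMeasurableDiv NonarchimedeanRing.toIsTopologicalRing
  EuclideanDomain.toCommRing NonUnitalSeminormedRing.toPseudoMetricSpace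
  SeminormedCommGroup.toPseudoMetricSpace Prod.instMul BooleanRing.toRing CStarModule.toInner
  LinearOrderedAddCommMonoidWithTop.toAddCommMonoid MeasureTheory.instSFiniteOfCountable
  CategoryTheory.BimonObj.toMonObj UpgradedStandardBorel.toTopologicalSpace
  IsModuleTopology.instSubsingleton SeminormedRing.toNorm AddGroupSeminormClass.toNonnegHomClass
  NonAssocCommSemiring.toNonAssocSemiring
  MeasureTheory.Measure.instRegularOfIsAddHaarMeasureOfCompactSpace IdemCommSemiring.toCommSemiring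
  instNonUnitalAlgHomClassOfNonUnitalAlgEquivClass Module.FaithfullyFlat.toFlat
  NonUnitalSeminormedRing.toNorm BooleanRing.toCommRing TestFunctionClass.toDFunLike
  Valued.isTopologicalDivisionRing

set_option linter.unusedSectionVars false

-- part H1
section

namespace Pool.Agent.MP_83cc0d_an.Cd

open MeasureTheory Complex Filter Topology Metric Module Set
open scoped ENNReal InnerProductSpace ComplexConjugate

variable {V : Type} [NormedAddCommGroup V] [InnerProductSpace ℝ V] [FiniteDimensional ℝ V]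
  [MeasurableSpace V] [BorelSpace V]

/-- There is a linear equivalence with `‖L b‖ = Lq v v' b` (map `b ↦ (b, ⟪v,b⟫, ⟪v',b⟫)` into an
`L²` product, and identify its range isometrically with `V` through orthonormal bases; or compose
two rank one perturbations of the identity). -/
lemma exists_L (v v' : V) : ∃ L : V ≃ₗ[ℝ] V, ∀ b, ‖L b‖ = Lq v v' b := by
  let T : V →ₗ[ℝ] WithLp 2 (V × WithLp 2 (ℝ × ℝ)) :=
    { toFun := fun b => WithLp.toLp 2 (b, WithLp.toLp 2 (⟪v, b⟫_ℝ, ⟪v', b⟫_ℝ))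
      map_add' := fun x y => by simp only [inner_add_right]; rfl
      map_smul' := fun t x => by simp only [inner_smul_right]; rfl }
  have hT : Function.Injective T := fun x y h => congrArg (fun z => (WithLp.ofLp z).1) h
  let e := LinearEquiv.ofInjective T hT
  let f := (stdOrthonormalBasis ℝ (LinearMap.range T)).equiv (stdOrthonormalBasis ℝ V)
    (finCongr e.finrank_eq.symm)
  refine ⟨e.trans f.toLinearEquiv, fun b => ?_⟩
  have h1 : ‖(e.trans f.toLinearEquiv) b‖ = ‖T b‖ := f.norm_map (e b)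
  rw [h1, Lq, ← Real.sqrt_sq (norm_nonneg (T b)), WithLp.prod_norm_sq_eq_of_L2,
    WithLp.prod_norm_sq_eq_of_L2, add_assoc]
  simp [T]

/-- `wick` (with `τ = 1`) after the change of variables `c = L b`, for the symmetric operator
`(L⁻¹)† S L⁻¹` and the vectors `(L⁻¹)† u`; `n u = n0 ((L⁻¹)† u)`. The Jacobian `|det L⁻¹|` is at
most one because `L ⁻¹' ball 0 1 ⊆ ball 0 1` (`Measure.addHaar_preimage_linearEquiv`,
`Measure.map_linearMap_addHaar_eq_smul_addHaar`). -/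
lemma wickL (ι : Type) [Fintype ι] : ∃ C : ℝ, 0 ≤ C ∧ ∀ (S : V →ₗ[ℝ] V), S.IsSymmetric →
    ∀ v v' : V, ∃ n : V → ℝ, NL S (finrank ℝ V) v v' n ∧ ∀ u : ι → V,
      ‖∫ b : V, (∏ i, ((⟪b, u i⟫_ℝ : ℝ) : ℂ)) * cexp (I * (⟪b, S b⟫_ℝ : ℝ) -
        ((‖b‖ ^ 2 + ⟪v, b⟫_ℝ ^ 2 + ⟪v', b⟫_ℝ ^ 2 : ℝ) : ℂ))‖ ≤ C * ∏ i, n (u i) := by
  obtain ⟨C, hC0, hC⟩ := wick (V := V) ι
  refine ⟨C, hC0, fun S hS v v' => ?_⟩
  obtain ⟨L, hL⟩ := exists_L v v'
  set K : V →ₗ[ℝ] V := L.symm.toLinearMap with hK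
  set A : V →ₗ[ℝ] V := LinearMap.adjoint K with hA
  have hKL : ∀ b, K (L b) = b := fun b => L.symm_apply_apply b
  have hin : ∀ b u, ⟪L b, A u⟫_ℝ = ⟪b, u⟫_ℝ := fun b u => by
    rw [hA, LinearMap.adjoint_inner_right, hKL]
  obtain ⟨n, hn, h⟩ := hC (A ∘ₗ S ∘ₗ K) (fun x y => by
    simp only [LinearMap.comp_apply, hA, LinearMap.adjoint_inner_left,
      LinearMap.adjoint_inner_right]
    exact hS _ _) 1 zero_le_one
  have hAn : ∀ u N, 0 ≤ N → (∀ b, |⟪b, u⟫_ℝ| ≤ N * Lq v v' b) → ‖A u‖ ≤ N := fun u N hN hu => by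
    have h1 := hu (K (A u))
    rw [← hL, ← hin, show L (K (A u)) = A u from L.apply_symm_apply _, real_inner_self_eq_norm_sq,
      abs_of_nonneg (sq_nonneg _), sq] at h1
    rcases (norm_nonneg (A u)).eq_or_lt with h0 | h0
    · rw [← h0]; exact hN
    · exact le_of_mul_le_mul_right h1 h0
  have hD : (0 : ℝ) ≤ finrank ℝ V := Nat.cast_nonneg _
  refine ⟨fun u => n (A u), ⟨fun u => hn.nonneg _, fun u w => by rw [map_add]; exact hn.add _ _,
    fun t u => by rw [map_smul]; exact hn.smul _ _, fun u N hN hu => (hn.le _).trans ?_,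
    fun z N hN hz => ?_⟩, fun u => ?_⟩
  · exact mul_le_mul_of_nonneg_left (hAn u N hN hu) hD
  · have h1 := hn.gain (L z)
    simp only [LinearMap.comp_apply, hKL, mul_one] at h1
    rw [← hL]
    exact h1.trans (by gcongr; exact hAn _ N hN hz)
  · have hdet : LinearMap.det (L : V →ₗ[ℝ] V) ≠ 0 := (LinearEquiv.isUnit_det' L).ne_zero
    have hj : |(LinearMap.det (L : V →ₗ[ℝ] V))⁻¹| ≤ 1 := by
      have h1 := Measure.addHaar_preimage_linearMap (volume : Measure V) hdet (ball 0 1)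
      have h2 : volume ((L : V →ₗ[ℝ] V) ⁻¹' ball 0 1) ≤ volume (ball (0 : V) 1) :=
        measure_mono fun b hb => by
          rw [mem_preimage, mem_ball_zero_iff] at hb
          rw [mem_ball_zero_iff]
          refine lt_of_le_of_lt ?_ hb
          change ‖b‖ ≤ ‖L b‖
          rw [hL, Lq]
          exact Real.le_sqrt_of_sq_le (by linarith only [sq_nonneg ⟪v, b⟫_ℝ, sq_nonneg ⟪v', b⟫_ℝ])
      rw [h1] at h2
      have h3 := (ENNReal.mul_le_mul_iff_left (measure_ball_pos volume (0 : V) one_pos).ne'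
        measure_ball_lt_top.ne).1 (h2.trans_eq (one_mul _).symm)
      exact ENNReal.ofReal_le_one.1 h3
    set F : V → ℂ := fun a => (∏ i, ((⟪a, A (u i)⟫_ℝ : ℝ) : ℂ)) *
      cexp (I * (1 : ℝ) * (⟪a, (A ∘ₗ S ∘ₗ K) a⟫_ℝ : ℝ) - (‖a‖ ^ 2 : ℝ)) with hF
    have e : ∀ b, (∏ i, ((⟪b, u i⟫_ℝ : ℝ) : ℂ)) * cexp (I * (⟪b, S b⟫_ℝ : ℝ) -
        ((‖b‖ ^ 2 + ⟪v, b⟫_ℝ ^ 2 + ⟪v', b⟫_ℝ ^ 2 : ℝ) : ℂ)) = F ((L : V →ₗ[ℝ] V) b) := fun b => by
      simp only [hF, LinearEquiv.coe_coe, LinearMap.comp_apply, hin, hKL, hL, Lq, ofReal_one,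
        mul_one]
      rw [Real.sq_sqrt (by positivity)]
    have hm : MeasurableEmbedding (L : V →ₗ[ℝ] V) :=
      L.toContinuousLinearEquiv.toHomeomorph.measurableEmbedding
    simp only [e]
    rw [← hm.integral_map, Measure.map_linearMap_addHaar_eq_smul_addHaar _ hdet,
      integral_smul_measure, ENNReal.toReal_ofReal (abs_nonneg _), norm_smul, Real.norm_eq_abs,
      abs_abs]
    exact (mul_le_of_le_one_left (norm_nonneg _) hj).trans (h fun i => A (u i))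

end Pool.Agent.MP_83cc0d_an.Cd

end

-- part H2
section

namespace Pool.Agent.MP_83cc0d_an.Cd

open MeasureTheory Complex Filter Topology Metric Module Set
open scoped ENNReal InnerProductSpace ComplexConjugate

variable {V : Type} [NormedAddCommGroup V] [InnerProductSpace ℝ V] [FiniteDimensional ℝ V]
  [MeasurableSpace V] [BorelSpace V]

lemma h2_Lq_le (v v' z : V) : Lq v v' z ≤ ‖z‖ + |⟪v, z⟫_ℝ| + |⟪v', z⟫_ℝ| := by
  unfold Lq
  rw [Real.sqrt_le_left (by positivity), ← sq_abs ⟪v, z⟫_ℝ, ← sq_abs ⟪v', z⟫_ℝ]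
  have h1 := norm_nonneg z
  have h2 := abs_nonneg ⟪v, z⟫_ℝ
  have h3 := abs_nonneg ⟪v', z⟫_ℝ
  linarith only [mul_nonneg h1 h2, mul_nonneg h1 h3, mul_nonneg h2 h3]

lemma h2_norm_le (v v' z : V) : ‖z‖ ≤ Lq v v' z :=
  Real.le_sqrt_of_sq_le (by linarith only [sq_nonneg ⟪v, z⟫_ℝ, sq_nonneg ⟪v', z⟫_ℝ])

lemma h2_inner_le (v v' z : V) : |⟪z, v⟫_ℝ| ≤ Lq v v' z := by
  rw [real_inner_comm]
  exact Real.abs_le_sqrt (by linarith only [sq_nonneg ‖z‖, sq_nonneg ⟪v', z⟫_ℝ])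

lemma h2_any (v v' u b : V) : |⟪b, u⟫_ℝ| ≤ ‖u‖ * Lq v v' b := by
  refine (abs_real_inner_le_norm b u).trans ?_
  rw [mul_comm]
  exact mul_le_mul_of_nonneg_left (h2_norm_le v v' b) (norm_nonneg _)

lemma h2_Lq_R {a a' z : V} {R γ : ℝ} (hR : 1 ≤ R) (ha : ‖a‖ ≤ R) (ha' : ‖a'‖ ≤ R) (hz : ‖z‖ ≤ R)
    (hγ : 0 < γ) (hγ1 : γ ≤ 1) :
    ‖z‖ + |⟪γ⁻¹ • a, z⟫_ℝ| + |⟪γ⁻¹ • a', z⟫_ℝ| ≤ 3 * R ^ 2 * γ⁻¹ := by
  have hg : 1 ≤ γ⁻¹ := (one_le_inv₀ hγ).2 hγ1
  have h1 : ∀ x : V, ‖x‖ ≤ R → |⟪γ⁻¹ • x, z⟫_ℝ| ≤ R ^ 2 * γ⁻¹ := by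
    intro x hx
    rw [real_inner_smul_left, abs_mul, abs_of_pos (by positivity), mul_comm]
    gcongr
    refine (abs_real_inner_le_norm x z).trans ?_
    rw [sq]; gcongr
  have h2 : ‖z‖ ≤ R ^ 2 * γ⁻¹ := by nlinarith only [hR, hz, hg]
  linarith [h1 a ha, h1 a' ha']

/-- See the module plan. -/
lemma geomL {a a' e : V} {D R γ T Λ τ τ' : ℝ} {n : V → ℝ}
    (h : NL (SS τ τ' a a') D (γ⁻¹ • a) (γ⁻¹ • a') n) (hD : 0 ≤ D) (hR : 1 ≤ R) (ha : ‖a‖ ≤ R)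
    (ha' : ‖a'‖ ≤ R) (he : ‖e‖ ≤ R) (hγ : 0 < γ) (hγ1 : γ ≤ 1) (hΛ : 1 ≤ Λ)
    (hT : Λ ^ 2 ≤ T * γ ^ 2) (hτ : T / Λ ≤ τ) (hτ' : T / Λ ≤ τ')
    (hφ : Λ ^ 2 / (T * γ) ≤ √(ph a a')) :
    (n (γ⁻¹ • a) * n (sb a e)) ^ 2 * Λ ≤ 8 * D ^ 4 * R ^ 8 := by
  have hΛ0 : 0 < Λ := by linarith only [hΛ]
  have hR2 : R ≤ R ^ 2 := by nlinarith only [hR]
  have hR3 : 1 ≤ R ^ 2 := by linarith only [hR, hR2]
  have hT0 : 0 < T := by
    by_contra hc
    push Not at hc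
    nlinarith only [mul_nonpos_of_nonpos_of_nonneg hc (sq_nonneg γ), hΛ, hT]
  have hTΛ : 0 < T / Λ := by positivity
  have hτ0 : 0 < τ := by linarith only [hτ, hTΛ]
  have hτ0' : 0 < τ' := by linarith only [hτ', hTΛ]
  set w := √(ph a a') with hw
  have hw0 : 0 < w := lt_of_lt_of_le (by positivity) hφ
  have hw2 : w ^ 2 = ph a a' := Real.sq_sqrt (ph_nonneg a a')
  have k1 : ∀ x, T / Λ ≤ x → Λ ≤ x * γ * w := by
    intro x hx
    calc Λ = T / Λ * γ * (Λ ^ 2 / (T * γ)) := by field_simp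
      _ ≤ x * γ * w := by
        have : 0 < x := by linarith only [hTΛ, hx]
        gcongr
  have k2 : Λ ≤ τ * γ ^ 2 := by
    calc Λ = Λ ^ 2 / Λ := by field_simp
      _ ≤ T * γ ^ 2 / Λ := by gcongr
      _ = T / Λ * γ ^ 2 := by ring
      _ ≤ _ := by gcongr
  have k3 := k1 τ hτ
  have k4 := k1 τ' hτ'
  set θ := τ * ‖a‖ ^ 2 - τ' * ‖a'‖ ^ 2 with hθ
  have hSS : ∀ x, SS τ τ' a a' x = τ • sb a x - τ' • sb a' x := fun x => rfl
  have saa : ∀ x : V, sb x x = 0 := fun x => by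
    rw [sb, real_inner_self_eq_norm_sq, sub_self]
  have hu : ‖sb a e‖ ≤ ‖a‖ ^ 2 * R := (norm_sb_le a e).trans (by gcongr)
  have hu3 : ‖sb a e‖ ≤ R ^ 3 := hu.trans (by
    calc ‖a‖ ^ 2 * R ≤ R ^ 2 * R := by gcongr
      _ = R ^ 3 := by ring)
  have n0 := h.nonneg (γ⁻¹ • a)
  have n1 := h.nonneg (sb a e)
  rcases le_total |θ| Λ with hc | hc
  · set z : V := -((θ / τ') • a + sb a' a) with hz
    have hSz : SS τ τ' a a' z = (τ * w ^ 2 * γ) • (γ⁻¹ • a) := by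
      rw [hz, map_neg, map_add, map_smul, hSS, hSS, saa, hw2]
      simp only [sb, ph, inner_sub_right, inner_smul_right, real_inner_self_eq_norm_sq,
        real_inner_comm a a', hθ]
      match_scalars <;> field_simp <;> ring
    have hN : 0 < τ * w ^ 2 * γ := by positivity
    have g := h.gain z (τ * w ^ 2 * γ) hN.le (fun b => by
      rw [hSz, real_inner_smul_right, abs_mul, abs_of_pos hN]
      exact mul_le_mul_of_nonneg_left (h2_inner_le _ _ _) hN.le)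
    rw [hSz, h.smul, abs_of_pos hN] at g
    have hv' : ‖sb a' a‖ ≤ R * w := by
      apply abs_le_of_sq_le_sq' _ (by positivity) |>.2
      rw [norm_sb_sq, mul_pow, hw2]
      have := ph_nonneg a a'
      gcongr
    have i1 : ⟪a, sb a' a⟫_ℝ = w ^ 2 := by rw [inner_sb_self, hw2]
    have i2 : ⟪a', sb a' a⟫_ℝ = 0 := by
      rw [inner_sb, real_inner_self_eq_norm_sq]; ring
    have hL : Lq (γ⁻¹ • a) (γ⁻¹ • a') z ≤ |θ| / τ' * (3 * R ^ 2 * γ⁻¹) + R * w + w ^ 2 * γ⁻¹ := by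
      refine (h2_Lq_le _ _ _).trans ?_
      have l0 := h2_Lq_R hR ha ha' ha hγ hγ1
      have l1 : ‖z‖ ≤ |θ| / τ' * ‖a‖ + R * w := by
        rw [hz, norm_neg]
        refine (norm_add_le _ _).trans ?_
        rw [norm_smul, Real.norm_eq_abs, abs_div, abs_of_pos hτ0']
        linarith only [hv']
      have l2 : |⟪γ⁻¹ • a, z⟫_ℝ| ≤ |θ| / τ' * |⟪γ⁻¹ • a, a⟫_ℝ| + w ^ 2 * γ⁻¹ := by
        rw [hz, inner_neg_right, abs_neg, inner_add_right]
        refine (abs_add_le _ _).trans ?_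
        rw [real_inner_smul_right, abs_mul, abs_div, abs_of_pos hτ0',
          real_inner_smul_left a (sb a' a), i1, abs_of_pos (by positivity : 0 < γ⁻¹ * w ^ 2)]
        linarith only []
      have l3 : |⟪γ⁻¹ • a', z⟫_ℝ| ≤ |θ| / τ' * |⟪γ⁻¹ • a', a⟫_ℝ| := by
        rw [hz, inner_neg_right, abs_neg, inner_add_right, real_inner_smul_left a' (sb a' a), i2,
          mul_zero, add_zero, real_inner_smul_right, abs_mul, abs_div, abs_of_pos hτ0']
      have l4 := mul_le_mul_of_nonneg_left l0 (show 0 ≤ |θ| / τ' by positivity)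
      linarith only [l1, l2, l3, l4]
    have g1 : n (γ⁻¹ • a) ^ 2 * (τ * w ^ 2 * γ) ≤
        D ^ 2 * (|θ| / τ' * (3 * R ^ 2 * γ⁻¹) + R * w + w ^ 2 * γ⁻¹) := by
      apply le_of_mul_le_mul_left _ hN
      calc _ = (τ * w ^ 2 * γ * n (γ⁻¹ • a)) ^ 2 := by ring
        _ ≤ _ := g
        _ ≤ D ^ 2 * (τ * w ^ 2 * γ *
            (|θ| / τ' * (3 * R ^ 2 * γ⁻¹) + R * w + w ^ 2 * γ⁻¹)) := by gcongr
        _ = _ := by ring
    have m1 : |θ| / τ' * (3 * R ^ 2 * γ⁻¹) * Λ ≤ 3 * R ^ 2 * (τ * w ^ 2 * γ) := by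
      have : Λ * Λ ≤ τ * γ * w * (τ' * γ * w) := by gcongr
      calc _ ≤ Λ / τ' * (3 * R ^ 2 * γ⁻¹) * Λ := by gcongr
        _ = 3 * R ^ 2 * ((Λ * Λ) / (τ' * γ)) := by field_simp
        _ ≤ 3 * R ^ 2 * ((τ * γ * w * (τ' * γ * w)) / (τ' * γ)) := by gcongr
        _ = _ := by field_simp
    have m2 : R * w * Λ ≤ R ^ 2 * (τ * w ^ 2 * γ) := by
      calc R * w * Λ ≤ R ^ 2 * w * (τ * γ * w) := by gcongr
        _ = _ := by ring
    have m3 : w ^ 2 * γ⁻¹ * Λ ≤ R ^ 2 * (τ * w ^ 2 * γ) := by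
      calc w ^ 2 * γ⁻¹ * Λ ≤ w ^ 2 * γ⁻¹ * (τ * γ ^ 2) := by gcongr
        _ = 1 * (τ * w ^ 2 * γ) := by field_simp
        _ ≤ _ := by gcongr
    have g2 : n (γ⁻¹ • a) ^ 2 * Λ ≤ D ^ 2 * (5 * R ^ 2) := by
      apply le_of_mul_le_mul_right _ hN
      calc _ = n (γ⁻¹ • a) ^ 2 * (τ * w ^ 2 * γ) * Λ := by ring
        _ ≤ D ^ 2 * (|θ| / τ' * (3 * R ^ 2 * γ⁻¹) + R * w + w ^ 2 * γ⁻¹) * Λ := by gcongr
        _ = D ^ 2 * (|θ| / τ' * (3 * R ^ 2 * γ⁻¹) * Λ + R * w * Λ + w ^ 2 * γ⁻¹ * Λ) := by ring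
        _ ≤ D ^ 2 * (5 * R ^ 2 * (τ * w ^ 2 * γ)) := by gcongr; linarith only [m1, m2, m3]
        _ = _ := by ring
    have g3 : n (sb a e) ≤ D * R ^ 3 :=
      (h.le _ _ (norm_nonneg _) (h2_any _ _ _)).trans (by gcongr)
    calc _ = n (γ⁻¹ • a) ^ 2 * Λ * n (sb a e) ^ 2 := by ring
      _ ≤ D ^ 2 * (5 * R ^ 2) * (D * R ^ 3) ^ 2 := by gcongr
      _ = 5 * D ^ 4 * R ^ 8 := by ring
      _ ≤ _ := by gcongr; norm_num
  · have g0 : n (γ⁻¹ • a) ≤ D := by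
      simpa only [mul_one] using h.le (γ⁻¹ • a) 1 zero_le_one (fun b => by simpa only [one_mul] using h2_inner_le _ _ b)
    set u := sb a e with hu'
    set v := sb a a' with hv
    have hv2 : ‖v‖ ^ 2 = ‖a‖ ^ 2 * w ^ 2 := by rw [hv, norm_sb_sq, hw2, ph_comm]
    have ha0 : 0 < ‖a‖ := by
      rcases (norm_nonneg a).eq_or_lt with h0 | h0
      · have := ph_le a a'
        rw [← h0, ← hw2] at this
        linarith only [pow_pos hw0 2, this]
      · exact h0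
    have hvn : ‖v‖ = ‖a‖ * w := by
      rw [← mul_pow] at hv2
      exact (pow_left_inj₀ (norm_nonneg _) (by positivity) two_ne_zero).1 hv2
    have hv0 : 0 < ‖v‖ := by rw [hvn]; positivity
    set k := ⟪v, u⟫_ℝ / ‖v‖ ^ 2 with hk
    set f := u - k • v with hf
    have iau : ∀ y : V, ⟪a, sb a y⟫_ℝ = 0 := fun y => by
      rw [inner_sb, real_inner_self_eq_norm_sq]; ring
    have f1 : ⟪v, f⟫_ℝ = 0 := by
      rw [hf, inner_sub_right, real_inner_smul_right, real_inner_self_eq_norm_sq, hk]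
      field_simp; ring
    have f2 : ⟪a, f⟫_ℝ = 0 := by
      rw [hf, inner_sub_right, real_inner_smul_right, hu', hv, iau, iau]; ring
    have f3 : ⟪a', f⟫_ℝ = 0 := by
      rw [hv, sb, inner_sub_left, real_inner_smul_left, real_inner_smul_left, f2, mul_zero,
        sub_zero] at f1
      exact (mul_eq_zero.1 f1).resolve_left (by positivity)
    have hSf : SS τ τ' a a' f = θ • f := by
      rw [hSS, sb, sb, f2, f3, hθ]; module
    have huf : u = k • v + f := by rw [hf]; abel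
    have hpy : ‖u‖ ^ 2 = k ^ 2 * ‖v‖ ^ 2 + ‖f‖ ^ 2 := by
      nth_rewrite 1 [huf]
      rw [norm_add_sq_real, real_inner_smul_left, f1, norm_smul, mul_pow, Real.norm_eq_abs,
        sq_abs]; ring
    have hθ0 : 0 < |θ| := by linarith only [hΛ, hc]
    have hfu : ‖f‖ ^ 2 ≤ R ^ 6 := by
      have : ‖u‖ ^ 2 ≤ (R ^ 3) ^ 2 := by gcongr
      linarith only [mul_nonneg (sq_nonneg k) (sq_nonneg ‖v‖), hpy, this]
    have hLf : Lq (γ⁻¹ • a) (γ⁻¹ • a') f ≤ ‖f‖ := by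
      refine (h2_Lq_le _ _ _).trans ?_
      rw [real_inner_smul_left, real_inner_smul_left, f2, f3]; simp
    have g1 := h.gain f _ (norm_nonneg _) (h2_any _ _ _)
    rw [hSf, h.smul, norm_smul, Real.norm_eq_abs] at g1
    have nf := h.nonneg f
    have g2 : n f ^ 2 * Λ ≤ D ^ 2 * R ^ 6 := by
      apply le_of_mul_le_mul_left _ hθ0
      calc _ ≤ |θ| * (n f ^ 2 * |θ|) := by gcongr
        _ = (|θ| * n f) ^ 2 := by ring
        _ ≤ _ := g1
        _ ≤ D ^ 2 * (|θ| * ‖f‖ * ‖f‖) := by gcongr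
        _ = |θ| * (D ^ 2 * ‖f‖ ^ 2) := by ring
        _ ≤ _ := by gcongr
    have hSa : SS τ τ' a a' a' = τ • v := by rw [hSS, saa, smul_zero, sub_zero]
    have g3 := h.gain a' _ (norm_nonneg _) (h2_any _ _ _)
    rw [hSa, h.smul, norm_smul, Real.norm_eq_abs, abs_of_pos hτ0] at g3
    have hLa := (h2_Lq_le _ _ _).trans (h2_Lq_R hR ha ha' ha' hγ hγ1)
    have g4 : τ * n v ^ 2 ≤ D ^ 2 * (‖v‖ * (3 * R ^ 2 * γ⁻¹)) := by
      apply le_of_mul_le_mul_left _ hτ0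
      calc _ = (τ * n v) ^ 2 := by ring
        _ ≤ _ := g3
        _ ≤ D ^ 2 * (τ * ‖v‖ * (3 * R ^ 2 * γ⁻¹)) := by gcongr
        _ = _ := by ring
    have g5 : k ^ 2 * ‖v‖ * w ≤ R ^ 5 := by
      apply le_of_mul_le_mul_left _ ha0
      have b1 : ‖u‖ ^ 2 ≤ (‖a‖ ^ 2 * R) ^ 2 := by gcongr
      calc _ = k ^ 2 * ‖v‖ * (‖a‖ * w) := by ring
        _ = k ^ 2 * ‖v‖ ^ 2 := by rw [← hvn]; ring
        _ ≤ (‖a‖ ^ 2 * R) ^ 2 := by linarith only [sq_nonneg ‖f‖, hpy, b1]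
        _ = ‖a‖ * (‖a‖ ^ 3 * R ^ 2) := by ring
        _ ≤ ‖a‖ * (R ^ 3 * R ^ 2) := by gcongr
        _ = _ := by ring
    have g6 : (|k| * n v) ^ 2 * Λ ≤ 3 * D ^ 2 * R ^ 7 := by
      calc _ ≤ (|k| * n v) ^ 2 * (τ * γ * w) := by gcongr
        _ = k ^ 2 * γ * w * (τ * n v ^ 2) := by rw [mul_pow, sq_abs]; ring
        _ ≤ k ^ 2 * γ * w * (D ^ 2 * (‖v‖ * (3 * R ^ 2 * γ⁻¹))) := by gcongr
        _ = 3 * D ^ 2 * R ^ 2 * (k ^ 2 * ‖v‖ * w) := by field_simp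
        _ ≤ 3 * D ^ 2 * R ^ 2 * R ^ 5 := by gcongr
        _ = _ := by ring
    have g7 : n u ≤ |k| * n v + n f := by
      nth_rewrite 1 [huf]
      exact (h.add _ _).trans (by rw [h.smul])
    have g8 : n u ^ 2 ≤ 2 * (|k| * n v) ^ 2 + 2 * n f ^ 2 := by
      have : n u ^ 2 ≤ (|k| * n v + n f) ^ 2 := by gcongr
      linarith only [sq_nonneg (|k| * n v - n f), this]
    have r1 : R ^ 6 ≤ R ^ 8 := pow_le_pow_right₀ hR (by norm_num)
    have r2 : R ^ 7 ≤ R ^ 8 := pow_le_pow_right₀ hR (by norm_num)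
    have g9 : n u ^ 2 * Λ ≤ 8 * D ^ 2 * R ^ 8 := by
      have b1 := mul_le_mul_of_nonneg_right g8 hΛ0.le
      have b2 := mul_le_mul_of_nonneg_left r1 (sq_nonneg D)
      have b3 := mul_le_mul_of_nonneg_left r2 (sq_nonneg D)
      linarith only [g2, g6, b1, b2, b3]
    calc _ = n (γ⁻¹ • a) ^ 2 * (n u ^ 2 * Λ) := by ring
      _ ≤ D ^ 2 * (8 * D ^ 2 * R ^ 8) := by gcongr
      _ = _ := by ring

end Pool.Agent.MP_83cc0d_an.Cd

end

-- part H3
section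

namespace Pool.Agent.MP_83cc0d_an.Cd

open MeasureTheory Complex Filter Topology Metric Module Set
open scoped ENNReal InnerProductSpace ComplexConjugate

variable {V : Type} [NormedAddCommGroup V] [InnerProductSpace ℝ V] [FiniteDimensional ℝ V]
  [MeasurableSpace V] [BorelSpace V]

/-- Pattern of `kernel_bound` in `Mg/Main`: `wickL` for `ι = Fin (2M) × Fin 4`,
`u = ![γ⁻¹ a, sb a e, γ⁻¹ a', sb a' e]`, `S = SS τ τ' a a'` (`sb_symm`, `inner_sb_self`, `ph_comm`,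
`Wt_eq`), `n (γ⁻¹ a) ≤ D`, `n (sb a e) ≤ D R³`, and `geomL`. -/
lemma kerJ (M : ℕ) {R : ℝ} (hR : 1 ≤ R) : ∃ C : ℝ, 0 ≤ C ∧ ∀ (γ τ τ' : ℝ) (e a a' : V), 0 < γ →
    γ ≤ 1 → ‖e‖ ≤ R → ‖a‖ ≤ R → ‖a'‖ ≤ R → ‖JJ M γ e τ τ' a a'‖ ≤ C ∧
      ∀ T Λ : ℝ, 1 ≤ Λ → Λ ^ 2 ≤ T * γ ^ 2 → T / Λ ≤ τ → T / Λ ≤ τ' →
        Λ ^ 2 / (T * γ) ≤ √(ph a a') → ‖JJ M γ e τ τ' a a'‖ * Λ ^ M ≤ C := by
  obtain ⟨C, hC0, hC⟩ := wickL (V := V) (Fin (2 * M) × Fin 4)
  set D : ℝ := ((finrank ℝ V : ℕ) : ℝ) with hD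
  have hD0 : 0 ≤ D := Nat.cast_nonneg _
  refine ⟨C * ((8 * D ^ 4 * R ^ 8) ^ M * (D * (D * R ^ 3)) ^ (2 * M)), by positivity,
    fun γ τ τ' e a a' hγ hγ1 he ha ha' => ?_⟩
  have hS : (SS τ τ' a a').IsSymmetric := fun x y => by
    change ⟪τ • sb a x - τ' • sb a' x, y⟫_ℝ = ⟪x, τ • sb a y - τ' • sb a' y⟫_ℝ
    rw [inner_sub_left, inner_sub_right, real_inner_smul_left, real_inner_smul_left,
      real_inner_smul_right, real_inner_smul_right, sb_symm, sb_symm]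
  obtain ⟨n, hn, h⟩ := hC _ hS (γ⁻¹ • a) (γ⁻¹ • a')
  have h1 := h (fun i => ![γ⁻¹ • a, sb a e, γ⁻¹ • a', sb a' e] i.2)
  have e1 : ∀ b : V, cexp (I * ((τ * ph a b - τ' * ph a' b : ℝ) : ℂ)) *
      ((Wt M γ e a b * Wt M γ e a' b * Real.exp (-‖b‖ ^ 2) : ℝ) : ℂ) =
      (∏ i : Fin (2 * M) × Fin 4,
        ((⟪b, ![γ⁻¹ • a, sb a e, γ⁻¹ • a', sb a' e] i.2⟫_ℝ : ℝ) : ℂ)) *
        cexp (I * (⟪b, SS τ τ' a a' b⟫_ℝ : ℝ) -
          ((‖b‖ ^ 2 + ⟪γ⁻¹ • a, b⟫_ℝ ^ 2 + ⟪γ⁻¹ • a', b⟫_ℝ ^ 2 : ℝ) : ℂ)) := by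
    intro b
    have e2 : ⟪b, SS τ τ' a a' b⟫_ℝ = τ * ph a b - τ' * ph a' b := by
      change ⟪b, τ • sb a b - τ' • sb a' b⟫_ℝ = _
      rw [inner_sub_right, real_inner_smul_right, real_inner_smul_right, inner_sb_self,
        inner_sb_self, ph_comm b, ph_comm b]
    have e3 : ∀ x : V, ⟪γ⁻¹ • x, b⟫_ℝ = ⟪x, b⟫_ℝ / γ := fun x => by
      rw [real_inner_smul_left, div_eq_inv_mul]
    have e4 : ∀ x : V, ⟪b, γ⁻¹ • x⟫_ℝ = ⟪x, b⟫_ℝ / γ := fun x => by rw [real_inner_comm, e3]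
    rw [Fintype.prod_prod_type, e2, Wt_eq, Wt_eq, sub_eq_add_neg (I * _), Complex.exp_add,
      ← ofReal_neg, ← ofReal_exp, e3, e3, show -(‖b‖ ^ 2 + (⟪a, b⟫_ℝ / γ) ^ 2 + (⟪a', b⟫_ℝ / γ) ^ 2)
        = -(⟪a, b⟫_ℝ / γ) ^ 2 + -(⟪a', b⟫_ℝ / γ) ^ 2 + -‖b‖ ^ 2 by ring, Real.exp_add, Real.exp_add]
    simp only [Fin.prod_univ_four, Finset.prod_const, Finset.card_univ, Fintype.card_fin,
      Matrix.cons_val_zero, Matrix.cons_val_one, Matrix.cons_val, e4, mul_pow, ofReal_mul,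
      ofReal_pow]
    ring
  simp_rw [← e1] at h1
  rw [Fintype.prod_prod_type] at h1
  simp only [Fin.prod_univ_four, Finset.prod_const, Finset.card_univ, Fintype.card_fin,
    Matrix.cons_val_zero, Matrix.cons_val_one, Matrix.cons_val] at h1
  change ‖JJ M γ e τ τ' a a'‖ ≤ _ at h1
  have n1 := hn.nonneg (γ⁻¹ • a)
  have n2 := hn.nonneg (sb a e)
  have n3 := hn.nonneg (γ⁻¹ • a')
  have n4 := hn.nonneg (sb a' e)
  have hR0 : 0 ≤ R := by linarith only [hR]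
  have l1 : n (γ⁻¹ • a) ≤ D := (hn.le _ 1 zero_le_one fun b => by
    rw [one_mul, real_inner_comm]
    exact Real.abs_le_sqrt (by nlinarith only [])).trans_eq
    (mul_one D)
  have l3 : n (γ⁻¹ • a') ≤ D := (hn.le _ 1 zero_le_one fun b => by
    rw [one_mul, real_inner_comm]
    exact Real.abs_le_sqrt (by nlinarith only [])).trans_eq
    (mul_one D)
  have l2 : ∀ x : V, ‖x‖ ≤ R → n (sb x e) ≤ D * R ^ 3 := fun x hx =>
    hn.le _ _ (by positivity) fun b => by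
      refine (abs_real_inner_le_norm _ _).trans ?_
      rw [mul_comm]
      have g1 : ‖sb x e‖ ≤ R ^ 3 := (norm_sb_le x e).trans (by
        calc ‖x‖ ^ 2 * ‖e‖ ≤ R ^ 2 * R := by gcongr
          _ = _ := by ring)
      have g2 : ‖b‖ ≤ Lq (γ⁻¹ • a) (γ⁻¹ • a') b := Real.le_sqrt_of_sq_le (by
        nlinarith only [])
      gcongr
  have e2 : (n (γ⁻¹ • a) * n (sb a e) * n (γ⁻¹ • a') * n (sb a' e)) ^ (2 * M) =
      ((n (γ⁻¹ • a) * n (sb a e)) ^ 2) ^ M * (n (γ⁻¹ • a') * n (sb a' e)) ^ (2 * M) := by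
    rw [← pow_mul, ← mul_pow]; congr 1; ring
  rw [e2] at h1
  have l4 := l2 a' ha'
  refine ⟨h1.trans ?_, fun T Λ hΛ hT hτ hτ' hφ => ?_⟩
  · gcongr
    have l5 := l2 a ha
    have : R ^ 6 ≤ R ^ 8 := pow_le_pow_right₀ hR (by norm_num)
    calc (n (γ⁻¹ • a) * n (sb a e)) ^ 2 ≤ (D * (D * R ^ 3)) ^ 2 := by gcongr
      _ = 1 * D ^ 4 * R ^ 6 := by ring
      _ ≤ _ := by gcongr; norm_num
  · have g := geomL hn hD0 hR ha ha' he hγ hγ1 hΛ hT hτ hτ' hφ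
    calc _ ≤ C * (((n (γ⁻¹ • a) * n (sb a e)) ^ 2) ^ M *
          (n (γ⁻¹ • a') * n (sb a' e)) ^ (2 * M)) * Λ ^ M := by gcongr
      _ = C * (((n (γ⁻¹ • a) * n (sb a e)) ^ 2 * Λ) ^ M *
          (n (γ⁻¹ • a') * n (sb a' e)) ^ (2 * M)) := by rw [mul_pow _ Λ]; ring
      _ ≤ _ := by gcongr

end Pool.Agent.MP_83cc0d_an.Cd

end

-- part H4
section

namespace Pool.Agent.MP_83cc0d_an.Cd

open MeasureTheory Complex Filter Topology Metric Module Set
open scoped ENNReal InnerProductSpace ComplexConjugate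

variable {V : Type} [NormedAddCommGroup V] [InnerProductSpace ℝ V] [FiniteDimensional ℝ V]
  [MeasurableSpace V] [BorelSpace V]

lemma h4_int (M : ℕ) : IntegrableOn (fun x : ℝ => x ^ M * Real.exp (-x)) (Ioi 0) := by
  refine (Real.GammaIntegral_convergent (s := (M : ℝ) + 1) (by positivity)).congr_fun
    (fun x _ => ?_) measurableSet_Ioi
  simp only [add_sub_cancel_right, Real.rpow_natCast]
  ring

lemma h4_int' (M : ℕ) : IntegrableOn (fun x : ℝ => (1 + x ^ M) * Real.exp (-x)) (Ioi 0) := by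
  refine ((h4_int 0).add (h4_int M)).congr (Eventually.of_forall fun x => ?_)
  simp only [Pi.add_apply]
  ring

lemma h4_pt {M : ℕ} {x x' Λ J C : ℝ} (hx : 0 < x) (hx' : 0 < x') (hΛ : 0 < Λ) (hJ : 0 ≤ J)
    (h1 : J ≤ C) (h2 : 1 / Λ ≤ x → 1 / Λ ≤ x' → J * Λ ^ M ≤ C) :
    x ^ M * x' ^ M * J * Λ ^ M ≤ C * ((1 + x ^ M) * (1 + x' ^ M)) := by
  have hC : 0 ≤ C := hJ.trans h1
  have p1 : 0 < x ^ M := pow_pos hx M
  have p2 : 0 < x' ^ M := pow_pos hx' M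
  have key : ∀ y : ℝ, 0 < y → y < 1 / Λ → y ^ M * Λ ^ M ≤ 1 := fun y hy h => by
    rw [← mul_pow]
    exact pow_le_one₀ (by positivity) ((lt_div_iff₀ hΛ).1 h).le
  rcases lt_or_ge x (1 / Λ) with h | h
  · calc _ = x ^ M * Λ ^ M * (J * x' ^ M) := by ring
      _ ≤ 1 * (C * x' ^ M) := by gcongr; exact key x hx h
      _ ≤ _ := by rw [one_mul]; gcongr; nlinarith only [p1, p2]
  rcases lt_or_ge x' (1 / Λ) with h' | h'
  · calc _ = x' ^ M * Λ ^ M * (J * x ^ M) := by ring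
      _ ≤ 1 * (C * x ^ M) := by gcongr; exact key x' hx' h'
      _ ≤ _ := by rw [one_mul]; gcongr; nlinarith only [p1, p2]
  calc _ = J * Λ ^ M * (x ^ M * x' ^ M) := by ring
    _ ≤ C * (x ^ M * x' ^ M) := by gcongr; exact h2 h h'
    _ ≤ _ := by gcongr <;> linarith only []

/-- The frequency factor. -/
noncomputable def h4_g (M : ℕ) (s : ℝ) (p : ℝ × ℝ) : ℂ :=
  ((p.1 ^ M * Real.exp (-p.1) * (p.2 ^ M * Real.exp (-p.2)) : ℝ) : ℂ) *
    cexp (I * (((p.2 - p.1) * s : ℝ) : ℂ))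

lemma h4_rho (M : ℕ) (u u' s T : ℝ) :
    (M.factorial : ℂ) ^ 2 * (rho M ((T * (u - s) : ℝ) : ℂ) * conj (rho M ((T * (u' - s) : ℝ) : ℂ))) =
      ∫ p : ℝ × ℝ, h4_g M (T * s) p * cexp (I * ((T * p.1 * u - T * p.2 * u' : ℝ) : ℂ))
        ∂((volume.restrict (Ioi 0)).prod (volume.restrict (Ioi 0))) := by
  have h2 := congrArg conj (rho_rep M (T * (u' - s)))
  rw [map_mul, conj_natCast, ← integral_conj] at h2
  rw [show ∀ a b c : ℂ, a ^ 2 * (b * c) = (a * b) * (a * c) from fun a b c => by ring,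
    rho_rep, h2, ← integral_prod_mul]
  refine integral_congr_ae (Eventually.of_forall fun p => ?_)
  simp only [h4_g, map_mul, conj_ofReal, ← exp_conj, conj_I]
  rw [mul_mul_mul_comm, ← Complex.exp_add, mul_assoc _ (cexp _) (cexp _), ← Complex.exp_add]
  congr 1
  · push_cast; ring
  · congr 1; push_cast; ring

lemma h4_rep (M : ℕ) {R : ℝ} (γ T t : ℝ) {e a a' : V} (he : ‖e‖ ≤ R) (ha : ‖a‖ ≤ R)
    (ha' : ‖a'‖ ≤ R) : (M.factorial : ℂ) ^ 2 * II M γ e T t a a' = (T : ℂ) ^ 2 *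
      ∫ p : ℝ × ℝ, h4_g M (T * t) p * JJ M γ e (T * p.1) (T * p.2) a a'
        ∂((volume.restrict (Ioi 0)).prod (volume.restrict (Ioi 0))) := by
  set ν : Measure (ℝ × ℝ) := (volume.restrict (Ioi 0)).prod (volume.restrict (Ioi 0))
  set w : V → ℝ := fun b => Wt M γ e a b * Wt M γ e a' b * Real.exp (-‖b‖ ^ 2) with hw
  have cw : Continuous w :=
    (((cont_Wt M γ e).comp (Continuous.prodMk_right a)).mul
      ((cont_Wt M γ e).comp (Continuous.prodMk_right a'))).mul (by fun_prop)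
  have w0 : ∀ b, 0 ≤ w b := fun b =>
    mul_nonneg (mul_nonneg (Wt_nonneg ..) (Wt_nonneg ..)) (Real.exp_pos _).le
  have iw : Integrable w := by
    refine ((integrable_pow_gauss (V := V) (2 * M)).const_mul
      ((M.factorial * R ^ (6 * M)) ^ 2)).mono' cw.aestronglyMeasurable
      (Eventually.of_forall fun b => ?_)
    rw [Real.norm_of_nonneg (w0 b), ← mul_assoc]
    refine mul_le_mul_of_nonneg_right ?_ (Real.exp_pos _).le
    refine (mul_le_mul (Wt_le M γ he ha b) (Wt_le M γ he ha' b) (Wt_nonneg ..)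
      ((Wt_nonneg ..).trans (Wt_le M γ he ha b))).trans_eq (by ring)
  set F : V → ℝ × ℝ → ℂ := fun b p => h4_g M (T * t) p *
    (cexp (I * ((T * p.1 * ph a b - T * p.2 * ph a' b : ℝ) : ℂ)) * ((w b : ℝ) : ℂ)) with hF
  have iF : Integrable (Function.uncurry F) (volume.prod ν) := by
    refine (iw.mul_prod ((h4_int M).mul_prod (h4_int M))).mono
      (Continuous.aestronglyMeasurable ?_) (Eventually.of_forall fun z => le_of_eq ?_)
    · simp only [hF]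
      unfold Function.uncurry h4_g ph
      fun_prop
    · simp only [hF, Function.uncurry, h4_g, norm_mul, norm_exp_I_mul_ofReal, Complex.norm_real]
      ring
  have e1 : ∀ b, (M.factorial : ℂ) ^ 2 * (Ker M γ e T t a b * conj (Ker M γ e T t a' b) *
      ((Real.exp (-‖b‖ ^ 2) : ℝ) : ℂ)) = (T : ℂ) ^ 2 * ∫ p, F b p ∂ν := fun b => by
    simp only [hF, ← mul_assoc (h4_g _ _ _)]
    rw [integral_mul_const, ← h4_rho]
    simp only [Ker, map_mul, conj_ofReal, hw, ofReal_mul (Wt _ _ _ _ _ * _), ofReal_mul (Wt _ _ _ _ _)]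
    ring
  rw [II, ← integral_const_mul]
  simp only [e1]
  rw [integral_const_mul, integral_integral_swap iF]
  congr 1
  refine integral_congr_ae (Eventually.of_forall fun p => ?_)
  simp only [hF]
  rw [integral_const_mul]
  rfl

/-- `rho_rep` twice and Fubini (`Wt_le`, `integrable_pow_gauss`):
`(M!)² II = T² ∬_{x,x' > 0} x^M e^(-x) x'^M e^(-x') cexp (-I (x - x') T t) JJ (T x) (T x')`.
Pointwise `x^M x'^M ‖JJ‖ Λ^M ≤ C (1 + x^M) (1 + x'^M)`: if `x, x' ≥ 1/Λ` use the second part of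
`kerJ`, otherwise the first part and `(x Λ)^M ≤ 1`. -/
lemma kerFar (M : ℕ) {R : ℝ} (hR : 1 ≤ R) : ∃ C : ℝ, 0 ≤ C ∧ ∀ (γ T Λ t : ℝ) (e a a' : V), 0 < γ →
    γ ≤ 1 → ‖e‖ ≤ R → ‖a‖ ≤ R → ‖a'‖ ≤ R → 1 ≤ Λ → Λ ^ 2 ≤ T * γ ^ 2 →
    Λ ^ 2 / (T * γ) ≤ √(ph a a') → ‖II M γ e T t a a'‖ ≤ C * (T ^ 2 / Λ ^ M) := by
  obtain ⟨C, hC, h⟩ := kerJ (V := V) M hR
  set K : ℝ := ∫ x in Ioi (0 : ℝ), (1 + x ^ M) * Real.exp (-x) with hK
  refine ⟨C * (K * K), mul_nonneg hC (mul_self_nonneg K), ?_⟩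
  intro γ T Λ t e a a' hγ hγ1 he ha ha' hΛ hT hφ
  have hΛ0 : 0 < Λ := one_pos.trans_le hΛ
  have hT0 : 0 < T := (mul_pos_iff_of_pos_right (pow_pos hγ 2)).1 ((pow_pos hΛ0 2).trans_le hT)
  have hb : ‖∫ p : ℝ × ℝ, h4_g M (T * t) p * JJ M γ e (T * p.1) (T * p.2) a a'
      ∂((volume.restrict (Ioi 0)).prod (volume.restrict (Ioi 0)))‖ ≤ C / Λ ^ M * (K * K) := by
    rw [hK, ← integral_prod_mul, ← integral_const_mul]
    refine norm_integral_le_of_norm_le (((h4_int' M).mul_prod (h4_int' M)).const_mul _) ?_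
    filter_upwards [Measure.quasiMeasurePreserving_fst.ae (ae_restrict_mem measurableSet_Ioi),
      Measure.quasiMeasurePreserving_snd.ae (ae_restrict_mem measurableSet_Ioi)] with p h1 h2
    have h1 : 0 < p.1 := h1
    have h2 : 0 < p.2 := h2
    obtain ⟨j1, j2⟩ := h γ (T * p.1) (T * p.2) e a a' hγ hγ1 he ha ha'
    have hp := h4_pt (M := M) h1 h2 hΛ0 (norm_nonneg _) j1 fun k1 k2 => j2 T Λ hΛ hT
      (by rw [div_eq_mul_one_div]; gcongr) (by rw [div_eq_mul_one_div]; gcongr) hφ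
    simp only [h4_g, norm_mul, norm_exp_I_mul_ofReal, Complex.norm_real, mul_one]
    rw [Real.norm_of_nonneg (pow_pos h1 M).le, Real.norm_of_nonneg (pow_pos h2 M).le,
      Real.norm_of_nonneg (Real.exp_pos _).le, Real.norm_of_nonneg (Real.exp_pos _).le,
      div_mul_eq_mul_div, le_div_iff₀ (pow_pos hΛ0 M)]
    have := mul_le_mul_of_nonneg_right hp
      (mul_pos (Real.exp_pos (-p.1)) (Real.exp_pos (-p.2))).le
    linarith only [this]
  have hn := congrArg norm (h4_rep M γ T t he ha ha')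
  rw [norm_mul, norm_mul, norm_pow, norm_pow, Complex.norm_natCast, Complex.norm_real,
    Real.norm_of_nonneg hT0.le] at hn
  have hf : (1 : ℝ) ≤ (M.factorial : ℝ) ^ 2 :=
    one_le_pow₀ (by exact_mod_cast M.factorial_pos)
  calc _ ≤ (M.factorial : ℝ) ^ 2 * ‖II M γ e T t a a'‖ := le_mul_of_one_le_left (norm_nonneg _) hf
    _ ≤ T ^ 2 * (C / Λ ^ M * (K * K)) := by rw [hn]; gcongr
    _ = _ := by ring

end Pool.Agent.MP_83cc0d_an.Cd

end

-- part H5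
section

namespace Pool.Agent.MP_83cc0d_an.Cd

open MeasureTheory Complex Filter Topology Metric Module Set
open scoped ENNReal InnerProductSpace ComplexConjugate

variable {V : Type} [NormedAddCommGroup V] [InnerProductSpace ℝ V] [FiniteDimensional ℝ V]
  [MeasurableSpace V] [BorelSpace V]

lemma h5_sig {a0 T t p : ℝ} (ha : 0 < a0) (hT : 0 < T) (ht : a0 ≤ t) (hp : 0 ≤ p) :
    ∫⁻ σ in Icc (1 : ℝ) 2, ENNReal.ofReal (T * (1 + (T * (σ ^ 2 * p - t)) ^ 2)⁻¹) ≤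
      ENNReal.ofReal (16 / a0) := by
  rcases le_or_gt p (a0 / 8) with h | h
  · calc _ ≤ ∫⁻ _σ in Icc (1 : ℝ) 2, ENNReal.ofReal (16 / a0) := by
          refine setLIntegral_mono' measurableSet_Icc fun σ hσ => ENNReal.ofReal_le_ofReal ?_
          have h4 : σ ^ 2 ≤ 4 := by nlinarith only [hσ.1, hσ.2]
          have h5 : σ ^ 2 * p ≤ a0 / 2 := by nlinarith only [ha, h, h4]
          have h6 : a0 / 2 ≤ t - σ ^ 2 * p := by linarith
          rw [← div_eq_mul_inv, div_le_div_iff₀ (by positivity) ha]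
          have h7 : T * (a0 / 2) ≤ T * (t - σ ^ 2 * p) := by gcongr
          nlinarith only [h7]
      _ = _ := by
          rw [setLIntegral_const, Real.volume_Icc]
          norm_num
  · have hp0 : 0 < p := by linarith only [ha, h]
    set D : ℝ → ℝ := fun σ => 1 / (1 + (T * (σ ^ 2 * p - t)) ^ 2) * (T * (2 * σ * p)) with hD
    have hc : Continuous D := by
      refine Continuous.mul (Continuous.div continuous_const (by fun_prop) fun σ => ?_)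
        (by fun_prop)
      positivity
    have hd : ∀ σ : ℝ, HasDerivAt (fun σ : ℝ => Real.arctan (T * (σ ^ 2 * p - t))) (D σ) σ := by
      intro σ
      refine HasDerivAt.arctan ?_
      have := (((hasDerivAt_pow 2 σ).mul_const p).sub_const t).const_mul T
      refine this.congr_deriv ?_
      norm_num
    have hI : ∫ σ in Icc (1 : ℝ) 2, D σ ≤ 4 := by
      rw [integral_Icc_eq_integral_Ioc, ← intervalIntegral.integral_of_le (by norm_num),
        intervalIntegral.integral_eq_sub_of_hasDerivAt (fun σ _ => hd σ)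
          (hc.intervalIntegrable _ _)]
      have h1 := Real.arctan_lt_pi_div_two (T * ((2 : ℝ) ^ 2 * p - t))
      have h2 := Real.neg_pi_div_two_lt_arctan (T * ((1 : ℝ) ^ 2 * p - t))
      have h3 := Real.pi_le_four
      generalize Real.arctan (T * ((2 : ℝ) ^ 2 * p - t)) = x at *
      generalize Real.arctan (T * ((1 : ℝ) ^ 2 * p - t)) = y at *
      linarith only [h3, h1, h2]
    calc _ ≤ ∫⁻ σ in Icc (1 : ℝ) 2, ENNReal.ofReal (4 / a0 * D σ) := by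
          refine setLIntegral_mono' measurableSet_Icc fun σ hσ => ENNReal.ofReal_le_ofReal ?_
          have h1 : 1 ≤ 4 / a0 * (2 * σ * p) := by
            rw [div_mul_eq_mul_div, le_div_iff₀ ha]
            nlinarith only [hσ.1, hp, h]
          calc T * (1 + (T * (σ ^ 2 * p - t)) ^ 2)⁻¹
              = T * (1 + (T * (σ ^ 2 * p - t)) ^ 2)⁻¹ * 1 := (mul_one _).symm
            _ ≤ T * (1 + (T * (σ ^ 2 * p - t)) ^ 2)⁻¹ * (4 / a0 * (2 * σ * p)) := by gcongr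
            _ = _ := by simp only [hD, one_div]; ring
      _ = ENNReal.ofReal (∫ σ in Icc (1 : ℝ) 2, 4 / a0 * D σ) := by
          refine (ofReal_integral_eq_lintegral_ofReal
            ((continuous_const.mul hc).integrableOn_Icc) ?_).symm
          refine (ae_restrict_iff' measurableSet_Icc).2 (Eventually.of_forall fun σ hσ => ?_)
          have : 0 ≤ σ := by linarith only [hσ.1]
          change 0 ≤ 4 / a0 * (1 / (1 + (T * (σ ^ 2 * p - t)) ^ 2) * (T * (2 * σ * p)))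
          positivity
      _ ≤ _ := by
          refine ENNReal.ofReal_le_ofReal ?_
          rw [integral_const_mul]
          calc 4 / a0 * ∫ σ in Icc (1 : ℝ) 2, D σ ≤ 4 / a0 * 4 := by gcongr
            _ = _ := by ring

lemma h5_scale (F : V → ℝ≥0∞) (hF : Measurable F) {σ : ℝ} (h1 : 1 ≤ σ) (h2 : σ ≤ 2) :
    ∫⁻ b, F b ≤ ENNReal.ofReal (2 ^ finrank ℝ V) * ∫⁻ b, F (σ • b) := by
  have h0 : σ ≠ 0 := by positivity
  have hm : Measurable fun b : V => σ • b := by fun_prop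
  rw [← lintegral_map hF hm, Measure.map_addHaar_smul volume h0, lintegral_smul_measure,
    smul_eq_mul, ← mul_assoc, ← ENNReal.ofReal_mul (by positivity)]
  refine le_mul_of_one_le_left' ?_
  rw [← ENNReal.ofReal_one]
  refine ENNReal.ofReal_le_ofReal ?_
  rw [abs_of_nonneg (by positivity), ← div_eq_mul_inv, le_div_iff₀ (by positivity), one_mul]
  gcongr

/-- Dilation average. For `σ ∈ [1, 2]`, `∫ F b = σ^n ∫ F (σ • b)` and `ph a (σ • b) = σ² ph a b`;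
integrate over `σ`. With `p = ph a b`: if `p ≤ a0/8` then `T/(1 + T²(σ² p - t)²) ≤ 1/t`; otherwise
`∫_1^2 T/(1 + T²(σ² p - t)²) dσ ≤ π/(2p)` (derivative of `arctan (T (σ² p - t))`). -/
lemma shell {a0 : ℝ} (ha : 0 < a0) : ∃ C : ℝ, 0 ≤ C ∧ ∀ (T t : ℝ) (a : V), 0 < T → a0 ≤ t →
    ∫⁻ b : V, ENNReal.ofReal (T * (1 + (T * (ph a b - t)) ^ 2)⁻¹ * Real.exp (-‖b‖ ^ 2 / 2)) ≤
      ENNReal.ofReal C := by
  have hG : Integrable fun b : V => Real.exp (-‖b‖ ^ 2 / 2) := by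
    have h := (GaussianFourier.integrable_cexp_neg_mul_sq_norm_add (V := V) (b := 1 / 2)
      (by norm_num) 0 0).norm
    refine h.congr (Eventually.of_forall fun b => ?_)
    simp only []
    rw [zero_mul, add_zero,
      show -(1 / 2 : ℂ) * (‖b‖ : ℂ) ^ 2 = ((-‖b‖ ^ 2 / 2 : ℝ) : ℂ) by push_cast; ring,
      norm_exp_ofReal]
  have hG0 : 0 ≤ ∫ b : V, Real.exp (-‖b‖ ^ 2 / 2) := integral_nonneg fun b => by positivity
  refine ⟨2 ^ finrank ℝ V * (16 / a0 * ∫ b : V, Real.exp (-‖b‖ ^ 2 / 2)), by positivity,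
    fun T t a hT ht => ?_⟩
  have hph : Continuous fun b : V => ph a b := by unfold ph; fun_prop
  set F : V → ℝ≥0∞ := fun b =>
    ENNReal.ofReal (T * (1 + (T * (ph a b - t)) ^ 2)⁻¹ * Real.exp (-‖b‖ ^ 2 / 2)) with hFd
  have hF : Measurable F := by
    have := hph.measurable
    simp only [hFd]
    fun_prop
  set g : ℝ → V → ℝ≥0∞ := fun σ b =>
    ENNReal.ofReal (T * (1 + (T * (σ ^ 2 * ph a b - t)) ^ 2)⁻¹) *
      ENNReal.ofReal (Real.exp (-‖b‖ ^ 2 / 2)) with hg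
  have hgm : Measurable (Function.uncurry g) := by
    have := hph.measurable
    simp only [hg, Function.uncurry_def]
    fun_prop
  calc ∫⁻ b, F b = ∫⁻ _σ in Icc (1 : ℝ) 2, ∫⁻ b, F b := by
        rw [setLIntegral_const, Real.volume_Icc]
        norm_num
    _ ≤ ∫⁻ σ in Icc (1 : ℝ) 2, ENNReal.ofReal (2 ^ finrank ℝ V) * ∫⁻ b, g σ b := by
        refine setLIntegral_mono' measurableSet_Icc fun σ hσ =>
          (h5_scale F hF hσ.1 hσ.2).trans ?_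
        gcongr with b
        simp only [hFd, hg]
        rw [← ENNReal.ofReal_mul (by positivity), ph_comm a, ph_smul, ph_comm b]
        refine ENNReal.ofReal_le_ofReal ?_
        have h1 : ‖b‖ ≤ ‖σ • b‖ := by
          rw [norm_smul, Real.norm_of_nonneg (by linarith only [hσ.1])]
          nlinarith only [norm_nonneg b, hσ.1]
        have h2 : -‖σ • b‖ ^ 2 / 2 ≤ -‖b‖ ^ 2 / 2 := by nlinarith only [norm_nonneg b, h1]
        gcongr
    _ = ENNReal.ofReal (2 ^ finrank ℝ V) * ∫⁻ b, ∫⁻ σ in Icc (1 : ℝ) 2, g σ b := by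
        rw [lintegral_const_mul' _ _ ENNReal.ofReal_ne_top,
          lintegral_lintegral_swap hgm.aemeasurable]
    _ ≤ ENNReal.ofReal (2 ^ finrank ℝ V) *
          ∫⁻ b : V, ENNReal.ofReal (16 / a0) * ENNReal.ofReal (Real.exp (-‖b‖ ^ 2 / 2)) := by
        gcongr with b
        simp only [hg]
        rw [lintegral_mul_const' _ _ ENNReal.ofReal_ne_top]
        gcongr
        exact h5_sig ha hT ht (ph_nonneg a b)
    _ = _ := by
        rw [lintegral_const_mul' _ _ ENNReal.ofReal_ne_top,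
          ← ofReal_integral_eq_lintegral_ofReal hG (Eventually.of_forall fun b => by positivity),
          ← ENNReal.ofReal_mul (by positivity), ← ENNReal.ofReal_mul (by positivity)]

/-- `norm_Ker`, `norm_rho_le_one` for `a'`, `norm_rho_le_inv` for `a`, `Wt_le`,
`(‖b‖²)^(2M) exp (-‖b‖²/2) ≤ C`, and `shell`. -/
lemma kerDiag {M : ℕ} (hM : 1 ≤ M) {R a0 : ℝ} (hR : 1 ≤ R) (ha : 0 < a0) : ∃ C : ℝ, 0 ≤ C ∧
    ∀ (γ T t : ℝ) (e a a' : V), ‖e‖ ≤ R → ‖a‖ ≤ R → ‖a'‖ ≤ R → 0 < T → a0 ≤ t →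
      ‖II M γ e T t a a'‖ ≤ C * T := by
  obtain ⟨C, hC, h⟩ := shell (V := V) ha
  set K : ℝ := (M.factorial * R ^ (6 * M)) ^ 2 * (2 ^ (2 * M) * (2 * M).factorial) with hK
  have hK0 : 0 ≤ K := by positivity
  refine ⟨K * C, by positivity, fun γ T t e a a' he h1 h2 hT ht => ?_⟩
  refine (norm_integral_le_lintegral_norm _).trans ?_
  refine ENNReal.toReal_le_of_le_ofReal (by positivity) ?_
  calc _ ≤ ∫⁻ b : V, ENNReal.ofReal (K * T) * ENNReal.ofReal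
          (T * (1 + (T * (ph a b - t)) ^ 2)⁻¹ * Real.exp (-‖b‖ ^ 2 / 2)) := by
        refine lintegral_mono fun b => ?_
        rw [← ENNReal.ofReal_mul (by positivity)]
        refine ENNReal.ofReal_le_ofReal ?_
        rw [norm_mul, norm_mul, Complex.norm_conj, norm_Ker M γ e hT.le, norm_Ker M γ e hT.le,
          Complex.norm_real, Real.norm_of_nonneg (Real.exp_pos _).le]
        have w1 := Wt_le M γ he h1 b
        have w2 := Wt_le M γ he h2 b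
        have z1 := Wt_nonneg M γ e a b
        have z2 := Wt_nonneg M γ e a' b
        have r1 := norm_rho_le_inv hM (T * (ph a b - t))
        have r2 := norm_rho_le_one M (T * (ph a' b - t))
        have e1 := Real.pow_div_factorial_le_exp (‖b‖ ^ 2 / 2) (by positivity) (2 * M)
        rw [div_le_iff₀ (by positivity), div_pow, div_le_iff₀ (by positivity)] at e1
        have e2 : Real.exp (‖b‖ ^ 2 / 2) * Real.exp (-‖b‖ ^ 2) = Real.exp (-‖b‖ ^ 2 / 2) := by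
          rw [← Real.exp_add]; congr 1; ring
        calc _ ≤ T * (1 + (T * (ph a b - t)) ^ 2)⁻¹ *
              (M.factorial * R ^ (6 * M) * (‖b‖ ^ 2) ^ M) *
              (T * 1 * (M.factorial * R ^ (6 * M) * (‖b‖ ^ 2) ^ M)) * Real.exp (-‖b‖ ^ 2) := by
              gcongr
          _ = (M.factorial * R ^ (6 * M)) ^ 2 * (‖b‖ ^ 2) ^ (2 * M) * T *
              (T * (1 + (T * (ph a b - t)) ^ 2)⁻¹ * Real.exp (-‖b‖ ^ 2)) := by ring
          _ ≤ (M.factorial * R ^ (6 * M)) ^ 2 *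
              (Real.exp (‖b‖ ^ 2 / 2) * (2 * M).factorial * 2 ^ (2 * M)) * T *
              (T * (1 + (T * (ph a b - t)) ^ 2)⁻¹ * Real.exp (-‖b‖ ^ 2)) := by gcongr
          _ = _ := by rw [← e2, hK]; ring
    _ ≤ ENNReal.ofReal (K * T) * ENNReal.ofReal C := by
        rw [lintegral_const_mul' _ _ ENNReal.ofReal_ne_top]
        gcongr
        exact h T t a hT ht
    _ = _ := by
        rw [← ENNReal.ofReal_mul (by positivity)]
        congr 1
        ring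

end Pool.Agent.MP_83cc0d_an.Cd

end

-- part H6
section

namespace Pool.Agent.MP_83cc0d_an.Cd

open MeasureTheory Complex Filter Topology Metric Module Set
open scoped ENNReal InnerProductSpace ComplexConjugate

variable {V : Type} [NormedAddCommGroup V] [InnerProductSpace ℝ V] [FiniteDimensional ℝ V]
  [MeasurableSpace V] [BorelSpace V]

omit [FiniteDimensional ℝ V] [MeasurableSpace V] [BorelSpace V] in
lemma h6_cross (a a' b : V) :
    |‖a‖ ^ 2 * ph a' b - ‖a'‖ ^ 2 * ph a b| ≤ 2 * ‖a‖ * ‖a'‖ * √(ph a a') * ‖b‖ ^ 2 := by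
  have h1 : ‖a‖ ^ 2 * ph a' b - ‖a'‖ ^ 2 * ph a b =
      ⟪‖a'‖ • a - ‖a‖ • a', b⟫_ℝ * ⟪‖a'‖ • a + ‖a‖ • a', b⟫_ℝ := by
    simp only [ph, inner_sub_left, inner_add_left, real_inner_smul_left]
    ring
  have h2 : ‖‖a'‖ • a - ‖a‖ • a'‖ * ‖‖a'‖ • a + ‖a‖ • a'‖ = 2 * ‖a‖ * ‖a'‖ * √(ph a a') := by
    refine (pow_left_inj₀ (by positivity) (by positivity) two_ne_zero).1 ?_
    rw [delta_sq, ph_smul, ph_comm a, ph_smul, ph_comm a', norm_smul, norm_smul, norm_norm,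
      norm_norm, mul_pow _ (√(ph a a')), Real.sq_sqrt (ph_nonneg _ _)]
    ring
  rw [h1, abs_mul, ← h2]
  calc _ ≤ (‖‖a'‖ • a - ‖a‖ • a'‖ * ‖b‖) * (‖‖a'‖ • a + ‖a‖ • a'‖ * ‖b‖) :=
        mul_le_mul (abs_real_inner_le_norm _ _) (abs_real_inner_le_norm _ _) (abs_nonneg _)
          (by positivity)
    _ = _ := by ring

omit [FiniteDimensional ℝ V] [MeasurableSpace V] [BorelSpace V] in
lemma h6_delta (a a' : V) : ‖a - a'‖ * ‖a + a'‖ ≤ |‖a‖ ^ 2 - ‖a'‖ ^ 2| + 2 * √(ph a a') := by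
  refine (pow_le_pow_iff_left₀ (by positivity) (by positivity) two_ne_zero).1 ?_
  rw [delta_sq, add_sq, sq_abs, mul_pow, Real.sq_sqrt (ph_nonneg _ _)]
  have : 0 ≤ 2 * |‖a‖ ^ 2 - ‖a'‖ ^ 2| * (2 * √(ph a a')) := by positivity
  linarith

/-- Two thin shells with close axes meet only if the points are close. With `ℓ = T γ`:
`Λ/T ≤ 1/Λ ≤ a0/2`, so `ph a b ≥ a0/2` and `‖a‖ Λ ≥ √(a0/2)`;
`|‖a‖² ph a' b - ‖a'‖² ph a b| = |⟪x - y, b⟫ ⟪x + y, b⟫| ≤ 2 ‖b‖² ‖a‖ ‖a'‖ √(ph a a')` for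
`x = ‖a'‖ • a`, `y = ‖a‖ • a'` (`delta_sq`, `ph_smul`); hence `|‖a‖² - ‖a'‖²| ≤ 4R²Λ⁴/(a0 ℓ)`;
`delta_sq`, `min_le_delta`. -/
lemma near_geom {R a0 : ℝ} (hR : 1 ≤ R) (ha : 0 < a0) : ∃ C1 : ℝ, 0 < C1 ∧
    ∀ (γ T Λ t : ℝ) (a a' b : V), 0 < γ → γ ≤ 1 → ‖a‖ ≤ R → ‖a'‖ ≤ R → 1 ≤ Λ → 2 ≤ a0 * Λ →
      Λ ^ 2 ≤ T * γ ^ 2 → a0 ≤ t → √(ph a a') ≤ Λ ^ 2 / (T * γ) → ‖b‖ ≤ Λ →
      |T * (ph a b - t)| ≤ Λ → |T * (ph a' b - t)| ≤ Λ →
      min ‖a - a'‖ ‖a + a'‖ ≤ C1 * Λ ^ 5 / (T * γ) := by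
  have hs : 0 < √(a0 / 2) := Real.sqrt_pos.2 (by positivity)
  refine ⟨(8 * R ^ 2 / a0 + 2) / √(a0 / 2), by positivity, ?_⟩
  intro γ T Λ t a a' b hγ hγ1 haR haR' hΛ hΛa hT ht hφ hb h1 h2
  have hΛ0 : 0 < Λ := by linarith only [hΛ]
  have hT0 : 0 < T := (mul_pos_iff_of_pos_right (by positivity : 0 < γ ^ 2)).1
    ((by positivity : 0 < Λ ^ 2).trans_le hT)
  have hl : T * γ ≤ T := mul_le_of_le_one_right hT0.le hγ1
  have hT2 : Λ ^ 2 ≤ T := hT.trans (mul_le_of_le_one_right hT0.le (pow_le_one₀ hγ.le hγ1))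
  set u := Λ ^ 4 / (T * γ) with hu
  have hu0 : 0 < u := by positivity
  have e1 : ∀ p : ℝ, |T * (p - t)| ≤ Λ → |p - t| ≤ Λ / T := fun p hp => by
    rwa [abs_mul, abs_of_pos hT0, mul_comm, ← le_div_iff₀ hT0] at hp
  have e2 : Λ / T ≤ a0 / 2 := by
    rw [div_le_div_iff₀ hT0 two_pos]
    nlinarith only [hΛ, hΛa, hT2]
  have e3 : Λ / T ≤ u := by
    rw [hu]
    exact div_le_div₀ (by positivity) (le_self_pow₀ hΛ (by norm_num)) (by positivity) hl
  have e4 : Λ ^ 2 / (T * γ) * Λ ^ 2 = u := by rw [hu]; ring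
  have e5 : √(ph a a') ≤ u := by
    rw [← e4]
    exact hφ.trans (le_mul_of_one_le_right (by positivity) (one_le_pow₀ hΛ))
  have p1 := abs_le.1 (e1 _ h1)
  have p2 := abs_le.1 (e1 _ h2)
  have hp : a0 / 2 ≤ ph a b := by linarith only [p1.1, ht, e2]
  have c1 : |‖a‖ ^ 2 * ph a' b - ‖a'‖ ^ 2 * ph a b| ≤ 2 * R ^ 2 * u := by
    refine (h6_cross a a' b).trans ?_
    calc _ ≤ 2 * R * R * (Λ ^ 2 / (T * γ)) * Λ ^ 2 := by gcongr
      _ = _ := by rw [← e4]; ring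
  have c2 : |‖a‖ ^ 2 * (ph a b - ph a' b)| ≤ R ^ 2 * (2 * u) := by
    rw [abs_mul, abs_of_nonneg (sq_nonneg _)]
    have : |ph a b - ph a' b| ≤ 2 * u := abs_le.2 ⟨by linarith only [p1.1, p2.2, e3], by linarith only [p1.2, p2.1, e3]⟩
    gcongr
  have c3 : |‖a‖ ^ 2 - ‖a'‖ ^ 2| * (a0 / 2) ≤ 4 * R ^ 2 * u := by
    calc _ ≤ |‖a‖ ^ 2 - ‖a'‖ ^ 2| * ph a b := by gcongr
      _ = |‖a‖ ^ 2 * (ph a b - ph a' b) + (‖a‖ ^ 2 * ph a' b - ‖a'‖ ^ 2 * ph a b)| := by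
          rw [← abs_of_nonneg (ph_nonneg a b), ← abs_mul, abs_of_nonneg (ph_nonneg a b)]
          congr 1
          ring
      _ ≤ _ := (abs_add_le _ _).trans (by linarith only [c1, c2])
  have c4 : |‖a‖ ^ 2 - ‖a'‖ ^ 2| ≤ 8 * R ^ 2 / a0 * u := by
    rw [div_mul_eq_mul_div, le_div_iff₀ ha]
    linarith only [c3]
  have c5 : ‖a‖ * min ‖a - a'‖ ‖a + a'‖ ≤ (8 * R ^ 2 / a0 + 2) * u := by
    refine ((min_le_delta a a').trans (h6_delta a a')).trans ?_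
    linarith only [e5, c4]
  have c6 : √(a0 / 2) ≤ ‖a‖ * Λ := by
    rw [Real.sqrt_le_left (by positivity), mul_pow]
    exact hp.trans ((ph_le a b).trans (by gcongr))
  have hm : 0 ≤ min ‖a - a'‖ ‖a + a'‖ := by positivity
  rw [show (8 * R ^ 2 / a0 + 2) / √(a0 / 2) * Λ ^ 5 / (T * γ) =
    (8 * R ^ 2 / a0 + 2) * u * Λ / √(a0 / 2) by rw [hu]; ring, le_div_iff₀ hs]
  calc _ ≤ min ‖a - a'‖ ‖a + a'‖ * (‖a‖ * Λ) := by gcongr
    _ = ‖a‖ * min ‖a - a'‖ ‖a + a'‖ * Λ := by ring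
    _ ≤ _ := by gcongr

/-- By `near_geom` one of its last three hypotheses fails for every `b`, so the integrand is at most
`C T² Λ^(-M) ((‖b‖²)^(2M) + (‖b‖²)^(3M)) exp (-‖b‖²)` (`norm_Ker`, `norm_rho_mul`, `Wt_le`,
`integrable_pow_gauss`). -/
lemma kerNear (M : ℕ) {R a0 : ℝ} (hR : 1 ≤ R) (ha : 0 < a0) : ∃ C C1 : ℝ, 0 ≤ C ∧ 0 < C1 ∧
    ∀ (γ T Λ t : ℝ) (e a a' : V), 0 < γ → γ ≤ 1 → ‖e‖ ≤ R → ‖a‖ ≤ R → ‖a'‖ ≤ R → 1 ≤ Λ →
      2 ≤ a0 * Λ → Λ ^ 2 ≤ T * γ ^ 2 → a0 ≤ t → √(ph a a') ≤ Λ ^ 2 / (T * γ) →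
      C1 * Λ ^ 5 / (T * γ) < min ‖a - a'‖ ‖a + a'‖ →
      ‖II M γ e T t a a'‖ ≤ C * (T ^ 2 / Λ ^ M) := by
  obtain ⟨C1, hC1, hg⟩ := near_geom (V := V) hR ha
  set K : ℝ := M.factorial * R ^ (6 * M) with hK
  have hK0 : 0 ≤ K := by positivity
  have hi := (integrable_pow_gauss (V := V) (2 * M)).add (integrable_pow_gauss (V := V) (3 * M))
  refine ⟨K ^ 2 * ∫ b : V, ((‖b‖ ^ 2) ^ (2 * M) * Real.exp (-‖b‖ ^ 2) +
    (‖b‖ ^ 2) ^ (3 * M) * Real.exp (-‖b‖ ^ 2)), C1,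
    mul_nonneg (by positivity) (integral_nonneg fun b => by positivity), hC1, ?_⟩
  intro γ T Λ t e a a' hγ hγ1 he haR haR' hΛ hΛa hT ht hφ hfar
  have hΛ0 : 0 < Λ := by linarith only [hΛ]
  have hT0 : 0 < T := (mul_pos_iff_of_pos_right (by positivity : 0 < γ ^ 2)).1
    ((by positivity : 0 < Λ ^ 2).trans_le hT)
  have key : ∀ b : V, ‖rho M ((T * (ph a b - t) : ℝ) : ℂ)‖ * ‖rho M ((T * (ph a' b - t) : ℝ) : ℂ)‖ *
      Λ ^ M ≤ 1 + (‖b‖ ^ 2) ^ M := by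
    intro b
    have r1 := norm_rho_le_one M (T * (ph a b - t))
    have r2 := norm_rho_le_one M (T * (ph a' b - t))
    have q : ∀ u : ℝ, Λ < |u| → ‖rho M (u : ℂ)‖ * Λ ^ M ≤ 1 := fun u hu =>
      le_trans (by gcongr) (norm_rho_mul M u)
    have h0 : 0 ≤ (‖b‖ ^ 2) ^ M := by positivity
    by_cases h1 : ‖b‖ ≤ Λ
    · by_cases h2 : |T * (ph a b - t)| ≤ Λ
      · by_cases h3 : |T * (ph a' b - t)| ≤ Λ
        · exact absurd (hg γ T Λ t a a' b hγ hγ1 haR haR' hΛ hΛa hT ht hφ h1 h2 h3)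
            (not_le.2 hfar)
        · rw [mul_assoc]
          have := mul_le_mul r1 (q _ (not_le.1 h3)) (by positivity) zero_le_one
          linarith only [h0, this]
      · rw [mul_right_comm]
        have := mul_le_mul (q _ (not_le.1 h2)) r2 (norm_nonneg _) zero_le_one
        linarith only [h0, this]
    · have h2 : Λ ≤ ‖b‖ ^ 2 := by nlinarith only [hΛ, h1]
      calc _ ≤ 1 * 1 * (‖b‖ ^ 2) ^ M := by gcongr
        _ ≤ _ := by linarith only []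
  have h := norm_integral_le_of_norm_le (f := fun b => Ker M γ e T t a b *
    conj (Ker M γ e T t a' b) * ((Real.exp (-‖b‖ ^ 2) : ℝ) : ℂ))
    (hi.const_mul (K ^ 2 * (T ^ 2 / Λ ^ M))) (Eventually.of_forall fun b => ?_)
  · rw [integral_const_mul] at h
    refine h.trans (le_of_eq ?_)
    simp only [Pi.add_apply]
    ring
  · rw [norm_mul, norm_mul, Complex.norm_conj, norm_Ker _ _ _ hT0.le, norm_Ker _ _ _ hT0.le,
      Complex.norm_real, Real.norm_of_nonneg (Real.exp_pos _).le]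
    have w1 := Wt_le M γ he haR b
    have w2 := Wt_le M γ he haR' b
    have w3 := Wt_nonneg M γ e a' b
    have w4 := (le_div_iff₀ (pow_pos hΛ0 M)).2 (key b)
    rw [← hK] at w1 w2
    calc _ = T ^ 2 * (‖rho M ((T * (ph a b - t) : ℝ) : ℂ)‖ *
          ‖rho M ((T * (ph a' b - t) : ℝ) : ℂ)‖) * Wt M γ e a b * Wt M γ e a' b *
          Real.exp (-‖b‖ ^ 2) := by ring
      _ ≤ T ^ 2 * ((1 + (‖b‖ ^ 2) ^ M) / Λ ^ M) * (K * (‖b‖ ^ 2) ^ M) * (K * (‖b‖ ^ 2) ^ M) *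
          Real.exp (-‖b‖ ^ 2) := by
          gcongr
          exact Wt_nonneg M γ e a b
      _ = _ := by
          simp only [Pi.add_apply]
          ring

end Pool.Agent.MP_83cc0d_an.Cd

end

-- part H7
section

namespace Pool.Agent.MP_83cc0d_an.Cd

open MeasureTheory Complex Filter Topology Metric Module Set
open scoped ENNReal InnerProductSpace ComplexConjugate

variable {V : Type} [NormedAddCommGroup V] [InnerProductSpace ℝ V] [FiniteDimensional ℝ V]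
  [MeasurableSpace V] [BorelSpace V]

lemma h7_fub (M : ℕ) {R γ T t : ℝ} {e : V} (α : Measure V) [IsFiniteMeasure α] (he : ‖e‖ ≤ R)
    (hα : ∀ᵐ a ∂α, ‖a‖ ≤ R) (hT : 0 ≤ T) :
    ∫⁻ b, ENNReal.ofReal (‖∫ a, Ker M γ e T t a b ∂α‖ ^ 2 * Real.exp (-‖b‖ ^ 2)) ≤
      ∫⁻ p, ‖II M γ e T t p.1 p.2‖ₑ ∂α.prod α := by
  obtain ⟨K, hK⟩ : ∃ K : V → V × V → ℂ, K = fun b p => Ker M γ e T t p.1 b *
    conj (Ker M γ e T t p.2 b) * ((Real.exp (-‖b‖ ^ 2) : ℝ) : ℂ) := ⟨_, rfl⟩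
  have hk : ∀ a b : V, ‖a‖ ≤ R →
      ‖Ker M γ e T t a b‖ ≤ T * (M.factorial * R ^ (6 * M) * (‖b‖ ^ 2) ^ M) := by
    intro a b ha
    rw [norm_Ker M γ e hT]
    have h1 := norm_rho_le_one M (T * (ph a b - t))
    have h2 := Wt_le M γ he ha b
    have h3 := Wt_nonneg M γ e a b
    calc _ ≤ T * 1 * (M.factorial * R ^ (6 * M) * (‖b‖ ^ 2) ^ M) := by gcongr
      _ = _ := by rw [mul_one]
  have hint : Integrable (Function.uncurry K) (volume.prod (α.prod α)) := by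
    have := Integrable.mul_prod (ν := α.prod α) ((integrable_pow_gauss (V := V) (2 * M)).const_mul
      ((T * (M.factorial * R ^ (6 * M))) ^ 2)) (integrable_const (1 : ℝ))
    refine this.mono' (Continuous.aestronglyMeasurable ?_) ?_
    · have c1 : Continuous fun z : V × V × V => Ker M γ e T t z.2.1 z.1 :=
        (cont_Ker M γ e T t).comp (f := fun z : V × V × V => (z.2.1, z.1)) (by fun_prop)
      have c2 : Continuous fun z : V × V × V => Ker M γ e T t z.2.2 z.1 :=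
        (cont_Ker M γ e T t).comp (f := fun z : V × V × V => (z.2.2, z.1)) (by fun_prop)
      rw [hK]
      exact (c1.mul (continuous_conj.comp c2)).mul (by fun_prop)
    · filter_upwards [Measure.quasiMeasurePreserving_snd.ae (ae_prod_bdd hα)] with z hz
      simp only [Function.uncurry, hK, norm_mul, norm_conj, Complex.norm_real, mul_one,
        Real.norm_of_nonneg (Real.exp_pos _).le]
      have h1 := hk _ z.1 hz.1
      have h2 := hk _ z.1 hz.2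
      calc _ ≤ T * (M.factorial * R ^ (6 * M) * (‖z.1‖ ^ 2) ^ M) *
            (T * (M.factorial * R ^ (6 * M) * (‖z.1‖ ^ 2) ^ M)) * Real.exp (-‖z.1‖ ^ 2) := by
            have := (norm_nonneg _).trans h1
            gcongr
        _ = _ := by ring
  have e1 : ∀ b, ∫ p, K b p ∂α.prod α =
      ((‖∫ a, Ker M γ e T t a b ∂α‖ ^ 2 * Real.exp (-‖b‖ ^ 2) : ℝ) : ℂ) := by
    intro b
    simp only [hK]
    rw [integral_mul_const, integral_prod_mul (fun a => Ker M γ e T t a b)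
      (fun a => conj (Ker M γ e T t a b)), integral_conj, mul_conj']
    push_cast; rfl
  have swap := integral_integral_swap hint
  have i1 := hint.integral_prod_left
  simp only [Function.uncurry, e1] at swap i1
  have i3 : Integrable fun b => ‖∫ a, Ker M γ e T t a b ∂α‖ ^ 2 * Real.exp (-‖b‖ ^ 2) := by
    simpa only [RCLike.re_to_complex, ofReal_re] using i1.re
  rw [← ofReal_integral_eq_lintegral_ofReal i3 (Eventually.of_forall fun a => by positivity)]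
  rw [integral_complex_ofReal] at swap
  have hn := congrArg norm swap
  rw [Complex.norm_real] at hn
  refine (ENNReal.ofReal_le_ofReal ((le_abs_self _).trans hn.le)).trans ?_
  rw [ofReal_norm]
  refine (enorm_integral_le_lintegral_enorm _).trans (le_of_eq ?_)
  simp only [hK, II]

/-- Pattern of `L2_bound` in `Mg/Main`: the left side is `∬ II a a' dα dα` (Fubini; `cont_Ker`,
`norm_Ker`, `Wt_le`), and by `kerFar`, `kerNear`, `kerDiag`, `one_le_gq`,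
`‖II a a'‖ₑ ≤ C T²/Λ^M + 3 C T (gq ρ (a - a') + gq ρ (a - (-a')))`, `ρ = C1 Λ⁵/(T γ)`;
`QQ_shift` with `ψ = Neg.neg`. -/
lemma TT {M : ℕ} (hM : 1 ≤ M) {R a0 : ℝ} (hR : 1 ≤ R) (ha : 0 < a0) :
    ∃ C C1 : ℝ, 0 ≤ C ∧ 0 < C1 ∧ ∀ (γ T Λ t : ℝ) (e : V) (α : Measure V) [IsFiniteMeasure α],
      0 < γ → γ ≤ 1 → ‖e‖ ≤ R → (∀ᵐ a ∂α, ‖a‖ ≤ R) → 1 ≤ Λ → 2 ≤ a0 * Λ → Λ ^ 2 ≤ T * γ ^ 2 →
      a0 ≤ t →
      ∫⁻ b, ENNReal.ofReal (‖∫ a, Ker M γ e T t a b ∂α‖ ^ 2 * Real.exp (-‖b‖ ^ 2)) ≤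
        ENNReal.ofReal C * (ENNReal.ofReal (T ^ 2 / Λ ^ M) * α univ ^ 2 +
          ENNReal.ofReal T * QQ α (C1 * Λ ^ 5 / (T * γ))) := by
  obtain ⟨Cf, hCf, hf⟩ := kerFar (V := V) M hR
  obtain ⟨Cn, C1, hCn, hC1, hn⟩ := kerNear (V := V) M hR ha
  obtain ⟨Cd, hCd, hd⟩ := kerDiag (V := V) hM hR ha
  refine ⟨Cf + Cn + 6 * Cd, C1, by positivity, hC1, ?_⟩
  intro γ T Λ t e α _ hγ hγ1 he hα hΛ hΛa hT ht
  have hΛ0 : 0 < Λ := by linarith only [hΛ]
  have hT0 : 0 < T := by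
    by_contra hc
    linarith only [mul_nonneg (neg_nonneg.2 (not_lt.1 hc)) (sq_nonneg γ), sq_pos_of_pos hΛ0, hT]
  obtain ⟨ρ, hρ⟩ : ∃ ρ, ρ = C1 * Λ ^ 5 / (T * γ) := ⟨_, rfl⟩
  have hρ0 : 0 < ρ := by rw [hρ]; positivity
  have hq : 0 ≤ T ^ 2 / Λ ^ M := by positivity
  have hpt : ∀ᵐ p ∂α.prod α, ‖II M γ e T t p.1 p.2‖ₑ ≤
      ENNReal.ofReal ((Cf + Cn) * (T ^ 2 / Λ ^ M)) + (ENNReal.ofReal (Cd * T) * 3 *
        gq ρ (p.1 - p.2) + ENNReal.ofReal (Cd * T) * 3 * gq ρ (p.1 - -p.2)) := by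
    filter_upwards [ae_prod_bdd hα] with p hp
    rw [← ofReal_norm]
    have hdg := ENNReal.ofReal_le_ofReal (hd γ T t e p.1 p.2 he hp.1 hp.2 hT0 ht)
    by_cases c1 : ‖p.1 - p.2‖ ≤ ρ
    · refine hdg.trans (le_add_left (le_add_right ?_))
      rw [mul_assoc]
      exact le_mul_of_one_le_right' (one_le_gq hρ0 c1)
    by_cases c2 : ‖p.1 - -p.2‖ ≤ ρ
    · refine hdg.trans (le_add_left (le_add_left ?_))
      rw [mul_assoc]
      exact le_mul_of_one_le_right' (one_le_gq hρ0 c2)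
    refine le_add_right (ENNReal.ofReal_le_ofReal ?_)
    rw [sub_neg_eq_add] at c2
    rcases le_total (Λ ^ 2 / (T * γ)) (√(ph p.1 p.2)) with c3 | c3
    · have := hf γ T Λ t e p.1 p.2 hγ hγ1 he hp.1 hp.2 hΛ hT c3
      linarith only [mul_nonneg hCn hq, this]
    · have := hn γ T Λ t e p.1 p.2 hγ hγ1 he hp.1 hp.2 hΛ hΛa hT ht c3
        (by rw [← hρ]; exact lt_min (not_le.1 c1) (not_le.1 c2))
      linarith only [mul_nonneg hCf hq, this]
  have m1 : Measurable fun p : V × V => gq ρ (p.1 - p.2) :=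
    gq_meas measurable_const (by fun_prop)
  have m2 : Measurable fun p : V × V => gq ρ (p.1 - -p.2) :=
    gq_meas measurable_const (by fun_prop)
  refine (h7_fub M α he hα hT0.le).trans ((lintegral_mono_ae hpt).trans ?_)
  rw [lintegral_add_left measurable_const, lintegral_add_left (m1.const_mul _),
    lintegral_const_mul _ m1, lintegral_const_mul _ m2, lintegral_const, ← univ_prod_univ,
    Measure.prod_prod, lintegral_prod _ m1.aemeasurable, lintegral_prod _ m2.aemeasurable, ← hρ]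
  have h1 := QQ_shift α (ψ := Neg.neg) measurable_neg
    (fun x y => by rw [neg_sub_neg, norm_sub_rev]) hρ0
  calc _ ≤ ENNReal.ofReal ((Cf + Cn) * (T ^ 2 / Λ ^ M)) * (α univ * α univ) +
        (ENNReal.ofReal (Cd * T) * 3 * QQ α ρ + ENNReal.ofReal (Cd * T) * 3 * QQ α ρ) := by
        gcongr
        exact le_rfl
    _ = ENNReal.ofReal (Cf + Cn) * (ENNReal.ofReal (T ^ 2 / Λ ^ M) * α univ ^ 2) +
        ENNReal.ofReal (6 * Cd) * (ENNReal.ofReal T * QQ α ρ) := by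
        rw [ENNReal.ofReal_mul (by positivity), ENNReal.ofReal_mul hCd,
          ENNReal.ofReal_mul (by norm_num), ENNReal.ofReal_ofNat]
        ring
    _ ≤ _ := by
        rw [mul_add (ENNReal.ofReal (Cf + Cn + 6 * Cd))]
        exact add_le_add (mul_le_mul_left (ENNReal.ofReal_le_ofReal (by linarith only [hCd])) _)
          (mul_le_mul_left (ENNReal.ofReal_le_ofReal (by linarith only [hCf, hCn])) _)

end Pool.Agent.MP_83cc0d_an.Cd

end

-- part H8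
section

namespace Pool.Agent.MP_83cc0d_an.Cd

open MeasureTheory Complex Filter Topology Metric Module Set
open scoped ENNReal InnerProductSpace ComplexConjugate

variable {V : Type} [NormedAddCommGroup V] [InnerProductSpace ℝ V] [FiniteDimensional ℝ V]
  [MeasurableSpace V] [BorelSpace V]

/-- Induction on `J` (generalising `f, B, ρ`-ball): `fwdDiff 1 f` is holomorphic on the ball that
is smaller by `L` and bounded by `2B/L` there (`Complex.dist_le_div_mul_dist_of_mapsTo_ball` on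
`ball ζ L`). -/
lemma fd_holo (J : ℕ) {L : ℝ} (hL : 1 < L) : ∀ (f : ℂ → ℂ) (B ρ : ℝ),
    DifferentiableOn ℂ f (ball 0 (ρ + J * L)) → (∀ ζ ∈ ball (0 : ℂ) (ρ + J * L), ‖f ζ‖ ≤ B) →
    ∀ ζ ∈ ball (0 : ℂ) ρ, ‖(fwdDiff (1 : ℂ))^[J] f ζ‖ ≤ B * (2 / L) ^ J := by
  induction J with
  | zero => intro f B ρ _ hB ζ hζ; simpa using hB ζ (by simpa using hζ)
  | succ J ih =>
    intro f B ρ hf hB ζ hζ
    have hsub : ∀ z ∈ ball (0 : ℂ) (ρ + J * L), ball z L ⊆ ball (0 : ℂ) (ρ + (J + 1 : ℕ) * L) := by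
      intro z hz w hw
      rw [mem_ball] at *
      have := dist_triangle w z 0
      push_cast
      linarith
    have h1 : ∀ z : ℂ, z + 1 ∈ ball z L := fun z => by simpa using hL
    have h0 : ∀ z : ℂ, z ∈ ball z L := fun z => mem_ball_self (by linarith)
    rw [Function.iterate_succ_apply, pow_succ', ← mul_assoc]
    refine ih _ _ ρ ?_ ?_ ζ hζ
    · refine DifferentiableOn.sub ?_ (hf.mono fun z hz => hsub z hz (h0 z))
      exact hf.comp (f := fun z => z + 1) (by fun_prop) fun z hz => hsub z hz (h1 z)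
    · intro z hz
      have h2 := Complex.dist_le_div_mul_dist_of_mapsTo_ball (R₂ := 2 * B)
        (hf.mono (hsub z hz)) (fun w hw => by
          rw [mem_closedBall, dist_eq_norm]
          have := norm_sub_le (f w) (f z)
          linarith [hB w (hsub z hz hw), hB z (hsub z hz (h0 z))]) (h1 z)
      rw [dist_eq_norm, dist_eq_norm, add_sub_cancel_left, norm_one, mul_one] at h2
      calc _ ≤ 2 * B / L := h2
        _ = _ := by ring

/-- The holomorphic model of `ζ ↦ Ker a (b + ζ h)`. -/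
noncomputable def h8F (M : ℕ) (T u α β p q x y : ℝ) (ζ : ℂ) : ℂ :=
  T * rho M (u + (2 * ζ * α + ζ ^ 2 * β)) *
    ((p + ζ * q) ^ (2 * M) * cexp (-(p + ζ * q) ^ 2) * (x + ζ * y) ^ (2 * M))

lemma h8_den (u : ℝ) {w : ℂ} (hw : ‖w‖ ≤ 1 / 2) : 1 / 2 ≤ ‖1 - I * (u + w)‖ := by
  refine le_trans ?_ (Complex.re_le_norm _)
  have := (abs_le.1 ((Complex.abs_im_le_norm w).trans hw)).1
  simp
  linarith only [this]

lemma h8_core (M : ℕ) {T Λ u α β p q x y X : ℝ} (hT : 0 ≤ T) (hΛ : 2 ≤ Λ) (hp : |p| ≤ Λ)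
    (hα : |α| * ((3 * M + 1) * Λ) ≤ 1 / 8) (hβ : |β| * ((3 * M + 1) * Λ) ^ 2 ≤ 1 / 4)
    (hq : |q| * ((3 * M + 1) * Λ) ≤ 1) (hx : |x| ≤ X) (hy : |y| * ((3 * M + 1) * Λ) ≤ X) :
    ‖(fwdDiff (1 : ℂ))^[3 * M] (h8F M T u α β p q x y) 0‖ ≤
      2 ^ (M + 1) * 2 ^ (2 * M) * Real.exp 1 * (2 * X) ^ (2 * M) * 2 ^ (3 * M) * (T / Λ ^ M) := by
  have hX : 0 ≤ X := (abs_nonneg _).trans hx
  have hΛ0 : 0 < Λ := by linarith only [hΛ]
  have hn : ∀ ζ ∈ ball (0 : ℂ) (1 + (3 * M : ℕ) * Λ), ‖ζ‖ ≤ (3 * M + 1) * Λ := by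
    intro ζ hζ
    rw [mem_ball_zero_iff] at hζ
    push_cast at hζ
    linarith only [hΛ, hζ]
  have hw : ∀ ζ ∈ ball (0 : ℂ) (1 + (3 * M : ℕ) * Λ), ‖2 * ζ * α + ζ ^ 2 * β‖ ≤ 1 / 2 := by
    intro ζ hζ
    have h1 := hn ζ hζ
    have h2 : |α| * ‖ζ‖ ≤ 1 / 8 := le_trans (by gcongr) hα
    have h3 : |β| * ‖ζ‖ ^ 2 ≤ 1 / 4 := le_trans (by gcongr) hβ
    refine (norm_add_le _ _).trans ?_
    simp only [norm_mul, norm_pow, Complex.norm_real, Real.norm_eq_abs, Complex.norm_ofNat]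
    linarith only [h2, h3]
  have key := fd_holo (3 * M) (L := Λ) (by linarith only [hΛ]) (h8F M T u α β p q x y)
    (T * 2 ^ (M + 1) * ((2 * Λ) ^ (2 * M) * Real.exp 1 * (2 * X) ^ (2 * M))) 1 ?_ ?_ 0 (by simp)
  · refine key.trans_eq ?_
    rw [show 3 * M = 2 * M + M by ring]
    simp only [mul_pow, div_pow, pow_add]
    field_simp
  · intro ζ hζ
    have h1 : (1 - I * (u + (2 * ζ * α + ζ ^ 2 * β)) : ℂ) ≠ 0 := by
      intro h
      have := h8_den u (hw ζ hζ)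
      rw [h, norm_zero] at this
      linarith only [this]
    apply DifferentiableAt.differentiableWithinAt
    unfold h8F rho
    fun_prop (disch := exact h1)
  · intro ζ hζ
    have h1 := hn ζ hζ
    have h2 : ‖rho M (u + (2 * ζ * α + ζ ^ 2 * β))‖ ≤ 2 ^ (M + 1) := by
      unfold rho
      rw [norm_pow, norm_inv]
      gcongr
      have := h8_den u (hw ζ hζ)
      rw [inv_le_comm₀ (by linarith only [this]) (by norm_num)]
      linarith only [this]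
    have h3 : ‖ζ * q‖ ≤ 1 := by
      rw [norm_mul, Complex.norm_real, Real.norm_eq_abs, mul_comm]
      exact le_trans (by gcongr) hq
    have h4 : ‖(p + ζ * q : ℂ)‖ ≤ 2 * Λ := by
      refine (norm_add_le _ _).trans ?_
      rw [Complex.norm_real, Real.norm_eq_abs]
      linarith only [hΛ, hp, h3]
    have h5 : ‖cexp (-(p + ζ * q) ^ 2)‖ ≤ Real.exp 1 := by
      rw [Complex.norm_exp, Real.exp_le_exp]
      have h6 := abs_le.1 ((Complex.abs_im_le_norm _).trans h3)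
      generalize ζ * (q : ℂ) = w at h6
      simp only [neg_re, pow_two, mul_re, add_re, add_im, ofReal_re, ofReal_im, zero_add]
      nlinarith only [h6]
    have h7 : ‖(x + ζ * y : ℂ)‖ ≤ 2 * X := by
      refine (norm_add_le _ _).trans ?_
      rw [norm_mul, Complex.norm_real, Complex.norm_real, Real.norm_eq_abs, Real.norm_eq_abs]
      have : |y| * ‖ζ‖ ≤ X := le_trans (by gcongr) hy
      linarith only [hx, this]
    unfold h8F
    simp only [norm_mul, norm_pow, Complex.norm_real, Real.norm_eq_abs, abs_of_nonneg hT]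
    gcongr

omit [FiniteDimensional ℝ V] [MeasurableSpace V] [BorelSpace V] in
lemma h8_ker (M : ℕ) (γ T t : ℝ) (e a b h : V) (j : ℝ) : Ker M γ e T t a (b + j • h) =
    h8F M T (T * (ph a b - t)) (T * ⟪h, sb a b⟫_ℝ) (T * ph h a) (⟪a, b⟫_ℝ / γ) (⟪a, h⟫_ℝ / γ)
      ⟪b, sb a e⟫_ℝ ⟪h, sb a e⟫_ℝ j := by
  have h1 : ph a (b + j • h) = ph a b + 2 * j * ⟪h, sb a b⟫_ℝ + j ^ 2 * ph h a := by
    rw [ph_comm, ph_add, ph_smul, real_inner_smul_left, ph_comm b a]; ring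
  have h2 : ⟪b + j • h, a⟫_ℝ = ⟪a, b⟫_ℝ + j * ⟪a, h⟫_ℝ := by
    rw [real_inner_comm, inner_add_right, real_inner_smul_right]
  unfold Ker h8F Wt wt
  rw [h1, h2, inner_add_right, real_inner_smul_right, inner_add_left, real_inner_smul_left]
  push_cast
  rw [show (⟪a, b⟫_ℝ : ℂ) / γ + j * (⟪a, h⟫_ℝ / γ) = (γ : ℂ)⁻¹ * (⟪a, b⟫_ℝ + j * ⟪a, h⟫_ℝ) by ring,
    show ((⟪a, b⟫_ℝ : ℂ) + j * ⟪a, h⟫_ℝ) / γ = (γ : ℂ)⁻¹ * (⟪a, b⟫_ℝ + j * ⟪a, h⟫_ℝ) by ring,
    show (T : ℂ) * (ph a b + 2 * j * ⟪h, sb a b⟫_ℝ + j ^ 2 * ph h a - t) =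
      T * (ph a b - t) + (2 * j * (T * ⟪h, sb a b⟫_ℝ) + j ^ 2 * (T * ph h a)) by ring,
    mul_pow, mul_pow (γ : ℂ)⁻¹ _ (2 * M)]
  ring

lemma h8_far (M : ℕ) {γ T Λ t X : ℝ} {e a w : V} (hT : 0 ≤ T) (hΛ : 2 ≤ Λ)
    (hp : Λ / 2 ≤ |⟪a, w⟫_ℝ / γ|) (hx : |⟪w, sb a e⟫_ℝ| ≤ X) :
    ‖Ker M γ e T t a w‖ ≤ (2 * M).factorial * 2 ^ (2 * M) * X ^ (2 * M) * (T / Λ ^ M) := by
  have hX : 0 ≤ X := (abs_nonneg _).trans hx
  have hΛ0 : 0 < Λ := by linarith only [hΛ]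
  rw [norm_Ker M γ e hT, Wt_eq]
  generalize ⟪a, w⟫_ℝ / γ = P at hp
  have h1 := pow_exp_le (2 * M) P
  have h2 : (Λ / 2) ^ (2 * M) ≤ P ^ (2 * M) := by
    rw [← (even_two_mul M).pow_abs P]
    gcongr
  have h3 : Λ ^ M ≤ Λ ^ (2 * M) := pow_le_pow_right₀ (by linarith only [hΛ]) (by omega)
  have h4 : P ^ (2 * M) * Real.exp (-P ^ 2) ≤ (2 * M).factorial * 2 ^ (2 * M) / Λ ^ M := by
    rw [le_div_iff₀ (by positivity)]
    have h5 : 0 ≤ P ^ (2 * M) * Real.exp (-P ^ 2) :=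
      mul_nonneg ((even_two_mul M).pow_nonneg P) (Real.exp_pos _).le
    rw [div_pow, div_le_iff₀ (by positivity)] at h2
    calc _ ≤ P ^ (2 * M) * Real.exp (-P ^ 2) * (P ^ (2 * M) * 2 ^ (2 * M)) :=
          mul_le_mul_of_nonneg_left (h3.trans h2) h5
      _ = P ^ (2 * (2 * M)) * Real.exp (-P ^ 2) * 2 ^ (2 * M) := by ring
      _ ≤ _ := by gcongr
  have h6 : ⟪w, sb a e⟫_ℝ ^ (2 * M) ≤ X ^ (2 * M) := by
    rw [← (even_two_mul M).pow_abs]
    gcongr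
  have h7 := norm_rho_le_one M (T * (ph a w - t))
  have h8 : 0 ≤ ⟪w, sb a e⟫_ℝ ^ (2 * M) := (even_two_mul M).pow_nonneg _
  have h9 : 0 ≤ P ^ (2 * M) * Real.exp (-P ^ 2) :=
    mul_nonneg ((even_two_mul M).pow_nonneg P) (Real.exp_pos _).le
  calc _ ≤ T * 1 * ((2 * M).factorial * 2 ^ (2 * M) / Λ ^ M * X ^ (2 * M)) := by gcongr
    _ = _ := by ring

/-- Finite differences along a plate are negligible; `J = 3M`, `r = c/(T γ Λ²)`, `p = ⟪a,b⟫/γ`.
Case `|p| > Λ`: each term is small, since `|⟪a, b + j h⟫/γ| ≥ Λ - 1 ≥ Λ/2` and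
`p^(2M) exp (-p²) ≤ (2M)! / p^(2M)` (`pow_exp_le`, `Wt_eq`). Case `|p| ≤ Λ`: apply `fd_holo`
(`L = Λ`, `ρ = 1`) and `fwdDiff_iter_eq_sum_shift` to
`f ζ = T rho M (T (ph a b - t) + T (2 ζ ⟪h, sb a b⟫ + ζ² ph h a)) (p + ζ⟪a,h⟫/γ)^(2M)
  exp (-(p + ζ⟪a,h⟫/γ)²) (⟪b, sb a e⟫ + ζ⟪h, sb a e⟫)^(2M)` (`ph_add`, `ph_smul`, `ph_comm`).
On `‖ζ‖ < 1 + JΛ ≤ (J+1)Λ`: `|⟪h, sb a b⟫| ≤ R² r γ + γ Λ R r`, so for small `c` the correction of
the argument of `rho` has norm `≤ 1/2` (then `‖1 - I u‖ ≥ 1/2`), `‖ζ⟪a,h⟫/γ‖ ≤ 1`, `‖ζ‖ ‖h‖ ≤ 1`,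
and `‖f‖ ≤ C T Λ^(2M)`. -/
lemma fdiff (M : ℕ) {R : ℝ} (hR : 1 ≤ R) : ∃ C c : ℝ, 0 ≤ C ∧ 0 < c ∧ 6 * M * c ≤ 1 ∧
    ∀ (γ T Λ t : ℝ) (e a b h : V), 0 < γ → γ ≤ 1 → ‖e‖ ≤ R → ‖a‖ ≤ R → ‖b‖ ≤ R → 2 ≤ Λ →
      Λ ^ 2 ≤ T * γ ^ 2 → ‖h‖ ≤ c / (T * γ * Λ ^ 2) →
      |⟪h, b⟫_ℝ| ≤ c / (T * γ * Λ ^ 2) * γ →
      ‖∑ j ∈ Finset.range (3 * M + 1), ((-1 : ℂ) ^ (3 * M - j) * ((3 * M).choose j : ℕ)) *
        Ker M γ e T t a (b + (j : ℝ) • h)‖ ≤ C * (T / Λ ^ M) := by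
  have hR0 : 0 < R := by linarith
  obtain ⟨K, hK⟩ : ∃ K : ℝ, K = 3 * M + 1 := ⟨_, rfl⟩
  have hM0 : (0 : ℝ) ≤ M := Nat.cast_nonneg M
  have hK1 : 1 ≤ K := by linarith
  obtain ⟨c, hc0, hc⟩ : ∃ c : ℝ, 0 < c ∧ c * K * R ^ 2 = 1 / 16 :=
    ⟨1 / (16 * K * R ^ 2), by positivity, by field_simp⟩
  have hR2 : 1 ≤ R ^ 2 := one_le_pow₀ hR
  have hcR : c * K * R ≤ 1 / 16 := by
    rw [← hc, pow_two, ← mul_assoc]
    exact le_mul_of_one_le_right (by positivity) hR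
  have hcK : c * K ≤ 1 / 16 := (le_mul_of_one_le_right (by positivity) hR).trans hcR
  refine ⟨2 ^ (M + 1) * 2 ^ (2 * M) * Real.exp 1 * (2 * R ^ 4) ^ (2 * M) * 2 ^ (3 * M) +
    2 ^ (3 * M) * ((2 * M).factorial * 2 ^ (2 * M) * (2 * R ^ 4) ^ (2 * M)), c, by positivity, hc0,
    by nlinarith only [hK, hcK], ?_⟩
  intro γ T Λ t e a b h hγ hγ1 he ha hb hΛ hT hh hhb
  have hΛ0 : 0 < Λ := by linarith only [hΛ]
  have hT0 : 0 < T := by
    by_contra hn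
    linarith only [mul_nonneg (neg_nonneg.2 (not_lt.1 hn)) (sq_nonneg γ), sq_pos_of_pos hΛ0, hT]
  obtain ⟨r, hr⟩ : ∃ r, r = c / (T * γ * Λ ^ 2) := ⟨_, rfl⟩
  rw [← hr] at hh hhb
  have hr0 : 0 < r := by rw [hr]; positivity
  have hr1 : T * γ * Λ ^ 2 * r = c := by rw [hr]; field_simp
  have hr2 : Λ ^ 4 * r ≤ c * γ := by
    rw [← hr1]
    calc Λ ^ 4 * r = Λ ^ 2 * (Λ ^ 2 * r) := by ring
      _ ≤ T * γ ^ 2 * (Λ ^ 2 * r) := by gcongr
      _ = _ := by ring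
  have hΛ4 : Λ ≤ Λ ^ 4 := le_self_pow₀ (by linarith only [hΛ]) (by norm_num)
  have hr3 : Λ * r ≤ c * γ := le_trans (by gcongr) hr2
  have hr4 : Λ * r ≤ c := hr3.trans (mul_le_of_le_one_right hc0.le hγ1)
  have hse : ‖sb a e‖ ≤ R ^ 3 := (norm_sb_le a e).trans (by rw [pow_succ R 2]; gcongr)
  have hah : |⟪a, h⟫_ℝ| ≤ R * r := (abs_real_inner_le_norm a h).trans (by gcongr)
  have hq : |⟪a, h⟫_ℝ / γ| * (K * Λ) ≤ 1 := by
    rw [abs_div, abs_of_pos hγ, div_mul_eq_mul_div, div_le_one hγ]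
    calc _ ≤ R * r * (K * Λ) := by gcongr
      _ = K * R * (Λ * r) := by ring
      _ ≤ K * R * (c * γ) := by gcongr
      _ = c * K * R * γ := by ring
      _ ≤ 1 * γ := by gcongr; linarith only [hcR]
      _ = γ := one_mul _
  have hx : |⟪b, sb a e⟫_ℝ| ≤ R ^ 4 :=
    (abs_real_inner_le_norm _ _).trans (by rw [pow_succ' R 3]; gcongr)
  have hy : |⟪h, sb a e⟫_ℝ| * (K * Λ) ≤ R ^ 4 := by
    have := abs_real_inner_le_norm h (sb a e)
    calc _ ≤ r * R ^ 3 * (K * Λ) := by gcongr; exact this.trans (by gcongr)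
      _ = K * (Λ * r) * R ^ 3 := by ring
      _ ≤ K * c * R ^ 3 := by gcongr
      _ ≤ R * R ^ 3 := by gcongr; linarith only [hR, hcK]
      _ = _ := by ring
  have hTΛ : 0 ≤ T / Λ ^ M := by positivity
  by_cases hp : |⟪a, b⟫_ℝ / γ| ≤ Λ
  · have hab : |⟪a, b⟫_ℝ| ≤ Λ * γ := by
      rwa [abs_div, abs_of_pos hγ, div_le_iff₀ hγ] at hp
    have hα : |T * ⟪h, sb a b⟫_ℝ| * (K * Λ) ≤ 1 / 8 := by
      have h1 : |⟪h, sb a b⟫_ℝ| ≤ 2 * R ^ 2 * (Λ * γ * r) := by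
        rw [inner_sb]
        refine (abs_sub _ _).trans ?_
        rw [abs_mul, abs_mul, abs_of_nonneg (sq_nonneg _)]
        have h2 : ‖a‖ ^ 2 * |⟪h, b⟫_ℝ| ≤ R ^ 2 * (Λ * γ * r) := by
          gcongr
          refine hhb.trans ?_
          rw [mul_assoc, mul_comm r]
          exact le_mul_of_one_le_left (by positivity) (by linarith only [hΛ])
        have h3 : |⟪a, b⟫_ℝ| * |⟪a, h⟫_ℝ| ≤ Λ * γ * (R ^ 2 * r) := by
          gcongr
          exact hah.trans (by gcongr; exact le_self_pow₀ hR (by norm_num))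
        linarith only [h2, h3]
      rw [abs_mul, abs_of_pos hT0]
      calc _ ≤ T * (2 * R ^ 2 * (Λ * γ * r)) * (K * Λ) := by gcongr
        _ = 2 * (T * γ * Λ ^ 2 * r * K * R ^ 2) := by ring
        _ = _ := by rw [hr1, hc]; norm_num
    have hβ : |T * ph h a| * (K * Λ) ^ 2 ≤ 1 / 4 := by
      have h1 : ph h a ≤ r ^ 2 * R ^ 2 := (ph_le h a).trans (by gcongr)
      have h2 : r ≤ c * γ := le_trans (le_mul_of_one_le_left hr0.le (by linarith only [hΛ])) hr3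
      rw [abs_of_nonneg (mul_nonneg hT0.le (ph_nonneg h a))]
      calc _ ≤ T * (r ^ 2 * R ^ 2) * (K * Λ) ^ 2 := by gcongr
        _ = T * r * Λ ^ 2 * K ^ 2 * R ^ 2 * r := by ring
        _ ≤ T * r * Λ ^ 2 * K ^ 2 * R ^ 2 * (c * γ) := by gcongr
        _ = (T * γ * Λ ^ 2 * r * K * R ^ 2) * (c * K) := by ring
        _ ≤ (T * γ * Λ ^ 2 * r * K * R ^ 2) * (1 / 16) := by gcongr
        _ ≤ _ := by rw [hr1, hc]; norm_num
    rw [hK] at hα hβ hq hy
    have key := h8_core M (u := T * (ph a b - t)) hT0.le hΛ hp hα hβ hq hx hy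
    rw [fwdDiff_iter_eq_sum_shift] at key
    refine le_trans (le_of_eq ?_) (key.trans ?_)
    · congr 1
      refine Finset.sum_congr rfl fun j _ => ?_
      rw [h8_ker]
      simp only [ofReal_natCast, Int.reduceNeg, nsmul_eq_mul, mul_one, zero_add, zsmul_eq_mul, Int.cast_mul, Int.cast_pow, Int.cast_neg, Int.cast_one, Int.cast_natCast]
    · gcongr
      exact le_add_of_nonneg_right (by positivity)
  · have hterm : ∀ j ∈ Finset.range (3 * M + 1), ‖((-1 : ℂ) ^ (3 * M - j) * ((3 * M).choose j : ℕ)) *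
        Ker M γ e T t a (b + (j : ℝ) • h)‖ ≤ ((3 * M).choose j : ℕ) *
          ((2 * M).factorial * 2 ^ (2 * M) * (2 * R ^ 4) ^ (2 * M) * (T / Λ ^ M)) := by
      intro j hj
      have hj1 : (j : ℝ) ≤ K * Λ := by
        have : (j : ℝ) ≤ 3 * M + 1 := by exact_mod_cast (Finset.mem_range.1 hj).le
        rw [← hK] at this
        exact this.trans (le_mul_of_one_le_right (by linarith only [hK]) (by linarith only [hΛ]))
      have hj0 : (0 : ℝ) ≤ j := Nat.cast_nonneg j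
      rw [norm_mul, norm_mul, norm_pow, norm_neg, norm_one, one_pow, one_mul, Complex.norm_natCast]
      gcongr
      refine h8_far M hT0.le hΛ ?_ ?_
      · rw [inner_add_right, real_inner_smul_right, add_div, mul_div_assoc]
        have h1 : |j * (⟪a, h⟫_ℝ / γ)| ≤ 1 := by
          rw [abs_mul, abs_of_nonneg hj0, mul_comm]
          exact le_trans (by gcongr) hq
        have h2 := abs_sub (⟪a, b⟫_ℝ / γ + j * (⟪a, h⟫_ℝ / γ)) (j * (⟪a, h⟫_ℝ / γ))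
        rw [add_sub_cancel_right] at h2
        linarith only [hΛ, hp, h1, h2]
      · rw [inner_add_left, real_inner_smul_left]
        refine (abs_add_le _ _).trans ?_
        have h1 : |j * ⟪h, sb a e⟫_ℝ| ≤ R ^ 4 := by
          rw [abs_mul, abs_of_nonneg hj0, mul_comm]
          exact le_trans (by gcongr) hy
        linarith only [hx, h1]
    refine (norm_sum_le _ _).trans ((Finset.sum_le_sum hterm).trans ?_)
    rw [← Finset.sum_mul, ← Nat.cast_sum, Nat.sum_range_choose, ← mul_assoc]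
    push_cast
    gcongr
    exact le_add_of_nonneg_left (by positivity)

end Pool.Agent.MP_83cc0d_an.Cd

end

-- part H9
section

namespace Pool.Agent.MP_83cc0d_an.Cd

open MeasureTheory Complex Filter Topology Metric Module Set
open scoped ENNReal InnerProductSpace ComplexConjugate

variable {V : Type} [NormedAddCommGroup V] [InnerProductSpace ℝ V] [FiniteDimensional ℝ V]
  [MeasurableSpace V] [BorelSpace V]

lemma Pl_meas (r γ : ℝ) : MeasurableSet (Pl r γ : Set (V × V)) := by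
  have h1 : IsClosed {p : V × V | ‖p.2 - p.1‖ ≤ r} := isClosed_le (by fun_prop) continuous_const
  have h2 : IsClosed {p : V × V | |⟪p.2 - p.1, p.1⟫_ℝ| ≤ r * γ} :=
    isClosed_le (by fun_prop) continuous_const
  exact (h1.inter h2).measurableSet

/-- Volume of a plate. Translate to `S = {h | ‖h‖ ≤ r ∧ |⟪h, b⟫| ≤ r γ}`. If `b ≠ 0`, `e = b/‖b‖`:
for `‖u‖ ≤ r/4` every `s` with `|s - ⟪u, e⟫| ≤ r γ/(4R)` has `|s| ≤ r/2` and `u - s e ∈ S`; Tonelli
gives `r * volume S ≥ volume (closedBall 0 (r/4)) * r γ/(2R)`. -/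
lemma plate_vol {R : ℝ} (hR : 1 ≤ R) : ∃ c : ℝ, 0 < c ∧ ∀ (r γ : ℝ) (b : V), 0 < r → 0 < γ →
    γ ≤ 1 → ‖b‖ ≤ R → ENNReal.ofReal (c * r ^ finrank ℝ V * γ) ≤ volume {w | (b, w) ∈ Pl r γ} := by
  have hR0 : 0 < R := by linarith
  have hB : 0 < volume.real (closedBall (0 : V) 1) :=
    ENNReal.toReal_pos (measure_closedBall_pos volume 0 one_pos).ne' measure_closedBall_lt_top.ne
  refine ⟨volume.real (closedBall (0 : V) 1) / R, div_pos hB hR0, fun r γ b hr hγ hγ1 hb => ?_⟩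
  have hδ : 0 < γ / R := div_pos hγ hR0
  have hδ1 : γ / R ≤ 1 := (div_le_one hR0).2 (by linarith only [hR, hγ1])
  let f : Module.Dual ℝ V := (-((1 - γ / R) / ‖b‖ ^ 2)) • (innerₛₗ ℝ b : V →ₗ[ℝ] ℝ)
  have hf : ∀ h, f h = -((1 - γ / R) / ‖b‖ ^ 2) * ⟪b, h⟫_ℝ := fun h => rfl
  have hdet : γ / R ≤ |LinearMap.det (LinearMap.transvection f b)| := by
    rw [LinearMap.transvection.det, hf, real_inner_self_eq_norm_sq]
    refine le_trans ?_ (le_abs_self _)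
    by_cases h0 : b = 0
    · simpa only [h0, norm_zero, ne_eq, OfNat.ofNat_ne_zero, not_false_eq_true, zero_pow, div_zero, neg_zero, mul_zero, add_zero] using hδ1
    · have : ‖b‖ ≠ 0 := norm_ne_zero_iff.2 h0
      apply le_of_eq
      field_simp
      ring
  have hsub : LinearMap.transvection f b '' closedBall 0 r ⊆
      (fun h => b + h) ⁻¹' {w | (b, w) ∈ Pl r γ} := by
    rintro _ ⟨h, hh, rfl⟩
    rw [mem_closedBall_zero_iff] at hh
    simp only [Pl, mem_preimage, mem_ofPred_eq, add_sub_cancel_left, LinearMap.transvection.apply]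
    by_cases h0 : b = 0
    · simp [h0, hh, (mul_pos hr hγ).le]
    have hn : 0 < ‖b‖ := norm_pos_iff.2 h0
    constructor
    · refine le_trans (abs_le_of_sq_le_sq' ?_ (norm_nonneg h)).2 hh
      rw [norm_add_sq_real, inner_smul_right, norm_smul, mul_pow, Real.norm_eq_abs, sq_abs, hf,
        real_inner_comm b h]
      have e : 2 * (-((1 - γ / R) / ‖b‖ ^ 2) * ⟪b, h⟫_ℝ * ⟪b, h⟫_ℝ) +
          (-((1 - γ / R) / ‖b‖ ^ 2) * ⟪b, h⟫_ℝ) ^ 2 * ‖b‖ ^ 2 =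
          -((1 - γ / R) * (1 + γ / R) * (⟪b, h⟫_ℝ / ‖b‖) ^ 2) := by
        field_simp
        ring
      have : 0 ≤ (1 - γ / R) * (1 + γ / R) * (⟪b, h⟫_ℝ / ‖b‖) ^ 2 := by
        have : 0 ≤ 1 - γ / R := by linarith only [hδ1]
        positivity
      linarith
    · have e : ⟪h + f h • b, b⟫_ℝ = γ / R * ⟪h, b⟫_ℝ := by
        rw [inner_add_left, real_inner_smul_left, hf, real_inner_self_eq_norm_sq,
          real_inner_comm h b]
        field_simp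
        ring
      rw [e, abs_mul, abs_of_pos hδ]
      calc γ / R * |⟪h, b⟫_ℝ| ≤ γ / R * (r * R) := by
            gcongr
            exact (abs_real_inner_le_norm _ _).trans (by gcongr)
        _ = r * γ := by field_simp
  have h1 := measure_mono (μ := (volume : Measure V)) hsub
  rw [measure_preimage_add, Measure.addHaar_image_linearMap,
    Measure.addHaar_closedBall' _ _ hr.le] at h1
  refine le_trans ?_ h1
  rw [← ofReal_measureReal (μ := (volume : Measure V)) (s := closedBall 0 1)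
    measure_closedBall_lt_top.ne, ← ENNReal.ofReal_mul (by positivity),
    ← ENNReal.ofReal_mul (by positivity)]
  apply ENNReal.ofReal_le_ofReal
  calc _ = γ / R * (r ^ finrank ℝ V * volume.real (closedBall (0 : V) 1)) := by ring
    _ ≤ _ := by gcongr

lemma plate_lt_top (r γ : ℝ) (b : V) : volume {w | (b, w) ∈ Pl r γ} < ∞ :=
  (measure_mono (fun _ hw => mem_closedBall_iff_norm.2 hw.1)).trans_lt
    (measure_closedBall_lt_top (x := b) (r := r))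

/-- The change of variables `w ↦ b + j • (w - b)` maps the plate of width `r` onto the plate of
width `j r` and multiplies volumes by `j^n` (`Measure.map_addHaar_smul`, translation invariance;
apply it to `G` and to `1`). -/
lemma plate_avg (r γ : ℝ) {j : ℝ} (hj : 0 < j) (b : V) {G : V → ℝ≥0∞} (hG : Measurable G) :
    (volume {w | (b, w) ∈ Pl r γ})⁻¹ * ∫⁻ w in {w | (b, w) ∈ Pl r γ}, G (b + j • (w - b)) =
      (volume {w | (b, w) ∈ Pl (j * r) γ})⁻¹ * ∫⁻ w in {w | (b, w) ∈ Pl (j * r) γ}, G w := by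
  have hφ : Measurable fun w : V => b + j • (w - b) := by fun_prop
  have hmap : Measure.map (fun w : V => b + j • (w - b)) volume =
      ENNReal.ofReal |(j ^ finrank ℝ V)⁻¹| • (volume : Measure V) := by
    have : (fun w : V => b + j • (w - b)) = (b + ·) ∘ (j • ·) ∘ (· - b) := rfl
    rw [this, ← Measure.map_map (by fun_prop) (by fun_prop),
      ← Measure.map_map (by fun_prop) (by fun_prop), map_sub_right_eq_self,
      Measure.map_addHaar_smul _ hj.ne', Measure.map_smul, map_add_left_eq_self]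
  have hS : MeasurableSet {w : V | (b, w) ∈ Pl (j * r) γ} :=
    measurable_prodMk_left (Pl_meas _ _)
  have hpre : {w : V | (b, w) ∈ Pl r γ} =
      (fun w : V => b + j • (w - b)) ⁻¹' {w | (b, w) ∈ Pl (j * r) γ} := by
    ext w
    simp only [Pl, mem_preimage, mem_ofPred_eq, add_sub_cancel_left, norm_smul,
      real_inner_smul_left, abs_mul, Real.norm_eq_abs, abs_of_pos hj, mul_assoc,
      mul_le_mul_iff_right₀ hj]
  have hc0 : ENNReal.ofReal |(j ^ finrank ℝ V)⁻¹| ≠ 0 :=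
    (ENNReal.ofReal_pos.2 (by positivity)).ne'
  rw [hpre, ← Measure.map_apply hφ hS, ← setLIntegral_map hS hG hφ, hmap, Measure.smul_apply,
    Measure.restrict_smul, lintegral_smul_measure, smul_eq_mul, smul_eq_mul,
    ENNReal.mul_inv (Or.inl hc0) (Or.inl ENNReal.ofReal_ne_top), mul_mul_mul_comm,
    ENNReal.inv_mul_cancel hc0 ENNReal.ofReal_ne_top, one_mul]

end Pool.Agent.MP_83cc0d_an.Cd

end

-- part H10
section

namespace Pool.Agent.MP_83cc0d_an.Cd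

open MeasureTheory Complex Filter Topology Metric Module Set
open scoped ENNReal InnerProductSpace ComplexConjugate

variable {V : Type} [NormedAddCommGroup V] [InnerProductSpace ℝ V] [FiniteDimensional ℝ V]
  [MeasurableSpace V] [BorelSpace V]

lemma h10_int (M : ℕ) (γ : ℝ) {R T : ℝ} (hT : 0 ≤ T) (t : ℝ) {e : V}
    (he : ‖e‖ ≤ R) (α : Measure V) [IsFiniteMeasure α] (hα : ∀ᵐ a ∂α, ‖a‖ ≤ R) (b : V) :
    Integrable (fun a => Ker M γ e T t a b) α := by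
  refine Integrable.of_bound ((cont_Ker M γ e T t).comp
    (continuous_id.prodMk continuous_const)).aestronglyMeasurable
    (T * 1 * (M.factorial * R ^ (6 * M) * (‖b‖ ^ 2) ^ M)) (hα.mono fun a ha => ?_)
  rw [norm_Ker M γ e hT]
  have := Wt_nonneg M γ e a b
  gcongr
  exacts [norm_rho_le_one _ _, Wt_le M γ he ha b]

lemma h10_alt (J : ℕ) (x : ℕ → ℂ) {E : ℝ}
    (h : ‖∑ j ∈ Finset.range (J + 1), ((-1 : ℂ) ^ (J - j) * (J.choose j : ℕ)) * x j‖ ≤ E) :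
    ‖x 0‖ₑ ≤ ENNReal.ofReal (2 ^ J) * ∑ j ∈ Finset.range J, ‖x (j + 1)‖ₑ + ENNReal.ofReal E := by
  have hE := (norm_nonneg _).trans h
  rw [Finset.sum_range_succ'] at h
  have h1 : ‖∑ j ∈ Finset.range J, ((-1 : ℂ) ^ (J - (j + 1)) * (J.choose (j + 1) : ℕ)) *
      x (j + 1)‖ ≤ 2 ^ J * ∑ j ∈ Finset.range J, ‖x (j + 1)‖ := by
    rw [Finset.mul_sum]
    refine norm_sum_le_of_le _ fun j _ => ?_
    rw [norm_mul, norm_mul, norm_pow, norm_neg, norm_one, one_pow, one_mul, Complex.norm_natCast]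
    gcongr
    exact_mod_cast Nat.choose_le_two_pow J (j + 1)
  have h2 := (norm_le_add_norm_add' _ _).trans (add_le_add h h1)
  rw [norm_mul, norm_mul, norm_pow, norm_neg, norm_one, one_pow, one_mul, Nat.choose_zero_right,
    Nat.cast_one, norm_one, one_mul, add_comm] at h2
  rw [← ofReal_norm]
  refine (ENNReal.ofReal_le_ofReal h2).trans_eq ?_
  rw [ENNReal.ofReal_add (by positivity) hE, ENNReal.ofReal_mul (by positivity),
    ENNReal.ofReal_sum_of_nonneg fun _ _ => norm_nonneg _]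
  simp only [ofReal_norm]

omit [InnerProductSpace ℝ V] [FiniteDimensional ℝ V] [BorelSpace V] [NormedAddCommGroup V] in
lemma h10_avg {m : Measure V} {S : Set V} (hS : MeasurableSet S) (h0 : m S ≠ 0) (h1 : m S ≠ ∞)
    {g K E : ℝ≥0∞} {J : ℕ} {G : ℕ → V → ℝ≥0∞} (hG : ∀ j, Measurable (G j))
    (h : ∀ w ∈ S, g ≤ K * ∑ j ∈ Finset.range J, G j w + E) :
    g ≤ K * ∑ j ∈ Finset.range J, (m S)⁻¹ * (∫⁻ w in S, G j w ∂m) + E := by
  have h2 : g * m S ≤ K * ∑ j ∈ Finset.range J, (∫⁻ w in S, G j w ∂m) + E * m S := by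
    rw [← setLIntegral_const, ← setLIntegral_const, ← lintegral_finsetSum _ fun j _ => hG j,
      ← lintegral_const_mul _ (Finset.measurable_sum _ fun j _ => hG j),
      ← lintegral_add_right _ measurable_const]
    exact setLIntegral_mono' hS h
  calc g = (m S)⁻¹ * (g * m S) := by
        rw [mul_comm g, ← mul_assoc, ENNReal.inv_mul_cancel h0 h1, one_mul]
    _ ≤ (m S)⁻¹ * (K * ∑ j ∈ Finset.range J, (∫⁻ w in S, G j w ∂m) + E * m S) := by gcongr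
    _ = _ := by
        rw [mul_add, mul_comm E, ← mul_assoc _ (m S), ENNReal.inv_mul_cancel h0 h1, one_mul,
          mul_left_comm, Finset.mul_sum]

lemma h10_meas {P : Set (V × V)} (hP : MeasurableSet P) {G : V → ℝ≥0∞} (hG : Measurable G) :
    Measurable fun b => (volume {w | (b, w) ∈ P})⁻¹ * ∫⁻ w in {w | (b, w) ∈ P}, G w := by
  refine (measurable_measure_prodMk_left hP).inv.mul ?_
  have : (fun b => ∫⁻ w in {w | (b, w) ∈ P}, G w) =
      fun b => ∫⁻ w, P.indicator (fun p => G p.2) (b, w) := by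
    funext b
    exact (lintegral_indicator (measurable_prodMk_left hP) _).symm
  rw [this]
  exact ((hG.comp measurable_snd).indicator hP).lintegral_prod_right'

lemma h10_ball (F : V → ℂ) (hF : Measurable F) {R ρ : ℝ} (hR : 0 ≤ R) (hρ : ρ ≤ 1) :
    ∫⁻ w in closedBall (0 : V) (R + ρ), ‖F w‖ₑ ^ 2 ≤ ENNReal.ofReal (Real.exp ((R + 1) ^ 2)) *
      ∫⁻ w, ENNReal.ofReal (‖F w‖ ^ 2 * Real.exp (-‖w‖ ^ 2)) := by
  rw [← lintegral_const_mul _ (by fun_prop)]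
  refine le_trans (setLIntegral_mono' measurableSet_closedBall fun w hw => ?_)
    (setLIntegral_le_lintegral _ _)
  rw [← ofReal_norm, ← ENNReal.ofReal_pow (norm_nonneg _),
    ← ENNReal.ofReal_mul (Real.exp_pos _).le, mul_left_comm, ← Real.exp_add]
  refine ENNReal.ofReal_le_ofReal (le_mul_of_one_le_right (sq_nonneg _) (Real.one_le_exp ?_))
  have := mem_closedBall_zero_iff.1 hw
  have := norm_nonneg w
  nlinarith

/-- Let `F b = ∫ Ker a b dα`, `J = 3M`, `r = c/(T γ Λ²)`. Integrating `fdiff` over `a`: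
`‖F b‖ ≤ ∑_{1 ≤ j ≤ J} choose J j ‖F (b + j • (w - b))‖ + C T/Λ^M α univ` for `(b, w) ∈ Pl r γ`.
Average over the plate (`plate_vol`, `plate_lt_top`), `plate_avg`, then `smooth` with
`P = Pl (j r) γ`, `ρ = 1/(2 T γ Λ²) ≥ j r`, `ρ ≤ 1`, `v0 = c' r^n γ`, `G = ‖F‖ₑ`, and `TT`
(`1 ≤ exp ((R+1)²) exp (-‖w‖²)` on the ball). -/
lemma HIcore {M : ℕ} (hM : 1 ≤ M) {R a0 : ℝ} (hR : 1 ≤ R) (ha : 0 < a0) :
    ∃ C C1 : ℝ, 0 ≤ C ∧ 0 < C1 ∧ ∀ (γ T Λ t θ : ℝ) (e : V) (α β : Measure V) [IsFiniteMeasure α]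
      [IsFiniteMeasure β], 0 < γ → γ ≤ 1 → ‖e‖ ≤ R → (∀ᵐ a ∂α, ‖a‖ ≤ R) → (∀ᵐ b ∂β, ‖b‖ ≤ R) →
      2 ≤ Λ → 2 ≤ a0 * Λ → Λ ^ 2 ≤ T * γ ^ 2 → a0 ≤ t → 0 < θ →
      ‖∫ b, ∫ a, Ker M γ e T t a b ∂α ∂β‖ₑ ≤ ENNReal.ofReal C *
        (ENNReal.ofReal θ * (ENNReal.ofReal (T ^ 2 / Λ ^ M) * α univ ^ 2 +
            ENNReal.ofReal T * QQ α (C1 * Λ ^ 5 / (T * γ))) +
          ENNReal.ofReal ((T * γ * Λ ^ 2) ^ finrank ℝ V / (θ * γ)) * QQ β (1 / (T * γ * Λ ^ 2)) +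
          ENNReal.ofReal (T / Λ ^ M) * (α univ * β univ)) := by
  obtain ⟨C0, c, hC0, hc, hMc, hfd⟩ := fdiff (V := V) M hR
  obtain ⟨c', hc', hvol⟩ := plate_vol (V := V) hR
  obtain ⟨CT, C1, hCT, hC1, hTT⟩ := TT (V := V) hM hR ha
  set p := Real.exp ((R + 1) ^ 2) * CT with hp
  set q := 3 / (c' * c ^ finrank ℝ V) with hq
  have hp0 : 0 ≤ p := by positivity
  have hq0 : 0 ≤ q := by positivity
  refine ⟨2 ^ (3 * M) * ((3 * M : ℕ) * (p + q)) + C0, C1, by positivity, hC1,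
    fun γ T Λ t θ e α β _ _ hγ hγ1 he hα hβ hΛ haΛ hT ht hθ => ?_⟩
  have hT0 : 0 < T := by
    by_contra h
    nlinarith only [mul_nonpos_of_nonpos_of_nonneg (not_lt.1 h) (sq_nonneg γ), hΛ, hT]
  have hl : 1 ≤ T * γ * Λ ^ 2 := by
    have : T * γ ^ 2 ≤ T * γ := by nlinarith only [hγ, hγ1, hT]
    have h4 : 1 ≤ Λ ^ 2 := by nlinarith only [hΛ]
    exact one_le_mul_of_one_le_of_one_le (by linarith only [hT, this, h4]) h4
  set l := T * γ * Λ ^ 2 with hl'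
  have hl0 : 0 < l := by linarith only [hl]
  have hr : 0 < c / l := div_pos hc hl0
  set F : V → ℂ := fun b => ∫ a, Ker M γ e T t a b ∂α with hF
  have hFm : Measurable F :=
    (cont_Ker M γ e T t).stronglyMeasurable.integral_prod_left'.measurable
  set X := ENNReal.ofReal (T ^ 2 / Λ ^ M) * α univ ^ 2 +
    ENNReal.ofReal T * QQ α (C1 * Λ ^ 5 / (T * γ))
  set Y := ENNReal.ofReal (l ^ finrank ℝ V / (θ * γ)) * QQ β (1 / l) with hY
  let P : ℕ → Set (V × V) := fun j => Pl (((j + 1 : ℕ) : ℝ) * (c / l)) γ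
  let A : ℕ → V → ℝ≥0∞ := fun j b =>
    (volume {w | (b, w) ∈ P j})⁻¹ * ∫⁻ w in {w | (b, w) ∈ P j}, ‖F w‖ₑ
  have h1 : ∀ b, ‖b‖ ≤ R → ‖F b‖ₑ ≤ ENNReal.ofReal (2 ^ (3 * M)) *
      ∑ j ∈ Finset.range (3 * M), A j b +
        ENNReal.ofReal (C0 * (T / Λ ^ M) * α.real univ) := fun b hb => by
    refine (h10_avg (m := volume) (S := {w | (b, w) ∈ Pl (c / l) γ}) (J := 3 * M)
      (K := ENNReal.ofReal (2 ^ (3 * M))) (E := ENNReal.ofReal (C0 * (T / Λ ^ M) * α.real univ))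
      (G := fun j w => ‖F (b + ((j + 1 : ℕ) : ℝ) • (w - b))‖ₑ)
      (measurable_prodMk_left (Pl_meas _ _)) (ne_of_gt (lt_of_lt_of_le
        (ENNReal.ofReal_pos.2 (by positivity)) (hvol _ _ b hr hγ hγ1 hb))) (plate_lt_top _ _ _).ne
      (fun j => by fun_prop) fun w hw => ?_).trans_eq ?_
    · have := h10_alt (3 * M) (fun j => F (b + (j : ℝ) • (w - b)))
        (E := C0 * (T / Λ ^ M) * α.real univ) (by
          simp only [hF, ← integral_const_mul]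
          rw [← integral_finsetSum _ fun j _ => (h10_int M γ hT0.le t he α hα _).const_mul _]
          exact norm_integral_le_of_norm_le_const (hα.mono fun a ha =>
            hfd γ T Λ t e a b _ hγ hγ1 he ha hb hΛ hT hw.1 hw.2))
      simpa only [Nat.ofNat_nonneg, ENNReal.ofReal_pow, ENNReal.ofReal_ofNat, Nat.cast_add, Nat.cast_one, ge_iff_le, CharP.cast_eq_zero, zero_smul, add_zero] using this
    · congr 2
      exact Finset.sum_congr rfl fun j _ =>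
        plate_avg _ _ (by positivity) b (G := fun w => ‖F w‖ₑ) hFm.enorm
  have h2 : ∀ j ∈ Finset.range (3 * M), ∫⁻ b, A j b ∂β ≤
      ENNReal.ofReal (p + q) * (ENNReal.ofReal θ * X + Y) := fun j hj => by
    have hj1 : ((j + 1 : ℕ) : ℝ) ≤ 3 * M := by exact_mod_cast Finset.mem_range.1 hj
    have hj0 : (1 : ℝ) ≤ (j + 1 : ℕ) := by exact_mod_cast Nat.le_add_left 1 j
    refine (smooth β hβ (ρ := 1 / (2 * l)) (v0 := c' * (c / l) ^ finrank ℝ V * γ) (by positivity)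
      (by positivity) hθ (Pl_meas _ _) (fun x hx => hx.1.trans ?_) (fun b hb => le_trans
        (ENNReal.ofReal_le_ofReal ?_) (hvol _ _ b (by positivity) hγ hγ1 hb)) hFm.enorm).trans ?_
    · rw [← mul_div_assoc, div_le_div_iff₀ hl0 (by positivity)]
      nlinarith only [mul_le_mul_of_nonneg_right hj1 hc.le, hMc, hl]
    · gcongr
      exact le_mul_of_one_le_left hr.le hj0
    · rw [mul_add]
      refine add_le_add ?_ ?_
      · refine (mul_le_mul_right ?_ _).trans_eq (mul_left_comm _ _ _)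
        refine (h10_ball F hFm (by linarith only [hR]) (by
          rw [div_le_one (by positivity)]; linarith only [hl])).trans ((mul_le_mul_right
            (hTT γ T Λ t e α hγ hγ1 he hα (by linarith only [hΛ]) haΛ hT ht) _).trans ?_)
        rw [← mul_assoc, ← ENNReal.ofReal_mul (Real.exp_pos _).le]
        gcongr
        linarith only [hq0]
      · rw [hY, ← mul_assoc (ENNReal.ofReal _), ← ENNReal.ofReal_mul (by positivity),
          show 2 * (1 / (2 * l)) = 1 / l by field_simp]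
        gcongr
        rw [show 3 / (θ * (c' * (c / l) ^ finrank ℝ V * γ)) = q * (l ^ finrank ℝ V / (θ * γ)) by
          rw [hq, div_pow]; field_simp]
        gcongr
        linarith only [hp0]
  have hA : ∀ j, Measurable (A j) := fun j => h10_meas (Pl_meas _ _) hFm.enorm
  refine (enorm_integral_le_lintegral_enorm _).trans
    ((lintegral_mono_ae (hβ.mono h1)).trans ?_)
  rw [lintegral_add_right _ measurable_const, lintegral_const,
    lintegral_const_mul _ (Finset.measurable_sum _ fun j _ => hA j),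
    lintegral_finsetSum _ fun j _ => hA j, mul_add (ENNReal.ofReal _) (_ + Y)]
  refine add_le_add ((mul_le_mul_right (Finset.sum_le_card_nsmul _ _ _ h2) _).trans ?_) ?_
  · rw [Finset.card_range, nsmul_eq_mul, ← ENNReal.ofReal_natCast, ← mul_assoc, ← mul_assoc,
      ← ENNReal.ofReal_mul (by positivity), ← ENNReal.ofReal_mul (by positivity), mul_assoc]
    gcongr
    linarith only [hC0]
  · rw [ENNReal.ofReal_mul (by positivity), ENNReal.ofReal_mul hC0, ofReal_measureReal, mul_assoc,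
      mul_assoc]
    gcongr
    exact le_add_of_nonneg_left (by positivity)

end Pool.Agent.MP_83cc0d_an.Cd

end

-- part H11
section

namespace Pool.Agent.MP_83cc0d_an.Cd

open MeasureTheory Complex Filter Topology Metric Module Set
open scoped ENNReal InnerProductSpace ComplexConjugate

variable {V : Type} [NormedAddCommGroup V] [InnerProductSpace ℝ V] [FiniteDimensional ℝ V]
  [MeasurableSpace V] [BorelSpace V]

lemma h11_err {T ε η X s : ℝ} {n M : ℕ} (hT : 1 ≤ T) (hX : 1 ≤ X) (hX2 : X ≤ T ^ 2)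
    (hs : 1 ≤ s) (hM : 2 * η + 2 * n + 2 ≤ ε * M) :
    T ^ η * X ^ ((n : ℝ) + 1 - s) * (T ^ 2 / (T ^ ε) ^ M) ≤ T ^ (-η) := by
  have hT0 : 0 < T := by linarith
  have h1 : X ^ ((n : ℝ) + 1 - s) ≤ T ^ (2 * (n : ℝ)) := by
    calc X ^ ((n : ℝ) + 1 - s) ≤ X ^ (n : ℝ) :=
          Real.rpow_le_rpow_of_exponent_le hX (by linarith)
      _ ≤ (T ^ 2) ^ (n : ℝ) := Real.rpow_le_rpow (by linarith) hX2 (by positivity)
      _ = T ^ (2 * (n : ℝ)) := by
          rw [Real.rpow_mul hT0.le]; norm_num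
  have h2 : T ^ 2 / (T ^ ε) ^ M = T ^ (2 - ε * M) := by
    rw [Real.rpow_sub hT0, Real.rpow_mul hT0.le, Real.rpow_natCast]; norm_num
  rw [h2]
  calc T ^ η * X ^ ((n : ℝ) + 1 - s) * T ^ (2 - ε * M)
      ≤ T ^ η * T ^ (2 * (n : ℝ)) * T ^ (2 - ε * M) := by gcongr
    _ = T ^ (η + 2 * n + (2 - ε * M)) := by rw [Real.rpow_add hT0, Real.rpow_add hT0]
    _ ≤ T ^ (-η) := Real.rpow_le_rpow_of_exponent_le hT (by linarith only [hM])

lemma h11_err2 {T ε η : ℝ} {n M : ℕ} (hT : 1 ≤ T) (hη : 0 < η)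
    (hM : 2 * η + 2 * n + 2 ≤ ε * M) : T / (T ^ ε) ^ M ≤ T ^ (-η) := by
  have hT0 : 0 < T := by linarith
  have h2 : T / (T ^ ε) ^ M = T ^ (1 - ε * M) := by
    rw [Real.rpow_sub hT0, Real.rpow_mul hT0.le, Real.rpow_natCast]; norm_num
  have hn : (0 : ℝ) ≤ n := Nat.cast_nonneg n
  rw [h2]
  exact Real.rpow_le_rpow_of_exponent_le hT (by linarith only [hη, hM])

lemma h11_beta {T η X s γ A : ℝ} {n : ℕ} (hT : 0 < T) (hX : 0 < X) (hγ : 0 < γ) (hA : 0 ≤ A)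
    (hr : 1 / X ≤ γ) :
    X ^ n / (T ^ η * X ^ ((n : ℝ) + 1 - s) * γ) * (A * (1 / X + γ) * (1 / X) ^ (s - 1)) ≤
      2 * A * T ^ (-η) := by
  have h1 : X ^ n = X ^ ((n : ℝ) + 1 - s) * X ^ (s - 1) := by
    rw [← Real.rpow_add hX, ← Real.rpow_natCast]; congr 1; ring
  have h2 : (1 / X) ^ (s - 1) = (X ^ (s - 1))⁻¹ := by
    rw [one_div, Real.inv_rpow hX.le]
  have p1 : 0 < X ^ ((n : ℝ) + 1 - s) := Real.rpow_pos_of_pos hX _
  have p2 : 0 < X ^ (s - 1) := Real.rpow_pos_of_pos hX _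
  have p3 : 0 < T ^ η := Real.rpow_pos_of_pos hT _
  rw [h1, h2, Real.rpow_neg hT.le]
  have h3 : X ^ ((n : ℝ) + 1 - s) * X ^ (s - 1) / (T ^ η * X ^ ((n : ℝ) + 1 - s) * γ) *
      (A * (1 / X + γ) * (X ^ (s - 1))⁻¹) = A * ((1 / X + γ) / γ) * (T ^ η)⁻¹ := by
    generalize 1 / X = r
    field_simp
  have h4 : (1 / X + γ) / γ ≤ 2 := by rw [div_le_iff₀ hγ]; linarith only [hr]
  rw [h3]
  calc A * ((1 / X + γ) / γ) * (T ^ η)⁻¹ ≤ A * 2 * (T ^ η)⁻¹ := by gcongr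
    _ = 2 * A * (T ^ η)⁻¹ := by ring

lemma h11_alpha {T ε δ s γ A C1 : ℝ} {n : ℕ} (hT : 1 ≤ T) (hγ : 0 < γ) (hA : 0 ≤ A)
    (hC : 0 < C1) (hε : 0 < ε) (hδ : 0 < δ) (hd : 2 * δ = 2 * s - n - 3)
    (hεδ : ε * (2 * n + 3 * s) ≤ δ / 2) (hL : (T ^ ε) ^ 2 ≤ T * γ ^ 2) :
    T ^ (δ / 4) * (T * γ * (T ^ ε) ^ 2) ^ ((n : ℝ) + 1 - s) *
      (T * (A * (C1 * (T ^ ε) ^ 5 / (T * γ) + γ) * (C1 * (T ^ ε) ^ 5 / (T * γ)) ^ (s - 1))) ≤
      A * (C1 + 1) * C1 ^ (s - 1) * T ^ (-(δ / 4)) := by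
  have hT0 : 0 < T := by linarith only [hT]
  have hΛ : 1 ≤ T ^ ε := Real.one_le_rpow hT hε.le
  have hl : 0 < T * γ := mul_pos hT0 hγ
  set Λ := T ^ ε with hΛd
  have hΛ0 : 0 < Λ := by linarith only [hΛ]
  have h1 : C1 * Λ ^ 5 / (T * γ) + γ ≤ (C1 + 1) * (Λ ^ 3 * γ) := by
    have a1 : C1 * Λ ^ 5 / (T * γ) ≤ C1 * (Λ ^ 3 * γ) := by
      rw [div_le_iff₀ hl]
      calc C1 * Λ ^ 5 = C1 * Λ ^ 3 * Λ ^ 2 := by ring
        _ ≤ C1 * Λ ^ 3 * (T * γ ^ 2) := by gcongr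
        _ = C1 * (Λ ^ 3 * γ) * (T * γ) := by ring
    have a2 : γ ≤ Λ ^ 3 * γ := le_mul_of_one_le_left hγ.le (one_le_pow₀ hΛ)
    linarith only [a1, a2]
  have h2 : (C1 * Λ ^ 5 / (T * γ)) ^ (s - 1) = C1 ^ (s - 1) * (Λ ^ 5 / (T * γ)) ^ (s - 1) := by
    rw [mul_div_assoc, Real.mul_rpow hC.le (by positivity)]
  have hu : 0 ≤ Real.log T := Real.log_nonneg hT
  have hlΛ : Real.log Λ = ε * Real.log T := by rw [hΛd, Real.log_rpow hT0]
  have hv : Real.log T ≤ 2 * Real.log (T * γ) := by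
    have : T ≤ (T * γ) ^ 2 := by
      calc T = T * 1 := by ring
        _ ≤ T * Λ ^ 2 := by gcongr; exact one_le_pow₀ hΛ
        _ ≤ T * (T * γ ^ 2) := by gcongr
        _ = (T * γ) ^ 2 := by ring
    have h := Real.log_le_log hT0 this
    rwa [Real.log_pow] at h
  have key : T ^ (δ / 4) * (T * γ * Λ ^ 2) ^ ((n : ℝ) + 1 - s) * (T * γ) * Λ ^ 3 *
      (Λ ^ 5 / (T * γ)) ^ (s - 1) ≤ T ^ (-(δ / 4)) := by
    rw [← Real.log_le_log_iff (by positivity) (by positivity)]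
    rw [Real.log_mul (by positivity) (by positivity), Real.log_mul (by positivity) (by positivity),
      Real.log_mul (by positivity) (by positivity), Real.log_mul (by positivity) (by positivity),
      Real.log_rpow hT0, Real.log_rpow hT0, Real.log_rpow (by positivity),
      Real.log_rpow (by positivity), Real.log_div (by positivity) (by positivity),
      Real.log_mul hl.ne' (by positivity), Real.log_pow, Real.log_pow, Real.log_pow, hlΛ]
    generalize Real.log (T * γ) = v at hv ⊢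
    generalize Real.log T = u at hu hv ⊢
    have b1 : δ * u ≤ δ * (2 * v) := by gcongr
    have b2 : ε * (2 * n + 3 * s) * u ≤ δ / 2 * u := by gcongr
    have b3 : (2 * δ) * v = (2 * s - n - 3) * v := by rw [hd]
    push_cast
    linarith only [b1, b2, b3]
  have p1 : 0 ≤ C1 ^ (s - 1) := by positivity
  calc _ ≤ T ^ (δ / 4) * (T * γ * Λ ^ 2) ^ ((n : ℝ) + 1 - s) *
      (T * (A * ((C1 + 1) * (Λ ^ 3 * γ)) * (C1 * Λ ^ 5 / (T * γ)) ^ (s - 1))) := by gcongr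
    _ = A * (C1 + 1) * C1 ^ (s - 1) * (T ^ (δ / 4) * (T * γ * Λ ^ 2) ^ ((n : ℝ) + 1 - s) *
      (T * γ) * Λ ^ 3 * (Λ ^ 5 / (T * γ)) ^ (s - 1)) := by rw [h2]; ring
    _ ≤ _ := by gcongr

/-- Numerics. `n = finrank`, `2δ = 2s - n - 3`, `η = δ/4`, `ε1 = min (1/2) (δ/(2(2n + 3s)))`,
`ε M ≥ 2η + 2n + 2`, `Λ = T^ε ≥ max 2 (2/a0)`, `ℓ = T γ ≥ T^(1/2)`, `r = 1/(ℓ Λ²) ≤ γ`,
`ρ = C1 Λ⁵/ℓ ≤ C1 Λ³ γ`, `θ = T^η r^(s-1-n)`. Then the `β` term is at most `2 A T^(-η)`,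
`θ T A (ρ+γ) ρ^(s-1) ≤ C T^η ℓ^(-2δ) Λ^(2n+3s)`, and `1 ≤ ℓ Λ² ≤ T²` handles the error terms. -/
lemma HI {R A s a0 : ℝ} (hR : 1 ≤ R) (hA : 0 ≤ A) (ha : 0 < a0)
    (hs : (finrank ℝ V : ℝ) + 3 < 2 * s) :
    ∃ ε1 η : ℝ, 0 < ε1 ∧ 0 < η ∧ ∀ ε : ℝ, 0 < ε → ε ≤ ε1 → ∃ (M : ℕ) (T1 C : ℝ), 2 ≤ M ∧ 1 ≤ T1 ∧
      0 ≤ C ∧ ∀ (γ T t : ℝ) (e : V) (α β : Measure V), 0 < γ → γ ≤ 1 → T1 ≤ T →
        T ^ (2 * ε) ≤ T * γ ^ 2 → a0 ≤ t → ‖e‖ ≤ R → α univ ≤ ENNReal.ofReal A →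
        β univ ≤ ENNReal.ofReal A → (∀ᵐ a ∂α, ‖a‖ ≤ R) → (∀ᵐ b ∂β, ‖b‖ ≤ R) →
        (∀ r, 0 < r → QQ α r ≤ ENNReal.ofReal (A * (r + γ) * r ^ (s - 1))) →
        (∀ r, 0 < r → QQ β r ≤ ENNReal.ofReal (A * (r + γ) * r ^ (s - 1))) →
        ‖∫ b, ∫ a, Ker M γ e T t a b ∂α ∂β‖ ≤ C * T ^ (-η) := by
  set n := finrank ℝ V with hn
  have hn0 : (0 : ℝ) ≤ n := Nat.cast_nonneg n
  set δ : ℝ := (2 * s - n - 3) / 2 with hδd
  have hδ : 0 < δ := by rw [hδd]; linarith only [hs]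
  have hs1 : 1 ≤ s := by linarith only [hs]
  have hD : 0 < 2 * (n : ℝ) + 3 * s := by linarith only [hs]
  refine ⟨δ / (2 * (2 * n + 3 * s)), δ / 4, by positivity, by positivity, fun ε hε hε1 => ?_⟩
  have hεδ : ε * (2 * n + 3 * s) ≤ δ / 2 := by
    rw [le_div_iff₀ (by positivity)] at hε1
    linarith only [hε1]
  obtain ⟨M0, hM0⟩ := exists_nat_ge ((2 * (δ / 4) + 2 * n + 2) / ε)
  have hM : 2 * (δ / 4) + 2 * n + 2 ≤ ε * ((M0 + 2 : ℕ) : ℝ) := by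
    rw [div_le_iff₀ hε] at hM0
    push_cast
    have : ε * ((M0 : ℝ) + 2) = M0 * ε + 2 * ε := by ring
    linarith only [hε, hM0]
  obtain ⟨C, C1, hC, hC1, H⟩ := HIcore (V := V) (M := M0 + 2) (by omega) hR ha
  set K : ℝ := max 2 (2 / a0) with hK
  have hK2 : 2 ≤ K := le_max_left _ _
  have pC : 0 ≤ C1 ^ (s - 1) := by positivity
  refine ⟨M0 + 2, K ^ (1 / ε), C * (A ^ 2 + A * (C1 + 1) * C1 ^ (s - 1) + 2 * A + A * A),
    by omega, Real.one_le_rpow (by linarith only [hK2]) (by positivity), by positivity, ?_⟩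
  intro γ T t e α β hγ hγ1 hT1 hTγ ht he hα hβ hαR hβR hQα hQβ
  have : IsFiniteMeasure α := ⟨hα.trans_lt ENNReal.ofReal_lt_top⟩
  have : IsFiniteMeasure β := ⟨hβ.trans_lt ENNReal.ofReal_lt_top⟩
  have hT : 1 ≤ T := (Real.one_le_rpow (by linarith only [hK2]) (by positivity)).trans hT1
  have hT0 : 0 < T := by linarith only [hT]
  have hKΛ : K ≤ T ^ ε := by
    calc K = (K ^ (1 / ε)) ^ ε := by
          rw [← Real.rpow_mul (by linarith only [hK2]), one_div_mul_cancel hε.ne', Real.rpow_one]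
      _ ≤ T ^ ε := Real.rpow_le_rpow (by positivity) hT1 hε.le
  have hΛ2 : 2 ≤ T ^ ε := hK2.trans hKΛ
  have hΛa : 2 ≤ a0 * T ^ ε := by
    have : 2 / a0 ≤ T ^ ε := (le_max_right _ _).trans hKΛ
    rw [div_le_iff₀ ha] at this
    linarith only [this]
  have hL : (T ^ ε) ^ 2 ≤ T * γ ^ 2 := by
    rw [← Real.rpow_natCast, ← Real.rpow_mul hT0.le]
    simpa only [Nat.cast_ofNat, mul_comm] using hTγ
  have hΛ1 : 1 ≤ (T ^ ε) ^ 2 := one_le_pow₀ (by linarith only [hK2, hKΛ])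
  have hγ2 : T * γ ^ 2 ≤ T * γ := by
    have : γ ^ 2 ≤ γ := pow_le_of_le_one hγ.le hγ1 two_ne_zero
    gcongr
  have hTγ1 : T * γ ≤ T := mul_le_of_le_one_right hT0.le hγ1
  have hX1 : 1 ≤ T * γ * (T ^ ε) ^ 2 := one_le_mul_of_one_le_of_one_le (by linarith only [hL, hΛ1, hγ2]) hΛ1
  have hX2 : T * γ * (T ^ ε) ^ 2 ≤ T ^ 2 := by
    calc T * γ * (T ^ ε) ^ 2 ≤ T * T := by
          apply mul_le_mul hTγ1 (by linarith only [hL, hγ2, hTγ1]) (by positivity) hT0.le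
      _ = T ^ 2 := by ring
  have hr : 1 / (T * γ * (T ^ ε) ^ 2) ≤ γ := by
    rw [div_le_iff₀ (by positivity)]
    calc (1 : ℝ) ≤ T * γ ^ 2 * (T ^ ε) ^ 2 := one_le_mul_of_one_le_of_one_le (by linarith only [hL, hΛ1]) hΛ1
      _ = γ * (T * γ * (T ^ ε) ^ 2) := by ring
  have e1 := h11_err (n := n) (M := M0 + 2) (ε := ε) (η := δ / 4) hT hX1 hX2 hs1 hM
  have e2 := h11_err2 (n := n) (M := M0 + 2) (ε := ε) (η := δ / 4) hT (by positivity) hM
  have e3 := h11_beta (n := n) (η := δ / 4) (s := s) hT0 (by linarith only [hX1]) hγ hA hr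
  have e4 := h11_alpha (n := n) hT hγ hA hC1 hε hδ (by rw [hδd]; ring) hεδ hL
  set θ : ℝ := T ^ (δ / 4) * (T * γ * (T ^ ε) ^ 2) ^ ((n : ℝ) + 1 - s) with hθ
  have hθ0 : 0 < θ := by positivity
  have H1 := H γ T (T ^ ε) t θ e α β hγ hγ1 he hαR hβR hΛ2 hΛa hL ht hθ0
  have q1 := hQα (C1 * (T ^ ε) ^ 5 / (T * γ)) (by positivity)
  have q2 := hQβ (1 / (T * γ * (T ^ ε) ^ 2)) (by positivity)
  set ρ : ℝ := C1 * (T ^ ε) ^ 5 / (T * γ) with hρ
  have hρ0 : 0 < ρ := by positivity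
  set r : ℝ := 1 / (T * γ * (T ^ ε) ^ 2) with hrd
  have hr0 : 0 < r := by positivity
  set E1 : ℝ := T ^ 2 / (T ^ ε) ^ (M0 + 2) with hE1
  have hE10 : 0 ≤ E1 := by positivity
  set E2 : ℝ := T / (T ^ ε) ^ (M0 + 2) with hE2
  have hE20 : 0 ≤ E2 := by positivity
  set E3 : ℝ := (T * γ * (T ^ ε) ^ 2) ^ n / (θ * γ) with hE3
  have hE30 : 0 ≤ E3 := by positivity
  set Qa : ℝ := A * (ρ + γ) * ρ ^ (s - 1) with hQa
  have hQa0 : 0 ≤ Qa := by positivity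
  set Qb : ℝ := A * (r + γ) * r ^ (s - 1) with hQb
  have hQb0 : 0 ≤ Qb := by positivity
  have H2 : ‖∫ b, ∫ a, Ker (M0 + 2) γ e T t a b ∂α ∂β‖ₑ ≤
      ENNReal.ofReal (C * (θ * (E1 * A ^ 2 + T * Qa) + E3 * Qb + E2 * (A * A))) := by
    refine H1.trans ?_
    rw [ENNReal.ofReal_mul hC, ENNReal.ofReal_add (by positivity) (by positivity),
      ENNReal.ofReal_add (by positivity) (by positivity), ENNReal.ofReal_mul hθ0.le,
      ENNReal.ofReal_add (by positivity) (by positivity), ENNReal.ofReal_mul hE10,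
      ENNReal.ofReal_mul hT0.le, ENNReal.ofReal_mul hE30, ENNReal.ofReal_mul hE20,
      ENNReal.ofReal_mul hA, ENNReal.ofReal_pow hA]
    gcongr
  rw [← ofReal_norm, ENNReal.ofReal_le_ofReal_iff (by positivity)] at H2
  refine H2.trans ?_
  have f1 : θ * E1 * A ^ 2 ≤ T ^ (-(δ / 4)) * A ^ 2 := by gcongr
  have f2 : E2 * (A * A) ≤ T ^ (-(δ / 4)) * (A * A) := by gcongr
  rw [mul_assoc C]
  refine mul_le_mul_of_nonneg_left ?_ hC
  have g : θ * (E1 * A ^ 2 + T * Qa) = θ * E1 * A ^ 2 + θ * (T * Qa) := by ring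
  have g' : (A ^ 2 + A * (C1 + 1) * C1 ^ (s - 1) + 2 * A + A * A) * T ^ (-(δ / 4)) =
      T ^ (-(δ / 4)) * A ^ 2 + A * (C1 + 1) * C1 ^ (s - 1) * T ^ (-(δ / 4)) +
        2 * A * T ^ (-(δ / 4)) + T ^ (-(δ / 4)) * (A * A) := by ring
  rw [g, g']
  exact add_le_add (add_le_add (add_le_add f1 e4) e3) f2

end Pool.Agent.MP_83cc0d_an.Cd

end

-- part P2
section

namespace Pool.Agent.MP_83cc0d_an.Cd

open MeasureTheory Complex Filter Topology Metric Module Set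
open scoped ENNReal InnerProductSpace ComplexConjugate

variable {V : Type} [NormedAddCommGroup V] [InnerProductSpace ℝ V] [FiniteDimensional ℝ V]
  [MeasurableSpace V] [BorelSpace V]

lemma p2_proj {n : ℕ} {z : EuclideanSpace ℝ (Fin (n + 1))} (hz : z ≠ 0) :
    ∃ P : EuclideanSpace ℝ (Fin (n + 1)) →ₗ[ℝ] EuclideanSpace ℝ (Fin n),
      ∀ x y, ⟪P x, P y⟫_ℝ = BB z x y := by
  obtain ⟨P, hP⟩ := exists_proj hz
  have h0 : 0 < ‖z‖ := norm_pos_iff.2 hz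
  refine ⟨√‖z‖ • P, fun x y => ?_⟩
  simp only [LinearMap.smul_apply, inner_smul_left, inner_smul_right, conj_trivial, hP, BB]
  rw [← mul_assoc, Real.mul_self_sqrt h0.le]
  field_simp

omit [FiniteDimensional ℝ V] [MeasurableSpace V] [BorelSpace V] in
lemma p2_BB_comm (z x y : V) : BB z x y = BB z y x := by
  unfold BB; rw [real_inner_comm x y]; ring

omit [FiniteDimensional ℝ V] [MeasurableSpace V] [BorelSpace V] in
lemma p2_BB_self {z : V} (hz : z ≠ 0) (x : V) :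
    BB z x x = ‖z‖ * (‖x‖ ^ 2 - ⟪‖z‖⁻¹ • z, x⟫_ℝ ^ 2) := by
  have h0 : 0 < ‖z‖ := norm_pos_iff.2 hz
  unfold BB
  rw [real_inner_self_eq_norm_sq, inner_smul_left, conj_trivial]
  field_simp

section W

variable {W : Type} [NormedAddCommGroup W] [InnerProductSpace ℝ W] [FiniteDimensional ℝ W]
  [MeasurableSpace W] [BorelSpace W]

omit [FiniteDimensional ℝ V] [MeasurableSpace V] [BorelSpace V] [FiniteDimensional ℝ W]
  [MeasurableSpace W] [BorelSpace W] in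
lemma p2_norm {z : V} (hz : z ≠ 0) {P : V →ₗ[ℝ] W} (hP : ∀ x y, ⟪P x, P y⟫_ℝ = BB z x y) {R : ℝ}
    (hR : 1 ≤ R) (hzR : ‖z‖ ≤ R) {x : V} (hx : ‖x‖ ≤ R) : ‖P x‖ ≤ R ^ 2 := by
  have h1 : ‖P x‖ ^ 2 = ‖z‖ * (‖x‖ ^ 2 - ⟪‖z‖⁻¹ • z, x⟫_ℝ ^ 2) := by
    rw [← real_inner_self_eq_norm_sq, hP, p2_BB_self hz]
  have h2 : ‖P x‖ ^ 2 ≤ (R ^ 2) ^ 2 := by
    rw [h1]
    have hx2 : ‖x‖ ^ 2 ≤ R ^ 2 := by gcongr
    calc ‖z‖ * (‖x‖ ^ 2 - ⟪‖z‖⁻¹ • z, x⟫_ℝ ^ 2) ≤ ‖z‖ * R ^ 2 := by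
          gcongr; nlinarith only [hx2]
      _ ≤ R ^ 2 * R ^ 2 := by gcongr; nlinarith only [hR, hzR]
      _ = _ := by ring
  exact (pow_le_pow_iff_left₀ (norm_nonneg _) (by positivity) two_ne_zero).1 h2

omit [FiniteDimensional ℝ W] [MeasurableSpace W] [BorelSpace W] in
lemma p2_ker {z : V} (hz : z ≠ 0) {P : V →ₗ[ℝ] W} (hP : ∀ x y, ⟪P x, P y⟫_ℝ = BB z x y) (M : ℕ)
    (γ T t : ℝ) (e x y : V) :
    Ker M γ (P e) T t (P x) (P y) =
      (T : ℂ) * rho M ((T * (G3 (z, x, y) - t) : ℝ) : ℂ) * (W3 M γ e (z, x, y) : ℝ) := by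
  have h1 : ph (P x) (P y) = G3 (z, x, y) := by
    rw [G3_eq hz, ph, ← real_inner_self_eq_norm_sq, ← real_inner_self_eq_norm_sq, hP, hP, hP]
  have h2 : Wt M γ (P e) (P x) (P y) = W3 M γ e (z, x, y) := by
    simp only [Wt, W3, wt, inner_sb, ← real_inner_self_eq_norm_sq, hP, p2_BB_comm z y x]
  rw [Ker, h1, h2]

lemma p2_QQ {μ : Measure V} {R A s κ c γ : ℝ} (hA : 0 ≤ A) (hκ : 0 < κ) (hc : 0 ≤ c)
    (hγ : 0 < γ) (h : Cl μ R A s) {z : V} (hz : κ ≤ ‖z‖) {P : V →ₗ[ℝ] W}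
    (hP : ∀ x y, ⟪P x, P y⟫_ℝ = BB z x y) {r : ℝ} (hr : 0 < r) :
    QQ ((μ.restrict {x | |⟪x, z⟫_ℝ| ≤ c * γ}).map P) r ≤
      ENNReal.ofReal ((A + 3 * A * (2 * c / κ + 1 / √κ) / √κ ^ (s - 1)) * (r + γ) * r ^ (s - 1)) := by
  have := h.fin
  have h0 : 0 < ‖z‖ := hκ.trans_le hz
  have hz0 : z ≠ 0 := norm_pos_iff.1 h0
  have hk : 0 < √κ := Real.sqrt_pos.2 hκ
  have hS : MeasurableSet {x : V | |⟪x, z⟫_ℝ| ≤ c * γ} :=
    (isClosed_le (by fun_prop) continuous_const).measurableSet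
  have hm : Measurable (P : V → W) := P.continuous_of_finiteDimensional.measurable
  have hn : ‖‖z‖⁻¹ • z‖ = 1 := norm_smul_inv_norm (𝕜 := ℝ) hz0
  refine (QQ_tube (e := ‖z‖⁻¹ • z) (c := √κ) (l := c * γ / κ) (A := A) (s := s) _ hm
    hn hk (by positivity) hA (fun x y => ?_) ?_
    (h.restrict _).pair hr).trans (ENNReal.ofReal_le_ofReal ?_)
  · rw [← map_sub, ← real_inner_self_eq_norm_sq (P (x - y)), hP, p2_BB_self hz0,
      Real.sq_sqrt hκ.le]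
    have h1 := abs_real_inner_le_norm (‖z‖⁻¹ • z) (x - y)
    rw [hn, one_mul] at h1
    have h2 := sq_le_sq' (abs_le.1 h1).1 (abs_le.1 h1).2
    exact mul_le_mul_of_nonneg_right hz (by linarith only [h2])
  · filter_upwards [ae_restrict_mem hS] with x hx
    rw [inner_smul_left, conj_trivial, abs_mul, abs_inv, abs_norm, real_inner_comm]
    have hx' : |⟪x, z⟫_ℝ| ≤ c * γ := hx
    calc ‖z‖⁻¹ * |⟪x, z⟫_ℝ| ≤ κ⁻¹ * (c * γ) := by gcongr
      _ = _ := by ring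
  · rw [Real.div_rpow hr.le hk.le]
    have hp : 0 < √κ ^ (s - 1) := by positivity
    have hq : 0 < r ^ (s - 1) := by positivity
    have h1 : 2 * (c * γ / κ) + r / √κ ≤ (2 * c / κ + 1 / √κ) * (r + γ) := by
      have : 0 ≤ 2 * c / κ * r + 1 / √κ * γ := by positivity
      have e1 : (2 * c / κ + 1 / √κ) * (r + γ) =
          2 * (c * γ / κ) + r / √κ + (2 * c / κ * r + 1 / √κ * γ) := by ring
      linarith
    calc 3 * A * (2 * (c * γ / κ) + r / √κ) * (r ^ (s - 1) / √κ ^ (s - 1))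
        ≤ 3 * A * ((2 * c / κ + 1 / √κ) * (r + γ)) * (r ^ (s - 1) / √κ ^ (s - 1)) := by gcongr
      _ = (0 + 3 * A * (2 * c / κ + 1 / √κ) / √κ ^ (s - 1)) * (r + γ) * r ^ (s - 1) := by ring
      _ ≤ _ := by gcongr

lemma p2_inner {μ2 μ3 : Measure V} {R A s c γ : ℝ} (hR : 1 ≤ R) (h2 : Cl μ2 R A s)
    (h3 : Cl μ3 R A s) {z : V} (hz : z ≠ 0) (hzR : ‖z‖ ≤ R) {P : V →ₗ[ℝ] W}
    (hP : ∀ x y, ⟪P x, P y⟫_ℝ = BB z x y) (M : ℕ) (T t : ℝ) (e : V) :
    ∫ q, (T : ℂ) * rho M ((T * (G3 (z, q) - t) : ℝ) : ℂ) * (pw M γ c e (z, q) : ℝ) ∂μ2.prod μ3 =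
      ∫ b, ∫ a, Ker M γ (P e) T t a b ∂(μ2.restrict {x | |⟪x, z⟫_ℝ| ≤ c * γ}).map P
        ∂(μ3.restrict {x | |⟪x, z⟫_ℝ| ≤ c * γ}).map P := by
  have := h2.fin
  have := h3.fin
  set S : Set V := {x | |⟪x, z⟫_ℝ| ≤ c * γ} with hSdef
  have hS : MeasurableSet S := (isClosed_le (by fun_prop) continuous_const).measurableSet
  have hcP : Continuous (P : V → W) := P.continuous_of_finiteDimensional
  have hm : Measurable (P : V → W) := hcP.measurable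
  have hb : ∀ μ : Measure V, Cl μ R A s →
      ∀ᵐ a ∂(μ.restrict S).map P, a ∈ closedBall (0 : W) (R ^ 2) := by
    intro μ h
    refine (ae_map_iff hm.aemeasurable measurableSet_closedBall).2 ?_
    filter_upwards [(h.restrict S).bdd] with x hx
    rw [dist_zero_right]
    exact p2_norm hz hP hR hzR hx
  have hi : Integrable (fun p : W × W => Ker M γ (P e) T t p.1 p.2)
      (((μ2.restrict S).map P).prod ((μ3.restrict S).map P)) :=
    int_of_compact ((isCompact_closedBall (0 : W) (R ^ 2)).prod (isCompact_closedBall 0 (R ^ 2)))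
      ((Measure.quasiMeasurePreserving_fst.ae (hb _ h2)).and
        (Measure.quasiMeasurePreserving_snd.ae (hb _ h3))) (cont_Ker M γ (P e) T t)
  rw [← integral_prod_symm _ hi, Measure.map_prod_map _ _ hm hm,
    integral_map (hm.prodMap hm).aemeasurable (cont_Ker M γ (P e) T t).aestronglyMeasurable,
    Measure.prod_restrict, ← integral_indicator (hS.prod hS)]
  refine integral_congr_ae (Eventually.of_forall fun q => ?_)
  obtain ⟨x, y⟩ := q
  by_cases hq : (x, y) ∈ S ×ˢ S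
  · have hq' : ((z, x, y) : V × V × V) ∈
        {p : V × V × V | |⟪p.2.1, p.1⟫_ℝ| ≤ c * γ ∧ |⟪p.2.2, p.1⟫_ℝ| ≤ c * γ} := hq
    simp only [pw, indicator_of_mem hq, indicator_of_mem hq', Prod.map]
    exact (p2_ker hz hP M γ T t e x y).symm
  · have hq' : ((z, x, y) : V × V × V) ∉
        {p : V × V × V | |⟪p.2.1, p.1⟫_ℝ| ≤ c * γ ∧ |⟪p.2.2, p.1⟫_ℝ| ≤ c * γ} := hq
    simp only [pw, indicator_of_notMem hq, indicator_of_notMem hq', Complex.ofReal_zero, mul_zero]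

end W

/-- Fubini in `z = p.1`. For `κ ≤ ‖z‖ ≤ R` take `P` from `exists_proj`, `P' = √‖z‖ • P`, so
`⟪P' x, P' y⟫ = BB z x y`, `ph (P' x) (P' y) = G3 (z, x, y)` (`G3_eq`),
`Wt M γ (P' e) (P' x) (P' y) = W3 M γ e (z, x, y)` (`inner_sb`). With
`α = (μ2.restrict {x | |⟪x,z⟫| ≤ c γ}).map P'`, `β` likewise from `μ3`, the inner integral is
`∫ b, ∫ a, Ker .. dα dβ`. Apply `HI` in `ℝ^n` with radius `R²`; the pair bounds come from
`QQ_tube` (`e = ‖z‖⁻¹ z`, constant `√κ`, `l = c γ/κ`). -/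
lemma pieceT {n : ℕ} {R A s κ c a : ℝ} (hR : 1 ≤ R) (hA : 0 ≤ A) (hκ : 0 < κ) (hc : 0 ≤ c)
    (ha : 0 < a) (hs : (n : ℝ) + 3 < 2 * s) :
    ∃ ε1 η : ℝ, 0 < ε1 ∧ 0 < η ∧ ∀ ε : ℝ, 0 < ε → ε ≤ ε1 → ∃ (M : ℕ) (T1 C : ℝ), 2 ≤ M ∧ 1 ≤ T1 ∧
      0 ≤ C ∧ ∀ μ1 μ2 μ3 : Measure (EuclideanSpace ℝ (Fin (n + 1))), Ck μ1 R A s κ →
        Ck μ2 R A s κ → Ck μ3 R A s κ → ∀ (γ T t : ℝ) (e : EuclideanSpace ℝ (Fin (n + 1))),
        0 < γ → γ ≤ 1 → T1 ≤ T → T ^ (2 * ε) ≤ T * γ ^ 2 → a ≤ t → ‖e‖ ≤ 1 →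
        ‖∫ p, (T : ℂ) * rho M ((T * (G3 p - t) : ℝ) : ℂ) * (pw M γ c e p : ℝ)
          ∂μ1.prod (μ2.prod μ3)‖ ≤ C * T ^ (-η) := by
  set A' : ℝ := A + 3 * A * (2 * c / κ + 1 / √κ) / √κ ^ (s - 1) with hA'
  have hAA : A ≤ A' := by
    have : 0 ≤ 3 * A * (2 * c / κ + 1 / √κ) / √κ ^ (s - 1) := by positivity
    linarith only [this]
  have hR2 : 1 ≤ R ^ 2 := one_le_pow₀ hR
  obtain ⟨ε1, η, hε1, hη, H⟩ := HI (V := EuclideanSpace ℝ (Fin n)) (R := R ^ 2) (A := A') (s := s)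
    (a0 := a) hR2 (hA.trans hAA) ha (by simpa only [finrank_euclideanSpace, Fintype.card_fin] using hs)
  refine ⟨ε1, η, hε1, hη, fun ε hε hε' => ?_⟩
  obtain ⟨M, T1, C, hM, hT1, hC, H⟩ := H ε hε hε'
  refine ⟨M, T1, C * A, hM, hT1, by positivity,
    fun μ1 μ2 μ3 h1 h2 h3 γ T t e hγ hγ1 hT hTε hat he => ?_⟩
  have := h1.1.fin
  have := h2.1.fin
  have := h3.1.fin
  have hT0 : 0 < T := by linarith only [hT1, hT]
  have hi : Integrable (fun p => (T : ℂ) * rho M ((T * (G3 p - t) : ℝ) : ℂ) * (pw M γ c e p : ℝ))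
      (μ1.prod (μ2.prod μ3)) := by
    refine Integrable.bdd_mul (c := T) (int_pw hR h1.1 h2.1 h3.1 M γ c he).ofReal ?_
      (Eventually.of_forall fun p => ?_)
    · exact (continuous_const.mul ((cont_rho M).comp
        (continuous_const.mul (cont_G3.sub continuous_const)))).aestronglyMeasurable
    · rw [norm_mul, Complex.norm_real, Real.norm_of_nonneg hT0.le]
      exact mul_le_of_le_one_right hT0.le (norm_rho_le_one M _)
  rw [integral_prod _ hi]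
  have hb : ∀ᵐ z ∂μ1, ‖∫ q, (T : ℂ) * rho M ((T * (G3 (z, q) - t) : ℝ) : ℂ) *
      (pw M γ c e (z, q) : ℝ) ∂μ2.prod μ3‖ ≤ C * T ^ (-η) := by
    filter_upwards [h1.1.bdd, h1.2] with z hzR hzκ
    have hz : z ≠ 0 := norm_pos_iff.1 (hκ.trans_le hzκ)
    obtain ⟨P, hP⟩ := p2_proj hz
    have hm : Measurable (P : _ → EuclideanSpace ℝ (Fin n)) :=
      P.continuous_of_finiteDimensional.measurable
    have hmass : ∀ μ : Measure (EuclideanSpace ℝ (Fin (n + 1))), Cl μ R A s →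
        ((μ.restrict {x | |⟪x, z⟫_ℝ| ≤ c * γ}).map P) univ ≤ ENNReal.ofReal A' := by
      intro μ h
      rw [Measure.map_apply hm MeasurableSet.univ, preimage_univ]
      exact (h.restrict _).mass.trans (ENNReal.ofReal_le_ofReal hAA)
    have hbd : ∀ μ : Measure (EuclideanSpace ℝ (Fin (n + 1))), Cl μ R A s →
        ∀ᵐ a ∂(μ.restrict {x | |⟪x, z⟫_ℝ| ≤ c * γ}).map P, ‖a‖ ≤ R ^ 2 := by
      intro μ h
      refine (ae_map_iff hm.aemeasurable
        (isClosed_le continuous_norm continuous_const).measurableSet).2 ?_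
      filter_upwards [(h.restrict _).bdd] with x hx
      exact p2_norm hz hP hR hzR hx
    rw [p2_inner hR h2.1 h3.1 hz hzR hP]
    exact H γ T t (P e) _ _ hγ hγ1 hT hTε hat (p2_norm hz hP hR hzR (he.trans hR)) (hmass _ h2.1)
      (hmass _ h3.1) (hbd _ h2.1) (hbd _ h3.1) (fun r hr => p2_QQ hA hκ hc hγ h2.1 hzκ hP hr)
      fun r hr => p2_QQ hA hκ hc hγ h3.1 hzκ hP hr
  refine (norm_integral_le_of_norm_le_const hb).trans ?_
  have hm1 : μ1.real univ ≤ A := ENNReal.toReal_le_of_le_ofReal hA h1.1.mass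
  calc C * T ^ (-η) * μ1.real univ ≤ C * T ^ (-η) * A := by gcongr
    _ = _ := by ring

end Pool.Agent.MP_83cc0d_an.Cd

end
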