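import Mathlib
import Pool.Agent.MP_83cc0d_an.Cm.M1
import Pool.Agent.MP_83cc0d_an.Cm.M2

attribute [-instance] ProperSMul.toContinuousSMul
  MeasureTheory.Measure.instRegularOfIsAddHaarMeasureOfCompactSpace
  IdemSemiring.toCanonicallyOrderedAdd
  TopologicalSpace.instSecondCountableTopologyOfLindelofSpaceOfPseudoMetrizableSpace
  AddQuantale.instAddLeftMono MeasureTheory.instSFiniteOfCountable
  AlexandrovDiscrete.toLocallyCompactSpace Valued.toUniformSpace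
  MeasureTheory.Measure.IsAddHaarMeasure.sigmaFinite TotallySeparatedSpace.t2Space
  NumberField.to_charZero AddQuantale.instAddRightMono LieAdmissibleAlgebra.toModule
  LinearOrderedCommMonoidWithZero.toPosMulStrictMono NonUnitalNonAssocRing.toAddCommGroup
  NonUnitalNormedRing.toNonUnitalSeminormedRing GrpTypeEquivalenceGrp.grpGroup
  PolishSpace.toSecondCountableTopology Quantale.instMulRightMono Ring.toAddCommGroup
  NonarchimedeanAddGroup.toIsTopologicalAddGroup AddGroupWithOne.toAddGroup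
  IdemSemiring.toMulLeftMono Quantale.instMulLeftMono RightPreLieAlgebra.toModule
  LeftPreLieAlgebra.toModule continuousSub_of_discreteTopology
  NonUnitalNonAssocSemiring.toAddCommMonoid CStarAlgebra.instOrderClosedTopology
  NormedField.toNormedCommRing NonUnitalNormedCommRing.toNonUnitalSeminormedCommRing
  MeasureTheory.Measure.Regular.of_sigmaCompactSpace_of_isLocallyFiniteMeasure
  IsModuleTopology.toContinuousSMul IsOrderedCancelMonoid.toIsOrderedMonoid RKHS.instFunLike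
  UniformSpace.secondCountable_of_separable Topology.IsScott.instClosedIicTopologyOfUnivSet
  CanonicallyOrderedAdd.toMulLeftMono littleWedderburn LieRing.toAddCommGroup

set_option linter.unusedSectionVars false

-- part P4
section

namespace Pool.Agent.MP_83cc0d_an.Cd

open MeasureTheory Complex Filter Topology Metric Module Set
open scoped ENNReal InnerProductSpace ComplexConjugate

variable {V : Type} [NormedAddCommGroup V] [InnerProductSpace ℝ V] [FiniteDimensional ℝ V]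
  [MeasurableSpace V] [BorelSpace V]

/-- `lemH` with `Δ = γ`, `T0 = T1 γ^(-2/(1-2ε))`, where `ε ≤ ε1`, `ε ≤ 1/4` is so small that
`2/(1-2ε) < 2 + η` (`η` from `pieceP`); `T ≥ T0` gives `T^(2ε) ≤ T γ²`; `T0 γ ≥ γ⁻¹` gives
`((T0 γ)^M γ)⁻¹ ≤ γ`; `T0 ≥ γ^(-2)`. -/
lemma piece {n : ℕ} {R A s κ c a : ℝ} (hR : 1 ≤ R) (hA : 0 ≤ A) (hκ : 0 < κ) (hc : 0 ≤ c)
    (ha : 0 < a) (hs : (n : ℝ) + 3 < 2 * s) :
    ∃ (M : ℕ) (C η : ℝ), 0 ≤ C ∧ 0 < η ∧ ∀ μ1 μ2 μ3 : Measure (EuclideanSpace ℝ (Fin (n + 1))),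
      Ck μ1 R A s κ → Ck μ2 R A s κ → Ck μ3 R A s κ →
      ∀ (γ : ℝ) (e : EuclideanSpace ℝ (Fin (n + 1))), 0 < γ → γ ≤ 1 → ‖e‖ ≤ 1 →
        SD a (Phi (μ1.prod (μ2.prod μ3)) G3 (pw M γ c e)) ∧
        Lip a (Phi (μ1.prod (μ2.prod μ3)) G3 (pw M γ c e)) (C * γ ^ η) := by
  obtain ⟨ε1, η1, hε1, hη1, hT⟩ := pieceT (n := n) hR hA hκ hc ha hs
  have hs' : (finrank ℝ (EuclideanSpace ℝ (Fin (n + 1))) : ℝ) + 2 < 2 * s := by
    rw [finrank_euclideanSpace_fin]; push_cast; linarith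
  obtain ⟨η2, hη2, hη21, hP⟩ := pieceP (V := EuclideanSpace ℝ (Fin (n + 1))) hR hA hκ hc hs'
  obtain ⟨ε, hε0, hεa, hεb⟩ : ∃ ε : ℝ, 0 < ε ∧ ε ≤ ε1 ∧ ε ≤ η2 / 16 :=
    ⟨min ε1 (η2 / 16), lt_min hε1 (by positivity), min_le_left _ _, min_le_right _ _⟩
  obtain ⟨M, T1, C1, hM, hT1, hC1, hT⟩ := hT ε hε0 hεa
  obtain ⟨C2, hC2, hP⟩ := hP M
  have h12 : 0 < 1 - 2 * ε := by linarith only [hη21, hε0, hεb]
  obtain ⟨θ, hθ2, hθ3, hθ4⟩ : ∃ θ : ℝ, 2 ≤ θ ∧ θ ≤ 2 + η2 / 2 ∧ θ * (1 - 2 * ε) = 2 := by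
    refine ⟨2 / (1 - 2 * ε), ?_, ?_, by field_simp⟩
    · rw [le_div_iff₀ h12]; linarith only [hε0]
    · rw [div_le_iff₀ h12]; nlinarith only [hη21, hε0, hεb]
  obtain ⟨η, hη0, hηa, hηb⟩ : ∃ η : ℝ, 0 < η ∧ η ≤ η2 / 2 ∧ η ≤ η1 :=
    ⟨min (η2 / 2) η1, lt_min (by positivity) hη1, min_le_left _ _, min_le_right _ _⟩
  refine ⟨M, M * T1 * C2 + C2 + M * C1 / η1, η, by positivity, hη0, ?_⟩
  intro μ1 μ2 μ3 h1 h2 h3 γ e hγ hγ1 he
  have := h1.1.fin
  have := h2.1.fin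
  have := h3.1.fin
  have hg1 : 1 ≤ γ ^ (-θ) := Real.one_le_rpow_of_pos_of_le_one_of_nonpos hγ hγ1 (by linarith only [hη21, hε0, hεb, hθ2])
  have hgT : γ ^ (-θ) ≤ T1 * γ ^ (-θ) := le_mul_of_one_le_left (by positivity) hT1
  have hT0 : 0 < T1 * γ ^ (-θ) := by positivity
  have hL := lemH (μ1.prod (μ2.prod μ3)) (G := G3) (w := pw M γ c e) cont_G3.measurable
    (int_pw hR h1.1 h2.1 h3.1 M γ c he) (M := M) (by omega) (a := a) (T0 := T1 * γ ^ (-θ))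
    (B := C1) (η := η1) (Δ := γ) (P0 := C2 * γ ^ (2 + η2)) hT0 hη1 hγ ?_ ?_
  · refine ⟨hL.1, hL.2.mono ?_⟩
    have hI := (hP μ1 μ2 μ3 h1 h2 h3 γ 0 e hγ hγ1 he).2
    have hγη : ∀ x : ℝ, η ≤ x → γ ^ x ≤ γ ^ η := fun x hx =>
      Real.rpow_le_rpow_of_exponent_ge hγ hγ1 hx
    have e1 : γ ^ (-θ) * γ ^ (2 + η2) ≤ γ ^ η := by
      rw [← Real.rpow_add hγ]; exact hγη _ (by linarith only [hθ3, hηa])
    have hi1 : 1 ≤ γ⁻¹ := one_le_inv₀ hγ |>.2 hγ1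
    have hg2 : γ⁻¹ ^ 2 ≤ γ ^ (-θ) := by
      have : γ ^ (-(2 : ℝ)) ≤ γ ^ (-θ) := Real.rpow_le_rpow_of_exponent_ge hγ hγ1 (by linarith only [hθ2])
      rwa [Real.rpow_neg hγ.le, Real.rpow_two, ← inv_pow] at this
    have hb : γ⁻¹ ≤ T1 * γ ^ (-θ) * γ := by
      have : γ⁻¹ = γ⁻¹ ^ 2 * γ := by field_simp
      rw [this]
      exact mul_le_mul_of_nonneg_right (hg2.trans hgT) hγ.le
    have e2 : ((T1 * γ ^ (-θ) * γ) ^ M * γ)⁻¹ ≤ γ ^ η := by
      have a1 : γ⁻¹ ^ 2 ≤ (T1 * γ ^ (-θ) * γ) ^ M :=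
        (pow_le_pow_right₀ hi1 hM).trans (pow_le_pow_left₀ (by positivity) hb M)
      have a2 : γ⁻¹ ≤ (T1 * γ ^ (-θ) * γ) ^ M * γ := by
        have : γ⁻¹ = γ⁻¹ ^ 2 * γ := by field_simp
        rw [this]
        exact mul_le_mul_of_nonneg_right a1 hγ.le
      have a3 : ((T1 * γ ^ (-θ) * γ) ^ M * γ)⁻¹ ≤ γ := by
        have := inv_anti₀ (by positivity) a2
        rwa [inv_inv] at this
      have a4 := hγη 1 (by linarith only [hη21, hε0, hεb, hηa])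
      rw [Real.rpow_one] at a4
      exact a3.trans a4
    have e3 : (T1 * γ ^ (-θ)) ^ (-η1) ≤ γ ^ η := by
      have a1 : γ⁻¹ ≤ T1 * γ ^ (-θ) := by
        refine le_trans ?_ (hg2.trans hgT)
        exact le_self_pow₀ hi1 (by norm_num)
      have a2 : (T1 * γ ^ (-θ)) ^ (-η1) ≤ γ⁻¹ ^ (-η1) :=
        Real.rpow_le_rpow_of_nonpos (by positivity) a1 (by linarith only [hη1])
      rw [Real.inv_rpow hγ.le, Real.rpow_neg hγ.le η1, inv_inv] at a2
      exact a2.trans (hγη _ hηb)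
    have f1 : (M : ℝ) * (T1 * γ ^ (-θ)) * (C2 * γ ^ (2 + η2)) ≤ M * T1 * C2 * γ ^ η := by
      have : (M : ℝ) * (T1 * γ ^ (-θ)) * (C2 * γ ^ (2 + η2)) =
          M * T1 * C2 * (γ ^ (-θ) * γ ^ (2 + η2)) := by ring
      rw [this]
      exact mul_le_mul_of_nonneg_left e1 (by positivity)
    have f2 : (∫ ω, |pw M γ c e ω| ∂μ1.prod (μ2.prod μ3)) * ((T1 * γ ^ (-θ) * γ) ^ M * γ)⁻¹ ≤
        C2 * γ ^ η := mul_le_mul hI e2 (by positivity) hC2
    have f3 : (M : ℝ) * C1 * (T1 * γ ^ (-θ)) ^ (-η1) / η1 ≤ M * C1 / η1 * γ ^ η := by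
      have : (M : ℝ) * C1 * (T1 * γ ^ (-θ)) ^ (-η1) / η1 =
          M * C1 / η1 * (T1 * γ ^ (-θ)) ^ (-η1) := by ring
      rw [this]
      exact mul_le_mul_of_nonneg_left e3 (by positivity)
    calc _ ≤ M * T1 * C2 * γ ^ η + C2 * γ ^ η + M * C1 / η1 * γ ^ η := by linarith only [f1, f2, f3]
      _ = _ := by ring
  · intro T t hTT ht
    have hT1T : T1 ≤ T := (le_mul_of_one_le_right (by linarith only [hη21, hε0, hεb, hT1]) hg1).trans hTT
    have hTp : 0 < T := by linarith only [hη21, hε0, hεb, hg1, hgT, hTT]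
    refine hT μ1 μ2 μ3 h1 h2 h3 γ T t e hγ hγ1 hT1T ?_ ht.le he
    have a1 : (γ ^ (-θ)) ^ (1 - 2 * ε) ≤ T ^ (1 - 2 * ε) :=
      Real.rpow_le_rpow (by positivity) (hgT.trans hTT) h12.le
    rw [← Real.rpow_mul hγ.le, neg_mul, hθ4, Real.rpow_neg hγ.le, Real.rpow_two] at a1
    have a2 : T = T ^ (2 * ε) * T ^ (1 - 2 * ε) := by
      rw [← Real.rpow_add hTp]; simp
    have a3 : 1 ≤ T ^ (1 - 2 * ε) * γ ^ 2 := by
      have := mul_le_mul_of_nonneg_right a1 (sq_nonneg γ)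
      rwa [inv_mul_cancel₀ (by positivity)] at this
    calc T ^ (2 * ε) ≤ T ^ (2 * ε) * (T ^ (1 - 2 * ε) * γ ^ 2) :=
          le_mul_of_one_le_right (by positivity) a3
      _ = T * γ ^ 2 := by rw [← mul_assoc, ← a2]
  · intro t _
    exact (hP μ1 μ2 μ3 h1 h2 h3 γ t e hγ hγ1 he).1

lemma p4_cyc (μ1 μ2 μ3 : Measure V) [SFinite μ1] [SFinite μ2] [SFinite μ3] (w : V × V × V → ℝ) :
    Phi (μ1.prod (μ2.prod μ3)) G3 (fun p => w (cyc p)) = Phi (μ2.prod (μ3.prod μ1)) G3 w := by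
  funext t
  have := integral_cyc μ1 μ2 μ3 (fun p => sg (t - G3 p) * w p)
  simp only [G3_cyc] at this
  exact this

lemma p4_int {μ1 μ2 μ3 : Measure V} {R A s : ℝ} (hR : 1 ≤ R) (h1 : Cl μ1 R A s)
    (h2 : Cl μ2 R A s) (h3 : Cl μ3 R A s) (M : ℕ) (γ c : ℝ) {e : V} (he : ‖e‖ ≤ 1) :
    Integrable (pw M γ c e) (μ1.prod (μ2.prod μ3)) ∧
    Integrable (fun p => pw M γ c e (cyc p)) (μ1.prod (μ2.prod μ3)) ∧
    Integrable (fun p => pw M γ c e (cyc (cyc p))) (μ1.prod (μ2.prod μ3)) := by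
  have := h1.fin
  have := h2.fin
  have := h3.fin
  exact ⟨int_pw hR h1 h2 h3 M γ c he, integrable_cyc μ1 μ2 μ3 (int_pw hR h2 h3 h1 M γ c he),
    integrable_cyc μ1 μ2 μ3 (f := fun p => pw M γ c e (cyc p))
      (integrable_cyc μ2 μ3 μ1 (int_pw hR h3 h1 h2 M γ c he))⟩

/-- `Phi_indicator`, `Measure.prod_restrict`, `Phi_sum`, `Phi_add`, `integral_cyc`, `G3_cyc`,
`piece` for the three cyclic orders of the restricted measures (`Ck.restrict`). -/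
lemma sumS {n : ℕ} {R A s κ c a : ℝ} (hR : 1 ≤ R) (hA : 0 ≤ A) (hκ : 0 < κ) (hc : 0 ≤ c)
    (ha : 0 < a) (hs : (n : ℝ) + 3 < 2 * s) :
    ∃ (M : ℕ) (C η : ℝ), 0 ≤ C ∧ 0 < η ∧ ∀ μ : Measure (EuclideanSpace ℝ (Fin (n + 1))),
      Ck μ R A s κ → ∀ γ : ℝ, 0 < γ → γ ≤ 1 → Integrable (Sw M γ c) (μ.prod (μ.prod μ)) ∧
        ∀ S1 S2 S3 : Set (EuclideanSpace ℝ (Fin (n + 1))),
        MeasurableSet S1 → MeasurableSet S2 → MeasurableSet S3 →
        SD a (Phi (μ.prod (μ.prod μ)) G3 ((S1 ×ˢ S2 ×ˢ S3).indicator (Sw M γ c))) ∧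
        Lip a (Phi (μ.prod (μ.prod μ)) G3 ((S1 ×ˢ S2 ×ˢ S3).indicator (Sw M γ c))) (C * γ ^ η) := by
  obtain ⟨M, C, η, hC, hη, hp⟩ := piece (n := n) hR hA hκ hc ha hs
  refine ⟨M, (finrank ℝ (EuclideanSpace ℝ (Fin (n + 1))) : ℝ) * (3 * C), η, by positivity, hη, ?_⟩
  intro μ hμ γ hγ hγ1
  have := hμ.1.fin
  have hb : ∀ i, ‖stdOrthonormalBasis ℝ (EuclideanSpace ℝ (Fin (n + 1))) i‖ ≤ 1 := fun i =>
    ((stdOrthonormalBasis ℝ (EuclideanSpace ℝ (Fin (n + 1)))).orthonormal.1 i).le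
  refine ⟨?_, ?_⟩
  · refine integrable_finsetSum _ fun i _ => ?_
    obtain ⟨a1, a2, a3⟩ := p4_int hR hμ.1 hμ.1 hμ.1 M γ c (hb i)
    exact (a1.add a2).add a3
  intro S1 S2 S3 m1 m2 m3
  rw [Phi_indicator (m1.prod (m2.prod m3)), ← Measure.prod_restrict, ← Measure.prod_restrict]
  have h1 := hμ.restrict S1
  have h2 := hμ.restrict S2
  have h3 := hμ.restrict S3
  generalize μ.restrict S1 = μ1 at h1 ⊢
  generalize μ.restrict S2 = μ2 at h2 ⊢
  generalize μ.restrict S3 = μ3 at h3 ⊢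
  have := h1.1.fin
  have := h2.1.fin
  have := h3.1.fin
  have hG : Measurable (G3 : EuclideanSpace ℝ (Fin (n + 1)) × EuclideanSpace ℝ (Fin (n + 1)) ×
      EuclideanSpace ℝ (Fin (n + 1)) → ℝ) := cont_G3.measurable
  have key : ∀ e : EuclideanSpace ℝ (Fin (n + 1)), ‖e‖ ≤ 1 →
      SD a (Phi (μ1.prod (μ2.prod μ3)) G3
        (fun p => pw M γ c e p + pw M γ c e (cyc p) + pw M γ c e (cyc (cyc p)))) ∧
      Lip a (Phi (μ1.prod (μ2.prod μ3)) G3
        (fun p => pw M γ c e p + pw M γ c e (cyc p) + pw M γ c e (cyc (cyc p))))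
        (3 * C * γ ^ η) := by
    intro e he
    obtain ⟨a1, a2, a3⟩ := p4_int hR h1.1 h2.1 h3.1 M γ c he
    rw [Phi_add hG (w := fun p => pw M γ c e p + pw M γ c e (cyc p)) (a1.add a2) a3,
      Phi_add hG a1 a2, p4_cyc μ1 μ2 μ3 (fun p => pw M γ c e (cyc p)), p4_cyc, p4_cyc]
    obtain ⟨s1, l1⟩ := hp μ1 μ2 μ3 h1 h2 h3 γ e hγ hγ1 he
    obtain ⟨s2, l2⟩ := hp μ2 μ3 μ1 h2 h3 h1 γ e hγ hγ1 he
    obtain ⟨s3, l3⟩ := hp μ3 μ1 μ2 h3 h1 h2 γ e hγ hγ1 he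
    exact ⟨(s1.add s2).add s3, ((l1.add l2).add l3).mono (le_of_eq (by ring))⟩
  have hsum := Phi_sum (m := μ1.prod (μ2.prod μ3)) hG
    (w := fun i p => pw M γ c (stdOrthonormalBasis ℝ (EuclideanSpace ℝ (Fin (n + 1))) i) p +
      pw M γ c (stdOrthonormalBasis ℝ (EuclideanSpace ℝ (Fin (n + 1))) i) (cyc p) +
      pw M γ c (stdOrthonormalBasis ℝ (EuclideanSpace ℝ (Fin (n + 1))) i) (cyc (cyc p)))
    Finset.univ (fun i _ => by
      obtain ⟨a1, a2, a3⟩ := p4_int hR h1.1 h2.1 h3.1 M γ c (hb i)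
      exact (a1.add a2).add a3)
  have hSw : Phi (μ1.prod (μ2.prod μ3)) G3 (Sw M γ c) = _ := hsum
  rw [hSw]
  refine ⟨SD.sum _ fun i _ => (key _ (hb i)).1,
    (Lip.sum _ (D := fun _ => 3 * C * γ ^ η) fun i _ => (key _ (hb i)).2).mono (le_of_eq ?_)⟩
  simp only [Finset.sum_const, Finset.card_univ, Fintype.card_fin, nsmul_eq_mul]
  ring

end Pool.Agent.MP_83cc0d_an.Cd

end

-- part B1
section

namespace Pool.Agent.MP_83cc0d_an.Cd

open MeasureTheory Complex Filter Topology Metric Module Set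
open scoped ENNReal InnerProductSpace ComplexConjugate

variable {V : Type} [NormedAddCommGroup V] [InnerProductSpace ℝ V] [FiniteDimensional ℝ V]
  [MeasurableSpace V] [BorelSpace V]

lemma b1_lin (z x y e : V) : BB z x x * BB z y e - BB z x e * BB z x y =
    ⟪(BB z x x / ‖z‖) • sb z y - (BB z x y / ‖z‖) • sb z x, e⟫_ℝ := by
  have h : ∀ u : V, BB z u e = ⟪sb z u, e⟫_ℝ / ‖z‖ := by
    intro u
    simp only [BB, sb, inner_sub_left, real_inner_smul_left]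
  rw [h y, h x, inner_sub_left, real_inner_smul_left, real_inner_smul_left]
  ring

lemma b1_basis {w y : V} {R a : ℝ} (hR : 1 ≤ R) (ha : 0 < a) (hy : ‖y‖ ≤ R)
    (h : a < ⟪w, y⟫_ℝ) :
    ∃ i, a / ((finrank ℝ V + 1) * R) ≤ |⟪w, stdOrthonormalBasis ℝ V i⟫_ℝ| := by
  by_contra hc
  push Not at hc
  set b := stdOrthonormalBasis ℝ V
  have hd : (0 : ℝ) < (finrank ℝ V + 1) * R := by positivity
  have h1 : ⟪w, y⟫_ℝ = ∑ i, ⟪w, b i⟫_ℝ * ⟪b i, y⟫_ℝ := (b.sum_inner_mul_inner w y).symm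
  have h2 : ∑ i, ⟪w, b i⟫_ℝ * ⟪b i, y⟫_ℝ ≤
      ∑ _i : Fin (finrank ℝ V), a / ((finrank ℝ V + 1) * R) * R := by
    refine Finset.sum_le_sum fun i _ => ?_
    refine (le_abs_self _).trans ?_
    rw [abs_mul]
    refine mul_le_mul (hc i).le ?_ (abs_nonneg _) (by positivity)
    refine (abs_real_inner_le_norm _ _).trans ?_
    rw [b.orthonormal.1 i, one_mul]
    exact hy
  rw [Finset.sum_const, Finset.card_univ, Fintype.card_fin, nsmul_eq_mul] at h2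
  have h3 : (finrank ℝ V : ℝ) * (a / ((finrank ℝ V + 1) * R) * R) ≤ a := by
    have hR0 : 0 < R := by linarith only [hR]
    have : (finrank ℝ V : ℝ) * (a / ((finrank ℝ V + 1) * R) * R) =
        a * (finrank ℝ V / (finrank ℝ V + 1)) := by field_simp
    rw [this]
    refine mul_le_of_le_one_right ha.le ?_
    rw [div_le_one (by positivity)]
    linarith only []
  linarith

lemma b1_num {nz nx ny u v w R a : ℝ} (hz : 0 < nz) (hx : 0 < nx) (hy : 0 < ny)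
    (hzR : nz ≤ R) (hxR : nx ≤ R) (hyR : ny ≤ R) (ha : 0 < a) (hu : |u| ≤ nx * ny)
    (hv : nx * |v| ≤ nz * |u|) (hw : ny * |w| ≤ nz * |u|)
    (hG : a < nz ^ 2 * (nx ^ 2 * ny ^ 2 - u ^ 2)) :
    nz * |u| * (a / (2 * R ^ 6)) ≤ |(nz ^ 2 * u - w * v) / nz| ∧
      |(nz ^ 2 * u - w * v) / nz| ≤ 2 * (nz * |u|) := by
  set X := nz * |u| with hX
  set N := nz * nx * ny with hN
  have hN0 : 0 < N := by positivity
  have hX0 : 0 ≤ X := by positivity
  have hR0 : 0 < R := hz.trans_le hzR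
  have hXN : X ≤ N := by
    rw [hX, hN, mul_assoc]
    exact mul_le_mul_of_nonneg_left hu hz.le
  have hNR : N ≤ R ^ 3 := by
    have : N ≤ R * R * R := by
      rw [hN]
      gcongr
    linarith only [this]
  have he : (nz ^ 2 * u - w * v) / nz = nz * u - w * v / nz := by field_simp
  have h1 : |nz * u| = X := by rw [abs_mul, abs_of_pos hz]
  have h2 : |w * v / nz| ≤ X * (X / N) := by
    rw [abs_div, abs_mul, abs_of_pos hz, div_le_iff₀ hz]
    have h3 : ny * |w| * (nx * |v|) ≤ X * X := mul_le_mul hw hv (by positivity) hX0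
    have h4 : X * (X / N) * nz = X * X / (nx * ny) := by
      rw [hN]
      field_simp
    rw [h4, le_div_iff₀ (by positivity)]
    linarith only [h3]
  have h5 : a < N ^ 2 - X ^ 2 := by
    have : X ^ 2 = nz ^ 2 * u ^ 2 := by rw [hX, mul_pow, sq_abs]
    rw [this, hN]
    linarith only [hG]
  have h6 : a / (2 * R ^ 6) ≤ 1 - X / N := by
    have h7 : a / (2 * R ^ 6) ≤ a / (2 * N ^ 2) := by
      have : N ^ 2 ≤ R ^ 6 := by
        calc N ^ 2 ≤ (R ^ 3) ^ 2 := by gcongr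
          _ = R ^ 6 := by ring
      gcongr
    refine h7.trans ?_
    have h8 : 1 - X / N = (2 * N * (N - X)) / (2 * N ^ 2) := by field_simp
    rw [h8]
    gcongr
    linarith only [sq_nonneg (N - X), h5]
  have h9 : X / N ≤ 1 := (div_le_one hN0).2 hXN
  rw [he]
  constructor
  · have := abs_sub_abs_le_abs_sub (nz * u) (w * v / nz)
    have h10 : X * (a / (2 * R ^ 6)) ≤ X * (1 - X / N) := mul_le_mul_of_nonneg_left h6 hX0
    rw [h1] at this
    linarith only [h2, this, h10]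
  · have := abs_sub (nz * u) (w * v / nz)
    have h10 : X * (X / N) ≤ X := mul_le_of_le_one_right hX0 h9
    rw [h1] at this
    linarith only [h2, this, h10]

lemma b1_core (M : ℕ) {R κ a ρ0 γ : ℝ} (hR : 1 ≤ R) (hκ : 0 < κ) (ha : 0 < a) (hρ : 0 < ρ0)
    (hγ : 0 < γ) {z x y : V} (hz : κ ≤ ‖z‖) (hzR : ‖z‖ ≤ R) (hx : κ ≤ ‖x‖) (hxR : ‖x‖ ≤ R)
    (hy : κ ≤ ‖y‖) (hyR : ‖y‖ ≤ R) (hG : a < G3 (z, x, y))
    (h1 : ρ0 * γ ≤ ‖z‖ * |⟪x, y⟫_ℝ|) (h2 : ‖z‖ * |⟪x, y⟫_ℝ| ≤ R ^ 3 * γ)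
    (h3 : ‖x‖ * |⟪y, z⟫_ℝ| ≤ ‖z‖ * |⟪x, y⟫_ℝ|) (h4 : ‖y‖ * |⟪z, x⟫_ℝ| ≤ ‖z‖ * |⟪x, y⟫_ℝ|) :
    ∃ i, (ρ0 * (a / (2 * R ^ 6)) * (a / ((finrank ℝ V + 1) * R))) ^ (2 * M) *
      Real.exp (-(2 * R ^ 3) ^ 2) ≤ pw M γ (R ^ 3 / κ) (stdOrthonormalBasis ℝ V i) (z, x, y) := by
  have hz0 : 0 < ‖z‖ := hκ.trans_le hz
  have hx0 : 0 < ‖x‖ := hκ.trans_le hx
  have hy0 : 0 < ‖y‖ := hκ.trans_le hy
  have hR0 : 0 < R := by linarith only [hR]
  have hzne : z ≠ 0 := norm_pos_iff.1 hz0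
  have hG' : a < ‖z‖ ^ 2 * (‖x‖ ^ 2 * ‖y‖ ^ 2 - ⟪x, y⟫_ℝ ^ 2) := hG.trans_le (G3_le (z, x, y))
  have h3' : ‖x‖ * |⟪z, y⟫_ℝ| ≤ ‖z‖ * |⟪x, y⟫_ℝ| := by rwa [real_inner_comm y z]
  obtain ⟨hl, hu⟩ := b1_num hz0 hx0 hy0 hzR hxR hyR ha (abs_real_inner_le_norm x y) h3' h4 hG'
  change _ ≤ |BB z x y| at hl
  change |BB z x y| ≤ _ at hu
  have hω : a < ⟪(BB z x x / ‖z‖) • sb z y - (BB z x y / ‖z‖) • sb z x, y⟫_ℝ := by
    rw [← b1_lin, ← sq, ← G3_eq hzne]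
    exact hG
  obtain ⟨i, hi⟩ := b1_basis hR ha hyR hω
  rw [← b1_lin] at hi
  refine ⟨i, ?_⟩
  have hslab : ∀ {n t : ℝ}, κ ≤ n → 0 ≤ t → n * t ≤ ‖z‖ * |⟪x, y⟫_ℝ| → t ≤ R ^ 3 / κ * γ := by
    intro n t hn ht h
    rw [div_mul_eq_mul_div, le_div_iff₀ hκ]
    linarith only [mul_le_mul_of_nonneg_left hn ht, h2, h]
  have hmem : (z, x, y) ∈ {p : V × V × V | |⟪p.2.1, p.1⟫_ℝ| ≤ R ^ 3 / κ * γ ∧
      |⟪p.2.2, p.1⟫_ℝ| ≤ R ^ 3 / κ * γ} := by
    refine ⟨?_, hslab hx (abs_nonneg _) h3⟩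
    rw [real_inner_comm]
    exact hslab hy (abs_nonneg _) h4
  unfold pw
  rw [indicator_of_mem hmem]
  unfold W3
  set B := BB z x y
  set ω := BB z x x * BB z y (stdOrthonormalBasis ℝ V i) -
    BB z x (stdOrthonormalBasis ℝ V i) * B
  have hB1 : ρ0 * (a / (2 * R ^ 6)) ≤ |B / γ| := by
    rw [abs_div, abs_of_pos hγ, le_div_iff₀ hγ]
    refine le_trans ?_ hl
    have : 0 ≤ a / (2 * R ^ 6) := by positivity
    linarith only [mul_le_mul_of_nonneg_right h1 this]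
  have hB2 : |B / γ| ≤ 2 * R ^ 3 := by
    rw [abs_div, abs_of_pos hγ, div_le_iff₀ hγ]
    linarith only [h2, hu]
  have e1 : γ⁻¹ ^ (2 * M) * (B * ω) ^ (2 * M) = (|B / γ| * |ω|) ^ (2 * M) := by
    rw [← abs_mul, ← mul_pow, Even.pow_abs (even_two_mul M)]
    congr 1
    field_simp
  change _ ≤ γ⁻¹ ^ (2 * M) * (B * ω) ^ (2 * M) * Real.exp (-(B / γ) ^ 2)
  rw [e1]
  refine mul_le_mul ?_ ?_ (Real.exp_pos _).le (by positivity)
  · refine pow_le_pow_left₀ (by positivity) ?_ _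
    exact mul_le_mul hB1 hi (by positivity) (abs_nonneg _)
  · rw [Real.exp_le_exp, neg_le_neg_iff, ← sq_abs]
    exact pow_le_pow_left₀ (abs_nonneg _) hB2 2

lemma b1_part {K : Set V} (hK : IsCompact K) {δ : ℝ} (hδ : 0 < δ) :
    ∃ (N : ℕ) (S : Fin N → Set V) (x : Fin N → V), (∀ i, MeasurableSet (S i)) ∧ (∀ i, x i ∈ K) ∧
      ∀ v ∈ K, ∃ i, dist v (x i) < δ ∧ ∀ j, v ∈ S j ↔ j = i := by
  classical
  obtain ⟨t, htK, htf, hcov⟩ := finite_cover_balls_of_compact hK hδ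
  obtain ⟨N, x, -, hx⟩ := htf.fin_param
  refine ⟨N, fun i => ball (x i) δ \ ⋃ j ∈ {j | j < i}, ball (x j) δ, x, fun i => ?_,
    fun i => htK (hx ▸ mem_range_self i), fun v hv => ?_⟩
  · exact measurableSet_ball.diff (isOpen_biUnion fun _ _ => isOpen_ball).measurableSet
  · have hne : ({i | v ∈ ball (x i) δ} : Set (Fin N)).Nonempty := by
      obtain ⟨y, hy, hvy⟩ := mem_iUnion₂.1 (hcov hv)
      rw [← hx] at hy
      obtain ⟨i, rfl⟩ := hy
      exact ⟨i, hvy⟩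
    obtain ⟨i, hi, hmin⟩ := wellFounded_lt.has_min _ hne
    refine ⟨i, hi, fun j => ⟨fun hj => ?_, ?_⟩⟩
    · rcases lt_trichotomy j i with h | h | h
      · exact absurd h (hmin j hj.1)
      · exact h
      · exact absurd (mem_iUnion₂.2 ⟨i, h, hi⟩) hj.2
    · rintro rfl
      refine ⟨hi, fun h => ?_⟩
      obtain ⟨k, hk, hvk⟩ := mem_iUnion₂.1 h
      exact hmin k hvk hk

/-- By `mx_cyc`, `G3_cyc` assume the maximum is `X = ‖z‖ |⟪x,y⟫|`; let `N = ‖z‖‖x‖‖y‖`. The other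
two inner products are at most `X/κ`, so the indicators are one. `X (1 - X/N) ≤ |BB z x y| ≤ 2X`,
`1 - X/N ≥ a/(2R⁶)` by `G3_le`. The form `ω e = BB z x x * BB z y e - BB z x e * BB z x y` is
linear in `e` with `ω y = G3` (`G3_eq`), so `|ω (e i)| ≥ a/(d R)` for some basis vector. -/
lemma cover (M : ℕ) {R κ a ρ0 : ℝ} (hR : 1 ≤ R) (hκ : 0 < κ) (ha : 0 < a) (hρ : 0 < ρ0) :
    ∃ c0 : ℝ, 0 < c0 ∧ ∀ (γ : ℝ) (p : V × V × V), 0 < γ → κ ≤ ‖p.1‖ → ‖p.1‖ ≤ R → κ ≤ ‖p.2.1‖ →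
      ‖p.2.1‖ ≤ R → κ ≤ ‖p.2.2‖ → ‖p.2.2‖ ≤ R → a < G3 p → ρ0 * γ ≤ mx p → mx p ≤ R ^ 3 * γ →
      c0 ≤ Sw M γ (R ^ 3 / κ) p := by
  have hR0 : 0 < R := by linarith
  refine ⟨(ρ0 * (a / (2 * R ^ 6)) * (a / ((finrank ℝ V + 1) * R))) ^ (2 * M) *
      Real.exp (-(2 * R ^ 3) ^ 2), by positivity, ?_⟩
  rintro γ ⟨z, x, y⟩ hγ hz hzR hx hxR hy hyR hG h1 h2
  have hn := fun (i : Fin (finrank ℝ V)) (p : V × V × V) =>
    pw_nonneg M γ (R ^ 3 / κ) (stdOrthonormalBasis ℝ V i) p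
  have hs : ∀ i, pw M γ (R ^ 3 / κ) (stdOrthonormalBasis ℝ V i) (z, x, y) +
      pw M γ (R ^ 3 / κ) (stdOrthonormalBasis ℝ V i) (x, y, z) +
      pw M γ (R ^ 3 / κ) (stdOrthonormalBasis ℝ V i) (y, z, x) ≤
      Sw M γ (R ^ 3 / κ) (z, x, y) := fun i =>
    Finset.single_le_sum (f := fun i => pw M γ (R ^ 3 / κ) (stdOrthonormalBasis ℝ V i) (z, x, y) +
      pw M γ (R ^ 3 / κ) (stdOrthonormalBasis ℝ V i) (x, y, z) +
      pw M γ (R ^ 3 / κ) (stdOrthonormalBasis ℝ V i) (y, z, x))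
      (fun j _ => add_nonneg (add_nonneg (hn j _) (hn j _)) (hn j _)) (Finset.mem_univ i)
  have hG2 : a < G3 (x, y, z) := by
    have := G3_cyc (z, x, y)
    change G3 (x, y, z) = _ at this
    rwa [this]
  have hG3 : a < G3 (y, z, x) := by
    have := G3_cyc (x, y, z)
    change G3 (y, z, x) = _ at this
    rwa [this]
  have m1 : ‖z‖ * |⟪x, y⟫_ℝ| ≤ mx (z, x, y) := le_max_left _ _
  have m2 : ‖x‖ * |⟪y, z⟫_ℝ| ≤ mx (z, x, y) := (le_max_left _ _).trans (le_max_right _ _)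
  have m3 : ‖y‖ * |⟪z, x⟫_ℝ| ≤ mx (z, x, y) := (le_max_right _ _).trans (le_max_right _ _)
  have hm : mx (z, x, y) = ‖z‖ * |⟪x, y⟫_ℝ| ∨ mx (z, x, y) = ‖x‖ * |⟪y, z⟫_ℝ| ∨
      mx (z, x, y) = ‖y‖ * |⟪z, x⟫_ℝ| := by
    unfold mx
    rcases max_choice (‖z‖ * |⟪x, y⟫_ℝ|) (max (‖x‖ * |⟪y, z⟫_ℝ|) (‖y‖ * |⟪z, x⟫_ℝ|)) with h | h
    · exact Or.inl h
    · rcases max_choice (‖x‖ * |⟪y, z⟫_ℝ|) (‖y‖ * |⟪z, x⟫_ℝ|) with h' | h'
      · exact Or.inr (Or.inl (h.trans h'))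
      · exact Or.inr (Or.inr (h.trans h'))
  rcases hm with h | h | h
  · rw [h] at h1 h2 m2 m3
    obtain ⟨i, hi⟩ := b1_core M hR hκ ha hρ hγ hz hzR hx hxR hy hyR hG h1 h2 m2 m3
    linarith [hs i, hn i (x, y, z), hn i (y, z, x)]
  · rw [h] at h1 h2 m1 m3
    obtain ⟨i, hi⟩ := b1_core M hR hκ ha hρ hγ hx hxR hy hyR hz hzR hG2 h1 h2 m3 m1
    linarith [hs i, hn i (z, x, y), hn i (y, z, x)]
  · rw [h] at h1 h2 m1 m2
    obtain ⟨i, hi⟩ := b1_core M hR hκ ha hρ hγ hy hyR hz hzR hx hxR hG3 h1 h2 m1 m2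
    linarith [hs i, hn i (z, x, y), hn i (x, y, z)]

/-- Uniform continuity on the compact cube; cover `K` by finitely many small balls centred in `K`
and make them disjoint. -/
lemma approx {K : Set V} (hK : IsCompact K) {f : V × V × V → ℝ}
    (hf : ContinuousOn f (K ×ˢ K ×ˢ K)) {ε : ℝ} (hε : 0 < ε) :
    ∃ (N : ℕ) (S : Fin N → Set V) (c : Fin N × Fin N × Fin N → ℝ), (∀ i, MeasurableSet (S i)) ∧
      ∀ p ∈ K ×ˢ K ×ˢ K, ∃ i : Fin N × Fin N × Fin N, |f p - c i| ≤ ε ∧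
        ∀ j : Fin N × Fin N × Fin N, p ∈ S j.1 ×ˢ S j.2.1 ×ˢ S j.2.2 ↔ j = i := by
  have hu := (hK.prod (hK.prod hK)).uniformContinuousOn_of_continuous hf
  obtain ⟨δ, hδ, hd⟩ := Metric.uniformContinuousOn_iff.1 hu ε hε
  obtain ⟨N, S, x, hS, hx, hc⟩ := b1_part hK hδ
  refine ⟨N, S, fun i => f (x i.1, x i.2.1, x i.2.2), hS, ?_⟩
  rintro ⟨u, v, w⟩ hp
  obtain ⟨i, hi, hi'⟩ := hc u hp.1
  obtain ⟨j, hj, hj'⟩ := hc v hp.2.1
  obtain ⟨k, hk, hk'⟩ := hc w hp.2.2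
  refine ⟨(i, j, k), ?_, ?_⟩
  · have := hd (u, v, w) hp (x i, x j, x k) ⟨hx i, hx j, hx k⟩ (by
      simp only [Prod.dist_eq, max_lt_iff]
      exact ⟨hi, hj, hk⟩)
    rw [Real.dist_eq] at this
    exact this.le
  · rintro ⟨i', j', k'⟩
    simp only [mem_prod, Prod.mk.injEq, hi', hj', hk']

/-- On the cube over `K = {κ ≤ ‖x‖ ≤ R}` the indicators in `Sw M 1 (R³/κ)` are one
(`|⟪x,z⟫| ≤ R² ≤ R³/κ` as `κ ≤ ‖x‖ ≤ R`); `contOn_W3`. -/
lemma contOn_Sw (M : ℕ) {R κ : ℝ} (hR : 1 ≤ R) (hκ : 0 < κ) :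
    ContinuousOn (Sw M 1 (R ^ 3 / κ)) ({x : V | κ ≤ ‖x‖ ∧ ‖x‖ ≤ R} ×ˢ {x : V | κ ≤ ‖x‖ ∧ ‖x‖ ≤ R} ×ˢ
      {x : V | κ ≤ ‖x‖ ∧ ‖x‖ ≤ R}) := by
  set K : Set V := {x : V | κ ≤ ‖x‖ ∧ ‖x‖ ≤ R} with hKdef
  have hin : ∀ u ∈ K, ∀ v ∈ K, |⟪u, v⟫_ℝ| ≤ R ^ 3 / κ * 1 := by
    intro u hu v hv
    refine (abs_real_inner_le_norm _ _).trans ?_
    rw [mul_one, le_div_iff₀ hκ]
    have hR0 : 0 ≤ R := by linarith
    have : ‖u‖ * ‖v‖ * κ ≤ R * R * R := by
      have := hu.2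
      have := hv.2
      have := hu.1.trans hu.2
      gcongr
    linarith [show R * R * R = R ^ 3 by ring]
  have hpw : ∀ e : V, ContinuousOn (pw M 1 (R ^ 3 / κ) e) (K ×ˢ K ×ˢ K) := by
    intro e
    refine ((contOn_W3 M 1 e).mono fun p hp => ?_).congr fun p hp => ?_
    · exact norm_pos_iff.1 (hκ.trans_le hp.1.1)
    · exact indicator_of_mem (show p ∈ {p : V × V × V | |⟪p.2.1, p.1⟫_ℝ| ≤ R ^ 3 / κ * 1 ∧
        |⟪p.2.2, p.1⟫_ℝ| ≤ R ^ 3 / κ * 1} from ⟨hin _ hp.2.1 _ hp.1, hin _ hp.2.2 _ hp.1⟩) _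
  have hc : MapsTo (cyc : V × V × V → V × V × V) (K ×ˢ K ×ˢ K) (K ×ˢ K ×ˢ K) :=
    fun p hp => ⟨hp.2.1, hp.2.2, hp.1⟩
  refine continuousOn_finsetSum _ fun i _ => ((hpw _).add ?_).add ?_
  · exact (hpw _).comp cont_cyc.continuousOn hc
  · exact ((hpw _).comp cont_cyc.continuousOn hc).comp cont_cyc.continuousOn hc

lemma Sw_nonneg (M : ℕ) (γ c : ℝ) (p : V × V × V) : 0 ≤ Sw M γ c p :=
  Finset.sum_nonneg fun _ _ =>
    add_nonneg (add_nonneg (pw_nonneg _ _ _ _ _) (pw_nonneg _ _ _ _ _)) (pw_nonneg _ _ _ _ _)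

end Pool.Agent.MP_83cc0d_an.Cd

end

-- part B2
section

namespace Pool.Agent.MP_83cc0d_an.Cd

open MeasureTheory Complex Filter Topology Metric Module Set
open scoped ENNReal InnerProductSpace ComplexConjugate

variable {V : Type} [NormedAddCommGroup V] [InnerProductSpace ℝ V] [FiniteDimensional ℝ V]
  [MeasurableSpace V] [BorelSpace V]

lemma b2_dy {x u : ℝ} (hx : x ≤ u) (J : ℕ) (h : ¬ x ≤ u / 2 ^ J) :
    ∃ j, j < J ∧ u / 2 ^ (j + 1) ≤ x ∧ x ≤ u / 2 ^ j := by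
  induction J with
  | zero => exact absurd (by simpa using hx) h
  | succ J ih =>
    by_cases h' : x ≤ u / 2 ^ J
    · exact ⟨J, Nat.lt_succ_self J, (not_le.1 h).le, h'⟩
    · obtain ⟨j, hj, hj'⟩ := ih h'
      exact ⟨j, hj.trans (Nat.lt_succ_self J), hj'⟩

lemma b2_small {R A s κ C0 : ℝ} (hA : 0 ≤ A) (hκ : 0 < κ) (hC0 : 0 ≤ C0) {μ : Measure V}
    (hμ : Ck μ R A s κ) (hsl : ∀ γ : ℝ, 0 < γ →
      (μ.prod μ) {p | |⟪p.1, p.2⟫_ℝ| ≤ γ} ≤ ENNReal.ofReal (C0 * γ)) {u : ℝ} (hu : 0 < u) :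
    ∫ p, ({p : V × V × V | mx p ≤ u}.indicator fun _ => (1 : ℝ)) p ∂μ.prod (μ.prod μ) ≤
      A * (C0 * (u / κ)) := by
  have := hμ.1.fin
  have hm : MeasurableSet {p : V × V × V | mx p ≤ u} :=
    measurableSet_le cont_mx.measurable measurable_const
  rw [integral_indicator hm]
  simp only [integral_const, MeasurableSet.univ, measureReal_restrict_apply, univ_inter,
    smul_eq_mul, mul_one]
  have h1 : (μ.prod (μ.prod μ)) {p : V × V × V | mx p ≤ u} ≤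
      (μ.prod (μ.prod μ)) (univ ×ˢ {q : V × V | |⟪q.1, q.2⟫_ℝ| ≤ u / κ}) := by
    refine measure_mono_ae ?_
    filter_upwards [ae3 hμ.2 hμ.2 hμ.2] with p hp hpu
    refine ⟨mem_univ _, ?_⟩
    have a1 : ‖p.1‖ * |⟪p.2.1, p.2.2⟫_ℝ| ≤ u := (le_max_left _ _).trans hpu
    show |⟪p.2.1, p.2.2⟫_ℝ| ≤ u / κ
    rw [le_div_iff₀ hκ, mul_comm]
    exact (mul_le_mul_of_nonneg_right hp.1 (abs_nonneg _)).trans a1
  rw [Measure.prod_prod] at h1
  have h2 := h1.trans (mul_le_mul' hμ.1.mass (hsl (u / κ) (by positivity)))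
  rw [← ENNReal.ofReal_mul hA] at h2
  exact ENNReal.toReal_le_of_le_ofReal (by positivity) h2

/-- Dyadic sum. By `cover` (`ρ0 = R³/2`), on `a < G3`:
`1 {mx ≤ R³ γ} ≤ ∑_{j < J} c0⁻¹ Sw M (γ/2^j) + 1 {mx ≤ R³ γ/2^J}`. `Phi_diff_le` with `sumS`
(`S = univ`), a geometric series, and `slab0` for the last set
(`mx ≤ u` gives `|⟪x,y⟫| ≤ u/κ`); let `J → ∞`. -/
lemma lipN {n : ℕ} {R A s κ a : ℝ} (hR : 1 ≤ R) (hA : 0 ≤ A) (hκ : 0 < κ) (ha : 0 < a)
    (hs : (n : ℝ) + 3 < 2 * s) :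
    ∃ C η : ℝ, 0 ≤ C ∧ 0 < η ∧ ∀ μ : Measure (EuclideanSpace ℝ (Fin (n + 1))), Ck μ R A s κ →
      ∀ γ : ℝ, 0 < γ → γ ≤ 1 → Lip a (Phi (μ.prod (μ.prod μ)) G3
        ({p | mx p ≤ R ^ 3 * γ}.indicator fun _ => 1)) (C * γ ^ η) := by
  have hc : 0 ≤ R ^ 3 / κ := by positivity
  have hs' : (finrank ℝ (EuclideanSpace ℝ (Fin (n + 1))) : ℝ) + 2 < 2 * s := by
    rw [finrank_euclideanSpace_fin]; push_cast; linarith
  obtain ⟨M, C, η, hC, hη, hS⟩ := sumS (n := n) hR hA hκ hc ha hs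
  obtain ⟨c0, hc0, hcov⟩ := cover (V := EuclideanSpace ℝ (Fin (n + 1))) M hR hκ ha
    (ρ0 := R ^ 3 / 2) (by positivity)
  obtain ⟨C0, hC0, hsl⟩ := slab0 (V := EuclideanSpace ℝ (Fin (n + 1))) hR hA hs'
  have hq0 : (0 : ℝ) ≤ (1 / 2 : ℝ) ^ η := by positivity
  have hq1 : (1 / 2 : ℝ) ^ η < 1 := Real.rpow_lt_one (by norm_num) (by norm_num) hη
  have hq2 : (0 : ℝ) < 1 - (1 / 2 : ℝ) ^ η := by linarith only [hq1]
  refine ⟨c0⁻¹ * C * (1 - (1 / 2 : ℝ) ^ η)⁻¹, η, by positivity, hη, ?_⟩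
  intro μ hμ γ hγ hγ1 t t' ht ht'
  have := hμ.1.fin
  have hG : Measurable (G3 : EuclideanSpace ℝ (Fin (n + 1)) × EuclideanSpace ℝ (Fin (n + 1)) ×
      EuclideanSpace ℝ (Fin (n + 1)) → ℝ) := cont_G3.measurable
  have hind : ∀ u : ℝ, Integrable ({p : EuclideanSpace ℝ (Fin (n + 1)) ×
      EuclideanSpace ℝ (Fin (n + 1)) × EuclideanSpace ℝ (Fin (n + 1)) | mx p ≤ u}.indicator
      fun _ => (1 : ℝ)) (μ.prod (μ.prod μ)) := fun u =>
    (integrable_const (1 : ℝ)).indicator (measurableSet_le cont_mx.measurable measurable_const)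
  have hγj : ∀ j : ℕ, 0 < γ / 2 ^ j ∧ γ / 2 ^ j ≤ 1 := fun j =>
    ⟨by positivity, (div_le_self hγ.le (one_le_pow₀ (by norm_num))).trans hγ1⟩
  have hI : ∀ j : ℕ, Integrable (fun p => c0⁻¹ * Sw M (γ / 2 ^ j) (R ^ 3 / κ) p)
      (μ.prod (μ.prod μ)) := fun j => (hS μ hμ _ (hγj j).1 (hγj j).2).1.const_mul _
  have hL1 : ∀ j : ℕ, Lip a (Phi (μ.prod (μ.prod μ)) G3
      (fun p => c0⁻¹ * Sw M (γ / 2 ^ j) (R ^ 3 / κ) p))
      (c0⁻¹ * C * γ ^ η * ((1 / 2 : ℝ) ^ η) ^ j) := by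
    intro j
    have h1 := ((hS μ hμ _ (hγj j).1 (hγj j).2).2 univ univ univ MeasurableSet.univ
      MeasurableSet.univ MeasurableSet.univ).2
    rw [univ_prod_univ, univ_prod_univ, indicator_univ] at h1
    rw [Phi_const_mul]
    refine (h1.const_mul c0⁻¹).mono (le_of_eq ?_)
    have e1 : (γ / 2 ^ j) ^ η = γ ^ η * ((1 / 2 : ℝ) ^ η) ^ j := by
      have : γ / 2 ^ j = γ * (1 / 2) ^ j := by rw [one_div, inv_pow, div_eq_mul_inv]
      rw [this, Real.mul_rpow hγ.le (by positivity), ← Real.rpow_natCast, ← Real.rpow_natCast,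
        ← Real.rpow_mul (by norm_num), ← Real.rpow_mul (by norm_num), mul_comm (j : ℝ)]
    rw [abs_of_pos (inv_pos.2 hc0), e1]
    ring
  have key : ∀ J : ℕ, |Phi (μ.prod (μ.prod μ)) G3
        ({p | mx p ≤ R ^ 3 * γ}.indicator fun _ => 1) t' - Phi (μ.prod (μ.prod μ)) G3
        ({p | mx p ≤ R ^ 3 * γ}.indicator fun _ => 1) t| ≤
      c0⁻¹ * C * (1 - (1 / 2 : ℝ) ^ η)⁻¹ * γ ^ η * |t' - t| +
        A * (C0 * (R ^ 3 * γ / 2 ^ J / κ)) := by
    intro J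
    have hW : Integrable (fun p => ∑ j ∈ Finset.range J, c0⁻¹ * Sw M (γ / 2 ^ j) (R ^ 3 / κ) p)
        (μ.prod (μ.prod μ)) := integrable_finsetSum _ fun j _ => hI j
    have hL : Lip a (Phi (μ.prod (μ.prod μ)) G3
        (fun p => ∑ j ∈ Finset.range J, c0⁻¹ * Sw M (γ / 2 ^ j) (R ^ 3 / κ) p))
        (c0⁻¹ * C * (1 - (1 / 2 : ℝ) ^ η)⁻¹ * γ ^ η) := by
      rw [Phi_sum hG (w := fun j p => c0⁻¹ * Sw M (γ / 2 ^ j) (R ^ 3 / κ) p) _ fun j _ => hI j]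
      refine (Lip.sum _ fun j _ => hL1 j).mono ?_
      rw [← Finset.mul_sum]
      have g1 : ∑ j ∈ Finset.range J, ((1 / 2 : ℝ) ^ η) ^ j ≤ (1 - (1 / 2 : ℝ) ^ η)⁻¹ := by
        rw [← tsum_geometric_of_lt_one hq0 hq1]
        exact (summable_geometric_of_lt_one hq0 hq1).sum_le_tsum _ fun j _ => by positivity
      calc _ ≤ c0⁻¹ * C * γ ^ η * (1 - (1 / 2 : ℝ) ^ η)⁻¹ :=
            mul_le_mul_of_nonneg_left g1 (by positivity)
        _ = _ := by ring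
    refine (Phi_diff_le hG (hind _) hW (hind (R ^ 3 * γ / 2 ^ J))
      (fun p => indicator_nonneg (fun _ _ => zero_le_one) p) ?_ hL ht ht').trans ?_
    · filter_upwards [ae3 (hμ.2.and hμ.1.bdd) (hμ.2.and hμ.1.bdd) (hμ.2.and hμ.1.bdd)]
        with p hp hap
      have hn : ∀ j ∈ Finset.range J, 0 ≤ c0⁻¹ * Sw M (γ / 2 ^ j) (R ^ 3 / κ) p := fun j _ =>
        mul_nonneg (inv_pos.2 hc0).le (Sw_nonneg _ _ _ _)
      have hW0 := Finset.sum_nonneg hn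
      by_cases h1 : mx p ≤ R ^ 3 * γ
      · rw [indicator_of_mem (by exact h1), abs_one]
        by_cases h2 : mx p ≤ R ^ 3 * γ / 2 ^ J
        · rw [indicator_of_mem (by exact h2)]
          linarith only [hW0]
        · rw [indicator_of_notMem (by exact h2), add_zero]
          obtain ⟨j, hj, b1, b2⟩ := b2_dy h1 J h2
          have hcj := hcov (γ / 2 ^ j) p (hγj j).1 hp.1.1 hp.1.2 hp.2.1.1 hp.2.1.2 hp.2.2.1
            hp.2.2.2 hap (le_of_eq_of_le (by rw [pow_succ (2 : ℝ) j]; field_simp) b1)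
            (b2.trans (le_of_eq (by ring)))
          refine le_trans ?_ (Finset.single_le_sum hn (Finset.mem_range.2 hj))
          rw [← div_eq_inv_mul, le_div_iff₀ hc0, one_mul]
          exact hcj
      · rw [indicator_of_notMem (by exact h1), abs_zero]
        exact add_nonneg hW0 (indicator_nonneg (fun _ _ => zero_le_one) p)
    · exact add_le_add le_rfl (b2_small hA hκ hC0 hμ (hsl μ μ hμ.1 hμ.1) (by positivity))
  have hlim : Tendsto (fun J : ℕ => c0⁻¹ * C * (1 - (1 / 2 : ℝ) ^ η)⁻¹ * γ ^ η * |t' - t| +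
      A * (C0 * (R ^ 3 * γ / 2 ^ J / κ))) atTop
      (𝓝 (c0⁻¹ * C * (1 - (1 / 2 : ℝ) ^ η)⁻¹ * γ ^ η * |t' - t| + A * (C0 * (0 / κ)))) := by
    refine tendsto_const_nhds.add (Tendsto.const_mul _ (Tendsto.const_mul _
      (Tendsto.div_const ?_ _)))
    exact tendsto_const_nhds.div_atTop (tendsto_pow_atTop_atTop_of_one_lt (by norm_num))
  have := ge_of_tendsto' hlim key
  simpa only [one_div, ge_iff_le, zero_div, mul_zero, add_zero] using this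

end Pool.Agent.MP_83cc0d_an.Cd

end

-- part B3
section

namespace Pool.Agent.MP_83cc0d_an.Cd

open MeasureTheory Complex Filter Topology Metric Module Set
open scoped ENNReal InnerProductSpace ComplexConjugate

variable {V : Type} [NormedAddCommGroup V] [InnerProductSpace ℝ V] [FiniteDimensional ℝ V]
  [MeasurableSpace V] [BorelSpace V]

lemma b3_mul_le {R : ℝ} {z x y : V} (hz : ‖z‖ ≤ R) (hx : ‖x‖ ≤ R) (hy : ‖y‖ ≤ R) :
    ‖z‖ * |⟪x, y⟫_ℝ| ≤ R ^ 3 := by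
  have h0 : 0 ≤ R := (norm_nonneg z).trans hz
  have h1 : |⟪x, y⟫_ℝ| ≤ R * R :=
    (abs_real_inner_le_norm x y).trans (mul_le_mul hx hy (norm_nonneg _) h0)
  calc ‖z‖ * |⟪x, y⟫_ℝ| ≤ R * (R * R) := mul_le_mul hz h1 (abs_nonneg _) h0
    _ = R ^ 3 := by ring

lemma b3_mx_le {R : ℝ} {p : V × V × V} (h1 : ‖p.1‖ ≤ R) (h2 : ‖p.2.1‖ ≤ R) (h3 : ‖p.2.2‖ ≤ R) :
    mx p ≤ R ^ 3 :=
  max_le (b3_mul_le h1 h2 h3) (max_le (b3_mul_le h2 h3 h1) (b3_mul_le h3 h1 h2))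

lemma b3_compact (R κ : ℝ) : IsCompact {x : V | κ ≤ ‖x‖ ∧ ‖x‖ ≤ R} := by
  refine (isCompact_closedBall (0 : V) R).of_isClosed_subset ?_ ?_
  · exact (isClosed_le continuous_const continuous_norm).inter
      (isClosed_le continuous_norm continuous_const)
  · intro x hx
    simpa using hx.2

lemma b3_key {S c η' ε' B : ℝ} (hS : 0 ≤ S) (hB : S ≤ B) (hη : 0 < η') (hε : 0 ≤ ε')
    (hc : |(S + η')⁻¹ - c| ≤ ε') : |1 - c * S| ≤ η' / (S + η') + ε' * B := by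
  have hp : 0 < S + η' := by linarith
  have e : 1 - c * S = η' / (S + η') + ((S + η')⁻¹ - c) * S := by
    field_simp
    ring
  rw [e]
  refine (abs_add_le _ _).trans (add_le_add (le_of_eq (abs_of_nonneg (by positivity))) ?_)
  rw [abs_mul, abs_of_nonneg hS]
  exact mul_le_mul hc hB hS hε

lemma b3_small {C η ε : ℝ} (hC : 0 ≤ C) (hη : 0 < η) (hε : 0 < ε) :
    ∃ γ : ℝ, 0 < γ ∧ γ ≤ 1 ∧ C * γ ^ η ≤ ε := by
  refine ⟨min 1 ((ε / (C + 1)) ^ η⁻¹), lt_min one_pos (by positivity), min_le_left _ _, ?_⟩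
  have h1 : (min 1 ((ε / (C + 1)) ^ η⁻¹)) ^ η ≤ ε / (C + 1) := by
    calc (min 1 ((ε / (C + 1)) ^ η⁻¹)) ^ η ≤ ((ε / (C + 1)) ^ η⁻¹) ^ η :=
          Real.rpow_le_rpow (le_min one_pos.le (by positivity)) (min_le_right _ _) hη.le
      _ = ε / (C + 1) := Real.rpow_inv_rpow (by positivity) hη.ne'
  calc C * (min 1 ((ε / (C + 1)) ^ η⁻¹)) ^ η ≤ (C + 1) * (ε / (C + 1)) :=
        mul_le_mul (by linarith) h1 (Real.rpow_nonneg (le_min one_pos.le (by positivity)) _)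
          (by linarith)
    _ = ε := by field_simp

lemma b3_mem {R a : ℝ} (hR : 1 ≤ R) {u v w : ℝ} (hu : 0 ≤ u) (hv0 : 0 ≤ v)
    (hw0 : 0 ≤ w) (hv : v ≤ R) (hw : w ≤ R) (h : a < u ^ 2 * (v ^ 2 * w ^ 2)) :
    √a / R ^ 2 ≤ u := by
  have hR0 : 0 < R := by linarith
  rw [div_le_iff₀ (by positivity)]
  refine Real.sqrt_le_iff.2 ⟨by positivity, h.le.trans ?_⟩
  have h1 : v ^ 2 * w ^ 2 ≤ R ^ 2 * R ^ 2 := by gcongr
  calc u ^ 2 * (v ^ 2 * w ^ 2) ≤ u ^ 2 * (R ^ 2 * R ^ 2) := by gcongr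
    _ = (u * R ^ 2) ^ 2 := by ring

/-- `Lip` from `lipN` with `γ = 1` (`mx ≤ R³` a.e., `Lip.of_le`). `SD` by `SD.close`: let
`S = Sw M 1 (R³/κ)` (`M` from `sumS`), `|S| ≤ B` on the cube, `f = 1/(S + η')`, `approx` with
`ε'`, `w = ∑_j c j * (S j.1 ×ˢ ..).indicator S` (`SD` by `sumS`, `Phi_sum`, `Phi_const_mul`). On
the cube and `a < G3`: `|1 - w| ≤ η'/(S + η') + ε' B ≤ 1 {mx ≤ R³ γ} + η'/c0 + ε' B` with `c0`
from `cover` (`ρ0 = R³ γ`, scale `1`). Choose `γ`, then `η'`, then `ε'`. -/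
lemma base3k {n : ℕ} {R A s κ a : ℝ} (hR : 1 ≤ R) (hA : 0 ≤ A) (hκ : 0 < κ) (ha : 0 < a)
    (hs : (n : ℝ) + 3 < 2 * s) :
    ∃ D : ℝ, ∀ μ : Measure (EuclideanSpace ℝ (Fin (n + 1))), Ck μ R A s κ →
      SD a (Phi (μ.prod (μ.prod μ)) G3 fun _ => 1) ∧
      Lip a (Phi (μ.prod (μ.prod μ)) G3 fun _ => 1) D := by
  obtain ⟨C, η, hC, hη, hN⟩ := lipN (n := n) hR hA hκ ha hs
  have hR0 : 0 < R := by linarith
  obtain ⟨M, C', η'', -, -, hS⟩ :=
    sumS (n := n) (c := R ^ 3 / κ) hR hA hκ (by positivity) ha hs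
  refine ⟨C, fun μ hμ => ?_⟩
  have := hμ.1.fin
  set m := μ.prod (μ.prod μ) with hm
  set K := {x : EuclideanSpace ℝ (Fin (n + 1)) | κ ≤ ‖x‖ ∧ ‖x‖ ≤ R} with hK
  have hG : Measurable (G3 : _ × _ × EuclideanSpace ℝ (Fin (n + 1)) → ℝ) := cont_G3.measurable
  have h1 : ∀ᵐ x ∂μ, x ∈ K := by
    filter_upwards [hμ.1.bdd, hμ.2] with x h h' using ⟨h', h⟩
  have hae : ∀ᵐ p ∂m, p.1 ∈ K ∧ p.2.1 ∈ K ∧ p.2.2 ∈ K := ae3 h1 h1 h1
  have hmx : ∀ u : ℝ, MeasurableSet {p : _ × _ × EuclideanSpace ℝ (Fin (n + 1)) | mx p ≤ u} :=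
    fun u => (isClosed_le cont_mx continuous_const).measurableSet
  have hone : Integrable (fun _ => (1 : ℝ)) m := integrable_const _
  have hL : Lip a (Phi m G3 fun _ => 1) C := by
    have h := hN μ hμ 1 one_pos le_rfl
    rw [Real.one_rpow, mul_one C] at h
    refine Lip.of_le hG hone (hone.indicator (hmx _)) ?_ h
    filter_upwards [hae] with p hp _
    rw [indicator_of_mem (show p ∈ {p | mx p ≤ R ^ 3 * 1} from by
      rw [mul_one]; exact b3_mx_le hp.1.2 hp.2.1.2 hp.2.2.2), abs_one]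
  refine ⟨SD.close fun ε hε => ?_, hL⟩
  obtain ⟨γ, hγ, hγ1, hγε⟩ := b3_small hC hη (half_pos hε)
  obtain ⟨c0, hc0, hcov⟩ := cover (V := EuclideanSpace ℝ (Fin (n + 1))) M hR hκ ha
    (show 0 < R ^ 3 * γ by positivity)
  have hKc : IsCompact K := b3_compact R κ
  have hcS := contOn_Sw (V := EuclideanSpace ℝ (Fin (n + 1))) M hR hκ
  obtain ⟨B0, hB0⟩ := (hKc.prod (hKc.prod hKc)).exists_bound_of_continuousOn hcS
  set B := |B0| + 1 with hB
  have hBp : 0 < B := by positivity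
  set δ := ε / 2 / (C + 1) with hδ
  have hδp : 0 < δ := by positivity
  have hη' : 0 < c0 * (δ / 2) := by positivity
  have hf : ContinuousOn (fun p => (Sw M 1 (R ^ 3 / κ) p + c0 * (δ / 2))⁻¹) (K ×ˢ K ×ˢ K) :=
    (hcS.add continuousOn_const).inv₀ fun p _ =>
      (add_pos_of_nonneg_of_pos (Sw_nonneg M 1 _ p) hη').ne'
  obtain ⟨N, S, c, hSm, happ⟩ := approx hKc hf (show 0 < δ / 2 / B by positivity)
  obtain ⟨hSi, hSD⟩ := hS μ hμ 1 one_pos le_rfl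
  have hbox : ∀ j : Fin N × Fin N × Fin N, MeasurableSet (S j.1 ×ˢ S j.2.1 ×ˢ S j.2.2) :=
    fun j => (hSm _).prod ((hSm _).prod (hSm _))
  have hwi : ∀ j : Fin N × Fin N × Fin N, Integrable
      (fun p => c j * (S j.1 ×ˢ S j.2.1 ×ˢ S j.2.2).indicator (Sw M 1 (R ^ 3 / κ)) p) m :=
    fun j => (hSi.indicator (hbox j)).const_mul _
  have hw : Integrable (fun p => ∑ j : Fin N × Fin N × Fin N,
      c j * (S j.1 ×ˢ S j.2.1 ×ˢ S j.2.2).indicator (Sw M 1 (R ^ 3 / κ)) p) m :=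
    integrable_finsetSum _ fun j _ => hwi j
  refine ⟨Phi m G3 fun p => ∑ j : Fin N × Fin N × Fin N,
      c j * (S j.1 ×ˢ S j.2.1 ×ˢ S j.2.2).indicator (Sw M 1 (R ^ 3 / κ)) p, ?_, ?_⟩
  · rw [Phi_sum hG _ fun j _ => hwi j]
    refine SD.sum _ fun j _ => ?_
    rw [Phi_const_mul]
    exact (hSD _ _ _ (hSm _) (hSm _) (hSm _)).1.const_mul _
  · rw [← Phi_sub hG hone hw]
    have hI : Integrable ({p | mx p ≤ R ^ 3 * γ}.indicator fun _ => (1 : ℝ)) m :=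
      hone.indicator (hmx _)
    have hW : Lip a (Phi m G3 fun p => ({p | mx p ≤ R ^ 3 * γ}.indicator fun _ => (1 : ℝ)) p +
        δ * (fun _ => (1 : ℝ)) p) (C * γ ^ η + |δ| * C) := by
      rw [Phi_add hG hI (hone.const_mul δ), Phi_const_mul]
      exact (hN μ hμ γ hγ hγ1).add (hL.const_mul δ)
    have hle : C * γ ^ η + |δ| * C ≤ ε := by
      rw [abs_of_pos hδp]
      have : δ * (C + 1) = ε / 2 := by rw [hδ]; field_simp
      linarith only [hγε, hδp, this]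
    refine (Lip.of_le hG (hone.sub hw) (hI.add (hone.const_mul δ)) ?_ hW).mono hle
    filter_upwards [hae] with p hp hap
    have hpK : p ∈ K ×ˢ K ×ˢ K := ⟨hp.1, hp.2.1, hp.2.2⟩
    obtain ⟨i, hi, hj⟩ := happ p hpK
    have hsum : ∑ j : Fin N × Fin N × Fin N,
        c j * (S j.1 ×ˢ S j.2.1 ×ˢ S j.2.2).indicator (Sw M 1 (R ^ 3 / κ)) p =
        c i * Sw M 1 (R ^ 3 / κ) p := by
      rw [Finset.sum_eq_single i]
      · rw [indicator_of_mem ((hj i).2 rfl)]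
      · intro j _ hji
        rw [indicator_of_notMem (fun h => hji ((hj j).1 h)), mul_zero]
      · intro h
        exact absurd (Finset.mem_univ i) h
    have hS0 := Sw_nonneg M 1 (R ^ 3 / κ) p
    have hSB : Sw M 1 (R ^ 3 / κ) p ≤ B := by
      have h := hB0 p hpK
      rw [Real.norm_eq_abs] at h
      have := le_abs_self (Sw M 1 (R ^ 3 / κ) p)
      have := le_abs_self B0
      linarith
    have hkey := b3_key hS0 hSB hη' (show 0 ≤ δ / 2 / B by positivity) hi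
    have e1 : δ / 2 / B * B = δ / 2 := by field_simp
    rw [e1] at hkey
    simp only [Pi.sub_apply, Pi.add_apply, hsum, mul_one]
    refine hkey.trans ?_
    by_cases hx : mx p ≤ R ^ 3 * γ
    · rw [indicator_of_mem (show p ∈ {p | mx p ≤ R ^ 3 * γ} from hx)]
      have : c0 * (δ / 2) / (Sw M 1 (R ^ 3 / κ) p + c0 * (δ / 2)) ≤ 1 := by
        rw [div_le_one (by linarith only [hη', hS0])]
        linarith only [hS0]
      linarith only [hδp, this]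
    · rw [indicator_of_notMem (show p ∉ {p | mx p ≤ R ^ 3 * γ} from hx)]
      have hc := hcov 1 p one_pos hp.1.1 hp.1.2 hp.2.1.1 hp.2.1.2 hp.2.2.1 hp.2.2.2 hap
        (by rw [mul_one]; exact (not_le.1 hx).le)
        (by rw [mul_one]; exact b3_mx_le hp.1.2 hp.2.1.2 hp.2.2.2)
      have : c0 * (δ / 2) / (Sw M 1 (R ^ 3 / κ) p + c0 * (δ / 2)) ≤ δ / 2 := by
        rw [div_le_iff₀ (by linarith only [hc0, hη', hc])]
        nlinarith only [hδp, hη', hc]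
      linarith only [this]

/-- `κ = √a / R²`, `S = {κ ≤ ‖x‖}`: `a < G3 ≤ ‖z‖²‖x‖²‖y‖²` (`G3_le`, `ph_le`) forces all three
points into `S`; `base3k` for `μ.restrict S`, `Phi_indicator`, `Measure.prod_restrict`,
`Lip.of_le` with `W = 0`, `of_lip0`. -/
lemma base3 {n : ℕ} {R A s a : ℝ} (hR : 1 ≤ R) (hA : 0 ≤ A) (ha : 0 < a)
    (hs : (n : ℝ) + 3 < 2 * s) :
    ∃ D : ℝ, ∀ μ : Measure (EuclideanSpace ℝ (Fin (n + 1))), Cl μ R A s →
      SD a (Phi (μ.prod (μ.prod μ)) G3 fun _ => 1) ∧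
      Lip a (Phi (μ.prod (μ.prod μ)) G3 fun _ => 1) D := by
  have hR0 : 0 < R := by linarith
  have hκ : 0 < √a / R ^ 2 := by positivity
  obtain ⟨D, hD⟩ := base3k (n := n) hR hA hκ ha hs
  refine ⟨D, fun μ hμ => ?_⟩
  have := hμ.fin
  set S := {x : EuclideanSpace ℝ (Fin (n + 1)) | √a / R ^ 2 ≤ ‖x‖} with hS
  have hSm : MeasurableSet S := (isClosed_le continuous_const continuous_norm).measurableSet
  have hG : Measurable (G3 : _ × _ × EuclideanSpace ℝ (Fin (n + 1)) → ℝ) := cont_G3.measurable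
  have h := hD (μ.restrict S) ⟨hμ.restrict S, ae_restrict_mem hSm⟩
  have hbox : MeasurableSet (S ×ˢ S ×ˢ S) := hSm.prod (hSm.prod hSm)
  rw [Measure.prod_restrict, Measure.prod_restrict, ← Phi_indicator hbox] at h
  refine of_lip0 ?_ h
  have hone : Integrable (fun _ => (1 : ℝ)) (μ.prod (μ.prod μ)) := integrable_const _
  rw [← Phi_sub hG hone (hone.indicator hbox)]
  have h0 : Lip a (Phi (μ.prod (μ.prod μ)) G3 fun _ => 0) 0 := by
    intro t t' _ _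
    simp [Phi]
  refine Lip.of_le hG (hone.sub (hone.indicator hbox)) (integrable_const _) ?_ h0
  filter_upwards [ae3 hμ.bdd hμ.bdd hμ.bdd] with p hp hap
  have h1 : a < ‖p.1‖ ^ 2 * (‖p.2.1‖ ^ 2 * ‖p.2.2‖ ^ 2) :=
    hap.trans_le ((G3_le p).trans (mul_le_mul_of_nonneg_left (ph_le _ _) (by positivity)))
  have hm : p ∈ S ×ˢ S ×ˢ S :=
    ⟨b3_mem hR (norm_nonneg _) (norm_nonneg _) (norm_nonneg _) hp.2.1 hp.2.2 h1,
      b3_mem hR (norm_nonneg _) (norm_nonneg _) (norm_nonneg _) hp.1 hp.2.2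
        (h1.trans_eq (by ring)),
      b3_mem hR (norm_nonneg _) (norm_nonneg _) (norm_nonneg _) hp.1 hp.2.1
        (h1.trans_eq (by ring))⟩
  simp only [Pi.sub_apply, indicator_of_mem hm, sub_self, abs_zero, le_refl]

end Pool.Agent.MP_83cc0d_an.Cd

end

-- part I1
section

namespace Pool.Agent.MP_83cc0d_an.Cd

open MeasureTheory Complex Filter Topology Metric Module Set
open scoped ENNReal InnerProductSpace ComplexConjugate

variable {V : Type} [NormedAddCommGroup V] [InnerProductSpace ℝ V] [FiniteDimensional ℝ V]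
  [MeasurableSpace V] [BorelSpace V]

lemma i1_meas {Ω : Type} [MeasurableSpace Ω] {G : Ω → ℝ} (hG : Measurable G) (t : ℝ) :
    Measurable fun ω => sg (t - G ω) * (1 : ℝ) :=
  (sg_meas.comp (measurable_const.sub hG)).mul measurable_const

lemma i1_map {Ω Ω' : Type} [MeasurableSpace Ω] [MeasurableSpace Ω'] {m : Measure Ω}
    {m' : Measure Ω'} {f : Ω → Ω'} (hf : MeasurePreserving f m m') {G : Ω' → ℝ}
    (hG : Measurable G) (t : ℝ) :
    Phi m' G (fun _ => 1) t = Phi m (fun ω => G (f ω)) (fun _ => 1) t := by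
  unfold Phi
  rw [← hf.map_eq, integral_map hf.measurable.aemeasurable (i1_meas hG t).aestronglyMeasurable]

lemma i1_const {Ω : Type} [MeasurableSpace Ω] {m : Measure Ω} {G : Ω → ℝ} {a : ℝ}
    (h : ∀ᵐ ω ∂m, G ω ≤ a) : SD a (Phi m G fun _ => 1) ∧ Lip a (Phi m G fun _ => 1) 0 := by
  have h1 : ∀ t, a < t → Phi m G (fun _ => 1) t = ∫ _, (1 / 2 : ℝ) ∂m := by
    intro t ht
    unfold Phi
    refine integral_congr_ae ?_
    filter_upwards [h] with ω hω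
    have h2 : 0 < t - G ω := by linarith
    simp only [sg, if_pos h2, mul_one]
  refine of_lip0 (Ψ := fun _ => 0) (fun t t' ht ht' => ?_)
    ⟨fun t _ => ⟨0, hasStrictDerivAt_const t 0⟩, fun t t' _ _ => by simp⟩
  simp only [h1 t ht, h1 t' ht', sub_self, abs_zero, zero_mul, le_refl]

lemma i1_bound (n k : ℕ) (R : ℝ) : ∃ Gm : ℝ, 0 < Gm ∧
    ∀ x : Fin k → EuclideanSpace ℝ (Fin n), (∀ i, ‖x i‖ ≤ R) → (Matrix.gram ℝ x).det ≤ Gm := by
  have hc : IsCompact (Set.univ.pi fun _ : Fin k =>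
      closedBall (0 : EuclideanSpace ℝ (Fin n)) R) :=
    isCompact_univ_pi fun _ => isCompact_closedBall 0 R
  obtain ⟨B, hB⟩ := (hc.image (cont_det_gram (V := EuclideanSpace ℝ (Fin n)) k)).bddAbove
  refine ⟨|B| + 1, by positivity, fun x hx => ?_⟩
  have h1 : (Matrix.gram ℝ x).det ≤ B :=
    hB ⟨x, fun i _ => mem_closedBall_zero_iff.2 (hx i), rfl⟩
  linarith [le_abs_self B]

lemma i1_peel (k : ℕ) (μ : Measure V) [IsFiniteMeasure μ] (t : ℝ) :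
    Integrable (fun z => Phi (Measure.pi fun _ : Fin k => μ)
      (fun y => (Matrix.gram ℝ (Fin.cons z y : Fin (k + 1) → V)).det) (fun _ => 1) t) μ ∧
    Phi (Measure.pi fun _ : Fin (k + 1) => μ) (fun x => (Matrix.gram ℝ x).det) (fun _ => 1) t =
      ∫ z, Phi (Measure.pi fun _ : Fin k => μ)
        (fun y => (Matrix.gram ℝ (Fin.cons z y : Fin (k + 1) → V)).det) (fun _ => 1) t ∂μ := by
  have hmp := (measurePreserving_piFinSuccAbove (fun _ : Fin (k + 1) => μ) 0).symm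
  have hG : Measurable fun x : Fin (k + 1) → V => (Matrix.gram ℝ x).det :=
    (cont_det_gram _).measurable
  have he : ∀ p : V × (Fin k → V),
      (MeasurableEquiv.piFinSuccAbove (fun _ : Fin (k + 1) => V) 0).symm p =
        (Fin.cons p.1 p.2 : Fin (k + 1) → V) := by
    intro p
    rw [MeasurableEquiv.piFinSuccAbove_symm_apply, Fin.insertNthEquiv_zero]
    rfl
  have hi : Integrable (fun p : V × (Fin k → V) =>
      sg (t - (Matrix.gram ℝ (Fin.cons p.1 p.2 : Fin (k + 1) → V)).det) * (1 : ℝ))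
      (μ.prod (Measure.pi fun _ : Fin k => μ)) := by
    have h1 := Phi_int (m := μ.prod (Measure.pi fun _ : Fin k => μ)) (hG.comp hmp.measurable)
      (integrable_const (1 : ℝ)) t
    simpa only [Function.comp_apply, he] using h1
  refine ⟨hi.integral_prod_left, ?_⟩
  rw [i1_map hmp hG]
  simp only [he]
  exact integral_prod _ hi

lemma i1_three (μ : Measure V) [IsFiniteMeasure μ] :
    Phi (Measure.pi fun _ : Fin 3 => μ) (fun x => (Matrix.gram ℝ x).det) (fun _ => 1) =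
      Phi (μ.prod (μ.prod μ)) G3 fun _ => 1 := by
  funext t
  have h1 := measurePreserving_piFinSuccAbove (fun _ : Fin 3 => μ) 0
  have h2 := (MeasurePreserving.id μ).prod (measurePreserving_finTwoArrow μ)
  rw [i1_map (h2.comp h1) cont_G3.measurable]
  congr 1
  funext x
  exact gram_three x

/-- Induction on `j` (pattern of `gram_null` in `Mg/Main`). Base: `base3`, `gram_three`, and
`Measure.pi` on `Fin 3` versus the triple product (`measurePreserving_piFinSuccAbove`,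
`measurePreserving_finTwoArrow`). Step: `d = n + 1`; peel `z = x 0`, Fubini, `mix`. Let `Gm > 0`
bound the Gram determinant of `j + 3` vectors of norm `≤ R` in `ℝ^n` (`cont_det_gram`, compactness).
If `‖z‖² Gm ≤ a` the inner function is constant on `(a, ∞)` (`gram_proj`; `z = 0` separately);
otherwise it equals `Phi (pi (μ.map P)) .. (t/‖z‖²)` (`exists_proj`, `gram_proj`, `sg_mul`,
`measurePreserving_pi`), use `Cl.proj`, the hypothesis for `a/R²`, and `scale`. -/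
theorem gramP (j : ℕ) : ∀ (d : ℕ) (R A s a : ℝ), 1 ≤ R → 0 ≤ A → 0 < a → j + 3 ≤ d →
    (d : ℝ) + j + 2 < 2 * s → ∃ D : ℝ, ∀ μ : Measure (EuclideanSpace ℝ (Fin d)), Cl μ R A s →
      SD a (Phi (Measure.pi fun _ : Fin (j + 3) => μ) (fun x => (Matrix.gram ℝ x).det)
        fun _ => 1) ∧
      Lip a (Phi (Measure.pi fun _ : Fin (j + 3) => μ) (fun x => (Matrix.gram ℝ x).det)
        fun _ => 1) D := by
  induction j with
  | zero =>
    intro d R A s a hR hA ha hd hs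
    obtain ⟨n, rfl⟩ : ∃ n, d = n + 1 := ⟨d - 1, by omega⟩
    push_cast at hs
    obtain ⟨D, hD⟩ := base3 (n := n) hR hA ha (s := s) (by linarith only [hs])
    refine ⟨D, fun μ hμ => ?_⟩
    have := hμ.fin
    have h1 := i1_three μ
    exact h1 ▸ hD μ hμ
  | succ j ih =>
    intro d R A s a hR hA ha hd hs
    obtain ⟨n, rfl⟩ : ∃ n, d = n + 1 := ⟨d - 1, by omega⟩
    push_cast at hs
    have hn0 : (0 : ℝ) ≤ n := Nat.cast_nonneg _
    have hj0 : (0 : ℝ) ≤ j := Nat.cast_nonneg _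
    have hR0 : 0 < R := by linarith only [hR]
    obtain ⟨D, hD⟩ := ih n R (A + A ^ 2 + 9 * A * R) (s - 1) (a / R ^ 2) hR (by positivity)
      (by positivity) (by omega) (by linarith only [hs])
    obtain ⟨Gm, hGm0, hGm⟩ := i1_bound n (j + 3) R
    have hE : 0 ≤ |D| * Gm / a := by positivity
    refine ⟨|D| * Gm / a * A, fun μ hμ => ?_⟩
    have := hμ.fin
    have key : ∀ᵐ z ∂μ, SD a (Phi (Measure.pi fun _ : Fin (j + 3) => μ)
        (fun y => (Matrix.gram ℝ (Fin.cons z y : Fin (j + 3 + 1) → _)).det) fun _ => 1) ∧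
        Lip a (Phi (Measure.pi fun _ : Fin (j + 3) => μ)
        (fun y => (Matrix.gram ℝ (Fin.cons z y : Fin (j + 3 + 1) → _)).det) fun _ => 1)
        (|D| * Gm / a) := by
      filter_upwards [hμ.bdd] with z hzR
      by_cases hz : z = 0
      · have h1 := i1_const (m := Measure.pi fun _ : Fin (j + 3) => μ) (a := a)
          (G := fun y => (Matrix.gram ℝ (Fin.cons z y : Fin (j + 3 + 1) → _)).det)
          (Eventually.of_forall fun y => by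
            rw [Matrix.det_eq_zero_of_row_eq_zero 0 (fun i => by simp [hz])]
            exact ha.le)
        exact ⟨h1.1, h1.2.mono hE⟩
      have hc : 0 < ‖z‖ ^ 2 := pow_pos (norm_pos_iff.2 hz) 2
      obtain ⟨P, hP⟩ := exists_proj hz
      have hcl := Cl.proj hR hA (by linarith only [hs]) hμ hz hP
      have := hcl.fin
      have hPm : Measurable P := P.continuous_of_finiteDimensional.measurable
      have h2 := measurePreserving_pi (fun _ : Fin (j + 3) => μ) (fun _ => μ.map P)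
        (f := fun _ => P) (fun _ => ⟨hPm, rfl⟩)
      have h3 : Phi (Measure.pi fun _ : Fin (j + 3) => μ)
          (fun y => (Matrix.gram ℝ (Fin.cons z y : Fin (j + 3 + 1) → _)).det) (fun _ => 1) =
          fun t => Phi (Measure.pi fun _ : Fin (j + 3) => μ.map P)
            (fun x => (Matrix.gram ℝ x).det) (fun _ => 1) (t / ‖z‖ ^ 2) := by
        funext t
        rw [i1_map h2 (cont_det_gram _).measurable]
        unfold Phi
        congr 1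
        funext y
        beta_reduce
        rw [gram_proj hz hP, ← sg_mul hc (t / ‖z‖ ^ 2 - _), mul_sub, mul_div_cancel₀ _ hc.ne']
      rw [h3]
      rcases le_or_gt (Gm * ‖z‖ ^ 2) a with h4 | h4
      · have h5 : ∀ᵐ x ∂(Measure.pi fun _ : Fin (j + 3) => μ.map P), ∀ i, ‖x i‖ ≤ R :=
          ae_all_iff.2 fun i =>
            (Measure.quasiMeasurePreserving_eval (fun _ : Fin (j + 3) => μ.map P) i).ae hcl.bdd
        have h6 := scale hc h4 (i1_const (h5.mono hGm))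
        exact ⟨h6.1, h6.2.mono (by rw [zero_div]; exact hE)⟩
      · have h5 : a / R ^ 2 * ‖z‖ ^ 2 ≤ a := by
          rw [div_mul_eq_mul_div, div_le_iff₀ (by positivity)]
          exact mul_le_mul_of_nonneg_left (pow_le_pow_left₀ (norm_nonneg z) hzR 2) ha.le
        have h6 := scale hc h5 (hD _ hcl)
        refine ⟨h6.1, h6.2.mono ?_⟩
        rw [div_le_div_iff₀ hc ha]
        nlinarith only [le_abs_self D, mul_le_mul_of_nonneg_left h4.le (abs_nonneg D), ha]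
    have h7 := mix μ (fun t => (i1_peel (j + 3) μ t).1) key
    have h8 : Phi (Measure.pi fun _ : Fin (j + 3 + 1) => μ) (fun x => (Matrix.gram ℝ x).det)
        (fun _ => 1) = _ := funext fun t => (i1_peel (j + 3) μ t).2
    rw [← h8] at h7
    refine ⟨h7.1, h7.2.mono (mul_le_mul_of_nonneg_left ?_ hE)⟩
    exact ENNReal.toReal_le_of_le_ofReal hA hμ.mass

end Pool.Agent.MP_83cc0d_an.Cd

end

-- part Fin
section

namespace Pool.Agent.MP_83cc0d_an.Cd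

open MeasureTheory Complex Filter Topology Metric Module Set
open scoped ENNReal InnerProductSpace ComplexConjugate

theorem pinned_SD {d k : ℕ} (hk : 3 ≤ k) (hkd : k ≤ d) (μ : Measure (EuclideanSpace ℝ (Fin d)))
    [IsFiniteMeasure μ] {R : ℝ} (hR : ∀ᵐ x ∂μ, ‖x‖ ≤ R) {s : ℝ} (hs : ((d : ℝ) + k - 1) / 2 < s)
    (hI : energy s μ < ∞) (x₀ : EuclideanSpace ℝ (Fin d)) {a : ℝ} (ha : 0 < a) :
    SD a (Phi (Measure.pi fun _ : Fin k => μ)
      (fun x => (Matrix.gram ℝ fun i => x i - x₀).det) fun _ => 1) := by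
  obtain ⟨j, rfl⟩ : ∃ j, k = j + 3 := ⟨k - 3, by omega⟩
  push_cast at hs
  have hd0 : (0 : ℝ) ≤ d := Nat.cast_nonneg _
  have hj0 : (0 : ℝ) ≤ j := Nat.cast_nonneg _
  obtain ⟨C, hC0, hC⟩ := QQ_energy (V := EuclideanSpace ℝ (Fin d)) (s := s) (by linarith)
  have hsub : Measurable fun x : EuclideanSpace ℝ (Fin d) => x - x₀ := by fun_prop
  set A : ℝ := μ.real univ + C * (energy s μ).toReal with hA
  have hm0 : 0 ≤ μ.real univ := measureReal_nonneg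
  have hE0 : 0 ≤ C * (energy s μ).toReal := mul_nonneg hC0 ENNReal.toReal_nonneg
  obtain ⟨D, hD⟩ := gramP j d (|R| + ‖x₀‖ + 1) A s a
    (by linarith only [abs_nonneg R, norm_nonneg x₀]) (by positivity) ha hkd (by linarith only [hs])
  have hcl : Cl (μ.map fun x => x - x₀) (|R| + ‖x₀‖ + 1) A s := by
    refine ⟨?_, ?_, fun r hr => ?_⟩
    · rw [Measure.map_apply hsub MeasurableSet.univ, preimage_univ, ← ofReal_measureReal]
      exact ENNReal.ofReal_le_ofReal (by linarith only [hE0])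
    · rw [ae_map_iff hsub.aemeasurable
        (isClosed_le continuous_norm continuous_const).measurableSet]
      filter_upwards [hR] with x hx
      exact (norm_sub_le _ _).trans (by linarith only [le_abs_self R, hx])
    · have h1 := QQ_affine μ x₀ one_pos r
      simp only [inv_one, one_smul, one_mul] at h1
      rw [h1]
      refine (hC μ r hr).trans ?_
      change _ * energy s μ ≤ _
      rw [← ENNReal.ofReal_toReal hI.ne, ← ENNReal.ofReal_mul (by positivity)]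
      apply ENNReal.ofReal_le_ofReal
      have : 0 ≤ r ^ s := by positivity
      linarith only [mul_nonneg hm0 this]
  have h1 := (hD _ hcl).1
  have h5 := measurePreserving_pi (fun _ : Fin (j + 3) => μ)
    (fun _ => μ.map fun x => x - x₀) (f := fun _ x => x - x₀) (fun _ => ⟨hsub, rfl⟩)
  convert h1 using 1
  funext t
  unfold Phi
  rw [← h5.map_eq, integral_map h5.measurable.aemeasurable]
  exact ((sg_meas.comp (measurable_const.sub (cont_det_gram _).measurable)).mul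
    measurable_const).aestronglyMeasurable

theorem pinned_dens {d k : ℕ} (hk : 3 ≤ k) (hkd : k ≤ d) (μ : Measure (EuclideanSpace ℝ (Fin d)))
    [IsFiniteMeasure μ] (hμ : μ ≠ 0) {R : ℝ} (hR : ∀ᵐ x ∂μ, ‖x‖ ≤ R) {s : ℝ}
    (hs : ((d : ℝ) + k - 1) / 2 < s) (hI : energy s μ < ∞) (x₀ : EuclideanSpace ℝ (Fin d)) :
    ∃ h : ℝ → ℝ, ContinuousOn h (Ioi 0) ∧ (∀ t, 0 < t → 0 ≤ h t) ∧ (∃ t, 0 < t ∧ h t ≠ 0) ∧
      ((Measure.pi fun _ : Fin k => μ).map (pinnedVolume x₀)).restrict (Ioi 0) =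
        (volume.restrict (Ioi 0)).withDensity fun t => ENNReal.ofReal (h t) := by
  have hac := pinned_ac (by omega : 2 ≤ k) μ hR hs hI x₀
  have hG : Measurable fun x : Fin k → EuclideanSpace ℝ (Fin d) =>
      (Matrix.gram ℝ fun i => x i - x₀).det :=
    ((cont_det_gram k).comp (f := fun (x : Fin k → EuclideanSpace ℝ (Fin d)) i => x i - x₀)
      (by fun_prop)).measurable
  obtain ⟨h, h1, h2, h3⟩ := dens (Measure.pi fun _ : Fin k => μ) hG
    (fun x => (Matrix.posSemidef_gram ℝ fun i => x i - x₀).det_nonneg)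
    (fun a ha => pinned_SD hk hkd μ hR hs hI x₀ ha) (fun t => hac (measure_singleton t))
  refine ⟨h, h1, h2, ?_, h3⟩
  by_contra hc
  push Not at hc
  set ν := (Measure.pi fun _ : Fin k => μ).map (pinnedVolume x₀) with hν
  have h4 : ν (Ioi 0) = 0 := by
    have h5 : ν.restrict (Ioi 0) = _ := h3
    rw [← Measure.restrict_apply_univ, h5, withDensity_apply _ MeasurableSet.univ,
      Measure.restrict_univ]
    rw [setLIntegral_congr_fun measurableSet_Ioi (g := fun _ => 0) (fun t ht => by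
      simp [hc t ht])]
    simp
  have h6 : ν {0} = 0 := hac (measure_singleton 0)
  have h7 : ν (Iio 0) = 0 := by
    rw [hν, Measure.map_apply (meas_pinnedVolume x₀) measurableSet_Iio]
    convert measure_empty (μ := Measure.pi fun _ : Fin k => μ)
    ext x
    simp only [mem_preimage, mem_Iio, mem_empty_iff_false, iff_false, not_lt]
    exact Real.sqrt_nonneg _
  have h8 : ν univ = 0 := by
    refine measure_mono_null (fun t _ => ?_) (measure_union_null h4 (measure_union_null h6 h7))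
    rcases lt_trichotomy t 0 with h | h | h
    · exact Or.inr (Or.inr h)
    · exact Or.inr (Or.inl h)
    · exact Or.inl h
  rw [hν, Measure.map_apply (meas_pinnedVolume x₀) MeasurableSet.univ, preimage_univ,
    Measure.pi_univ, Finset.prod_eq_zero_iff] at h8
  obtain ⟨-, -, h9⟩ := h8
  exact hμ (Measure.measure_univ_eq_zero.1 h9)

end Pool.Agent.MP_83cc0d_an.Cd

end
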